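import Mathlib

/-!
# Absolute irreducibility of minimal polynomials over fields which are algebraically closed in the extension
-/

set_option autoImplicit false

open Polynomial

namespace Pool.Agent.K9h15.Cv

section ev

variable {σ A B D : Type} [CommRing A] [CommRing B] [CommRing D]

/-- evaluation of polynomials with polynomial coefficients -/
noncomputable def ev2 (φ : A →+* B) (x : σ → B) (y : B) : (MvPolynomial σ A)[X] →+* B :=
  eval₂RingHom (MvPolynomial.eval₂Hom φ x) y

lemma ev2_C (φ : A →+* B) (x : σ → B) (y : B) (p : MvPolynomial σ A) :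
    ev2 φ x y (C p) = MvPolynomial.eval₂ φ x p := by
  unfold ev2
  rw [coe_eval₂RingHom, eval₂_C]
  rfl

lemma ev2_X (φ : A →+* B) (x : σ → B) (y : B) : ev2 φ x y X = y := by
  unfold ev2
  rw [coe_eval₂RingHom, eval₂_X]

lemma ev2_map (φ : B →+* D) (f : A →+* B) (x : σ → D) (y : D) (P : (MvPolynomial σ A)[X]) :
    ev2 φ x y (P.map (MvPolynomial.map f)) = ev2 (φ.comp f) x y P := by
  unfold ev2
  rw [coe_eval₂RingHom, coe_eval₂RingHom, eval₂_map]
  congr 1
  ext a
  · simp
  · simp

lemma ev2_comp (φ : A →+* B) (g : B →+* D) (x : σ → B) (y : B) (P : (MvPolynomial σ A)[X]) :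
    g (ev2 φ x y P) = ev2 (g.comp φ) (fun i => g (x i)) (g y) P := by
  unfold ev2
  rw [coe_eval₂RingHom, coe_eval₂RingHom, hom_eval₂]
  congr 1
  ext a
  · simp
  · simp

lemma mv_lift (f : A →+* B) (p : MvPolynomial σ B) (h : ∀ n, p.coeff n ∈ f.range) :
    ∃ q : MvPolynomial σ A, MvPolynomial.map f q = p := by
  have h1 : p ∈ (MvPolynomial.map f : MvPolynomial σ A →+* MvPolynomial σ B).range := by
    rw [← SetLike.mem_coe, RingHom.coe_range, MvPolynomial.mem_range_map_iff_coeffs_subset]
    intro c hc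
    obtain ⟨n, _, rfl⟩ := MvPolynomial.mem_coeffs_iff.1 hc
    exact h n
  exact h1

lemma poly_lift (f : A →+* B) (P : (MvPolynomial σ B)[X])
    (h : ∀ j n, (P.coeff j).coeff n ∈ f.range) :
    ∃ Q : (MvPolynomial σ A)[X], Q.map (MvPolynomial.map f) = P := by
  have h1 : P ∈ Polynomial.lifts (MvPolynomial.map f : MvPolynomial σ A →+* MvPolynomial σ B) := by
    rw [Polynomial.lifts_iff_coeff_lifts]
    intro n
    obtain ⟨q, hq⟩ := mv_lift f (P.coeff n) (h n)
    exact ⟨q, hq⟩
  exact (Polynomial.mem_lifts _).1 h1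

end ev

section pb

variable {σ F0 F1 : Type} [Field F0] [Field F1] [Algebra F0 F1]

/-- decomposition with respect to a basis of powers -/
lemma mv_decomp (pb : PowerBasis F0 F1) (p : MvPolynomial σ F1) :
    ∃ q : Fin pb.dim → MvPolynomial σ F0,
      p = ∑ n : Fin pb.dim, MvPolynomial.C (pb.gen ^ (n : ℕ)) * MvPolynomial.map (algebraMap F0 F1) (q n) := by
  induction p using MvPolynomial.induction_on'' with
  | C a =>
    refine ⟨fun n => MvPolynomial.C (pb.basis.repr a n), ?_⟩
    have h1 := pb.basis.sum_repr a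
    conv_lhs => rw [← h1]
    rw [map_sum]
    refine Finset.sum_congr rfl fun n _ => ?_
    rw [MvPolynomial.map_C, ← MvPolynomial.C_mul, Algebra.smul_def, pb.basis_eq_pow, mul_comm]
  | monomial_add a b p ha hb hp hpp =>
    obtain ⟨q, hq⟩ := hp
    refine ⟨fun n => MvPolynomial.monomial a (pb.basis.repr b n) + q n, ?_⟩
    conv_lhs => rw [hq]
    have h1 : MvPolynomial.monomial a b = ∑ n : Fin pb.dim, MvPolynomial.C (pb.gen ^ (n : ℕ)) *
        MvPolynomial.map (algebraMap F0 F1) (MvPolynomial.monomial a (pb.basis.repr b n)) := by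
      have h2 := pb.basis.sum_repr b
      conv_lhs => rw [← h2]
      rw [map_sum]
      refine Finset.sum_congr rfl fun n _ => ?_
      rw [MvPolynomial.map_monomial, MvPolynomial.C_mul_monomial, Algebra.smul_def,
        pb.basis_eq_pow, mul_comm]
    rw [h1, ← Finset.sum_add_distrib]
    refine Finset.sum_congr rfl fun n _ => ?_
    rw [map_add, mul_add]
  | mul_X p i hp =>
    obtain ⟨q, hq⟩ := hp
    refine ⟨fun n => q n * MvPolynomial.X i, ?_⟩
    conv_lhs => rw [hq]
    rw [Finset.sum_mul]
    refine Finset.sum_congr rfl fun n _ => ?_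
    rw [map_mul, MvPolynomial.map_X, mul_assoc]

/-- a monic polynomial over the extension has a monic component -/
lemma poly_decomp (pb : PowerBasis F0 F1) (P : (MvPolynomial σ F1)[X]) (hP : P.Monic) :
    ∃ Q : Fin pb.dim → (MvPolynomial σ F0)[X],
      P = ∑ n : Fin pb.dim, C (MvPolynomial.C (pb.gen ^ (n : ℕ))) *
        (Q n).map (MvPolynomial.map (algebraMap F0 F1)) ∧
      ∃ n, (Q n).Monic ∧ (Q n).natDegree = P.natDegree := by
  classical
  choose q hq using fun j => mv_decomp pb (P.coeff j)
  have hdim : 0 < pb.dim := pb.dim_pos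
  let n0 : Fin pb.dim := ⟨0, hdim⟩
  let q' : ℕ → Fin pb.dim → MvPolynomial σ F0 := fun j n =>
    if j = P.natDegree then (if n = n0 then 1 else 0) else q j n
  have hq' : ∀ j, P.coeff j = ∑ n : Fin pb.dim, MvPolynomial.C (pb.gen ^ (n : ℕ)) *
      MvPolynomial.map (algebraMap F0 F1) (q' j n) := by
    intro j
    by_cases hj : j = P.natDegree
    · rw [Finset.sum_eq_single n0]
      · simp only [q', if_pos hj, if_true, map_one, mul_one]
        rw [hj, hP.coeff_natDegree]
        simp [n0]
      · intro n _ hn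
        simp only [q', if_pos hj, if_neg hn, map_zero, mul_zero]
      · intro h
        exact absurd (Finset.mem_univ _) h
    · simp only [q', if_neg hj]
      exact hq j
  refine ⟨fun n => ∑ j ∈ Finset.range (P.natDegree + 1), C (q' j n) * X ^ j, ?_, n0, ?_⟩
  · conv_lhs => rw [P.as_sum_range_C_mul_X_pow]
    have h1 : ∀ n, C (MvPolynomial.C (pb.gen ^ ((n : Fin pb.dim) : ℕ))) *
        (∑ j ∈ Finset.range (P.natDegree + 1), C (q' j n) * X ^ j).map
          (MvPolynomial.map (algebraMap F0 F1)) =
        ∑ j ∈ Finset.range (P.natDegree + 1), C (MvPolynomial.C (pb.gen ^ (n : ℕ)) *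
          MvPolynomial.map (algebraMap F0 F1) (q' j n)) * X ^ j := by
      intro n
      rw [Polynomial.map_sum, Finset.mul_sum]
      refine Finset.sum_congr rfl fun j _ => ?_
      rw [Polynomial.map_mul, Polynomial.map_pow, map_X, map_C, C_mul, mul_assoc]
    simp only [h1]
    rw [Finset.sum_comm]
    refine Finset.sum_congr rfl fun j _ => ?_
    rw [← Finset.sum_mul]
    congr 1
    conv_lhs => rw [hq' j]
    rw [map_sum]
  · have h2 : (∑ j ∈ Finset.range (P.natDegree + 1), C (q' j n0) * X ^ j) =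
        X ^ P.natDegree + ∑ j ∈ Finset.range P.natDegree, C (q' j n0) * X ^ j := by
      rw [Finset.sum_range_succ, add_comm]
      congr 1
      simp [q']
    have h3 : (∑ j ∈ Finset.range P.natDegree, C (q' j n0) * X ^ j).degree <
        ((P.natDegree : ℕ) : WithBot ℕ) := by
      refine (degree_sum_le _ _).trans_lt ?_
      rw [Finset.sup_lt_iff (WithBot.bot_lt_coe _)]
      intro j hj
      refine (degree_C_mul_X_pow_le j _).trans_lt ?_
      rw [Finset.mem_range] at hj
      exact_mod_cast hj
    simp only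
    rw [h2]
    refine ⟨monic_X_pow_add h3, ?_⟩
    have h4 : (X ^ P.natDegree + ∑ j ∈ Finset.range P.natDegree, C (q' j n0) * X ^ j).degree =
        ((P.natDegree : ℕ) : WithBot ℕ) := by
      rw [degree_add_eq_left_of_degree_lt, degree_X_pow]
      rw [degree_X_pow]
      exact h3
    exact natDegree_eq_of_degree_eq_some h4

end pb

section abs

variable {σ F0 M : Type} [Field F0] [Field M] [Algebra F0 M]

/-- powers of algebraic elements are independent over extensions in which the field is algebraically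
closed -/
lemma pow_indep (h0 : ∀ z : M, IsAlgebraic F0 z → ∃ a, algebraMap F0 M a = z) {N : Type} [Field N]
    [Algebra F0 N] [Algebra M N] [IsScalarTower F0 M N] (γ : N) (hγ : IsIntegral F0 γ)
    (m : Fin (minpoly F0 γ).natDegree → M) (h : ∑ n, algebraMap M N (m n) * γ ^ (n : ℕ) = 0) :
    ∀ n, m n = 0 := by
  have hγM : IsIntegral M γ := hγ.tower_top
  have h1 : ∀ i, ∃ a, algebraMap F0 M a = (minpoly M γ).coeff i := by
    intro i
    apply h0
    rw [isAlgebraic_iff_isIntegral]
    exact isIntegral_coeff_of_dvd (minpoly F0 γ) (minpoly M γ) (minpoly.monic hγ)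
      (minpoly.monic hγM) (minpoly.dvd_map_of_isScalarTower F0 M γ) i
  have h2 : minpoly M γ ∈ Polynomial.lifts (algebraMap F0 M) := by
    rw [Polynomial.lifts_iff_coeff_lifts]
    exact h1
  obtain ⟨q, hq⟩ := (Polynomial.mem_lifts _).1 h2
  have h3 : minpoly F0 γ ∣ q := by
    apply minpoly.dvd
    have h4 := minpoly.aeval M γ
    rw [← hq, aeval_map_algebraMap] at h4
    exact h4
  have hq0 : q ≠ 0 := by
    rintro rfl
    rw [Polynomial.map_zero] at hq
    exact minpoly.ne_zero hγM hq.symm
  have h5 : (minpoly F0 γ).natDegree ≤ (minpoly M γ).natDegree := by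
    rw [← hq, natDegree_map]
    exact natDegree_le_of_dvd h3 hq0
  have h6 := linearIndependent_pow (K := M) γ
  rw [Fintype.linearIndependent_iff] at h6
  have h7 := h6 (fun i => if hi : (i : ℕ) < (minpoly F0 γ).natDegree then m ⟨i, hi⟩ else 0) (by
    rw [← h]
    have e1 : (minpoly M γ).natDegree = (minpoly F0 γ).natDegree := by
      refine le_antisymm ?_ h5
      have h8 := natDegree_le_of_dvd (minpoly.dvd_map_of_isScalarTower F0 M γ)
        ((Polynomial.map_ne_zero_iff (algebraMap F0 M).injective).2 (minpoly.ne_zero hγ))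
      rwa [natDegree_map] at h8
    rw [← Fin.sum_congr' _ e1.symm]
    refine Finset.sum_congr rfl fun i _ => ?_
    have hi : (i : ℕ) < (minpoly F0 γ).natDegree := i.isLt
    rw [Algebra.smul_def]
    simp only [Fin.val_cast]
    rw [dif_pos hi])
  intro n
  have h8 := h7 ⟨n, lt_of_lt_of_le n.isLt h5⟩
  simp only [Fin.is_lt, dite_true] at h8
  exact h8

/-- the degree of an integral equation over a finite extension -/
lemma degree_ge (h0 : ∀ z : M, IsAlgebraic F0 z → ∃ a, algebraMap F0 M a = z) (x : σ → M) (Θ : M)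
    (d : ℕ) (hd : ∀ Q : (MvPolynomial σ F0)[X], Q.Monic → ev2 (algebraMap F0 M) x Θ Q = 0 →
      d ≤ Q.natDegree) {F1 : Type} [Field F1] [Algebra F0 F1] (pb : PowerBasis F0 F1) {N : Type}
    [Field N] [Algebra F0 N] [Algebra M N] [IsScalarTower F0 M N] (i : F1 →ₐ[F0] N)
    (P : (MvPolynomial σ F1)[X]) (hP : P.Monic)
    (hP0 : ev2 (i : F1 →+* N) (fun s => algebraMap M N (x s)) (algebraMap M N Θ) P = 0) :
    d ≤ P.natDegree := by
  obtain ⟨Q, hQ, n0, hn1, hn2⟩ := poly_decomp pb P hP
  rw [← hn2]
  apply hd _ hn1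
  have hfin : FiniteDimensional F0 F1 := pb.finite
  have hint : IsIntegral F0 pb.gen := Algebra.IsIntegral.isIntegral _
  have hint' : IsIntegral F0 (i pb.gen) := hint.map i
  have hdeg : (minpoly F0 (i pb.gen)).natDegree = pb.dim := by
    rw [minpoly.algHom_eq i i.injective]
    exact pb.natDegree_minpoly
  have h1 : ∀ n : Fin pb.dim, ev2 (i : F1 →+* N) (fun s => algebraMap M N (x s))
      (algebraMap M N Θ) (C (MvPolynomial.C (pb.gen ^ (n : ℕ))) *
        (Q n).map (MvPolynomial.map (algebraMap F0 F1))) =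
      algebraMap M N (ev2 (algebraMap F0 M) x Θ (Q n)) * (i pb.gen) ^ (n : ℕ) := by
    intro n
    rw [map_mul, ev2_C, MvPolynomial.eval₂_C, ev2_map, ev2_comp, mul_comm]
    have e1 : (i : F1 →+* N).comp (algebraMap F0 F1) = (algebraMap M N).comp (algebraMap F0 M) := by
      rw [← IsScalarTower.algebraMap_eq]
      ext a
      exact i.commutes a
    rw [e1]
    congr 1
    simp
  have h2 := hP0
  rw [hQ, map_sum] at h2
  simp only [h1] at h2
  have h3 := pow_indep h0 (i pb.gen) hint' (fun n => ev2 (algebraMap F0 M) x Θ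
    (Q (Fin.cast hdeg n))) (by
      rw [← h2, ← Fin.sum_congr' _ hdeg]
      rfl) (Fin.cast hdeg.symm n0)
  exact h3

attribute [local instance] MvPolynomial.algebraMvPolynomial in
/-- **Absolute irreducibility.** -/
theorem abs_irr [CharZero F0] (h0 : ∀ z : M, IsAlgebraic F0 z → ∃ a, algebraMap F0 M a = z)
    (x : σ → M) (Θ : M) (P : (MvPolynomial σ F0)[X]) (hP : P.Monic)
    (hP0 : ev2 (algebraMap F0 M) x Θ P = 0)
    (hmin : ∀ Q : (MvPolynomial σ F0)[X], Q.Monic → ev2 (algebraMap F0 M) x Θ Q = 0 →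
      P.natDegree ≤ Q.natDegree) {Ω : Type} [Field Ω] (j : F0 →+* Ω)
    (R S : (MvPolynomial σ Ω)[X]) (hR : R.Monic) (hS : S.Monic)
    (hRS : P.map (MvPolynomial.map j) = R * S) : R.natDegree = 0 ∨ S.natDegree = 0 := by
  classical
  let _ : Algebra F0 Ω := j.toAlgebra
  have hj : j = algebraMap F0 Ω := rfl
  -- the coefficients are algebraic
  have hint : ∀ T : (MvPolynomial σ Ω)[X], T.Monic → T ∣ P.map (MvPolynomial.map j) →
      ∀ a n, IsIntegral F0 ((T.coeff a).coeff n) := by
    intro T hT hTd a n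
    have h1 : IsIntegral (MvPolynomial σ F0) (T.coeff a) :=
      isIntegral_coeff_of_dvd (R := MvPolynomial σ F0) (S := MvPolynomial σ Ω) P T hP hT hTd a
    exact MvPolynomial.isIntegral_iff_isIntegral_coeff.1 h1 n
  have hRi := hint R hR (hRS ▸ dvd_mul_right _ _)
  have hSi := hint S hS (hRS ▸ dvd_mul_left _ _)
  let cf : (MvPolynomial σ Ω)[X] → Finset Ω := fun T =>
    (Finset.range (T.natDegree + 1)).biUnion (fun a =>
      (T.coeff a).support.image (fun n => (T.coeff a).coeff n))
  have hcf : ∀ T : (MvPolynomial σ Ω)[X], ∀ K : IntermediateField F0 Ω, (cf T : Set Ω) ⊆ K →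
      ∀ a n, (T.coeff a).coeff n ∈ (algebraMap K Ω).range := by
    intro T K hK a n
    by_cases hz : (T.coeff a).coeff n = 0
    · rw [hz]; exact zero_mem _
    · have ha : a < T.natDegree + 1 := by
        by_contra hcon
        rw [coeff_eq_zero_of_natDegree_lt (by omega)] at hz
        exact hz (MvPolynomial.coeff_zero n)
      have hm : (T.coeff a).coeff n ∈ cf T := Finset.mem_biUnion.2 ⟨a, Finset.mem_range.2 ha,
        Finset.mem_image.2 ⟨n, MvPolynomial.mem_support_iff.2 hz, rfl⟩⟩
      exact ⟨⟨_, hK hm⟩, rfl⟩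
  let U : Finset Ω := cf R ∪ cf S
  have hU : ∀ u ∈ U, IsIntegral F0 u := by
    intro u hu
    rcases Finset.mem_union.1 hu with h | h
    · obtain ⟨a, _, h⟩ := Finset.mem_biUnion.1 h
      obtain ⟨n, _, rfl⟩ := Finset.mem_image.1 h
      exact hRi a n
    · obtain ⟨a, _, h⟩ := Finset.mem_biUnion.1 h
      obtain ⟨n, _, rfl⟩ := Finset.mem_image.1 h
      exact hSi a n
  let K : IntermediateField F0 Ω := IntermediateField.adjoin F0 (U : Set Ω)
  have hKf : FiniteDimensional F0 K :=
    IntermediateField.finiteDimensional_adjoin (fun u hu => hU u hu)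
  obtain ⟨α, hα⟩ := Field.exists_primitive_element F0 K
  have hαi : IsIntegral F0 α := Algebra.IsIntegral.isIntegral α
  let pb : PowerBasis F0 K := (IntermediateField.adjoin.powerBasis hαi).map
    ((IntermediateField.equivOfEq hα).trans IntermediateField.topEquiv)
  have hUK : (U : Set Ω) ⊆ K := IntermediateField.subset_adjoin F0 _
  obtain ⟨R1, hR1⟩ := poly_lift (algebraMap K Ω) R (hcf R K
    (fun u hu => hUK (Finset.mem_coe.2 (Finset.mem_union_left _ hu))))
  obtain ⟨S1, hS1⟩ := poly_lift (algebraMap K Ω) S (hcf S K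
    (fun u hu => hUK (Finset.mem_coe.2 (Finset.mem_union_right _ hu))))
  have hinj : Function.Injective (MvPolynomial.map (algebraMap K Ω) :
      MvPolynomial σ K →+* MvPolynomial σ Ω) :=
    MvPolynomial.map_injective _ (algebraMap K Ω).injective
  have hR1m : R1.Monic := monic_of_injective hinj (by rw [hR1]; exact hR)
  have hS1m : S1.Monic := monic_of_injective hinj (by rw [hS1]; exact hS)
  have hR1d : R1.natDegree = R.natDegree := by rw [← hR1, natDegree_map_eq_of_injective hinj]
  have hS1d : S1.natDegree = S.natDegree := by rw [← hS1, natDegree_map_eq_of_injective hinj]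
  have hprod : P.map (MvPolynomial.map (algebraMap F0 K)) = R1 * S1 := by
    apply Polynomial.map_injective _ hinj
    rw [Polynomial.map_mul, hR1, hS1, ← hRS, Polynomial.map_map]
    congr 1
    ext a
    · simp only [RingHom.coe_comp, Function.comp_apply, MvPolynomial.map_C, MvPolynomial.coeff_C]
      rfl
    · simp
  have hdeg : P.natDegree = R.natDegree + S.natDegree := by
    have h1 := congrArg natDegree hRS
    rw [hR.natDegree_mul hS, (hP.natDegree_map _)] at h1
    exact h1
  let N : Type := AlgebraicClosure M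
  let i : K →ₐ[F0] N := IsAlgClosed.lift
  have hz : ev2 (i : K →+* N) (fun s => algebraMap M N (x s)) (algebraMap M N Θ) (R1 * S1) = 0 := by
    rw [← hprod, ev2_map]
    have e1 : (i : K →+* N).comp (algebraMap F0 K) = (algebraMap M N).comp (algebraMap F0 M) := by
      rw [← IsScalarTower.algebraMap_eq]
      ext a
      exact i.commutes a
    rw [e1, ← ev2_comp, hP0, map_zero]
  rw [map_mul, mul_eq_zero] at hz
  rcases hz with h | h
  · right
    have := degree_ge h0 x Θ P.natDegree hmin pb i R1 hR1m h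
    omega
  · left
    have := degree_ge h0 x Θ P.natDegree hmin pb i S1 hS1m h
    omega

end abs

end Pool.Agent.K9h15.Cv
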