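import Mathlib
import Pool.Agent.K9h15.Cls

/-!
# Classes modulo `n`-th powers with valuations divisible by `n` off a finite set of primes
-/

set_option autoImplicit false

open IsDedekindDomain NumberField
open scoped nonZeroDivisors

namespace Pool.Agent.K9h15.Cv

open Pool.Agent.K9h15.Cls (val_int)

/-- division with remainder for multisets -/
lemma multiset_divmod {α : Type*} [DecidableEq α] (n : ℕ) (hn : 1 ≤ n) (s : Multiset α) :
    ∃ t d : Multiset α, s = n • t + d ∧ ∀ p, d.count p < n := by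
  refine ⟨∑ p ∈ s.toFinset, (s.count p / n) • ({p} : Multiset α),
    ∑ p ∈ s.toFinset, (s.count p % n) • ({p} : Multiset α), ?_, ?_⟩
  · ext q
    rw [Multiset.count_add, Multiset.count_nsmul, Multiset.count_sum', Multiset.count_sum']
    simp only [Multiset.count_nsmul, Multiset.count_singleton, mul_ite, mul_one, mul_zero,
      Finset.sum_ite_eq, Multiset.mem_toFinset]
    split_ifs with h
    · exact (Nat.div_add_mod _ _).symm
    · rw [Multiset.count_eq_zero_of_notMem h]
      rfl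
  · intro q
    rw [Multiset.count_sum']
    simp only [Multiset.count_nsmul, Multiset.count_singleton, mul_ite, mul_one, mul_zero,
      Finset.sum_ite_eq, Multiset.mem_toFinset]
    split_ifs with h
    · exact Nat.mod_lt _ (by omega)
    · omega

variable {K : Type} [Field K] [NumberField K]

/-- structure of ideals with orders divisible by `n` away from `S` -/
lemma ideal_div (n : ℕ) (hn : 1 ≤ n) (S : Finset (HeightOneSpectrum (𝓞 K))) :
    ∃ D : Finset (Ideal (𝓞 K)), D.card ≤ n ^ S.card ∧ ∀ I : Ideal (𝓞 K), I ≠ 0 →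
      (∀ v : HeightOneSpectrum (𝓞 K), v ∉ S →
        n ∣ ((UniqueFactorizationMonoid.normalizedFactors I).count v.asIdeal)) →
      ∃ d ∈ D, ∃ J : Ideal (𝓞 K), J ≠ 0 ∧ I = J ^ n * d := by
  classical
  set S' : Finset (Ideal (𝓞 K)) := S.image (fun v => v.asIdeal) with hS'
  refine ⟨Finset.univ.image (fun f : S' → Fin n => ∏ x : S', (x : Ideal (𝓞 K)) ^ (f x : ℕ)),
    ?_, fun I hI hev => ?_⟩
  · refine Finset.card_image_le.trans ?_
    rw [Finset.card_univ, Fintype.card_fun, Fintype.card_fin, Fintype.card_coe]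
    exact Nat.pow_le_pow_right hn Finset.card_image_le
  obtain ⟨t, d, hs, hd⟩ := multiset_divmod n hn (UniqueFactorizationMonoid.normalizedFactors I)
  have hdS : ∀ p ∈ d, p ∈ S' := by
    intro p hp
    have hpI : p ∈ UniqueFactorizationMonoid.normalizedFactors I := by
      rw [hs]; exact Multiset.mem_add.mpr (Or.inr hp)
    have hpp : Prime p := UniqueFactorizationMonoid.prime_of_normalized_factor p hpI
    let v : HeightOneSpectrum (𝓞 K) := ⟨p, Ideal.isPrime_of_prime hpp, hpp.ne_zero⟩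
    by_contra hn'
    have hv : v ∉ S := by
      intro hv
      apply hn'
      rw [hS', Finset.mem_image]
      exact ⟨v, hv, rfl⟩
    have h1 := hev v hv
    rw [hs] at h1
    have h3 : Multiset.count v.asIdeal (n • t + d) = n * Multiset.count p t +
        Multiset.count p d := by
      change Multiset.count p (n • t + d) = _
      rw [Multiset.count_add, Multiset.count_nsmul]
    rw [h3] at h1
    have h4 : n ∣ Multiset.count p d := (Nat.dvd_add_right (dvd_mul_right _ _)).1 h1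
    have h5 := Nat.eq_zero_of_dvd_of_lt h4 (hd p)
    rw [Multiset.count_eq_zero] at h5
    exact h5 hp
  refine ⟨d.prod, ?_, t.prod, ?_, ?_⟩
  · rw [Finset.mem_image]
    refine ⟨fun x => ⟨d.count (x : Ideal (𝓞 K)), hd _⟩, Finset.mem_univ _, ?_⟩
    simp only
    rw [Finset.prod_coe_sort S' (fun x => x ^ Multiset.count x d), Finset.prod_multiset_count]
    symm
    apply Finset.prod_subset
    · intro p hp
      exact hdS p (Multiset.mem_toFinset.mp hp)
    · intro p _ hp
      rw [Multiset.mem_toFinset] at hp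
      rw [Multiset.count_eq_zero_of_notMem hp, pow_zero]
  · intro h0
    rw [Multiset.prod_eq_zero_iff] at h0
    have : (0 : Ideal (𝓞 K)) ∈ UniqueFactorizationMonoid.normalizedFactors I := by
      rw [hs]
      refine Multiset.mem_add.mpr (Or.inl ?_)
      exact (Multiset.mem_nsmul_of_ne_zero (by omega)).2 h0
    exact (UniqueFactorizationMonoid.prime_of_normalized_factor _ this).ne_zero rfl
  · have h2 : (UniqueFactorizationMonoid.normalizedFactors I).prod = I := by
      have := UniqueFactorizationMonoid.prod_normalizedFactors hI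
      exact associated_iff_eq.mp this
    conv_lhs => rw [← h2, hs]
    rw [Multiset.prod_add, Multiset.prod_nsmul]

/-- finiteness of units modulo `n`-th powers -/
lemma units_pow (K : Type) [Field K] [NumberField K] (n : ℕ) (hn : 1 ≤ n) :
    ∃ T : Finset (𝓞 K)ˣ, ∀ u : (𝓞 K)ˣ, ∃ t ∈ T, ∃ w : (𝓞 K)ˣ, u = t * w ^ n := by
  classical
  have : Group.FG (𝓞 K)ˣ := Group.fg_iff_monoid_fg.mpr inferInstance
  have h := Subgroup.finiteIndex_range_powMonoidHom_of_fg (𝓞 K)ˣ (n := n) (by omega)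
  have : Finite ((𝓞 K)ˣ ⧸ (powMonoidHom (α := (𝓞 K)ˣ) n).range) :=
    Subgroup.finite_quotient_of_finiteIndex
  have := Fintype.ofFinite ((𝓞 K)ˣ ⧸ (powMonoidHom (α := (𝓞 K)ˣ) n).range)
  refine ⟨Finset.univ.image (fun q : (𝓞 K)ˣ ⧸ (powMonoidHom (α := (𝓞 K)ˣ) n).range => q.out),
    fun u => ?_⟩
  refine ⟨(QuotientGroup.mk (s := (powMonoidHom (α := (𝓞 K)ˣ) n).range) u).out,
    Finset.mem_image_of_mem _ (Finset.mem_univ _), ?_⟩
  have h1 : QuotientGroup.mk (s := (powMonoidHom (α := (𝓞 K)ˣ) n).range)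
      (QuotientGroup.mk (s := (powMonoidHom (α := (𝓞 K)ˣ) n).range) u).out =
      QuotientGroup.mk u := QuotientGroup.out_eq' _
  rw [QuotientGroup.eq] at h1
  obtain ⟨w, hw⟩ := h1
  refine ⟨w, ?_⟩
  rw [powMonoidHom_apply] at hw
  rw [hw, mul_inv_cancel_left]

/-- integral version -/
lemma sel_int_n (K : Type) [Field K] [NumberField K] (n : ℕ) (hn : 1 ≤ n) :
    ∃ C0 : ℕ, ∀ S : Finset (HeightOneSpectrum (𝓞 K)),
    ∃ T : Finset (𝓞 K), T.card ≤ C0 * n ^ S.card ∧ (∀ t ∈ T, t ≠ 0) ∧ ∀ a : 𝓞 K, a ≠ 0 →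
      (∀ v : HeightOneSpectrum (𝓞 K), v ∉ S →
        n ∣ ((UniqueFactorizationMonoid.normalizedFactors (Ideal.span {a})).count v.asIdeal)) →
      ∃ t ∈ T, ∃ x y : 𝓞 K, x ≠ 0 ∧ y ≠ 0 ∧ x ^ n * a = t * y ^ n := by
  classical
  obtain ⟨U, hU⟩ := units_pow K n hn
  refine ⟨Fintype.card (ClassGroup (𝓞 K)) * U.card, fun S => ?_⟩
  obtain ⟨D, hDc, hD⟩ := ideal_div n hn S
  let Rel : Ideal (𝓞 K) × ClassGroup (𝓞 K) → 𝓞 K → Prop := fun c a =>
    a ≠ 0 ∧ ∃ J : (Ideal (𝓞 K))⁰, Ideal.span {a} = (J : Ideal (𝓞 K)) ^ n * c.1 ∧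
      ClassGroup.mk0 J = c.2
  let rep : Ideal (𝓞 K) × ClassGroup (𝓞 K) → 𝓞 K := fun c =>
    if h : ∃ a, Rel c a then Classical.choose h else 1
  have hrep0 : ∀ c, rep c ≠ 0 := by
    intro c
    simp only [rep]
    split_ifs with h
    · exact (Classical.choose_spec h).1
    · exact one_ne_zero
  let T : Finset (𝓞 K) := ((D ×ˢ (Finset.univ : Finset (ClassGroup (𝓞 K)))) ×ˢ U).image
    (fun c => rep c.1 * (c.2 : 𝓞 K))
  refine ⟨T, ?_, ?_, ?_⟩
  · refine Finset.card_image_le.trans ?_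
    rw [Finset.card_product, Finset.card_product, Finset.card_univ]
    calc D.card * Fintype.card (ClassGroup (𝓞 K)) * U.card
        ≤ n ^ S.card * Fintype.card (ClassGroup (𝓞 K)) * U.card := by gcongr
      _ = _ := by ring
  · intro t ht
    simp only [T, Finset.mem_image] at ht
    obtain ⟨c, -, rfl⟩ := ht
    exact mul_ne_zero (hrep0 _) (Units.ne_zero _)
  · intro a ha hev
    have hI : Ideal.span {a} ≠ (0 : Ideal (𝓞 K)) := by simpa using ha
    obtain ⟨d, hd, J, hJ, hIJ⟩ := hD _ hI hev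
    set J' : (Ideal (𝓞 K))⁰ := ⟨J, mem_nonZeroDivisors_iff_ne_zero.mpr hJ⟩ with hJ'
    have hR : Rel (d, ClassGroup.mk0 J') a := ⟨ha, J', hIJ, rfl⟩
    have hex : ∃ a, Rel (d, ClassGroup.mk0 J') a := ⟨a, hR⟩
    have hrepe : rep (d, ClassGroup.mk0 J') = Classical.choose hex := by
      simp only [rep]
      rw [dif_pos hex]
    obtain ⟨hb0, J2, hJ2, hcl⟩ := Classical.choose_spec hex
    rw [← hrepe] at hb0 hJ2
    set b := rep (d, ClassGroup.mk0 J') with hb
    obtain ⟨x, y, hx, hy, hxy⟩ := ClassGroup.mk0_eq_mk0_iff.mp hcl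
    have h1 : Ideal.span {y ^ n * a} = Ideal.span {x ^ n * b} := by
      rw [← Ideal.span_singleton_mul_span_singleton, ← Ideal.span_singleton_mul_span_singleton,
        ← Ideal.span_singleton_pow, ← Ideal.span_singleton_pow, hIJ, hJ2]
      have h2 : (Ideal.span {y} * (J' : Ideal (𝓞 K))) = Ideal.span {x} * (J2 : Ideal (𝓞 K)) :=
        hxy.symm
      calc Ideal.span {y} ^ n * (J ^ n * d) = (Ideal.span {y} * J) ^ n * d := by ring
        _ = (Ideal.span {x} * (J2 : Ideal (𝓞 K))) ^ n * d := by rw [← h2]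
        _ = _ := by ring
    rw [Ideal.span_singleton_eq_span_singleton] at h1
    obtain ⟨u, hu⟩ := h1.symm
    obtain ⟨t, ht, w, hw⟩ := hU u
    refine ⟨b * (t : 𝓞 K), ?_, y, x * (w : 𝓞 K), hy, mul_ne_zero hx (Units.ne_zero _), ?_⟩
    · simp only [T, Finset.mem_image]
      refine ⟨((d, ClassGroup.mk0 J'), t), ?_, rfl⟩
      simp only [Finset.mem_product, Finset.mem_univ, and_true]
      exact ⟨hd, ht⟩
    · rw [← hu, hw]
      push_cast
      ring

/-- finiteness of `K(S,n)` with a count. -/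
theorem sel_card_n (K : Type) [Field K] [NumberField K] (n : ℕ) (hn : 1 ≤ n) :
    ∃ C0 : ℕ, ∀ S : Finset (HeightOneSpectrum (𝓞 K)),
    ∃ T : Finset K, T.card ≤ C0 * n ^ S.card ∧ (∀ t ∈ T, t ≠ 0) ∧ ∀ a : Kˣ,
      (∀ v : HeightOneSpectrum (𝓞 K), v ∉ S →
        (n : ℤ) ∣ Multiplicative.toAdd (v.valuationOfNeZero a)) →
      ∃ t ∈ T, ∃ b : K, b ≠ 0 ∧ (a : K) = t * b ^ n := by
  classical
  obtain ⟨C0, hC0⟩ := sel_int_n K n hn
  refine ⟨C0, fun S => ?_⟩
  obtain ⟨T, hTc, hT0, hT⟩ := hC0 S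
  refine ⟨T.image (fun t => algebraMap (𝓞 K) K t), Finset.card_image_le.trans hTc, ?_, ?_⟩
  · intro t ht
    obtain ⟨s, hs, rfl⟩ := Finset.mem_image.mp ht
    simpa using hT0 s hs
  · intro a hev
    obtain ⟨p, q, hq, hpq⟩ := IsFractionRing.div_surjective (A := 𝓞 K) (a : K)
    have hq0 : q ≠ 0 := nonZeroDivisors.ne_zero hq
    have hqK : algebraMap (𝓞 K) K q ≠ 0 := by simpa using hq0
    have hp0 : p ≠ 0 := by
      rintro rfl
      rw [map_zero, zero_div] at hpq
      exact a.ne_zero hpq.symm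
    obtain ⟨m, rfl⟩ : ∃ m, n = m + 1 := ⟨n - 1, by omega⟩
    have hpq0 : p * q ^ m ≠ 0 := mul_ne_zero hp0 (pow_ne_zero _ hq0)
    have hpqK : algebraMap (𝓞 K) K (p * q ^ m) ≠ 0 :=
      (map_ne_zero_iff _ (FaithfulSMul.algebraMap_injective (𝓞 K) K)).2 hpq0
    obtain ⟨t, ht, x, y, hx, hy, hxy⟩ := hT (p * q ^ m) hpq0 (by
      intro v hv
      have h1 := val_int v (p * q ^ m) hpq0 (Units.mk0 _ hpqK) rfl
      have h2 : Units.mk0 _ hpqK = a * (Units.mk0 _ hqK) ^ (m + 1) := by
        apply Units.ext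
        rw [Units.val_mul, Units.val_pow_eq_pow_val, Units.val_mk0, Units.val_mk0, ← hpq, map_mul,
          map_pow]
        field_simp
        ring
      rw [h2, map_mul, map_pow, toAdd_mul, toAdd_pow] at h1
      have h3 : ((m + 1 : ℕ) : ℤ) ∣ (-((UniqueFactorizationMonoid.normalizedFactors
          (Ideal.span {p * q ^ m})).count v.asIdeal : ℤ)) := by
        rw [← h1]
        refine dvd_add (hev v hv) ?_
        rw [nsmul_eq_mul]
        exact dvd_mul_right _ _
      rw [dvd_neg] at h3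
      exact_mod_cast h3)
    have hxK : algebraMap (𝓞 K) K x ≠ 0 := by simpa using hx
    have hyK : algebraMap (𝓞 K) K y ≠ 0 := by simpa using hy
    refine ⟨algebraMap (𝓞 K) K t, Finset.mem_image_of_mem _ ht,
      algebraMap (𝓞 K) K y / (algebraMap (𝓞 K) K x * algebraMap (𝓞 K) K q),
      div_ne_zero hyK (mul_ne_zero hxK hqK), ?_⟩
    have h4 := congrArg (algebraMap (𝓞 K) K) hxy
    simp only [map_mul, map_pow] at h4
    rw [← hpq, div_pow, mul_pow, div_eq_iff hqK, mul_comm _ (algebraMap (𝓞 K) K q)]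
    rw [mul_div_assoc', mul_div_assoc', eq_div_iff (by positivity)]
    rw [pow_succ (algebraMap (𝓞 K) K q)]
    linear_combination (algebraMap (𝓞 K) K q) * h4

end Pool.Agent.K9h15.Cv
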