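import Mathlib

/-!
# Expansions of algebraic functions
-/

set_option autoImplicit false

open Polynomial

namespace Pool.Agent.K9h15.Cv

section alg

variable {R : Type} [CommRing R]

/-- the polynomial `P(t0 + X, T(X))` -/
noncomputable def sub (P : R[X][X]) (t0 : R) (T : R[X]) : R[X] :=
  (P.map (compRingHom (X + C t0))).eval T

lemma evalEval_eq (P : R[X][X]) (x y : R) : P.evalEval x y = P.eval₂ (evalRingHom x) y := by
  rw [eval₂_evalRingHom]

lemma sub_eval (P : R[X][X]) (t0 a : R) (T : R[X]) :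
    (sub P t0 T).eval a = P.evalEval (a + t0) (T.eval a) := by
  unfold sub
  rw [eval_map, evalEval_eq]
  have h1 := hom_eval₂ P (compRingHom (X + C t0)) (evalRingHom a) T
  rw [coe_evalRingHom] at h1
  rw [h1]
  congr 1
  ext x
  · simp
  · simp

/-- solutions of polynomial equations by polynomials up to a high power -/
theorem hensel_poly (P : R[X][X]) (t0 y0 : R) (h0 : P.evalEval t0 y0 = 0)
    (hu : IsUnit (P.derivative.evalEval t0 y0)) (e : ℕ) :
    ∃ T : R[X], T.eval 0 = y0 ∧ X ^ e ∣ sub P t0 T := by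
  induction e with
  | zero => exact ⟨C y0, by simp, by simp⟩
  | succ e ih =>
    rcases Nat.eq_zero_or_pos e with rfl | he
    · refine ⟨C y0, by simp, ?_⟩
      rw [zero_add, pow_one, X_dvd_iff, coeff_zero_eq_eval_zero, sub_eval]
      simpa using h0
    obtain ⟨T, hT0, W, hW⟩ := ih
    obtain ⟨u, hu⟩ := hu
    let c : R := (↑u⁻¹ : R) * W.coeff 0
    refine ⟨T + (-(C c * X ^ e)), ?_, ?_⟩
    · rw [eval_add, hT0]
      simp [he.ne']
    · obtain ⟨k, hk⟩ := binomExpansion (P.map (compRingHom (X + C t0))) T (-(C c * X ^ e))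
      have h1 : sub P t0 (T + (-(C c * X ^ e))) = X ^ e * W +
          (sub P.derivative t0 T) * (-(C c * X ^ e)) + k * (-(C c * X ^ e)) ^ 2 := by
        unfold sub
        rw [hk]
        have h2 : (P.map (compRingHom (X + C t0))).eval T = X ^ e * W := hW
        rw [h2, derivative_map]
      have h3 : X ∣ W - (sub P.derivative t0 T) * C c := by
        rw [X_dvd_iff, coeff_zero_eq_eval_zero, eval_sub, eval_mul, eval_C, sub_eval, hT0,
          zero_add, ← hu, ← coeff_zero_eq_eval_zero]
        simp only [c]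
        rw [← mul_assoc, Units.mul_inv, one_mul, sub_self]
      obtain ⟨W', hW'⟩ := h3
      have h4 : X ^ e * W + (sub P.derivative t0 T) * (-(C c * X ^ e)) + k * (-(C c * X ^ e)) ^ 2 =
          X ^ (e + 1) * (W' + k * C c ^ 2 * X ^ (e - 1)) := by
        obtain ⟨e', rfl⟩ : ∃ e', e = e' + 1 := ⟨e - 1, by omega⟩
        simp only [Nat.add_sub_cancel]
        have h5 : W = X * W' + (sub P.derivative t0 T) * C c := by
          rw [← hW']; ring
        rw [h5]
        ring
      rw [h1, h4]
      exact dvd_mul_right _ _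

end alg

section val

variable {R : Type} [CommRing R] (ν : R → ℝ)

/-- a multiplicative nonarchimedean size with values at most one -/
structure IsSize : Prop where
  mul : ∀ x y, ν (x * y) = ν x * ν y
  add : ∀ x y, ν (x + y) ≤ max (ν x) (ν y)
  neg : ∀ x, ν (-x) = ν x
  zero : ν 0 = 0
  one : ν 1 = 1
  nonneg : ∀ x, 0 ≤ ν x
  le_one : ∀ x, ν x ≤ 1
  isUnit : ∀ x, ν x = 1 → IsUnit x

variable {ν}

lemma IsSize.sub (h : IsSize ν) (x y : R) : ν (x - y) ≤ max (ν x) (ν y) := by
  rw [sub_eq_add_neg]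
  refine (h.add _ _).trans ?_
  rw [h.neg]

lemma IsSize.pow (h : IsSize ν) (x : R) (n : ℕ) : ν (x ^ n) = ν x ^ n := by
  induction n with
  | zero => rw [pow_zero, pow_zero, h.one]
  | succ n ih => rw [pow_succ, pow_succ, h.mul, ih]

lemma IsSize.dvd (h : IsSize ν) {x y : R} (hxy : x ∣ y) : ν y ≤ ν x := by
  obtain ⟨z, rfl⟩ := hxy
  rw [h.mul]
  calc ν x * ν z ≤ ν x * 1 := mul_le_mul_of_nonneg_left (h.le_one z) (h.nonneg x)
    _ = ν x := mul_one _

lemma IsSize.eq_of_lt (h : IsSize ν) {x y : R} (hxy : ν (x - y) < ν x) : ν y = ν x := by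
  apply le_antisymm
  · have h1 : y = x - (x - y) := by ring
    calc ν y = ν (x - (x - y)) := by rw [← h1]
      _ ≤ max (ν x) (ν (x - y)) := h.sub _ _
      _ = ν x := max_eq_left hxy.le
  · by_contra hn
    rw [not_le] at hn
    have h1 : x = (x - y) + y := by ring
    have h2 : ν x ≤ max (ν (x - y)) (ν y) := by
      conv_lhs => rw [h1]
      exact h.add _ _
    exact absurd h2 (not_le.2 (max_lt hxy hn))

lemma IsSize.eval_sub (h : IsSize ν) (T : R[X]) (a b : R) :
    ν (T.eval a - T.eval b) ≤ ν (a - b) := h.dvd (sub_dvd_eval_sub a b T)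

lemma IsSize.evalEval_sub (h : IsSize ν) (F : R[X][X]) (t t0 y y0 : R) :
    ν (F.evalEval t y - F.evalEval t0 y0) ≤ max (ν (t - t0)) (ν (y - y0)) := by
  have h1 : F.evalEval t y - F.evalEval t0 y0 = (F.evalEval t y - F.evalEval t y0) +
      (F.evalEval t y0 - F.evalEval t0 y0) := by ring
  have h2 : y - y0 ∣ F.evalEval t y - F.evalEval t y0 := by
    have h3 := sub_dvd_eval_sub (C y) (C y0) F
    obtain ⟨z, hz⟩ := h3
    refine ⟨z.eval t, ?_⟩
    have h4 := congrArg (eval t) hz
    rw [Polynomial.eval_sub, eval_mul, Polynomial.eval_sub, eval_C, eval_C] at h4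
    exact h4
  have h5 : t - t0 ∣ F.evalEval t y0 - F.evalEval t0 y0 := sub_dvd_eval_sub t t0 _
  rw [h1]
  refine (h.add _ _).trans ?_
  rw [max_comm]
  exact max_le_max (h.dvd h5) (h.dvd h2)

/-- **Approximation of algebraic functions by polynomials.** -/
theorem hensel_approx (h : IsSize ν) (P : R[X][X]) (t0 y0 : R) (h0 : P.evalEval t0 y0 = 0)
    (hu : ν (P.derivative.evalEval t0 y0) = 1) (e : ℕ) (l : ℝ) (hl : l < 1) :
    ∃ T : R[X], ∀ t y : R, P.evalEval t y = 0 → ν (t - t0) ≤ l → ν (y - y0) < 1 →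
      ν (y - T.eval (t - t0)) ≤ l ^ e := by
  obtain ⟨T, hT0, W, hW⟩ := hensel_poly P t0 y0 h0 (h.isUnit _ hu) e
  refine ⟨T, ?_⟩
  intro t y hty ht hy
  have hl0 : 0 ≤ l := (h.nonneg _).trans ht
  set z := T.eval (t - t0) with hz
  have h1 : ν (z - y0) < 1 := by
    rw [← hT0, hz]
    refine lt_of_le_of_lt (h.eval_sub T _ _) ?_
    rw [sub_zero]
    linarith
  have h2 : ν (z - y) < 1 := by
    have : z - y = (z - y0) - (y - y0) := by ring
    rw [this]
    exact lt_of_le_of_lt (h.sub _ _) (max_lt h1 hy)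
  have h3 : ν (P.evalEval t z) ≤ l ^ e := by
    have h4 : P.evalEval t z = (t - t0) ^ e * W.eval (t - t0) := by
      have h5 := sub_eval P t0 (t - t0) T
      rw [sub_add_cancel, ← hz] at h5
      rw [← h5, hW, eval_mul, eval_pow, eval_X]
    rw [h4]
    refine (h.dvd (dvd_mul_right _ _)).trans ?_
    rw [h.pow]
    exact pow_le_pow_left₀ (h.nonneg _) ht e
  obtain ⟨k, hk⟩ := binomExpansion P (C y) (C (z - y))
  have h5 : P.evalEval t z = P.derivative.evalEval t y * (z - y) + k.eval t * (z - y) ^ 2 := by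
    have h6 := congrArg (eval t) hk
    have h7 : C y + C (z - y) = C z := by rw [← C_add]; congr 1; ring
    rw [h7, eval_add, eval_add, eval_mul, eval_mul, eval_pow, eval_C] at h6
    have h8 : (eval t (eval (C y) P)) = 0 := hty
    rw [h8, zero_add] at h6
    exact h6
  have h6 : ν (P.derivative.evalEval t y) = 1 := by
    rw [← hu]
    apply h.eq_of_lt
    rw [hu]
    have h7 : P.derivative.evalEval t0 y0 - P.derivative.evalEval t y =
        -(P.derivative.evalEval t y - P.derivative.evalEval t0 y0) := by ring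
    rw [h7, h.neg]
    exact lt_of_le_of_lt (h.evalEval_sub _ _ _ _ _) (max_lt (by linarith) hy)
  have h7 : ν (P.derivative.evalEval t y + k.eval t * (z - y)) = 1 := by
    rw [← h6]
    apply h.eq_of_lt
    rw [h6]
    have : P.derivative.evalEval t y - (P.derivative.evalEval t y + k.eval t * (z - y)) =
        -(k.eval t * (z - y)) := by ring
    rw [this, h.neg]
    exact lt_of_le_of_lt (h.dvd (dvd_mul_left _ _)) h2
  have h8 : ν (P.evalEval t z) = ν (z - y) := by
    have : P.evalEval t z = (z - y) * (P.derivative.evalEval t y + k.eval t * (z - y)) := by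
      rw [h5]; ring
    rw [this, h.mul, h7, mul_one]
  have h9 : y - z = -(z - y) := by ring
  rw [h9, h.neg, ← h8]
  exact h3

end val

end Pool.Agent.K9h15.Cv
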