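import Mathlib
import Pool.Agent.K9h15.Cv.Abs

/-!
# Common zeros of an absolutely irreducible polynomial and a polynomial of smaller degree
-/

set_option autoImplicit false

open Polynomial

namespace Pool.Agent.K9h15.Cv

section qp

variable {σ : Type} [Fintype σ] [DecidableEq σ]

/-- exponents -/
noncomputable def mexp {m : ℕ} (i : σ → Fin (m + 1)) : σ →₀ ℕ :=
  Finsupp.equivFunOnFinite.symm (fun s => (i s : ℕ))

omit [DecidableEq σ] in
lemma mexp_apply {m : ℕ} (i : σ → Fin (m + 1)) (s : σ) : mexp i s = (i s : ℕ) := rfl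

omit [DecidableEq σ] in
lemma mexp_inj {m : ℕ} : Function.Injective (mexp : (σ → Fin (m + 1)) → (σ →₀ ℕ)) := by
  intro i j hij
  funext s
  apply Fin.ext
  rw [← mexp_apply, ← mexp_apply, hij]

/-- the polynomial with given coefficients -/
noncomputable def qp {m D : ℕ} {A : Type} [CommRing A] (q : (σ → Fin (m + 1)) × Fin D → A) :
    (MvPolynomial σ A)[X] :=
  ∑ i, C (MvPolynomial.monomial (mexp i.1) (q i)) * X ^ (i.2 : ℕ)

variable {m D : ℕ} {A B : Type} [CommRing A] [CommRing B]

lemma qp_map (f : A →+* B) (q : (σ → Fin (m + 1)) × Fin D → A) :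
    (qp q).map (MvPolynomial.map f) = qp (fun i => f (q i)) := by
  unfold qp
  rw [Polynomial.map_sum]
  refine Finset.sum_congr rfl fun i _ => ?_
  rw [Polynomial.map_mul, Polynomial.map_pow, map_X, map_C, MvPolynomial.map_monomial]

lemma qp_degree (q : (σ → Fin (m + 1)) × Fin D → A) : (qp q).natDegree ≤ D - 1 := by
  unfold qp
  refine natDegree_sum_le_of_forall_le _ _ fun i _ => ?_
  refine (natDegree_C_mul_X_pow_le _ _).trans ?_
  have := i.2.isLt
  omega

lemma qp_coeff (q : (σ → Fin (m + 1)) × Fin D → A) (i : (σ → Fin (m + 1)) × Fin D) :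
    ((qp q).coeff (i.2 : ℕ)).coeff (mexp i.1) = q i := by
  unfold qp
  rw [finsetSum_coeff, MvPolynomial.coeff_sum, Finset.sum_eq_single i]
  · rw [coeff_C_mul_X_pow, if_pos rfl, MvPolynomial.coeff_monomial, if_pos rfl]
  · intro j _ hj
    rw [coeff_C_mul_X_pow]
    split_ifs with h
    · rw [MvPolynomial.coeff_monomial, if_neg]
      intro h2
      exact hj (Prod.ext (mexp_inj h2) (Fin.ext h.symm))
    · exact MvPolynomial.coeff_zero _
  · intro h
    exact absurd (Finset.mem_univ _) h

lemma qp_ne_zero (q : (σ → Fin (m + 1)) × Fin D → A) (hq : q ≠ 0) : qp q ≠ 0 := by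
  intro h
  apply hq
  funext i
  rw [← qp_coeff q i, h, coeff_zero, MvPolynomial.coeff_zero, Pi.zero_apply]

lemma qp_ev (φ : A →+* B) (x : σ → B) (y : B) (q : (σ → Fin (m + 1)) × Fin D → A) :
    ev2 φ x y (qp q) = ∑ i, φ (q i) * ((∏ s, x s ^ (i.1 s : ℕ)) * y ^ (i.2 : ℕ)) := by
  unfold qp
  rw [map_sum]
  refine Finset.sum_congr rfl fun i _ => ?_
  rw [map_mul, map_pow, ev2_C, ev2_X, MvPolynomial.eval₂_monomial, mul_assoc]
  congr 2
  rw [Finsupp.prod_fintype _ _ (fun s => pow_zero _)]
  rfl

/-- the resultant -/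
noncomputable def res (P : (MvPolynomial σ A)[X]) (q : (σ → Fin (m + 1)) × Fin D → A) :
    MvPolynomial σ A := resultant P (qp q) D (D - 1)

lemma res_map (f : A →+* B) (P : (MvPolynomial σ A)[X]) (q : (σ → Fin (m + 1)) × Fin D → A) :
    res (P.map (MvPolynomial.map f)) (fun i => f (q i)) = MvPolynomial.map f (res P q) := by
  unfold res
  rw [← qp_map, resultant_map_map]

/-- vanishing at common zeros -/
lemma res_zero (hD : 0 < D) (P : (MvPolynomial σ A)[X]) (hP : P.natDegree ≤ D)
    (q : (σ → Fin (m + 1)) × Fin D → A) (φ : A →+* B) (x : σ → B) (y : B)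
    (h1 : ev2 φ x y P = 0) (h2 : ev2 φ x y (qp q) = 0) :
    MvPolynomial.eval₂ φ x (res P q) = 0 := by
  obtain ⟨u, v, _, _, huv⟩ := exists_mul_add_mul_eq_C_resultant (m := D) (n := D - 1) P (qp q)
    hP (qp_degree q) (Or.inl (by omega))
  have h3 := congrArg (ev2 φ x y) huv
  rw [map_add, map_mul, map_mul, h1, h2, zero_mul, zero_mul, add_zero, ev2_C] at h3
  exact h3.symm

end qp

section field

variable {σ : Type} [Fintype σ] [DecidableEq σ] {F0 M : Type} [Field F0] [Field M] [Algebra F0 M]

theorem res_ne_zero [CharZero F0] (h0 : ∀ z : M, IsAlgebraic F0 z → ∃ a, algebraMap F0 M a = z)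
    (x : σ → M) (Θ : M) (P : (MvPolynomial σ F0)[X]) (hP : P.Monic)
    (hP0 : ev2 (algebraMap F0 M) x Θ P = 0)
    (hmin : ∀ Q : (MvPolynomial σ F0)[X], Q.Monic → ev2 (algebraMap F0 M) x Θ Q = 0 →
      P.natDegree ≤ Q.natDegree) {Ω : Type} [Field Ω] (j : F0 →+* Ω) {m D : ℕ}
    (hD : P.natDegree = D) (q : (σ → Fin (m + 1)) × Fin D → Ω) (hq : q ≠ 0) :
    res (P.map (MvPolynomial.map j)) q ≠ 0 := by
  have hD0 : 0 < D := by
    by_contra hcon
    apply hq
    funext i
    have := i.2.isLt
    omega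
  set P' := P.map (MvPolynomial.map j) with hP'
  have hP'm : P'.Monic := hP.map _
  have hP'd : P'.natDegree = D := by rw [hP', hP.natDegree_map, hD]
  have hP'1 : P' ≠ 1 := by
    intro h
    rw [h, natDegree_one] at hP'd
    omega
  have hirr : Irreducible P' := by
    rw [hP'm.irreducible_iff_natDegree]
    refine ⟨hP'1, ?_⟩
    intro R S hR hS hRS
    exact abs_irr h0 x Θ P hP hP0 hmin j R S hR hS hRS.symm
  let K := FractionRing (MvPolynomial σ Ω)
  have hirrK : Irreducible (P'.map (algebraMap (MvPolynomial σ Ω) K)) :=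
    (hP'm.irreducible_iff_irreducible_map_fraction_map (K := K)).1 hirr
  have hinj : Function.Injective (algebraMap (MvPolynomial σ Ω) K) := IsFractionRing.injective _ _
  have hQ0 : (qp q).map (algebraMap (MvPolynomial σ Ω) K) ≠ 0 :=
    (Polynomial.map_ne_zero_iff hinj).2 (qp_ne_zero q hq)
  have hcop : IsCoprime (P'.map (algebraMap (MvPolynomial σ Ω) K))
      ((qp q).map (algebraMap (MvPolynomial σ Ω) K)) := by
    rcases hirrK.isCoprime_or_dvd ((qp q).map (algebraMap (MvPolynomial σ Ω) K)) with h | h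
    · exact h
    · exfalso
      have h1 := natDegree_le_of_dvd h hQ0
      rw [hP'm.natDegree_map, hP'd, natDegree_map_eq_of_injective hinj] at h1
      have h2 := qp_degree q
      omega
  intro hres
  have h3 := congrArg (algebraMap (MvPolynomial σ Ω) K) hres
  unfold res at h3
  rw [← resultant_map_map, map_zero] at h3
  set f := P'.map (algebraMap (MvPolynomial σ Ω) K) with hf
  set g := (qp q).map (algebraMap (MvPolynomial σ Ω) K) with hg
  have hfd : f.natDegree = D := by rw [hf, hP'm.natDegree_map, hP'd]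
  have hgd : g.natDegree ≤ D - 1 := natDegree_map_le.trans (qp_degree q)
  obtain ⟨r, hr⟩ := Nat.exists_eq_add_of_le hgd
  rw [hr, resultant_add_right_deg _ _ _ _ _ le_rfl] at h3
  have hfc : f.coeff D = 1 := by
    rw [← hfd]
    exact (hP'm.map _).coeff_natDegree
  rw [hfc, one_pow, one_mul, ← hfd] at h3
  exact (resultant_eq_zero_iff.1 h3).2 hcop

/-- **Certificate for the nonvanishing of the resultants.** -/
theorem res_cert {m D : ℕ} (P : (MvPolynomial σ F0)[X])
    (hres : ∀ (Ω : Type) [Field Ω] (j : F0 →+* Ω) (q : (σ → Fin (m + 1)) × Fin D → Ω), q ≠ 0 →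
      res (P.map (MvPolynomial.map j)) q ≠ 0) :
    ∃ Z : Finset F0, ∀ (T : Type) [CommRing T] (iT : T →+* M), Function.Injective iT →
      (∀ c ∈ Z, algebraMap F0 M c ∈ iT.range) → ∀ PT : (MvPolynomial σ T)[X],
        PT.map (MvPolynomial.map iT) = P.map (MvPolynomial.map (algebraMap F0 M)) →
        ∀ (Ω : Type) [Field Ω] (φ : T →+* Ω) (q : (σ → Fin (m + 1)) × Fin D → Ω), q ≠ 0 →
          res (PT.map (MvPolynomial.map φ)) q ≠ 0 := by
  classical
  let ι := (σ → Fin (m + 1)) × Fin D
  let 𝒜 := MvPolynomial ι F0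
  let g : MvPolynomial σ 𝒜 := res (P.map (MvPolynomial.map MvPolynomial.C))
    (fun i : ι => (MvPolynomial.X i : 𝒜))
  let v : (σ →₀ ℕ) → 𝒜 := fun n => g.coeff n
  let I : Ideal 𝒜 := Ideal.span (Set.range v)
  have hrad : ∀ i : ι, (MvPolynomial.X i : 𝒜) ∈ I.radical := by
    intro i
    rw [Ideal.radical_eq_sInf, Ideal.mem_sInf]
    rintro J ⟨hIJ, hJ⟩
    let Ω := FractionRing (𝒜 ⧸ J)
    let π : 𝒜 →+* Ω := (algebraMap (𝒜 ⧸ J) Ω).comp (Ideal.Quotient.mk J)
    have hπ : ∀ a, π a = 0 ↔ a ∈ J := by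
      intro a
      rw [← Ideal.Quotient.eq_zero_iff_mem]
      exact map_eq_zero_iff _ (IsFractionRing.injective (𝒜 ⧸ J) Ω)
    have h1 := res_map π (P.map (MvPolynomial.map MvPolynomial.C))
      (fun i : ι => (MvPolynomial.X i : 𝒜))
    rw [Polynomial.map_map] at h1
    have h2 : (MvPolynomial.map π).comp (MvPolynomial.map MvPolynomial.C) =
        (MvPolynomial.map (π.comp MvPolynomial.C) : MvPolynomial σ F0 →+* MvPolynomial σ Ω) := by
      ext a
      · simp
      · simp
    rw [h2] at h1
    have h3 : MvPolynomial.map π g = 0 := by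
      ext n
      rw [MvPolynomial.coeff_map, MvPolynomial.coeff_zero, hπ]
      exact hIJ (Ideal.subset_span ⟨n, rfl⟩)
    have h4 := hres Ω (π.comp MvPolynomial.C) (fun i : ι => π (MvPolynomial.X i))
    rw [← hπ]
    by_contra hne
    exact h4 (fun h5 => hne (congrFun h5 i)) (h1.trans h3)
  have hex : ∀ i : ι, ∃ (N : ℕ) (c : (σ →₀ ℕ) →₀ 𝒜),
      c.sum (fun n a => a * v n) = (MvPolynomial.X i : 𝒜) ^ N := by
    intro i
    obtain ⟨N, hN⟩ := hrad i
    obtain ⟨c, hc⟩ := (Finsupp.mem_ideal_span_range_iff_exists_finsupp).1 hN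
    exact ⟨N, c, hc⟩
  choose N c hc using hex
  let Z : Finset F0 := Finset.univ.biUnion (fun i : ι => (c i).support.biUnion
    (fun n => ((c i) n).coeffs))
  refine ⟨Z, ?_⟩
  intro T _ iT hinj hZ PT hPT Ω _ φ q hq hzero
  -- lift the identities
  have hlift : ∀ i : ι, ∀ n, ∃ a : MvPolynomial ι T,
      MvPolynomial.map iT a = MvPolynomial.map (algebraMap F0 M) ((c i) n) := by
    intro i n
    apply mv_lift
    intro e
    rw [MvPolynomial.coeff_map]
    by_cases h0 : ((c i) n).coeff e = 0
    · rw [h0, map_zero]; exact zero_mem _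
    · apply hZ
      refine Finset.mem_biUnion.2 ⟨i, Finset.mem_univ _, Finset.mem_biUnion.2 ⟨n, ?_, ?_⟩⟩
      · rw [Finsupp.mem_support_iff]
        intro h1
        rw [h1] at h0
        exact h0 (MvPolynomial.coeff_zero _)
      · rw [MvPolynomial.mem_coeffs_iff]
        exact ⟨e, MvPolynomial.mem_support_iff.2 h0, rfl⟩
  choose a ha using hlift
  let gT : MvPolynomial σ (MvPolynomial ι T) := res (PT.map (MvPolynomial.map MvPolynomial.C))
    (fun i : ι => (MvPolynomial.X i : MvPolynomial ι T))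
  have hgT : ∀ n, MvPolynomial.map iT (gT.coeff n) =
      MvPolynomial.map (algebraMap F0 M) (g.coeff n) := by
    intro n
    rw [← MvPolynomial.coeff_map, ← MvPolynomial.coeff_map]
    congr 1
    simp only [gT, g]
    rw [← res_map, ← res_map]
    simp only [MvPolynomial.map_X]
    congr 1
    rw [Polynomial.map_map, Polynomial.map_map]
    have e1 : (MvPolynomial.map (MvPolynomial.map iT : MvPolynomial ι T →+* MvPolynomial ι M)).comp
        (MvPolynomial.map MvPolynomial.C) =
        (MvPolynomial.map (MvPolynomial.C : M →+* MvPolynomial ι M)).comp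
          (MvPolynomial.map iT : MvPolynomial σ T →+* MvPolynomial σ M) := by
      ext a
      · simp
      · simp
    have e2 : (MvPolynomial.map (MvPolynomial.map (algebraMap F0 M) :
        MvPolynomial ι F0 →+* MvPolynomial ι M)).comp
        (MvPolynomial.map MvPolynomial.C) =
        (MvPolynomial.map (MvPolynomial.C : M →+* MvPolynomial ι M)).comp
          (MvPolynomial.map (algebraMap F0 M) : MvPolynomial σ F0 →+* MvPolynomial σ M) := by
      ext a
      · simp
      · simp
    rw [e1, e2, ← Polynomial.map_map, ← Polynomial.map_map, hPT]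
  have hid : ∀ i : ι, ∑ n ∈ (c i).support, a i n * gT.coeff n =
      (MvPolynomial.X i : MvPolynomial ι T) ^ (N i) := by
    intro i
    apply MvPolynomial.map_injective iT hinj
    rw [map_sum, map_pow, MvPolynomial.map_X]
    have h1 := congrArg (MvPolynomial.map (algebraMap F0 M)) (hc i)
    rw [Finsupp.sum, map_sum, map_pow, MvPolynomial.map_X] at h1
    rw [← h1]
    refine Finset.sum_congr rfl fun n _ => ?_
    rw [map_mul, map_mul, ha, hgT]
  -- specialize
  let ψ : MvPolynomial ι T →+* Ω := MvPolynomial.eval₂Hom φ q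
  have hψ : MvPolynomial.map ψ gT = res (PT.map (MvPolynomial.map φ)) q := by
    simp only [gT]
    rw [← res_map, Polynomial.map_map]
    have e1 : (MvPolynomial.map ψ).comp (MvPolynomial.map MvPolynomial.C) =
        (MvPolynomial.map φ : MvPolynomial σ T →+* MvPolynomial σ Ω) := by
      ext a
      · simp [ψ]
      · simp
    rw [e1]
    congr 1
    funext i
    simp [ψ]
  apply hq
  funext i
  have h1 := congrArg ψ (hid i)
  rw [map_sum, map_pow] at h1
  have h2 : ψ (MvPolynomial.X i) = q i := by simp [ψ]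
  rw [h2, Finset.sum_eq_zero] at h1
  · exact eq_zero_of_pow_eq_zero h1.symm
  · intro n _
    rw [map_mul]
    have h3 : ψ (gT.coeff n) = 0 := by
      rw [← MvPolynomial.coeff_map, hψ, hzero, MvPolynomial.coeff_zero]
    rw [h3, mul_zero]

/-- the monomials of the resultants -/
theorem res_support {R : Type} [CommRing R] {m D : ℕ} (P : (MvPolynomial σ R)[X]) :
    ∃ S0 : Finset (σ →₀ ℕ), ∀ (T : Type) [CommRing T] (iT : T →+* R), Function.Injective iT →
      ∀ PT : (MvPolynomial σ T)[X], PT.map (MvPolynomial.map iT) = P →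
        ∀ (Ω : Type) [Field Ω] (φ : T →+* Ω) (q : (σ → Fin (m + 1)) × Fin D → Ω),
          (res (PT.map (MvPolynomial.map φ)) q).support ⊆ S0 := by
  classical
  let ι := (σ → Fin (m + 1)) × Fin D
  let g : MvPolynomial σ (MvPolynomial ι R) := res (P.map (MvPolynomial.map MvPolynomial.C))
    (fun i : ι => (MvPolynomial.X i : MvPolynomial ι R))
  refine ⟨g.support, ?_⟩
  intro T _ iT hinj PT hPT Ω _ φ q n hn
  let gT : MvPolynomial σ (MvPolynomial ι T) := res (PT.map (MvPolynomial.map MvPolynomial.C))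
    (fun i : ι => (MvPolynomial.X i : MvPolynomial ι T))
  have hgT : MvPolynomial.map iT (gT.coeff n) = g.coeff n := by
    rw [← MvPolynomial.coeff_map]
    congr 1
    simp only [gT, g]
    rw [← res_map]
    simp only [MvPolynomial.map_X]
    congr 1
    rw [Polynomial.map_map]
    have e1 : (MvPolynomial.map (MvPolynomial.map iT : MvPolynomial ι T →+* MvPolynomial ι R)).comp
        (MvPolynomial.map MvPolynomial.C) =
        (MvPolynomial.map (MvPolynomial.C : R →+* MvPolynomial ι R)).comp
          (MvPolynomial.map iT : MvPolynomial σ T →+* MvPolynomial σ R) := by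
      ext a
      · simp
      · simp
    rw [e1, ← Polynomial.map_map, hPT]
  let ψ : MvPolynomial ι T →+* Ω := MvPolynomial.eval₂Hom φ q
  have hψ : MvPolynomial.map ψ gT = res (PT.map (MvPolynomial.map φ)) q := by
    simp only [gT]
    rw [← res_map, Polynomial.map_map]
    have e1 : (MvPolynomial.map ψ).comp (MvPolynomial.map MvPolynomial.C) =
        (MvPolynomial.map φ : MvPolynomial σ T →+* MvPolynomial σ Ω) := by
      ext a
      · simp [ψ]
      · simp
    rw [e1]
    congr 1
    funext i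
    simp [ψ]
  rw [MvPolynomial.mem_support_iff] at hn ⊢
  intro h0
  apply hn
  rw [← hψ, MvPolynomial.coeff_map]
  have h1 : gT.coeff n = 0 := by
    apply MvPolynomial.map_injective iT hinj
    rw [hgT, h0, map_zero]
  rw [h1, map_zero]

end field

end Pool.Agent.K9h15.Cv
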