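import Mathlib
import Pool.Agent.K9h15.Cv.Hen
import Pool.Agent.K9h15.Cv.Zer

/-!
# Expansions of algebraic functions of several variables
-/

set_option autoImplicit false

open Polynomial

namespace Pool.Agent.K9h15.Cv

section alg

/-- approximate roots modulo powers of an ideal -/
theorem hensel_ideal {S : Type} [CommRing S] (I : Ideal S) (P : S[X]) (y0 v : S)
    (h0 : P.eval y0 ∈ I) (hv : v * P.derivative.eval y0 - 1 ∈ I) (e : ℕ) :
    ∃ T : S, T - y0 ∈ I ∧ P.eval T ∈ I ^ e := by
  induction e with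
  | zero => exact ⟨y0, by simp, by simp⟩
  | succ e ih =>
    rcases Nat.eq_zero_or_pos e with rfl | he
    · refine ⟨y0, by simp, ?_⟩
      rw [zero_add, pow_one]
      exact h0
    obtain ⟨T, hT0, hT⟩ := ih
    have hTI : P.eval T ∈ I := Ideal.pow_le_self he.ne' hT
    refine ⟨T + (-(v * P.eval T)), ?_, ?_⟩
    · have h1 : T + (-(v * P.eval T)) - y0 = (T - y0) - v * P.eval T := by ring
      rw [h1]
      exact I.sub_mem hT0 (I.mul_mem_left _ hTI)
    · obtain ⟨k, hk⟩ := binomExpansion P T (-(v * P.eval T))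
      have h1 : v * P.derivative.eval T - 1 ∈ I := by
        have h2 : P.derivative.eval T - P.derivative.eval y0 ∈ I :=
          I.mem_of_dvd (sub_dvd_eval_sub T y0 P.derivative) hT0
        have h3 : v * P.derivative.eval T - 1 = v * (P.derivative.eval T -
            P.derivative.eval y0) + (v * P.derivative.eval y0 - 1) := by ring
        rw [h3]
        exact I.add_mem (I.mul_mem_left _ h2) hv
      have h4 : P.eval (T + (-(v * P.eval T))) =
          -(P.eval T * (v * P.derivative.eval T - 1)) + (k * v ^ 2) * (P.eval T * P.eval T) := by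
        rw [hk]; ring
      rw [h4, pow_succ]
      refine Ideal.add_mem _ ?_ ?_
      · exact Ideal.neg_mem_iff _ |>.2 (Ideal.mul_mem_mul hT h1)
      · exact Ideal.mul_mem_left _ _ (Ideal.mul_mem_mul hT hTI)

end alg

section val

variable {R : Type} [CommRing R] {ν : R → ℝ}

lemma IsSize.sum (h : IsSize ν) {ι : Type*} (s : Finset ι) (f : ι → R) (B : ℝ) (hB : 0 ≤ B)
    (hf : ∀ i ∈ s, ν (f i) ≤ B) : ν (∑ i ∈ s, f i) ≤ B := by
  classical
  induction s using Finset.induction_on with
  | empty => rw [Finset.sum_empty, h.zero]; exact hB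
  | insert a s ha ih =>
    rw [Finset.sum_insert ha]
    refine (h.add _ _).trans (max_le (hf a (Finset.mem_insert_self _ _)) ?_)
    exact ih fun i hi => hf i (Finset.mem_insert_of_mem hi)

lemma IsSize.prod (h : IsSize ν) {ι : Type*} (s : Finset ι) (f : ι → R) :
    ν (∏ i ∈ s, f i) = ∏ i ∈ s, ν (f i) := by
  classical
  induction s using Finset.induction_on with
  | empty => rw [Finset.prod_empty, Finset.prod_empty, h.one]
  | insert a s ha ih => rw [Finset.prod_insert ha, Finset.prod_insert ha, h.mul, ih]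

variable {σ : Type} [Fintype σ]

lemma IsSize.mon (h : IsSize ν) (τ : σ → R) (l : ℝ) (hτ : ∀ s, ν (τ s) ≤ l) (n : σ →₀ ℕ) :
    ν (n.prod fun s k => τ s ^ k) ≤ l ^ (n.sum fun _ k => k) := by
  rw [Finsupp.prod_fintype _ _ (fun s => pow_zero _), Finsupp.sum_fintype _ _ (fun s => rfl),
    h.prod, ← Finset.prod_pow_eq_pow_sum]
  refine Finset.prod_le_prod (fun i _ => h.nonneg _) fun i _ => ?_
  rw [h.pow]
  exact pow_le_pow_left₀ (h.nonneg _) (hτ i) _

/-- the values of the elements of the powers of the ideal of the origin -/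
lemma IsSize.pow_ideal (h : IsSize ν) (τ : σ → R) (l : ℝ) (hl0 : 0 ≤ l) (hl1 : l ≤ 1)
    (hτ : ∀ s, ν (τ s) ≤ l)
    (e : ℕ) (f : MvPolynomial σ R)
    (hf : f ∈ (RingHom.ker (MvPolynomial.constantCoeff : MvPolynomial σ R →+* R)) ^ e) :
    ν (MvPolynomial.eval τ f) ≤ l ^ e := by
  classical
  induction e generalizing f with
  | zero => rw [pow_zero]; exact h.le_one _
  | succ e ih =>
    rw [pow_succ] at hf
    refine Submodule.mul_induction_on hf ?_ ?_
    · intro a ha b hb
      rw [map_mul, h.mul, pow_succ]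
      refine mul_le_mul (ih a ha) ?_ (h.nonneg _) (pow_nonneg hl0 _)
      rw [MvPolynomial.eval_eq]
      refine h.sum _ _ _ hl0 fun n hn => ?_
      rw [h.mul]
      have hn0 : n ≠ 0 := by
        rintro rfl
        rw [RingHom.mem_ker, MvPolynomial.constantCoeff_eq] at hb
        exact (MvPolynomial.mem_support_iff.1 hn) hb
      obtain ⟨s, hs⟩ := Finsupp.ne_iff.1 hn0
      rw [Finsupp.coe_zero, Pi.zero_apply] at hs
      have h1 : ν (∏ i ∈ n.support, τ i ^ n i) ≤ l := by
        rw [h.prod]
        have h2 : ∀ i ∈ n.support, ν (τ i ^ n i) ≤ 1 := fun i _ => h.le_one _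
        have hs' : s ∈ n.support := Finsupp.mem_support_iff.2 hs
        rw [← Finset.mul_prod_erase _ _ hs']
        have h3 : ν (τ s ^ n s) ≤ l := by
          rw [h.pow]
          calc ν (τ s) ^ n s ≤ l ^ n s := pow_le_pow_left₀ (h.nonneg _) (hτ s) _
            _ ≤ l ^ 1 := pow_le_pow_of_le_one hl0 hl1 (by omega)
            _ = l := pow_one l
        have h4 : ∏ i ∈ n.support.erase s, ν (τ i ^ n i) ≤ 1 :=
          Finset.prod_le_one (fun i _ => h.nonneg _) fun i _ => h.le_one _
        calc ν (τ s ^ n s) * ∏ i ∈ n.support.erase s, ν (τ i ^ n i) ≤ l * 1 :=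
              mul_le_mul h3 h4 (Finset.prod_nonneg fun i _ => h.nonneg _) hl0
          _ = l := mul_one l
      calc ν (MvPolynomial.coeff n b) * ν (∏ i ∈ n.support, τ i ^ n i) ≤ 1 * l :=
            mul_le_mul (h.le_one _) h1 (h.nonneg _) zero_le_one
        _ = l := one_mul l
    · intro a b ha hb
      rw [map_add]
      exact (h.add _ _).trans (max_le ha hb)

/-- **Approximation of algebraic functions by polynomials.** -/
theorem hensel_approxM (h : IsSize ν) (P : (MvPolynomial σ R)[X]) (t0 : σ → R) (y0 : R)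
    (h0 : ev2 (RingHom.id R) t0 y0 P = 0)
    (hu : ν (ev2 (RingHom.id R) t0 y0 P.derivative) = 1) (e : ℕ) (l : ℝ) (hl0 : 0 ≤ l)
    (hl : l < 1) :
    ∃ T : MvPolynomial σ R, ∀ (t : σ → R) (y : R), ev2 (RingHom.id R) t y P = 0 →
      (∀ s, ν (t s - t0 s) ≤ l) → ν (y - y0) < 1 →
      ν (y - MvPolynomial.eval (fun s => t s - t0 s) T) ≤ l ^ e := by
  classical
  let I : Ideal (MvPolynomial σ R) := RingHom.ker MvPolynomial.constantCoeff
  let sh : MvPolynomial σ R →+* MvPolynomial σ R :=
    MvPolynomial.eval₂Hom MvPolynomial.C (fun s => MvPolynomial.X s + MvPolynomial.C (t0 s))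
  let Q : (MvPolynomial σ R)[X] := P.map sh
  -- evaluation of the shifted polynomial
  have hev : ∀ (F : (MvPolynomial σ R)[X]) (τ : σ → R) (T : MvPolynomial σ R),
      MvPolynomial.eval τ ((F.map sh).eval T) =
        ev2 (RingHom.id R) (fun s => τ s + t0 s) (MvPolynomial.eval τ T) F := by
    intro F τ T
    have h1 := hom_eval₂ F sh (MvPolynomial.eval τ) T
    rw [eval_map]
    refine h1.trans ?_
    unfold ev2
    rw [coe_eval₂RingHom]
    congr 1
    ext a
    · simp [sh]
    · simp [sh]
  have hcc : (MvPolynomial.constantCoeff : MvPolynomial σ R →+* R) =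
      MvPolynomial.eval (fun _ => (0 : R)) := by
    ext a
    · simp
    · simp
  have hQ0 : Q.eval (MvPolynomial.C y0) ∈ I := by
    rw [RingHom.mem_ker, hcc, hev]
    simp only [zero_add, MvPolynomial.eval_C]
    exact h0
  obtain ⟨u, hu'⟩ := h.isUnit _ hu
  have hQ1 : MvPolynomial.C (↑u⁻¹ : R) * Q.derivative.eval (MvPolynomial.C y0) - 1 ∈ I := by
    rw [RingHom.mem_ker, hcc, map_sub, map_mul, map_one, derivative_map, hev]
    simp only [zero_add, MvPolynomial.eval_C]
    rw [← hu', Units.inv_mul, sub_self]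
  obtain ⟨T, hT0, hT⟩ := hensel_ideal I Q (MvPolynomial.C y0) _ hQ0 hQ1 e
  refine ⟨T, ?_⟩
  intro t y hty ht hy
  set τ : σ → R := fun s => t s - t0 s with hτ
  have hτt : (fun s => τ s + t0 s) = t := by funext s; simp [hτ]
  set z := MvPolynomial.eval τ T with hz
  have h1 : ν (z - y0) < 1 := by
    have h2 := h.pow_ideal τ l hl0 hl.le ht 1 (T - MvPolynomial.C y0) (by rw [pow_one]; exact hT0)
    rw [map_sub, MvPolynomial.eval_C, pow_one] at h2
    exact lt_of_le_of_lt h2 hl
  have h2 : ν (z - y) < 1 := by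
    have : z - y = (z - y0) - (y - y0) := by ring
    rw [this]
    exact lt_of_le_of_lt (h.sub _ _) (max_lt h1 hy)
  have h3 : ν (ev2 (RingHom.id R) t z P) ≤ l ^ e := by
    have h4 := h.pow_ideal τ l hl0 hl.le ht e _ hT
    rw [hev, hτt] at h4
    exact h4
  -- the specialized polynomial
  let F : R[X] := P.map (MvPolynomial.eval t)
  have hF : ∀ (G : (MvPolynomial σ R)[X]) (a : σ → R) (b : R),
      ev2 (RingHom.id R) a b G = (G.map (MvPolynomial.eval a)).eval b := by
    intro G a b
    unfold ev2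
    rw [coe_eval₂RingHom, eval_map]
    rfl
  have h4 : F.eval y = 0 := by rw [← hty, hF]
  obtain ⟨k, hk⟩ := binomExpansion F y (z - y)
  have h5 : ev2 (RingHom.id R) t z P = F.derivative.eval y * (z - y) + k * (z - y) ^ 2 := by
    rw [hF]
    have h6 := hk
    rw [h4, zero_add, add_sub_cancel] at h6
    exact h6
  have h6 : ν (F.derivative.eval y) = 1 := by
    rw [← hu]
    apply h.eq_of_lt
    rw [hu]
    have h7 : ev2 (RingHom.id R) t0 y0 P.derivative - F.derivative.eval y =
        -(F.derivative.eval y - F.derivative.eval y0) - (MvPolynomial.eval τ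
          ((P.derivative.map sh).eval (MvPolynomial.C y0) -
            MvPolynomial.C (ev2 (RingHom.id R) t0 y0 P.derivative))) := by
      have h8 : F.derivative.eval y0 = ev2 (RingHom.id R) t y0 P.derivative := by
        rw [hF, derivative_map]
      rw [map_sub, hev, hτt, MvPolynomial.eval_C, MvPolynomial.eval_C, ← h8]
      ring
    rw [h7]
    refine lt_of_le_of_lt (h.sub _ _) (max_lt ?_ ?_)
    · rw [h.neg]
      exact lt_of_le_of_lt (h.eval_sub _ _ _) hy
    · have h9 := h.pow_ideal τ l hl0 hl.le ht 1 ((P.derivative.map sh).eval (MvPolynomial.C y0) -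
            MvPolynomial.C (ev2 (RingHom.id R) t0 y0 P.derivative)) (by
          rw [pow_one, RingHom.mem_ker, hcc, map_sub, hev]
          simp only [zero_add, MvPolynomial.eval_C, sub_self])
      rw [pow_one] at h9
      exact lt_of_le_of_lt h9 hl
  have h7 : ν (F.derivative.eval y + k * (z - y)) = 1 := by
    rw [← h6]
    apply h.eq_of_lt
    rw [h6]
    have : F.derivative.eval y - (F.derivative.eval y + k * (z - y)) = -(k * (z - y)) := by ring
    rw [this, h.neg]
    exact lt_of_le_of_lt (h.dvd (dvd_mul_left _ _)) h2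
  have h8 : ν (ev2 (RingHom.id R) t z P) = ν (z - y) := by
    have : ev2 (RingHom.id R) t z P = (z - y) * (F.derivative.eval y + k * (z - y)) := by
      rw [h5]; ring
    rw [this, h.mul, h7, mul_one]
  have h9 : y - z = -(z - y) := by ring
  rw [h9, h.neg, ← h8]
  exact h3

end val

section det

variable {R : Type} [CommRing R] {ν : R → ℝ}

lemma IsSize.det (h : IsSize ν) {ι : Type} [Fintype ι] [DecidableEq ι] (A : Matrix ι ι R)
    (b : ι → ℝ) (hb : ∀ c, 0 ≤ b c) (hA : ∀ c a, ν (A c a) ≤ b c) : ν A.det ≤ ∏ c, b c := by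
  rw [Matrix.det_apply]
  refine h.sum _ _ _ (Finset.prod_nonneg fun c _ => hb c) fun p _ => ?_
  have h1 : ν (Equiv.Perm.sign p • ∏ i, A (p i) i) = ν (∏ i, A (p i) i) := by
    rcases Int.units_eq_one_or (Equiv.Perm.sign p) with h2 | h2
    · rw [h2, one_smul]
    · rw [h2, Units.neg_smul, one_smul, h.neg]
  rw [h1, h.prod]
  calc ∏ i, ν (A (p i) i) ≤ ∏ i, b (p i) :=
        Finset.prod_le_prod (fun i _ => h.nonneg _) fun i _ => hA _ _
    _ = ∏ c, b c := Equiv.prod_comp p b

/-- sums of the degrees of distinct monomials -/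
lemma sum_deg_ge {σ ι : Type} [Fintype σ] [Fintype ι] (κ : ι → (σ →₀ ℕ))
    (hκ : Function.Injective κ) (h : ℕ) :
    (Fintype.card ι - h ^ Fintype.card σ) * h ≤ ∑ c, (κ c).sum (fun _ k => k) := by
  classical
  let S : Finset ι := Finset.univ.filter (fun c => (κ c).sum (fun _ k => k) < h)
  have h1 : S.card ≤ h ^ Fintype.card σ := by
    have h2 : S.card ≤ (Fintype.piFinset (fun _ : σ => Finset.range h)).card := by
      refine Finset.card_le_card_of_injOn (fun c s => κ c s) ?_ ?_
      · intro c hc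
        have hc' := (Finset.mem_filter.1 (Finset.mem_coe.1 hc)).2
        rw [Finset.mem_coe, Fintype.mem_piFinset]
        intro s
        rw [Finset.mem_range]
        refine lt_of_le_of_lt ?_ hc'
        rw [Finsupp.sum_fintype _ _ (fun s => rfl)]
        exact Finset.single_le_sum (f := fun s => κ c s) (fun i _ => Nat.zero_le _)
          (Finset.mem_univ s)
      · intro c _ c' _ hcc
        apply hκ
        ext s
        exact congrFun hcc s
    rw [Fintype.card_piFinset, Finset.prod_const, Finset.card_range, Finset.card_univ] at h2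
    exact h2
  have h2 : (Finset.univ.filter (fun c => ¬ (κ c).sum (fun _ k => k) < h)).card =
      Fintype.card ι - S.card := by
    rw [Finset.filter_not, Finset.card_sdiff_of_subset (Finset.filter_subset _ _),
      Finset.card_univ]
  calc (Fintype.card ι - h ^ Fintype.card σ) * h ≤ (Fintype.card ι - S.card) * h := by gcongr
    _ = ∑ _c ∈ Finset.univ.filter (fun c => ¬ (κ c).sum (fun _ k => k) < h), h := by
        rw [Finset.sum_const, h2, smul_eq_mul]
    _ ≤ ∑ c ∈ Finset.univ.filter (fun c => ¬ (κ c).sum (fun _ k => k) < h),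
          (κ c).sum (fun _ k => k) := by
        refine Finset.sum_le_sum fun c hc => ?_
        exact not_lt.1 (Finset.mem_filter.1 hc).2
    _ ≤ _ := Finset.sum_le_univ_sum_of_nonneg (fun _ => Nat.zero_le _)

/-- determinants of the values of polynomials at close points -/
lemma det_exact (h : IsSize ν) {σ ι : Type} [Fintype σ] [Fintype ι] [DecidableEq ι]
    (f : ι → MvPolynomial σ R) (τ : ι → σ → R) (l : ℝ) (hl0 : 0 ≤ l) (hl1 : l ≤ 1)
    (hτ : ∀ a s, ν (τ a s) ≤ l) (n : ℕ) :
    ν (Matrix.of (fun c a => MvPolynomial.eval (τ a) (f c))).det ≤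
      l ^ ((Fintype.card ι - n ^ Fintype.card σ) * n) := by
  classical
  let N : Finset (σ →₀ ℕ) := Finset.univ.biUnion (fun c => (f c).support)
  let g : ι → N → (ι → R) := fun c e a => (f c).coeff e * ((e : σ →₀ ℕ).prod fun s k => τ a s ^ k)
  have h1 : ∀ c, (fun a => MvPolynomial.eval (τ a) (f c)) = ∑ e : N, g c e := by
    intro c
    funext a
    rw [Finset.sum_apply, MvPolynomial.eval_eq]
    simp only [g]
    rw [Finset.sum_coe_sort N (fun e => (f c).coeff e * (e.prod fun s k => τ a s ^ k))]
    refine (Finset.sum_subset ?_ ?_)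
    · intro e he
      exact Finset.mem_biUnion.2 ⟨c, Finset.mem_univ _, he⟩
    · intro e _ he
      rw [MvPolynomial.notMem_support_iff.1 he, zero_mul]
  have h2 : (Matrix.of (fun c a => MvPolynomial.eval (τ a) (f c))).det =
      ∑ r : ι → N, (Matrix.of fun c => g c (r c)).det := by
    have h3 := (Matrix.detRowAlternating (R := R) (n := ι)).toMultilinearMap.map_sum g
    have h4 : (fun c => ∑ e : N, g c e) = fun c a => MvPolynomial.eval (τ a) (f c) := by
      funext c
      exact (h1 c).symm
    rw [h4] at h3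
    exact h3
  rw [h2]
  refine h.sum _ _ _ (pow_nonneg hl0 _) fun r _ => ?_
  -- pull out the coefficients
  have h5 : (Matrix.of fun c => g c (r c)).det = (∏ c, (f c).coeff (r c)) *
      (Matrix.of fun c a => ((r c : σ →₀ ℕ).prod fun s k => τ a s ^ k)).det := by
    rw [← Matrix.det_mul_column]
    rfl
  rw [h5, h.mul]
  have h6 : ν (Matrix.of fun c a => ((r c : σ →₀ ℕ).prod fun s k => τ a s ^ k)).det ≤
      l ^ ((Fintype.card ι - n ^ Fintype.card σ) * n) := by
    by_cases hr : Function.Injective r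
    · refine (h.det _ (fun c => l ^ ((r c : σ →₀ ℕ).sum fun _ k => k)) (fun c => pow_nonneg hl0 _)
        (fun c a => h.mon (τ a) l (hτ a) _)).trans ?_
      rw [Finset.prod_pow_eq_pow_sum]
      refine pow_le_pow_of_le_one hl0 hl1 ?_
      exact sum_deg_ge (fun c => (r c : σ →₀ ℕ)) (fun c c' hcc => hr (Subtype.ext hcc)) n
    · simp only [Function.Injective, not_forall] at hr
      obtain ⟨c, c', hcc, hne⟩ := hr
      rw [Matrix.det_zero_of_row_eq hne (by funext a; simp [hcc]), h.zero]
      exact pow_nonneg hl0 _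
  calc ν (∏ c, (f c).coeff (r c)) *
      ν (Matrix.of fun c a => ((r c : σ →₀ ℕ).prod fun s k => τ a s ^ k)).det
      ≤ 1 * l ^ ((Fintype.card ι - n ^ Fintype.card σ) * n) :=
        mul_le_mul (h.le_one _) h6 (h.nonneg _) zero_le_one
    _ = _ := one_mul _

/-- determinants of approximations -/
lemma det_approx (h : IsSize ν) {ι : Type} [Fintype ι] [DecidableEq ι] (A B : Matrix ι ι R)
    (b : ℝ) (hb : 0 ≤ b) (hAB : ∀ c a, ν (A c a - B c a) ≤ b) : ν (A.det - B.det) ≤ b := by
  classical
  -- the ideal of the elements of size at most b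
  let J : Ideal R :=
    { carrier := {x | ν x ≤ b}
      add_mem' := fun {x y} hx hy => (h.add x y).trans (max_le hx hy)
      zero_mem' := by
        change ν 0 ≤ b
        rw [h.zero]
        exact hb
      smul_mem' := fun c x hx => by
        change ν (c * x) ≤ b
        exact (h.dvd (dvd_mul_left x c)).trans hx }
  have hJ : ∀ x, x ∈ J ↔ ν x ≤ b := fun x => Iff.rfl
  rw [← hJ, ← Ideal.Quotient.eq, RingHom.map_det, RingHom.map_det]
  congr 1
  ext c a
  rw [RingHom.mapMatrix_apply, RingHom.mapMatrix_apply, Matrix.map_apply, Matrix.map_apply,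
    Ideal.Quotient.eq, hJ]
  exact hAB c a

end det

end Pool.Agent.K9h15.Cv
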