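import Mathlib
import Pool.Agent.K9h15.Pla
import Pool.Agent.K9h15.Cv.HenM

/-!
# Determinants of monomials at points which are close at a place
-/

set_option autoImplicit false

open Polynomial IsDedekindDomain NumberField

namespace Pool.Agent.K9h15.Cv

open Pool.Agent.K9h15.Pla

section ring

variable {R : Type} [CommRing R] {ν : R → ℝ}

/-- the matrix of the monomials -/
noncomputable def mm {A σ : Type} [CommRing A] [Fintype σ] {m D : ℕ} {β : Type} (x : β → σ → A)
    (y : β → A) : Matrix ((σ → Fin (m + 1)) × Fin D) β A :=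
  Matrix.of fun c a => (∏ s, x a s ^ (c.1 s : ℕ)) * y a ^ (c.2 : ℕ)

lemma loc_size (h : IsSize ν) {σ : Type} [Fintype σ] [DecidableEq σ] {m D : ℕ}
    (P : (MvPolynomial σ R)[X]) (x0 : σ → R) (y0 : R) (h0 : ev2 (RingHom.id R) x0 y0 P = 0)
    (hu : ν (ev2 (RingHom.id R) x0 y0 P.derivative) = 1) (l : ℝ) (hl0 : 0 ≤ l) (hl : l < 1)
    (x : (σ → Fin (m + 1)) × Fin D → σ → R) (y : (σ → Fin (m + 1)) × Fin D → R)
    (hP : ∀ a, ev2 (RingHom.id R) (x a) (y a) P = 0) (hx : ∀ a s, ν (x a s - x0 s) ≤ l)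
    (hy : ∀ a, ν (y a - y0) < 1) (n : ℕ) :
    ν (mm x y).det ≤
      l ^ ((Fintype.card ((σ → Fin (m + 1)) × Fin D) - n ^ Fintype.card σ) * n) := by
  classical
  set E := (Fintype.card ((σ → Fin (m + 1)) × Fin D) - n ^ Fintype.card σ) * n with hE
  obtain ⟨T, hT⟩ := hensel_approxM h P x0 y0 h0 hu E l hl0 hl
  let τ : (σ → Fin (m + 1)) × Fin D → σ → R := fun a s => x a s - x0 s
  let f : (σ → Fin (m + 1)) × Fin D → MvPolynomial σ R := fun c =>
    (∏ s, (MvPolynomial.X s + MvPolynomial.C (x0 s)) ^ (c.1 s : ℕ)) * T ^ (c.2 : ℕ)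
  have hf : ∀ c a, MvPolynomial.eval (τ a) (f c) =
      (∏ s, x a s ^ (c.1 s : ℕ)) * (MvPolynomial.eval (τ a) T) ^ (c.2 : ℕ) := by
    intro c a
    simp only [f]
    rw [map_mul, map_prod, map_pow]
    congr 1
    refine Finset.prod_congr rfl fun s _ => ?_
    rw [map_pow, map_add, MvPolynomial.eval_X, MvPolynomial.eval_C]
    simp [τ]
  have h1 := det_exact h f τ l hl0 hl.le hx n
  rw [← hE] at h1
  have h2 := det_approx h (mm x y) (Matrix.of (fun c a => MvPolynomial.eval (τ a) (f c))) (l ^ E)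
    (pow_nonneg hl0 _) (by
      intro c a
      simp only [mm, Matrix.of_apply]
      rw [hf, ← mul_sub]
      refine (h.dvd (dvd_mul_left _ _)).trans ((h.dvd (sub_dvd_pow_sub_pow _ _ _)).trans ?_)
      exact hT (x a) (y a) (hP a) (hx a) (hy a))
  have h3 : (mm x y).det = ((mm x y).det -
      (Matrix.of (fun c a => MvPolynomial.eval (τ a) (f c))).det) +
      (Matrix.of (fun c a => MvPolynomial.eval (τ a) (f c))).det := by ring
  rw [h3]
  exact (h.add _ _).trans (max_le h2 h1)

end ring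

section field

variable {K : Type} [Field K] [NumberField K]

/-- the valuation ring of a prime -/
def oR (w : HeightOneSpectrum (𝓞 K)) : Subring K where
  carrier := {x | av w x ≤ 1}
  mul_mem' := fun {x y} hx hy => by
    change av w (x * y) ≤ 1
    rw [map_mul]
    exact mul_le_one₀ hx (apply_nonneg _ _) hy
  one_mem' := by
    change av w 1 ≤ 1
    rw [map_one]
  add_mem' := fun {x y} hx hy => (av_nonarch w x y).trans (max_le hx hy)
  zero_mem' := by
    change av w 0 ≤ 1
    rw [map_zero]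
    exact zero_le_one
  neg_mem' := fun {x} hx => by
    change av w (-x) ≤ 1
    rw [(av w).map_neg]
    exact hx

lemma mem_oR {w : HeightOneSpectrum (𝓞 K)} {x : K} : x ∈ oR w ↔ av w x ≤ 1 := Iff.rfl

lemma isSize_oR (w : HeightOneSpectrum (𝓞 K)) : IsSize (fun x : oR w => av w (x : K)) where
  mul := fun x y => map_mul (av w) (x : K) (y : K)
  add := fun x y => av_nonarch w (x : K) (y : K)
  neg := fun x => (av w).map_neg (x : K)
  zero := map_zero (av w)
  one := map_one (av w)
  nonneg := fun x => apply_nonneg _ _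
  le_one := fun x => x.2
  isUnit := fun x hx => by
    have hx' : av w (x : K) = 1 := hx
    have hx0 : (x : K) ≠ 0 := by
      intro h
      rw [h, map_zero] at hx'
      exact zero_ne_one hx'
    have hi : av w ((x : K)⁻¹) ≤ 1 := by rw [map_inv₀, hx', inv_one]
    refine IsUnit.of_mul_eq_one ⟨(x : K)⁻¹, hi⟩ ?_
    apply Subtype.ext
    exact mul_inv_cancel₀ hx0

/-- **The local estimate.** -/
theorem loc_det (w : HeightOneSpectrum (𝓞 K)) {σ : Type} [Fintype σ] [DecidableEq σ] {m D : ℕ}
    (P : (MvPolynomial σ K)[X]) (hPi : ∀ j e, av w ((P.coeff j).coeff e) ≤ 1)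
    (x0 : σ → K) (y0 : K) (hx0 : ∀ s, av w (x0 s) ≤ 1) (hy0 : av w y0 ≤ 1)
    (h0 : ev2 (RingHom.id K) x0 y0 P = 0)
    (hu : av w (ev2 (RingHom.id K) x0 y0 P.derivative) = 1) (l : ℝ) (hl0 : 0 ≤ l) (hl : l < 1)
    (x : (σ → Fin (m + 1)) × Fin D → σ → K) (y : (σ → Fin (m + 1)) × Fin D → K)
    (hP : ∀ a, ev2 (RingHom.id K) (x a) (y a) P = 0) (hx : ∀ a s, av w (x a s - x0 s) ≤ l)
    (hy : ∀ a, av w (y a - y0) < 1) (n : ℕ) :
    av w (mm x y).det ≤
      l ^ ((Fintype.card ((σ → Fin (m + 1)) × Fin D) - n ^ Fintype.card σ) * n) := by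
  have hna := av_nonarch w
  have hx1 : ∀ a s, x a s ∈ oR w := by
    intro a s
    have h1 : x a s = (x a s - x0 s) + x0 s := by ring
    rw [mem_oR, h1]
    exact (hna _ _).trans (max_le ((hx a s).trans hl.le) (hx0 s))
  have hy1 : ∀ a, y a ∈ oR w := by
    intro a
    have h1 : y a = (y a - y0) + y0 := by ring
    rw [mem_oR, h1]
    exact (hna _ _).trans (max_le (hy a).le hy0)
  obtain ⟨Q, hQ⟩ := poly_lift (oR w).subtype P (fun j e => ⟨⟨_, hPi j e⟩, rfl⟩)
  have hinj : Function.Injective (oR w).subtype := Subtype.val_injective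
  have hev : ∀ (F : (MvPolynomial σ (oR w))[X]) (a : σ → oR w) (b : oR w),
      ((ev2 (RingHom.id (oR w)) a b F : oR w) : K) = ev2 (RingHom.id K) (fun s => (a s : K)) b
        (F.map (MvPolynomial.map (oR w).subtype)) := by
    intro F a b
    rw [ev2_map]
    have h1 := ev2_comp (RingHom.id (oR w)) (oR w).subtype a b F
    exact h1
  have hdet := loc_size (isSize_oR w) Q (fun s => ⟨x0 s, hx0 s⟩) ⟨y0, hy0⟩ (by
      apply hinj
      have h1 := hev Q (fun s => ⟨x0 s, hx0 s⟩) ⟨y0, hy0⟩
      rw [hQ] at h1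
      exact h1.trans h0) (by
      have h1 := hev Q.derivative (fun s => ⟨x0 s, hx0 s⟩) ⟨y0, hy0⟩
      rw [← derivative_map, hQ] at h1
      change av w ((ev2 (RingHom.id (oR w)) (fun s => ⟨x0 s, hx0 s⟩) ⟨y0, hy0⟩ Q.derivative :
        oR w) : K) = 1
      rw [h1]
      exact hu) l hl0 hl (fun a s => ⟨x a s, hx1 a s⟩) (fun a => ⟨y a, hy1 a⟩) (by
      intro a
      apply hinj
      have h1 := hev Q (fun s => ⟨x a s, hx1 a s⟩) ⟨y a, hy1 a⟩
      rw [hQ] at h1
      exact h1.trans (hP a)) (fun a s => hx a s) (fun a => hy a) n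
  have h2 : (((mm (m := m) (D := D) (fun a s => (⟨x a s, hx1 a s⟩ : oR w))
      (fun a => ⟨y a, hy1 a⟩)).det : oR w) : K) = (mm x y).det := by
    have h3 := RingHom.map_det (oR w).subtype (mm (m := m) (D := D)
      (fun a s => (⟨x a s, hx1 a s⟩ : oR w)) (fun a => ⟨y a, hy1 a⟩))
    refine h3.trans ?_
    congr 1
    ext c a
    rw [RingHom.mapMatrix_apply, Matrix.map_apply]
    simp only [mm, Matrix.of_apply]
    rw [map_mul, map_prod, map_pow]
    rfl
  rw [← h2]
  exact hdet

end field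

section rank

variable {K : Type} [Field K]

/-- if all maximal minors vanish, then there is a linear relation -/
theorem rel_of_minors {ι β : Type} [Fintype ι] [DecidableEq ι] (r : β → ι → K)
    (h : ∀ a : ι → β, (Matrix.of fun c b => r (a b) c).det = 0) :
    ∃ q : ι → K, q ≠ 0 ∧ ∀ b, ∑ c, q c * r b c = 0 := by
  classical
  by_cases hs : Submodule.span K (Set.range r) = ⊤
  · exfalso
    obtain ⟨s, hs1, hs2⟩ : ∃ s ⊆ Set.range r, ∃ b : Module.Basis s K (ι → K), ∀ i, b i = i.1 := by
      obtain ⟨s, hs1, hs2, hs3⟩ := exists_linearIndependent K (Set.range r)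
      refine ⟨s, hs1, Module.Basis.mk hs3 ?_, fun i => ?_⟩
      · rw [Subtype.range_coe, hs2, hs]
      · rw [Module.Basis.mk_apply]
    obtain ⟨b, hb⟩ := hs2
    have hfin : Finite s := Module.Finite.finite_basis b
    have := Fintype.ofFinite s
    have hcard : Fintype.card s = Fintype.card ι := by
      rw [← Module.finrank_eq_card_basis b, Module.finrank_fintype_fun_eq_card]
    let e : ι ≃ s := Fintype.equivOfCardEq hcard.symm
    choose a ha using fun i : ι => hs1 (e i).2
    have h1 := h a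
    have hli : LinearIndependent K (fun i : ι => r (a i)) := by
      have h2 : (fun i : ι => r (a i)) = (b.reindex e.symm) := by
        funext i
        rw [Module.Basis.reindex_apply, Equiv.symm_symm, hb]
        exact ha i
      rw [h2]
      exact (b.reindex e.symm).linearIndependent
    have h3 : (Matrix.of fun c b => r (a b) c) = (Matrix.of fun b c => r (a b) c).transpose := rfl
    rw [h3, Matrix.det_transpose] at h1
    have h4 : IsUnit (Matrix.of fun b c => r (a b) c) := by
      rw [← Matrix.linearIndependent_rows_iff_isUnit]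
      exact hli
    rw [Matrix.isUnit_iff_isUnit_det, h1] at h4
    exact not_isUnit_zero h4
  · obtain ⟨f, hf0, hf⟩ := Submodule.exists_le_ker_of_lt_top _ (lt_top_iff_ne_top.2 hs)
    refine ⟨fun c => f (Pi.single c 1), ?_, ?_⟩
    · intro h0
      apply hf0
      apply (Pi.basisFun K ι).ext
      intro c
      rw [Pi.basisFun_apply, LinearMap.zero_apply]
      exact congrFun h0 c
    · intro b
      have h1 : f (r b) = 0 := hf (Submodule.subset_span ⟨b, rfl⟩)
      rw [← h1]
      conv_rhs => rw [← Finset.univ_sum_single (r b), map_sum]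
      refine Finset.sum_congr rfl fun c _ => ?_
      have h2 : Pi.single c (r b c) = (r b c) • (Pi.single c (1 : K) : ι → K) := by
        rw [← Pi.single_smul, smul_eq_mul, mul_one]
      rw [h2, map_smul, smul_eq_mul, mul_comm]

end rank

end Pool.Agent.K9h15.Cv
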