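import Mathlib
import Pool.Agent.K9h15.Bad
import Pool.Agent.K9h15.Tow
import Pool.Agent.K9h15.Cv.Loc

/-!
# Coverings by few subsets, good primes, residue classes
-/

set_option autoImplicit false

open Polynomial IsDedekindDomain NumberField Height

namespace Pool.Agent.K9h15.Cv

open Pool.Agent.K9h15.Tow (cnt cnt_eq)
open Pool.Agent.K9h15.Pla

section cov

variable {ι : Type}

/-- a covering by at most `κ` good subsets -/
def Cov (good : Finset ι → Prop) (Ψ : Finset ι) (κ : ℝ) : Prop :=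
  ∃ S : Finset (Finset ι), ((S.card : ℕ) : ℝ) ≤ κ ∧ (∀ X ∈ S, X ⊆ Ψ ∧ good X) ∧
    ∀ s ∈ Ψ, ∃ X ∈ S, s ∈ X

lemma Cov.of_good {good : Finset ι → Prop} {Ψ : Finset ι} (h : good Ψ) : Cov good Ψ 1 := by
  classical
  refine ⟨{Ψ}, by simp, ?_, ?_⟩
  · intro X hX
    rw [Finset.mem_singleton] at hX
    rw [hX]
    exact ⟨subset_rfl, h⟩
  · intro s hs
    exact ⟨Ψ, Finset.mem_singleton_self _, hs⟩

lemma Cov.mono {good : Finset ι → Prop} {Ψ : Finset ι} {κ κ' : ℝ} (h : Cov good Ψ κ)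
    (hκ : κ ≤ κ') : Cov good Ψ κ' := by
  obtain ⟨S, h1, h2, h3⟩ := h
  exact ⟨S, h1.trans hκ, h2, h3⟩

lemma Cov.fibre {good : Finset ι → Prop} {Ψ : Finset ι} {A : Type*} (α : ι → A) {κ : ℝ}
    (h : ∀ s ∈ Ψ, ∀ Ψ' : Finset ι, (∀ s' ∈ Ψ', s' ∈ Ψ ∧ α s' = α s) → Cov good Ψ' κ) :
    Cov good Ψ (cnt Ψ α * κ) := by
  classical
  have h1 : ∀ a : A, ∃ S : Finset (Finset ι), a ∈ Ψ.image α → (((S.card : ℕ) : ℝ) ≤ κ ∧
      (∀ X ∈ S, X ⊆ Ψ.filter (fun s' => α s' = a) ∧ good X) ∧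
        ∀ s ∈ Ψ.filter (fun s' => α s' = a), ∃ X ∈ S, s ∈ X) := by
    intro a
    by_cases ha : a ∈ Ψ.image α
    · obtain ⟨s, hs, rfl⟩ := Finset.mem_image.1 ha
      obtain ⟨S, hS⟩ := h s hs (Ψ.filter (fun s' => α s' = α s))
        (fun s' hs' => Finset.mem_filter.1 hs')
      exact ⟨S, fun _ => hS⟩
    · exact ⟨∅, fun h => absurd h ha⟩
  choose S hS using h1
  refine ⟨(Ψ.image α).biUnion S, ?_, ?_, ?_⟩
  · have h2 : (((Ψ.image α).biUnion S).card : ℝ) ≤ ∑ a ∈ Ψ.image α, ((S a).card : ℝ) := by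
      exact_mod_cast Finset.card_biUnion_le
    refine h2.trans ?_
    rw [cnt_eq]
    calc ∑ a ∈ Ψ.image α, ((S a).card : ℝ) ≤ ∑ _a ∈ Ψ.image α, κ :=
          Finset.sum_le_sum fun a ha => (hS a ha).1
      _ = _ := by rw [Finset.sum_const, nsmul_eq_mul]
  · intro X hX
    obtain ⟨a, ha, hX⟩ := Finset.mem_biUnion.1 hX
    obtain ⟨h3, h4⟩ := (hS a ha).2.1 X hX
    exact ⟨h3.trans (Finset.filter_subset _ _), h4⟩
  · intro s hs
    have ha : α s ∈ Ψ.image α := Finset.mem_image_of_mem _ hs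
    obtain ⟨X, hX, hsX⟩ := (hS (α s) ha).2.2 s (Finset.mem_filter.2 ⟨hs, rfl⟩)
    exact ⟨X, Finset.mem_biUnion.2 ⟨α s, ha, hX⟩, hsX⟩

lemma cnt_prod_le {A B : Type*} (Ψ : Finset ι) (α : ι → A) (β : ι → B) :
    cnt Ψ (fun s => (α s, β s)) ≤ cnt Ψ α * cnt Ψ β := by
  classical
  rw [cnt_eq, cnt_eq, cnt_eq, ← Finset.card_product]
  apply Finset.card_le_card
  intro x hx
  obtain ⟨s, hs, rfl⟩ := Finset.mem_image.1 hx
  exact Finset.mem_product.2 ⟨Finset.mem_image_of_mem _ hs, Finset.mem_image_of_mem _ hs⟩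

/-- counting in a covering -/
lemma Cov.cnt_le {good : Finset ι → Prop} {Ψ : Finset ι} {κ : ℝ} (h : Cov good Ψ κ) {B : Type*}
    (β : ι → B) (n : ℝ) (hn : 0 ≤ n) (hX : ∀ X ⊆ Ψ, good X → (cnt X β : ℝ) ≤ n) :
    (cnt Ψ β : ℝ) ≤ κ * n := by
  classical
  obtain ⟨S, h1, h2, h3⟩ := h
  have h4 : Ψ.image β ⊆ S.biUnion (fun X => X.image β) := by
    intro b hb
    obtain ⟨s, hs, rfl⟩ := Finset.mem_image.1 hb
    obtain ⟨X, hXS, hsX⟩ := h3 s hs
    exact Finset.mem_biUnion.2 ⟨X, hXS, Finset.mem_image_of_mem _ hsX⟩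
  have h5 := (Finset.card_le_card h4).trans Finset.card_biUnion_le
  rw [cnt_eq]
  calc ((Ψ.image β).card : ℝ) ≤ ∑ X ∈ S, (((X.image β).card : ℕ) : ℝ) := by exact_mod_cast h5
    _ ≤ ∑ _X ∈ S, n := by
        refine Finset.sum_le_sum fun X hXS => ?_
        have := hX X (h2 X hXS).1 (h2 X hXS).2
        rwa [cnt_eq] at this
    _ = S.card * n := by rw [Finset.sum_const, nsmul_eq_mul]
    _ ≤ κ * n := mul_le_mul_of_nonneg_right h1 hn

end cov

section primes

variable {K : Type} [Field K] [NumberField K]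

open Pool.Agent.K9h15.Bad (many_primes exists_above few_large)

/-- several primes of comparable size -/
theorem primes_set (K : Type) [Field K] [NumberField K] (n0 : ℕ) (M : ℝ) (hM : 1 ≤ M) :
    ∃ P : Finset (HeightOneSpectrum (𝓞 K)), P.card = n0 + 1 ∧
      ∀ v ∈ P, M < nm v ∧ nm v ≤ (2 ^ (n0 + 2) * M) ^ (Module.finrank ℚ K) := by
  classical
  obtain ⟨P, hPc, hP⟩ := many_primes (n0 + 1) ⌈M⌉₊ (Nat.one_le_ceil_iff.2 (by linarith))
  have hch : ∀ p : ℕ, ∃ v : HeightOneSpectrum (𝓞 K), p.Prime → ((p : 𝓞 K) ∈ v.asIdeal ∧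
      (p : ℝ) ≤ nm v ∧ nm v ≤ (p : ℝ) ^ (Module.finrank ℚ K)) := by
    intro p
    by_cases hp : p.Prime
    · obtain ⟨v, hv⟩ := exists_above K p hp
      exact ⟨v, fun _ => hv⟩
    · obtain ⟨v, -⟩ := exists_above K 2 Nat.prime_two
      exact ⟨v, fun h => absurd h hp⟩
  choose g hg using hch
  have hinj : Set.InjOn g P := by
    intro p hp q hq hpq
    by_contra hne
    obtain ⟨k1, -, -⟩ := hP p hp
    obtain ⟨l1, -, -⟩ := hP q hq
    have h1 := (hg p k1).1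
    have h2 := (hg q l1).1
    rw [← hpq] at h2
    have h3 : IsCoprime (p : ℤ) (q : ℤ) :=
      Nat.isCoprime_iff_coprime.2 ((Nat.coprime_primes k1 l1).2 hne)
    obtain ⟨a, b, hab⟩ := h3
    have h4 : (1 : 𝓞 K) ∈ (g p).asIdeal := by
      have h5 : ((a * (p : ℤ) + b * (q : ℤ) : ℤ) : 𝓞 K) = 1 := by rw [hab]; simp
      rw [← h5]
      push_cast
      exact Ideal.add_mem _ (Ideal.mul_mem_left _ _ h1) (Ideal.mul_mem_left _ _ h2)
    exact (g p).isPrime.ne_top ((Ideal.eq_top_iff_one _).2 h4)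
  refine ⟨P.image g, by rw [Finset.card_image_of_injOn hinj, hPc], ?_⟩
  intro v hv
  obtain ⟨p, hp, rfl⟩ := Finset.mem_image.1 hv
  obtain ⟨k1, k2, k3⟩ := hP p hp
  obtain ⟨-, h2, h3⟩ := hg p k1
  have h7 : M ≤ ⌈M⌉₊ := Nat.le_ceil M
  have h8 : (⌈M⌉₊ : ℝ) < p := by exact_mod_cast k2
  refine ⟨by linarith, h3.trans ?_⟩
  apply pow_le_pow_left₀ (by positivity)
  have h9 : (p : ℝ) ≤ 2 ^ (n0 + 1) * ⌈M⌉₊ := by exact_mod_cast k3
  have h10 : (⌈M⌉₊ : ℝ) ≤ 2 * M := by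
    have := (Nat.ceil_lt_add_one (by linarith : (0 : ℝ) ≤ M)).le
    linarith
  calc (p : ℝ) ≤ 2 ^ (n0 + 1) * ⌈M⌉₊ := h9
    _ ≤ 2 ^ (n0 + 1) * (2 * M) := by gcongr
    _ = _ := by ring

/-- one of the primes is good -/
lemma exists_good_in {β : Type} [Fintype β] (P : Finset (HeightOneSpectrum (𝓞 K))) (t : ℕ)
    (M V : ℝ) (hM : 1 ≤ M) (hMt : V < M ^ t) (hP : Fintype.card β * t < P.card)
    (hnm : ∀ v ∈ P, M < nm v) (c : β → K) (hc : ∀ i, mulHeight₁ (c i) ≤ V) :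
    ∃ v ∈ P, ∀ i, av v (c i) ≤ 1 := by
  classical
  by_contra hcon
  push Not at hcon
  let S : β → Finset (HeightOneSpectrum (𝓞 K)) := fun i => P.filter (fun v => 1 < av v (c i))
  have h1 : P ⊆ Finset.univ.biUnion S := by
    intro v hv
    obtain ⟨i, hi⟩ := hcon v hv
    exact Finset.mem_biUnion.2 ⟨i, Finset.mem_univ _, Finset.mem_filter.2 ⟨hv, hi⟩⟩
  have h2 : ∀ i, (S i).card ≤ t := by
    intro i
    by_contra hlt
    rw [not_le] at hlt
    have h3 := few_large (c i) M hM (S i) (fun v hv => (Finset.mem_filter.1 hv).2)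
      (fun v hv => (hnm v (Finset.mem_filter.1 hv).1).le)
    have h4 : M ^ t ≤ M ^ (S i).card := pow_le_pow_right₀ hM hlt.le
    have h5 := hc i
    linarith
  have h3 := (Finset.card_le_card h1).trans Finset.card_biUnion_le
  have h4 : ∑ i, (S i).card ≤ Fintype.card β * t := by
    calc ∑ i, (S i).card ≤ ∑ _i : β, t := Finset.sum_le_sum fun i _ => h2 i
      _ = _ := by rw [Finset.sum_const, Finset.card_univ, smul_eq_mul]
  omega

end primes

section res

variable {K : Type} [Field K] [NumberField K]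

/-- the maximal ideal of the valuation ring -/
def mI (w : HeightOneSpectrum (𝓞 K)) : Ideal (oR w) where
  carrier := {x | av w (x : K) < 1}
  add_mem' := fun {x y} hx hy => lt_of_le_of_lt (av_nonarch w (x : K) (y : K)) (max_lt hx hy)
  zero_mem' := by
    change av w ((0 : oR w) : K) < 1
    simp
  smul_mem' := fun c x hx => by
    change av w ((c * x : oR w) : K) < 1
    rw [Subring.coe_mul, map_mul]
    have hx' : av w (x : K) < 1 := hx
    calc av w (c : K) * av w (x : K) ≤ 1 * av w (x : K) :=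
          mul_le_mul_of_nonneg_right c.2 (apply_nonneg _ _)
      _ < 1 := by rw [one_mul]; exact hx'

lemma mem_mI {w : HeightOneSpectrum (𝓞 K)} {x : oR w} : x ∈ mI w ↔ av w (x : K) < 1 := Iff.rfl

lemma mI_prime (w : HeightOneSpectrum (𝓞 K)) : (mI w).IsPrime := by
  refine ⟨?_, ?_⟩
  · intro h
    have h1 : (1 : oR w) ∈ mI w := by rw [h]; trivial
    rw [mem_mI, Subring.coe_one, map_one] at h1
    exact lt_irrefl _ h1
  · intro x y hxy
    rw [mem_mI, Subring.coe_mul, map_mul] at hxy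
    by_contra hcon
    rw [not_or, mem_mI, mem_mI, not_lt, not_lt] at hcon
    have h1 : av w (x : K) = 1 := le_antisymm x.2 hcon.1
    have h2 : av w (y : K) = 1 := le_antisymm y.2 hcon.2
    rw [h1, h2, mul_one] at hxy
    exact lt_irrefl _ hxy

open Classical in
/-- the residue class -/
noncomputable def rs (w : HeightOneSpectrum (𝓞 K)) (x : K) : oR w ⧸ mI w :=
  if h : av w x ≤ 1 then Ideal.Quotient.mk _ ⟨x, h⟩ else 0

lemma rs_eq {w : HeightOneSpectrum (𝓞 K)} {x y : K} (hx : av w x ≤ 1) (hy : av w y ≤ 1) :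
    rs w x = rs w y ↔ av w (x - y) < 1 := by
  unfold rs
  rw [dif_pos hx, dif_pos hy, Ideal.Quotient.eq, mem_mI]
  rfl

/-- **Residue classes of roots.** -/
lemma cnt_rs_le (w : HeightOneSpectrum (𝓞 K)) {β G : Type} [Fintype G] (Ψ : Finset β)
    (p : β → K[X]) (y : β → G → K) (N : ℕ) (hm : ∀ s ∈ Ψ, (p s).Monic ∧ (p s).natDegree = N)
    (hi : ∀ s ∈ Ψ, ∀ j, av w ((p s).coeff j) ≤ 1)
    (hc : ∀ s ∈ Ψ, ∀ s' ∈ Ψ, ∀ j, av w ((p s).coeff j - (p s').coeff j) < 1)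
    (hy : ∀ s ∈ Ψ, ∀ g, av w (y s g) ≤ 1 ∧ (p s).eval (y s g) = 0) :
    cnt Ψ (fun s g => rs w (y s g)) ≤ N ^ Fintype.card G := by
  classical
  have hdom : IsDomain (oR w ⧸ mI w) := (Ideal.Quotient.isDomain_iff_prime _).2 (mI_prime w)
  rcases Ψ.eq_empty_or_nonempty with h0 | ⟨s0, hs0⟩
  · rw [h0, cnt_eq, Finset.image_empty, Finset.card_empty]
    exact Nat.zero_le _
  have hlift : ∀ s ∈ Ψ, ∃ q : (oR w)[X], q.map (oR w).subtype = p s := by
    intro s hs
    have h1 : p s ∈ Polynomial.lifts (oR w).subtype := by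
      rw [Polynomial.lifts_iff_coeff_lifts]
      intro j
      exact ⟨⟨_, hi s hs j⟩, rfl⟩
    exact (Polynomial.mem_lifts _).1 h1
  obtain ⟨q0, hq0⟩ := hlift s0 hs0
  let π : oR w →+* oR w ⧸ mI w := Ideal.Quotient.mk _
  have hinj : Function.Injective (oR w).subtype := Subtype.val_injective
  have hq0m : q0.Monic := monic_of_injective hinj (by rw [hq0]; exact (hm s0 hs0).1)
  have hq0d : q0.natDegree = N := by
    rw [← (hm s0 hs0).2, ← hq0, hq0m.natDegree_map]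
  have hsub : Ψ.image (fun s g => rs w (y s g)) ⊆
      Fintype.piFinset (fun _ : G => (q0.map π).roots.toFinset) := by
    intro f hf
    obtain ⟨s, hs, rfl⟩ := Finset.mem_image.1 hf
    obtain ⟨q, hq⟩ := hlift s hs
    rw [Fintype.mem_piFinset]
    intro g
    obtain ⟨h1, h2⟩ := hy s hs g
    rw [Multiset.mem_toFinset, mem_roots (hq0m.map π).ne_zero, IsRoot.def]
    have h3 : q0.map π = q.map π := by
      ext j
      rw [coeff_map, coeff_map, Ideal.Quotient.eq, mem_mI]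
      have h4 := hc s0 hs0 s hs j
      rw [← hq0, ← hq, coeff_map, coeff_map] at h4
      exact h4
    rw [h3]
    have h5 : rs w (y s g) = π ⟨y s g, h1⟩ := by
      unfold rs
      rw [dif_pos h1]
    rw [h5, eval_map, eval₂_at_apply]
    have h6 : q.eval ⟨y s g, h1⟩ = 0 := by
      apply hinj
      rw [map_zero]
      have h7 := eval₂_at_apply (oR w).subtype (⟨y s g, h1⟩ : oR w) (p := q)
      rw [← h7, ← eval_map, hq]
      exact h2
    rw [h6, map_zero]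
  rw [cnt_eq]
  refine (Finset.card_le_card hsub).trans ?_
  rw [Fintype.card_piFinset, Finset.prod_const, Finset.card_univ]
  apply Nat.pow_le_pow_left
  refine (Multiset.toFinset_card_le _).trans ((card_roots' _).trans ?_)
  rw [← hq0d]
  exact natDegree_map_le

end res

end Pool.Agent.K9h15.Cv
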