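import Mathlib
import Pool.Agent.K9h15.Pla

/-!
# Places of a Galois extension of number fields
-/

set_option autoImplicit false

open IsDedekindDomain NumberField
open scoped Pointwise

namespace Pool.Agent.K9h15.Cv

open Pool.Agent.K9h15.Pla

variable {L Λ : Type} [Field L] [NumberField L] [Field Λ] [NumberField Λ] [Algebra L Λ]

/-- a prime above -/
lemma exists_over (Λ : Type) [Field Λ] [NumberField Λ] [Algebra L Λ]
    (v : HeightOneSpectrum (𝓞 L)) :
    ∃ w : HeightOneSpectrum (𝓞 Λ), w.asIdeal.LiesOver v.asIdeal := by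
  have := v.isMaximal
  obtain ⟨P, hP, hPv⟩ := Ideal.exists_maximal_ideal_liesOver_of_isIntegral (S := 𝓞 Λ) v.asIdeal
  refine ⟨⟨P, hP.isPrime, ?_⟩, hPv⟩
  rintro rfl
  have h1 := hPv.over
  rw [Ideal.under_def, Ideal.comap_bot_of_injective _ (FaithfulSMul.algebraMap_injective _ _)] at h1
  exact v.ne_bot h1

lemma av_over (v : HeightOneSpectrum (𝓞 L)) (w : HeightOneSpectrum (𝓞 Λ))
    [w.asIdeal.LiesOver v.asIdeal] :
    ∃ κ : ℝ, 0 < κ ∧ ∀ x : L, av w (algebraMap L Λ x) = (av v x) ^ κ := by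
  obtain ⟨e, he⟩ : ∃ e : ℕ, e = Ideal.ramificationIdx' v.asIdeal w.asIdeal := ⟨_, rfl⟩
  have he0 : e ≠ 0 := by
    rw [he]
    exact Ideal.IsDedekindDomain.ramificationIdx'_ne_zero_of_liesOver w.asIdeal v.ne_bot
  have h1 := one_lt_nm v
  have h2 := one_lt_nm w
  have l1 : 0 < Real.log (nm v) := Real.log_pos h1
  have l2 : 0 < Real.log (nm w) := Real.log_pos h2
  refine ⟨e * (Real.log (nm w) / Real.log (nm v)), by positivity, ?_⟩
  intro x
  by_cases hx : x = 0
  · subst hx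
    rw [map_zero, map_zero, map_zero, Real.zero_rpow]
    have : 0 < (e : ℝ) := by exact_mod_cast Nat.pos_of_ne_zero he0
    positivity
  have hx' : algebraMap L Λ x ≠ 0 := (map_ne_zero _).2 hx
  rw [av_eq_zpow v x hx, av_eq_zpow w _ hx']
  have h3 := HeightOneSpectrum.valuation_liesOver (K := L) Λ v w x
  rw [← he] at h3
  have hv0 := (Valuation.ne_zero_iff (v.valuation L)).2 hx
  have hw0 := (Valuation.ne_zero_iff (w.valuation Λ)).2 hx'
  have h4 : WithZero.unzero hw0 = (WithZero.unzero hv0) ^ e := by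
    apply WithZero.coe_injective
    rw [WithZero.coe_unzero, WithZero.coe_pow, WithZero.coe_unzero, h3]
  rw [h4, toAdd_pow]
  generalize Multiplicative.toAdd (WithZero.unzero hv0) = n
  rw [← Real.rpow_intCast, ← Real.rpow_intCast, ← Real.rpow_mul (by linarith)]
  rw [Real.rpow_def_of_pos (by linarith), Real.rpow_def_of_pos (by linarith)]
  congr 1
  rw [nsmul_eq_mul]
  push_cast
  field_simp

section galois

variable [IsGalois L Λ]

lemma smul_lt (w : HeightOneSpectrum (𝓞 Λ)) (g : Λ ≃ₐ[L] Λ)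
    (hg : g • w.asIdeal = w.asIdeal) (z : Λ) (hz : av w z < 1) : av w (g z) < 1 := by
  have hpow : ∀ n : ℕ, ∀ a : 𝓞 Λ, a ∈ w.asIdeal ^ n → g • a ∈ w.asIdeal ^ n := by
    intro n a ha
    have h1 : g • (w.asIdeal ^ n) = w.asIdeal ^ n := by
      rw [Ideal.pointwise_smul_def, Ideal.map_pow, ← Ideal.pointwise_smul_def, hg]
    rw [← h1]
    exact Ideal.smul_mem_pointwise_smul _ _ _ ha
  have hg' : g⁻¹ • w.asIdeal = w.asIdeal := by
    conv_lhs => rw [← hg]
    rw [inv_smul_smul]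
  have hpow' : ∀ n : ℕ, ∀ a : 𝓞 Λ, g • a ∈ w.asIdeal ^ n → a ∈ w.asIdeal ^ n := by
    intro n a ha
    have h1 : g⁻¹ • (w.asIdeal ^ n) = w.asIdeal ^ n := by
      rw [Ideal.pointwise_smul_def, Ideal.map_pow, ← Ideal.pointwise_smul_def, hg']
    have h2 := Ideal.smul_mem_pointwise_smul g⁻¹ _ _ ha
    rw [inv_smul_smul, h1] at h2
    exact h2
  obtain ⟨a, c, hc, rfl⟩ := IsFractionRing.div_surjective (A := 𝓞 Λ) z
  have hc0 : c ≠ 0 := nonZeroDivisors.ne_zero hc
  have hcΛ : algebraMap (𝓞 Λ) Λ c ≠ 0 := by simpa using hc0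
  have hgc0 : g • c ≠ 0 := by
    intro h
    apply hc0
    have := congrArg (fun y => g⁻¹ • y) h
    simpa using this
  have hgcΛ : algebraMap (𝓞 Λ) Λ (g • c) ≠ 0 := by simpa using hgc0
  have hgz : g (algebraMap (𝓞 Λ) Λ a / algebraMap (𝓞 Λ) Λ c) =
      algebraMap (𝓞 Λ) Λ (g • a) / algebraMap (𝓞 Λ) Λ (g • c) := by
    rw [map_div₀]
    rfl
  rw [map_div₀, div_lt_one ((av w).pos hcΛ), av_lt_iff, HeightOneSpectrum.valuation_of_algebraMap,
    HeightOneSpectrum.valuation_of_algebraMap] at hz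
  rw [hgz, map_div₀, div_lt_one ((av w).pos hgcΛ), av_lt_iff,
    HeightOneSpectrum.valuation_of_algebraMap, HeightOneSpectrum.valuation_of_algebraMap]
  have h1 := w.intValuation_eq_exp_neg_multiplicity hc0
  set n := multiplicity w.asIdeal (Ideal.span {c}) with hn
  -- `a` lies in the next power
  have ha : a ∈ w.asIdeal ^ (n + 1) := by
    rw [← w.intValuation_le_pow_iff_mem]
    by_cases ha0 : a = 0
    · rw [ha0, map_zero]; exact zero_le
    have h2 := w.intValuation_eq_exp_neg_multiplicity ha0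
    rw [h1, h2, WithZero.exp_lt_exp] at hz
    rw [h2, WithZero.exp_le_exp]
    push_cast
    omega
  have hcn : c ∉ w.asIdeal ^ (n + 1) := by
    rw [← w.intValuation_le_pow_iff_mem, h1, WithZero.exp_le_exp]
    push_cast
    omega
  have h3 : g • c ∉ w.asIdeal ^ (n + 1) := fun h => hcn (hpow' _ _ h)
  have h4 := hpow _ _ ha
  rw [← w.intValuation_le_pow_iff_mem] at h3 h4
  exact lt_of_le_of_lt h4 (not_le.1 h3)

/-- trivial inertia means that the valuation extends without ramification -/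
lemma unram_of_inertia (v : HeightOneSpectrum (𝓞 L)) (w : HeightOneSpectrum (𝓞 Λ))
    [w.asIdeal.LiesOver v.asIdeal]
    (h : ∀ g : Λ ≃ₐ[L] Λ, (∀ x : Λ, av w x ≤ 1 → av w (g x - x) < 1) → g = 1) (x : L) :
    w.valuation Λ (algebraMap L Λ x) = v.valuation L x := by
  have hfin : Finite (𝓞 L ⧸ v.asIdeal) := Ideal.finiteQuotientOfFreeOfNeBot _ v.ne_bot
  have hmax : v.asIdeal.IsMaximal := v.isMaximal
  have hbot : w.asIdeal.inertia (Λ ≃ₐ[L] Λ) = ⊥ := by
    rw [eq_bot_iff]
    intro g hg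
    rw [Subgroup.mem_bot]
    apply h g
    intro x hx
    have hst : g • w.asIdeal = w.asIdeal := by
      have := Ideal.inertia_le_stabilizer (M := Λ ≃ₐ[L] Λ) w.asIdeal hg
      exact this
    obtain ⟨y, hy⟩ := exists_res w x hx
    have h1 : g x - x = (g (x - algebraMap (𝓞 Λ) Λ y) - (x - algebraMap (𝓞 Λ) Λ y)) +
        algebraMap (𝓞 Λ) Λ (g • y - y) := by
      rw [map_sub, map_sub]
      have : algebraMap (𝓞 Λ) Λ (g • y) = g (algebraMap (𝓞 Λ) Λ y) := rfl
      rw [this]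
      ring
    have hna := av_nonarch w
    have h2 := smul_lt w g hst _ hy
    have h3 : av w (algebraMap (𝓞 Λ) Λ (g • y - y)) < 1 := by
      have h4 : g • y - y ∈ w.asIdeal := hg y
      exact (HeightOneSpectrum.adicAbv_coe_lt_one_iff (K := Λ) w
        (HeightOneSpectrum.one_lt_absNorm_nnreal w) _).2 h4
    rw [h1]
    refine lt_of_le_of_lt (hna _ _) (max_lt ?_ h3)
    rw [sub_eq_add_neg]
    refine lt_of_le_of_lt (hna _ _) (max_lt h2 ?_)
    rw [(av w).map_neg]
    exact hy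
  have hpf : PerfectField v.asIdeal.ResidueField := by
    have h5 := Ideal.bijective_algebraMap_quotient_residueField v.asIdeal
    have : Finite v.asIdeal.ResidueField := Finite.of_surjective _ h5.2
    infer_instance
  have h6 := Ideal.card_inertia_eq_ramificationIdxIn (G := Λ ≃ₐ[L] Λ) v.asIdeal w.asIdeal
  rw [hbot, Subgroup.card_bot] at h6
  have h7 := Ideal.ramificationIdxIn_eq_ramificationIdx v.asIdeal w.asIdeal (Λ ≃ₐ[L] Λ)
  have h8 := Ideal.ramificationIdx'_eq_ramificationIdx v.asIdeal w.asIdeal v.ne_bot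
  have h9 := HeightOneSpectrum.valuation_liesOver (K := L) Λ v w x
  rw [h8, ← h7, ← h6, pow_one] at h9
  exact h9.symm

end galois

end Pool.Agent.K9h15.Cv
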