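import Mathlib
import Pool.Agent.K9h15.Cv.Ram
import Pool.Agent.K9h15.Cv.Loc
import Pool.Agent.K9h15.Det

/-!
# The determinant method for conjugate points
-/

set_option autoImplicit false

open Polynomial IsDedekindDomain NumberField Height

namespace Pool.Agent.K9h15.Cv

open Pool.Agent.K9h15.Pla

/-- the indices of the monomials -/
abbrev Ix (σ : Type) (m D : ℕ) : Type := (σ → Fin (m + 1)) × Fin D

section abs

variable {K : Type} [Field K]

lemma one_le_prod_real {β : Type*} (s : Finset β) (f : β → ℝ) (h : ∀ i ∈ s, 1 ≤ f i) :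
    1 ≤ ∏ i ∈ s, f i := by
  classical
  induction s using Finset.induction_on with
  | empty => simp
  | insert a s ha ih =>
    rw [Finset.prod_insert ha]
    exact one_le_mul_of_one_le_of_one_le (h a (Finset.mem_insert_self _ _))
      (ih fun i hi => h i (Finset.mem_insert_of_mem hi))

lemma le_prod_real {β : Type*} (s : Finset β) (f : β → ℝ) (h : ∀ i ∈ s, 1 ≤ f i) {j : β}
    (hj : j ∈ s) : f j ≤ ∏ i ∈ s, f i := by
  classical
  rw [← Finset.mul_prod_erase s f hj]
  have h1 := one_le_prod_real (s.erase j) f (fun i hi => h i (Finset.mem_of_mem_erase hi))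
  have h2 := h j hj
  nlinarith

/-- bounds for the roots of a polynomial -/
lemma root_le (A : AbsoluteValue K ℝ) (N : ℕ) (p : ℕ → K) (y : K)
    (h : y ^ N + ∑ j ∈ Finset.range N, p j * y ^ j = 0) (c : ℝ) (hc : 1 ≤ c)
    (hsum : ∀ (f : ℕ → K) (B : ℝ), 0 ≤ B → (∀ j ∈ Finset.range N, A (f j) ≤ B) →
      A (∑ j ∈ Finset.range N, f j) ≤ c * B) :
    A y ≤ c * ∏ j ∈ Finset.range N, max (A (p j)) 1 := by
  set B := ∏ j ∈ Finset.range N, max (A (p j)) 1 with hB
  have hB1 : 1 ≤ B := one_le_prod_real _ _ fun j _ => le_max_right _ _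
  have hle : ∀ j ∈ Finset.range N, A (p j) ≤ B := by
    intro j hj
    refine (le_max_left _ 1).trans ?_
    exact le_prod_real _ (fun j => max (A (p j)) 1) (fun i _ => le_max_right _ _) hj
  by_cases hy : A y ≤ 1
  · calc A y ≤ 1 * 1 := by rwa [one_mul]
      _ ≤ c * B := mul_le_mul hc hB1 zero_le_one (by linarith)
  · rw [not_le] at hy
    rcases Nat.eq_zero_or_pos N with hN | hN
    · subst hN
      simp at h
    have h1 : A y ^ N ≤ c * (B * A y ^ (N - 1)) := by
      have h2 : y ^ N = -∑ j ∈ Finset.range N, p j * y ^ j := by linear_combination h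
      rw [← map_pow, h2, A.map_neg]
      apply hsum _ _ (by positivity)
      intro j hj
      rw [map_mul, map_pow]
      refine mul_le_mul (hle j hj) ?_ (by positivity) (by linarith)
      rw [Finset.mem_range] at hj
      exact pow_le_pow_right₀ hy.le (by omega)
    have h3 : A y ^ N = A y * A y ^ (N - 1) := by
      rw [← pow_succ']
      congr 1
      omega
    rw [h3, ← mul_assoc] at h1
    exact le_of_mul_le_mul_right h1 (by positivity)

lemma det_le_gen (A : AbsoluteValue K ℝ) {ι : Type} [Fintype ι] [DecidableEq ι]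
    (M : Matrix ι ι K) (B : ι → ℝ) (h : ∀ c a, A (M c a) ≤ B a) :
    A M.det ≤ ((Fintype.card ι).factorial : ℝ) * ∏ a, B a := by
  rw [Matrix.det_apply']
  refine (A.sum_le _ _).trans ?_
  have h2 : ∀ σ : Equiv.Perm ι, A (((Equiv.Perm.sign σ : ℤ) : K) * ∏ i, M (σ i) i) ≤
      ∏ a, B a := by
    intro σ
    rw [map_mul, map_prod]
    have h1 : A ((Equiv.Perm.sign σ : ℤ) : K) = 1 := by
      rcases Int.units_eq_one_or (Equiv.Perm.sign σ) with h | h
      · rw [h]; simp
      · rw [h]; simp
    rw [h1, one_mul]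
    exact Finset.prod_le_prod (fun i _ => apply_nonneg A _) fun i _ => h _ _
  refine (Finset.sum_le_sum fun σ _ => h2 σ).trans ?_
  rw [Finset.sum_const, nsmul_eq_mul, Finset.card_univ, Fintype.card_perm]

lemma det_le_na (A : AbsoluteValue K ℝ) (hA : IsNonarchimedean A) {ι : Type} [Fintype ι]
    [DecidableEq ι] (M : Matrix ι ι K) (B : ι → ℝ) (h : ∀ c a, A (M c a) ≤ B a) :
    A M.det ≤ ∏ a, B a := by
  have hB : ∀ a, 0 ≤ B a := fun a => (apply_nonneg A (M a a)).trans (h a a)
  rw [Matrix.det_apply']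
  apply Pool.Agent.K9h15.Det.na_sum_le hA _ _ (Finset.prod_nonneg fun a _ => hB a)
  intro σ _
  rw [map_mul, map_prod]
  have h1 : A ((Equiv.Perm.sign σ : ℤ) : K) = 1 := by
    rcases Int.units_eq_one_or (Equiv.Perm.sign σ) with h | h
    · rw [h]; simp
    · rw [h]; simp
  rw [h1, one_mul]
  exact Finset.prod_le_prod (fun i _ => apply_nonneg A _) fun i _ => h _ _

/-- the bound for the determinants of monomials -/
lemma mm_le (A : AbsoluteValue K ℝ) {σ : Type} [Fintype σ] [DecidableEq σ] {m D : ℕ} (cd cr : ℝ)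
    (hcr : 1 ≤ cr)
    (hdet : ∀ (M : Matrix ((σ → Fin (m + 1)) × Fin D) ((σ → Fin (m + 1)) × Fin D) K)
      (B : (σ → Fin (m + 1)) × Fin D → ℝ), (∀ c a, A (M c a) ≤ B a) →
      A M.det ≤ cd * ∏ a, B a)
    (x : (σ → Fin (m + 1)) × Fin D → σ → K) (y : (σ → Fin (m + 1)) × Fin D → K)
    (Y : (σ → Fin (m + 1)) × Fin D → ℝ) (hY : ∀ a, 1 ≤ Y a)
    (hy : ∀ a, A (y a) ≤ cr * Y a) :
    A (mm x y).det ≤ cd * ∏ a, ((∏ s, (max (A (x a s)) 1) ^ m) * (cr * Y a) ^ D) := by
  apply hdet
  intro c a
  simp only [mm, Matrix.of_apply]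
  rw [map_mul, map_prod, map_pow]
  have h1 : 1 ≤ cr * Y a := one_le_mul_of_one_le_of_one_le hcr (hY a)
  refine mul_le_mul ?_ ?_ (pow_nonneg (apply_nonneg _ _) _)
    (Finset.prod_nonneg fun s _ => by positivity)
  · refine Finset.prod_le_prod (fun s _ => apply_nonneg _ _) fun s _ => ?_
    rw [map_pow]
    calc A (x a s) ^ (c.1 s : ℕ) ≤ (max (A (x a s)) 1) ^ (c.1 s : ℕ) :=
          pow_le_pow_left₀ (apply_nonneg _ _) (le_max_left _ _) _
      _ ≤ _ := pow_le_pow_right₀ (le_max_right _ _) (by have := (c.1 s).isLt; omega)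
  · calc A (y a) ^ (c.2 : ℕ) ≤ (cr * Y a) ^ (c.2 : ℕ) :=
          pow_le_pow_left₀ (apply_nonneg _ _) (hy a) _
      _ ≤ _ := pow_le_pow_right₀ h1 c.2.isLt.le

end abs

section nf

variable {L Λ : Type} [Field L] [NumberField L] [Field Λ] [NumberField Λ] [Algebra L Λ]

/-- extension of an infinite place -/
lemma arch_ext (Λ : Type) [Field Λ] [NumberField Λ] [Algebra L Λ] (v : InfinitePlace L) :
    ∃ A : AbsoluteValue Λ ℝ, ∀ x : L, A (algebraMap L Λ x) = v x := by
  let _ : Algebra L ℂ := v.embedding.toAlgebra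
  let f : Λ →ₐ[L] ℂ := IsAlgClosed.lift
  refine ⟨NumberField.place (f : Λ →+* ℂ), ?_⟩
  intro x
  rw [NumberField.place_apply]
  have h1 : (f : Λ →+* ℂ) (algebraMap L Λ x) = v.embedding x := f.commutes x
  rw [h1, InfinitePlace.norm_embedding_eq]

/-- a monic polynomial at its zeros -/
lemma monic_zero {σ A B : Type} [CommRing A] [CommRing B] (φ : A →+* B) (x : σ → B) (y : B)
    (P : (MvPolynomial σ A)[X]) (hP : P.Monic) (h : ev2 φ x y P = 0) :
    y ^ P.natDegree + ∑ j ∈ Finset.range P.natDegree,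
      MvPolynomial.eval₂ φ x (P.coeff j) * y ^ j = 0 := by
  rw [hP.as_sum, map_add, map_pow, ev2_X, map_sum] at h
  rw [← h]
  congr 1
  refine Finset.sum_congr rfl fun j _ => ?_
  rw [map_mul, map_pow, ev2_X, ev2_C]

/-- **The determinant method.** -/
theorem dm {σ : Type} [Fintype σ] [DecidableEq σ] {m D : ℕ} {H : Type} [Fintype H]
    [Nonempty H] (P : (MvPolynomial σ L)[X]) (hPm : P.Monic) (hP0 : P.natDegree ≠ 0)
    (x : Ix σ m D → σ → L) (y : Ix σ m D → H → Λ)
    (hP : ∀ a g, ev2 (algebraMap L Λ) (fun s => algebraMap L Λ (x a s)) (y a g) P = 0)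
    (δ : L) (hδ : algebraMap L Λ δ =
      ∏ g, (mm (fun a s => algebraMap L Λ (x a s)) (fun a => y a g)).det) (hδ0 : δ ≠ 0)
    (V V' : ℝ) (hV : ∀ a s, mulHeight₁ (x a s) ≤ V)
    (hV' : ∀ a j, mulHeight₁ (MvPolynomial.eval (x a) (P.coeff j)) ≤ V')
    (v0 : HeightOneSpectrum (𝓞 L)) (w0 : HeightOneSpectrum (𝓞 Λ))
    [hw : w0.asIdeal.LiesOver v0.asIdeal] (hPi : ∀ j e, av v0 ((P.coeff j).coeff e) ≤ 1)
    (hx1 : ∀ a s, av v0 (x a s) ≤ 1) (hcl : ∀ a a' s, av v0 (x a s - x a' s) < 1)
    (hu : ∀ a g, av w0 (ev2 (algebraMap L Λ) (fun s => algebraMap L Λ (x a s)) (y a g)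
      P.derivative) = 1)
    (hy : ∀ a a' g, av w0 (y a g - y a' g) < 1) (n : ℕ) :
    nm v0 ^ ((Fintype.card (Ix σ m D) - n ^ Fintype.card σ) * n) ≤
      ((Fintype.card (Ix σ m D)).factorial *
        (P.natDegree : ℝ) ^ (D * Fintype.card (Ix σ m D))) ^
          (Module.finrank ℚ L) *
      (V ^ (m * Fintype.card σ) * V' ^ (D * P.natDegree)) ^
        Fintype.card (Ix σ m D) := by
  classical
  set N := P.natDegree with hN
  set E := (Fintype.card (Ix σ m D) - n ^ Fintype.card σ) * n with hE
  set h := Fintype.card H with hh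
  have hh0 : h ≠ 0 := Fintype.card_ne_zero
  -- coefficients
  let p : Ix σ m D → ℕ → L := fun a j => MvPolynomial.eval (x a) (P.coeff j)
  have hpe : ∀ a j, MvPolynomial.eval₂ (algebraMap L Λ) (fun s => algebraMap L Λ (x a s))
      (P.coeff j) = algebraMap L Λ (p a j) := by
    intro a j
    simp only [p]
    rw [← MvPolynomial.eval₂_id, MvPolynomial.eval₂_comp_left, RingHom.comp_id]
    rfl
  have hroot : ∀ a g, (y a g) ^ N + ∑ j ∈ Finset.range N,
      algebraMap L Λ (p a j) * (y a g) ^ j = 0 := by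
    intro a g
    have h1 := monic_zero (algebraMap L Λ) _ _ P hPm (hP a g)
    simp only [hpe] at h1
    exact h1
  have hV1 : ∀ (a : Ix σ m D), 1 ≤ V' := fun a => (one_le_mulHeight₁ _).trans (hV' a 0)
  have hq := one_lt_nm v0
  -- general bound
  have hgen : ∀ (A : AbsoluteValue Λ ℝ) (cd cr : ℝ), 1 ≤ cr →
      (∀ (M : Matrix (Ix σ m D) (Ix σ m D) Λ) (B : Ix σ m D → ℝ), (∀ c a, A (M c a) ≤ B a) → A M.det ≤ cd * ∏ a, B a) →
      (∀ (f : ℕ → Λ) (B : ℝ), 0 ≤ B → (∀ j ∈ Finset.range N, A (f j) ≤ B) →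
        A (∑ j ∈ Finset.range N, f j) ≤ cr * B) → ∀ g,
      A (mm (fun a s => algebraMap L Λ (x a s)) (fun a => y a g)).det ≤
        cd * ∏ a, ((∏ s, (max (A (algebraMap L Λ (x a s))) 1) ^ m) *
          (cr * ∏ j ∈ Finset.range N, max (A (algebraMap L Λ (p a j))) 1) ^ D) := by
    intro A cd cr hcr hdet hsum g
    exact mm_le A cd cr hcr hdet _ _ _ (fun a => one_le_prod_real _ _ fun j _ => le_max_right _ _)
      (fun a => root_le A N _ _ (hroot a g) cr hcr hsum)
  -- the global inequality
  let z : Ix σ m D × (σ ⊕ Fin N) → L := fun i => Sum.elim (fun s => x i.1 s) (fun j : Fin N => p i.1 (j : ℕ)) i.2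
  let e : Ix σ m D × (σ ⊕ Fin N) → ℕ := fun i => Sum.elim (fun _ => m * h) (fun _ => D * h) i.2
  have hprod : ∀ (B : L → ℝ), ∏ i, (max (B (z i)) 1) ^ (e i) =
      (∏ a, ((∏ s, (max (B (x a s)) 1) ^ m) *
        (∏ j ∈ Finset.range N, max (B (p a j)) 1) ^ D)) ^ h := by
    intro B
    rw [Fintype.prod_prod_type, ← Finset.prod_pow]
    refine Finset.prod_congr rfl fun a _ => ?_
    rw [Fintype.prod_sum_type]
    simp only [z, e, Sum.elim_inl, Sum.elim_inr]
    rw [mul_pow, ← Finset.prod_pow, ← pow_mul, ← Finset.prod_pow,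
      Finset.prod_range (fun j => (max (B (p a j)) 1) ^ (D * h))]
    congr 1
    refine Finset.prod_congr rfl fun s _ => ?_
    rw [pow_mul]
  set c0 : ℝ := ((Fintype.card (Ix σ m D)).factorial : ℝ) * (N : ℝ) ^ (D * Fintype.card (Ix σ m D)) with hc0
  have hN1 : (1 : ℝ) ≤ N := by exact_mod_cast Nat.one_le_iff_ne_zero.2 hP0
  have hc0n : 0 ≤ c0 := by positivity
  have hgl := local_global (K := L) hδ0 z e (c := c0 ^ h) (q := (((nm v0)⁻¹) ^ E) ^ h)
    (by positivity) v0 (by
      intro v
      obtain ⟨A, hA⟩ := arch_ext Λ v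
      rw [hprod, ← mul_pow, ← hA δ, hδ, map_prod, hh, ← Finset.card_univ, ← Finset.prod_const]
      refine Finset.prod_le_prod (fun g _ => apply_nonneg _ _) fun g _ => ?_
      have h1 := hgen A ((Fintype.card (Ix σ m D)).factorial : ℝ) N hN1 (fun M B hB => det_le_gen A M B hB)
        (by
          intro f B hB hf
          refine (A.sum_le _ _).trans ?_
          refine (Finset.sum_le_sum hf).trans ?_
          rw [Finset.sum_const, Finset.card_range, nsmul_eq_mul]) g
      refine h1.trans (le_of_eq ?_)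
      simp only [hA]
      rw [hc0, mul_assoc]
      congr 1
      rw [pow_mul, ← Finset.card_univ, ← Finset.prod_const, ← Finset.prod_mul_distrib]
      refine Finset.prod_congr rfl fun a _ => ?_
      rw [mul_pow]
      ring) (by
      intro v
      obtain ⟨w, hwo⟩ := exists_over Λ v.maximalIdeal
      obtain ⟨κ, hκ, hκx⟩ := av_over v.maximalIdeal w
      have hv : ∀ t : L, v t = av v.maximalIdeal t := by
        intro t
        rw [← mk_eq_av, FinitePlace.mk_maximalIdeal]
      rw [hprod]
      simp only [hv]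
      rw [← Real.rpow_le_rpow_iff (apply_nonneg _ _) (by positivity) hκ, ← hκx, hδ, map_prod]
      have h2 : ((∏ a, ((∏ s, (max (av v.maximalIdeal (x a s)) 1) ^ m) *
          (∏ j ∈ Finset.range N, max (av v.maximalIdeal (p a j)) 1) ^ D)) ^ h) ^ κ =
          ∏ _g : H, (∏ a, ((∏ s, (max (av v.maximalIdeal (x a s)) 1) ^ m) *
          (∏ j ∈ Finset.range N, max (av v.maximalIdeal (p a j)) 1) ^ D)) ^ κ := by
        rw [Finset.prod_const, Finset.card_univ, ← Real.rpow_natCast, ← Real.rpow_mul (by positivity),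
          mul_comm, Real.rpow_mul (by positivity), Real.rpow_natCast]
      rw [h2]
      refine Finset.prod_le_prod (fun g _ => apply_nonneg _ _) fun g _ => ?_
      have hna := av_nonarch w
      have h1 := hgen (av w) 1 1 le_rfl (fun M B hB => by
        rw [one_mul]
        exact det_le_na (av w) hna M B hB) (by
          intro f B hB hf
          rw [one_mul]
          exact Pool.Agent.K9h15.Det.na_sum_le hna _ _ hB hf) g
      refine h1.trans (le_of_eq ?_)
      rw [one_mul, ← Real.finsetProd_rpow _ _ (fun a _ => by positivity)]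
      refine Finset.prod_congr rfl fun a _ => ?_
      rw [Real.mul_rpow (by positivity) (by positivity),
        ← Real.finsetProd_rpow _ _ (fun s _ => by positivity)]
      have hmax : ∀ t : L, max (av w (algebraMap L Λ t)) 1 =
          (max (av v.maximalIdeal t) 1) ^ κ := by
        intro t
        rw [hκx]
        rcases le_total (av v.maximalIdeal t) 1 with h3 | h3
        · rw [max_eq_right h3, Real.one_rpow, max_eq_right]
          exact Real.rpow_le_one (apply_nonneg _ _) h3 hκ.le
        · rw [max_eq_left h3, max_eq_left]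
          exact Real.one_le_rpow h3 hκ.le
      congr 1
      · refine Finset.prod_congr rfl fun s _ => ?_
        rw [hmax, ← Real.rpow_natCast, ← Real.rpow_mul (by positivity), mul_comm,
          Real.rpow_mul (by positivity), Real.rpow_natCast]
      · have e2 : ∏ j ∈ Finset.range N, max (av w (algebraMap L Λ (p a j))) 1 =
            (∏ j ∈ Finset.range N, max (av v.maximalIdeal (p a j)) 1) ^ κ := by
          rw [← Real.finsetProd_rpow _ _ (fun s _ => by positivity)]
          exact Finset.prod_congr rfl fun j _ => hmax _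
        rw [one_mul, e2, ← Real.rpow_natCast, ← Real.rpow_mul (by positivity),
          mul_comm κ (D : ℝ), Real.rpow_mul (by positivity), Real.rpow_natCast]) (by
      obtain ⟨κ, hκ, hκx⟩ := av_over v0 w0
      have hR : 1 ≤ ∏ i, (max (av v0 (z i)) 1) ^ (e i) :=
        one_le_prod_real _ _ fun i _ => one_le_pow₀ (le_max_right _ _)
      have hloc : av v0 δ ≤ (((nm v0)⁻¹) ^ E) ^ h := by
        have hi0 : 0 ≤ (nm v0)⁻¹ := by positivity
        rw [← Real.rpow_le_rpow_iff (apply_nonneg _ _) (by positivity) hκ, ← hκx, hδ, map_prod]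
        have h2 : ((((nm v0)⁻¹) ^ E) ^ h) ^ κ = ∏ _g : H, (((nm v0)⁻¹) ^ κ) ^ E := by
          rw [Finset.prod_const, Finset.card_univ, ← hh, ← pow_mul, ← pow_mul,
            ← Real.rpow_natCast, ← Real.rpow_natCast, ← Real.rpow_mul (by positivity),
            ← Real.rpow_mul (by positivity), mul_comm]
        rw [h2]
        refine Finset.prod_le_prod (fun g _ => apply_nonneg _ _) fun g _ => ?_
        -- choice of a base point
        by_cases hne : Nonempty (Ix σ m D)
        · obtain ⟨a0⟩ := hne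
          have hl1 : ((nm v0)⁻¹) ^ κ < 1 := Real.rpow_lt_one hi0 (inv_lt_one_of_one_lt₀ hq) hκ
          have hxi : ∀ t : L, av v0 t ≤ 1 → av w0 (algebraMap L Λ t) ≤ 1 := by
            intro t ht
            rw [hκx]
            exact Real.rpow_le_one (apply_nonneg _ _) ht hκ.le
          have hPi' : ∀ j e, av w0 (((P.map (MvPolynomial.map (algebraMap L Λ))).coeff j).coeff e)
              ≤ 1 := by
            intro j e
            rw [coeff_map, MvPolynomial.coeff_map]
            exact hxi _ (hPi j e)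
          have hev : ∀ (F : (MvPolynomial σ L)[X]) a, ev2 (RingHom.id Λ)
              (fun s => algebraMap L Λ (x a s)) (y a g)
              (F.map (MvPolynomial.map (algebraMap L Λ))) =
              ev2 (algebraMap L Λ) (fun s => algebraMap L Λ (x a s)) (y a g) F := by
            intro F a
            rw [ev2_map, RingHom.id_comp]
          have hyi : av w0 (y a0 g) ≤ 1 := by
            have hna := av_nonarch w0
            have h3 := root_le (av w0) N _ _ (hroot a0 g) 1 le_rfl (by
              intro f B hB hf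
              rw [one_mul]
              exact Pool.Agent.K9h15.Det.na_sum_le hna _ _ hB hf)
            refine h3.trans ?_
            rw [one_mul]
            refine Finset.prod_le_one (fun j _ => by positivity) fun j _ => ?_
            refine max_le (hxi _ ?_) le_rfl
            simp only [p]
            rw [MvPolynomial.eval_eq]
            refine Pool.Agent.K9h15.Det.na_sum_le (av_nonarch v0) _ _ zero_le_one fun e _ => ?_
            rw [map_mul, map_prod]
            refine mul_le_one₀ (hPi j e) (Finset.prod_nonneg fun s _ => apply_nonneg _ _) ?_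
            refine Finset.prod_le_one (fun s _ => apply_nonneg _ _) fun s _ => ?_
            rw [map_pow]
            exact pow_le_one₀ (apply_nonneg _ _) (hx1 a0 s)
          exact loc_det w0 (P.map (MvPolynomial.map (algebraMap L Λ))) hPi'
            (fun s => algebraMap L Λ (x a0 s)) (y a0 g) (fun s => hxi _ (hx1 a0 s)) hyi
            (by rw [hev]; exact hP a0 g) (by rw [derivative_map, hev]; exact hu a0 g)
            (((nm v0)⁻¹) ^ κ) (by positivity) hl1 (fun a s => algebraMap L Λ (x a s))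
            (fun a => y a g) (fun a => by rw [hev]; exact hP a g) (by
              intro a s
              rw [← map_sub, hκx]
              exact Real.rpow_le_rpow (apply_nonneg _ _) (av_le_inv (hcl a a0 s)) hκ.le)
            (fun a => hy a a0 g) n
        · have hemp : IsEmpty (Ix σ m D) := not_nonempty_iff.1 hne
          have hc : Fintype.card (Ix σ m D) = 0 := Fintype.card_eq_zero
          rw [hE, hc, Nat.zero_sub, zero_mul, pow_zero, Matrix.det_isEmpty, map_one]
      calc av v0 δ ≤ (((nm v0)⁻¹) ^ E) ^ h * 1 := by rw [mul_one]; exact hloc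
        _ ≤ _ := by
          have : 0 ≤ (((nm v0)⁻¹) ^ E) ^ h := by positivity
          gcongr)
  -- conclusion
  have hprodH : ∏ i, mulHeight₁ (z i) ^ (e i) ≤
      ((V ^ (m * Fintype.card σ) * V' ^ (D * N)) ^ Fintype.card (Ix σ m D)) ^ h := by
    rw [Fintype.prod_prod_type, ← pow_mul, mul_comm (Fintype.card (Ix σ m D)) h, pow_mul,
      ← Finset.card_univ (α := Ix σ m D), ← Finset.prod_const]
    refine Finset.prod_le_prod (fun a _ => Finset.prod_nonneg fun i _ =>
      pow_nonneg (mulHeight₁_nonneg _) _) fun a _ => ?_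
    rw [Fintype.prod_sum_type]
    simp only [z, e, Sum.elim_inl, Sum.elim_inr]
    rw [mul_pow]
    have hVn : ∀ s : σ, 0 ≤ V := fun s => (mulHeight₁_nonneg _).trans (hV a s)
    refine mul_le_mul ?_ ?_ (Finset.prod_nonneg fun i _ => pow_nonneg (mulHeight₁_nonneg _) _) ?_
    · calc ∏ s, mulHeight₁ (x a s) ^ (m * h) ≤ ∏ _s : σ, V ^ (m * h) :=
            Finset.prod_le_prod (fun s _ => pow_nonneg (mulHeight₁_nonneg _) _)
              fun s _ => pow_le_pow_left₀ (mulHeight₁_nonneg _) (hV a s) _
        _ = _ := by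
            rw [Finset.prod_const, Finset.card_univ, ← pow_mul, ← pow_mul]
            congr 1
            ring
    · calc ∏ j : Fin N, mulHeight₁ (p a j) ^ (D * h) ≤ ∏ _j : Fin N, V' ^ (D * h) :=
            Finset.prod_le_prod (fun s _ => pow_nonneg (mulHeight₁_nonneg _) _)
              fun j _ => pow_le_pow_left₀ (mulHeight₁_nonneg _) (hV' a j) _
        _ = _ := by
            rw [Finset.prod_const, Finset.card_univ, Fintype.card_fin, ← pow_mul, ← pow_mul]
            congr 1
            ring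
    · rcases isEmpty_or_nonempty σ with hs | ⟨⟨s⟩⟩
      · have hc : Fintype.card σ = 0 := Fintype.card_eq_zero
        rw [hc, mul_zero, pow_zero, one_pow]
        exact zero_le_one
      · have := hVn s
        positivity
  have h12 : 1 ≤ ((c0 ^ h) ^ (Module.finrank ℚ L) * (((nm v0)⁻¹) ^ E) ^ h) *
      ((V ^ (m * Fintype.card σ) * V' ^ (D * N)) ^ Fintype.card (Ix σ m D)) ^ h :=
    hgl.trans (mul_le_mul_of_nonneg_left hprodH (by positivity))
  have h13 : 1 ≤ (c0 ^ (Module.finrank ℚ L) * ((nm v0)⁻¹) ^ E *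
      (V ^ (m * Fintype.card σ) * V' ^ (D * N)) ^ Fintype.card (Ix σ m D)) ^ h := by
    refine h12.trans (le_of_eq ?_)
    clear_value c0
    rw [mul_pow (c0 ^ Module.finrank ℚ L * (nm v0)⁻¹ ^ E), mul_pow (c0 ^ Module.finrank ℚ L),
      ← pow_mul c0 h, ← pow_mul c0 (Module.finrank ℚ L), mul_comm h]
  have hX0 : 0 ≤ (V ^ (m * Fintype.card σ) * V' ^ (D * N)) ^ Fintype.card (Ix σ m D) := by
    rcases isEmpty_or_nonempty (Ix σ m D) with hs | ⟨⟨a⟩⟩
    · have hc : Fintype.card (Ix σ m D) = 0 := Fintype.card_eq_zero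
      rw [hc, pow_zero]
      exact zero_le_one
    · have h1 := hV1 a
      have h2 : 0 ≤ V ^ (m * Fintype.card σ) := by
        rcases isEmpty_or_nonempty σ with hs | ⟨⟨s⟩⟩
        · have hc : Fintype.card σ = 0 := Fintype.card_eq_zero
          rw [hc, mul_zero, pow_zero]
          exact zero_le_one
        · have : 0 ≤ V := (mulHeight₁_nonneg _).trans (hV a s)
          positivity
      positivity
  have h14 : 1 ≤ c0 ^ (Module.finrank ℚ L) * ((nm v0)⁻¹) ^ E *
      (V ^ (m * Fintype.card σ) * V' ^ (D * N)) ^ Fintype.card (Ix σ m D) := by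
    by_contra hcon
    rw [not_le] at hcon
    have := pow_lt_one₀ (by positivity) hcon hh0
    linarith
  have h15 : (0 : ℝ) < nm v0 ^ E := by positivity
  rw [inv_pow] at h14
  have h16 := mul_le_mul_of_nonneg_left h14 h15.le
  calc nm v0 ^ E = nm v0 ^ E * 1 := (mul_one _).symm
    _ ≤ _ := h16
    _ = _ := by field_simp

end nf

end Pool.Agent.K9h15.Cv
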