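import Mathlib

/-!
# Homomorphisms to nilpotent groups
-/

set_option autoImplicit false

namespace Pool.Agent.K9h15.Cv

/-- The number of homomorphisms to a finite nilpotent group in terms of the number of homomorphisms to
the groups of prime order. -/
theorem hom_card_nil (Γ : Type) [Group Γ] (n X : ℕ) (hX1 : 1 ≤ X)
    (hX : ∀ p : ℕ, p.Prime → p ∣ n → ∀ (Z : Type) [Group Z] [Finite Z], Nat.card Z = p →
      ∀ H : Finset (Γ →* Z), H.card ≤ X) (m : ℕ) :
    ∀ (G : Type) [Group G] [Finite G] [Group.IsNilpotent G], Nat.card G = m → m ∣ n →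
      ∀ H : Finset (Γ →* G), H.card ≤ X ^ m := by
  classical
  induction m using Nat.strong_induction_on with
  | _ m ih =>
    intro G _ _ _ hG hmn H
    rcases subsingleton_or_nontrivial G with hs | hnt
    · have h1 : H.card ≤ 1 := by
        rw [Finset.card_le_one]
        intro f _ g _
        ext x
        exact Subsingleton.elim _ _
      exact h1.trans (Nat.one_le_pow _ _ hX1)
    have hcn : Nontrivial (Subgroup.center G) :=
      (Subgroup.nontrivial_iff_ne_bot _).2 (Group.IsNilpotent.center_ne_bot G)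
    have hc1 : Nat.card (Subgroup.center G) ≠ 1 := by
      have := Finite.one_lt_card_iff_nontrivial.2 hcn
      omega
    obtain ⟨p, hp, hdvd⟩ := Nat.exists_prime_and_dvd hc1
    have hpF : Fact p.Prime := ⟨hp⟩
    obtain ⟨z, hz⟩ := exists_prime_orderOf_dvd_card' (G := Subgroup.center G) p hdvd
    let Z : Subgroup G := Subgroup.zpowers (z : G)
    have hZc : Z ≤ Subgroup.center G := by
      rw [Subgroup.zpowers_le]
      exact z.2
    have hZn : Z.Normal := ⟨fun n hn g => by
      have h1 := Subgroup.mem_center_iff.1 (hZc hn) g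
      rw [h1, mul_inv_cancel_right]
      exact hn⟩
    have hZcard : Nat.card Z = p := by
      rw [Nat.card_zpowers, Subgroup.orderOf_coe, hz]
    have hmul := Subgroup.card_eq_card_quotient_mul_card_subgroup Z
    rw [hG, hZcard] at hmul
    set m' := Nat.card (G ⧸ Z) with hm'
    have hm'0 : 0 < m' := Nat.card_pos
    have hp2 := hp.two_le
    have hlt : m' < m := by rw [hmul]; nlinarith
    have hpn : p ∣ n := (Dvd.intro_left m' hmul.symm).trans hmn
    have hm'n : m' ∣ n := (Dvd.intro p hmul.symm).trans hmn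
    let f : (Γ →* G) → (Γ →* (G ⧸ Z)) := fun ρ => (QuotientGroup.mk' Z).comp ρ
    have h2 := ih m' hlt (G ⧸ Z) rfl hm'n (H.image f)
    have h3 : ∀ r ∈ H.image f, (H.filter (fun ρ => f ρ = r)).card ≤ X := by
      intro r hr
      obtain ⟨ρ0, hρ0, rfl⟩ := Finset.mem_image.1 hr
      have hmem : ∀ ρ : Γ →* G, f ρ = f ρ0 → ∀ x, ρ x * (ρ0 x)⁻¹ ∈ Z := by
        intro ρ hρ x
        have h4 : (QuotientGroup.mk' Z) (ρ x) = (QuotientGroup.mk' Z) (ρ0 x) :=
          congrArg (fun g : Γ →* (G ⧸ Z) => g x) hρ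
        rw [← QuotientGroup.ker_mk' Z, MonoidHom.mem_ker, map_mul, map_inv, h4, mul_inv_cancel]
      let χ : (Γ →* G) → (Γ →* Z) := fun ρ => if hρ : f ρ = f ρ0 then
        { toFun := fun x => ⟨ρ x * (ρ0 x)⁻¹, hmem ρ hρ x⟩
          map_one' := by apply Subtype.ext; simp
          map_mul' := fun x y => by
            apply Subtype.ext
            simp only [map_mul, mul_inv_rev, Subgroup.coe_mul]
            have h5 := Subgroup.mem_center_iff.1 (hZc (hmem ρ hρ y)) ((ρ0 x)⁻¹)
            calc ρ x * ρ y * ((ρ0 y)⁻¹ * (ρ0 x)⁻¹) = ρ x * (ρ y * (ρ0 y)⁻¹ * (ρ0 x)⁻¹) := by group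
              _ = ρ x * ((ρ0 x)⁻¹ * (ρ y * (ρ0 y)⁻¹)) := by rw [h5]
              _ = _ := by group }
        else 1
      have hinj : Set.InjOn χ ((H.filter (fun ρ => f ρ = f ρ0) : Finset (Γ →* G)) : Set _) := by
        intro ρ1 h1 ρ2 h2 h12
        have k1 := (Finset.mem_filter.1 (Finset.mem_coe.1 h1)).2
        have k2 := (Finset.mem_filter.1 (Finset.mem_coe.1 h2)).2
        simp only [χ, dif_pos k1, dif_pos k2] at h12
        ext x
        have h6 := congrArg (fun g : Γ →* Z => ((g x : Z) : G)) h12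
        simp only [MonoidHom.coe_mk, OneHom.coe_mk] at h6
        exact mul_right_cancel h6
      rw [← Finset.card_image_of_injOn hinj]
      exact hX p hp hpn Z hZcard _
    calc H.card = ∑ r ∈ H.image f, (H.filter (fun ρ => f ρ = r)).card :=
          Finset.card_eq_sum_card_image f H
      _ ≤ ∑ _r ∈ H.image f, X := Finset.sum_le_sum h3
      _ = (H.image f).card * X := by rw [Finset.sum_const, smul_eq_mul]
      _ ≤ X ^ m' * X := Nat.mul_le_mul_right _ h2
      _ = X ^ (m' + 1) := by rw [pow_succ]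
      _ ≤ X ^ m := Nat.pow_le_pow_right hX1 (by omega)

/-- the number of homomorphisms with given restriction to a subgroup -/
theorem hom_card_res {Γ Γ' G A : Type} [Group Γ] [Group Γ'] [Group G] [Finite G] [Finite A]
    (r : Γ' →* Γ) (R : Γ → A)
    (hR : ∀ x y : Γ, R x = R y → ∃ z : Γ', r z = x⁻¹ * y) (H : Finset (Γ →* G)) (X : ℕ)
    (hX : ∀ H' : Finset (Γ' →* G), (∀ χ ∈ H', ∃ ρ ∈ H, χ = ρ.comp r) → H'.card ≤ X) :
    H.card ≤ X * Nat.card G ^ Nat.card A := by
  classical
  have := Fintype.ofFinite G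
  have := Fintype.ofFinite A
  let rep : A → Γ := fun a => if h : ∃ x, R x = a then Classical.choose h else 1
  have hrep : ∀ x, R (rep (R x)) = R x := by
    intro x
    have h : ∃ y, R y = R x := ⟨x, rfl⟩
    simp only [rep, dif_pos h]
    exact Classical.choose_spec h
  let Φ : (Γ →* G) → (Γ' →* G) × (A → G) := fun ρ => (ρ.comp r, fun a => ρ (rep a))
  have hinj : Function.Injective Φ := by
    intro ρ1 ρ2 h12
    have h1 : ρ1.comp r = ρ2.comp r := congrArg Prod.fst h12
    have h2 : (fun a => ρ1 (rep a)) = fun a => ρ2 (rep a) := congrArg Prod.snd h12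
    ext x
    obtain ⟨z, hz⟩ := hR (rep (R x)) x (hrep x)
    have h3 : x = rep (R x) * r z := by rw [hz]; group
    rw [h3, map_mul, map_mul]
    have h4 : ρ1 (r z) = ρ2 (r z) := congrArg (fun g : Γ' →* G => g z) h1
    have h5 : ρ1 (rep (R x)) = ρ2 (rep (R x)) := congrFun h2 (R x)
    rw [h4, h5]
  have h1 : (H.image Φ).card ≤ ((H.image (fun ρ => ρ.comp r)) ×ˢ
      (Finset.univ : Finset (A → G))).card := by
    apply Finset.card_le_card
    intro y hy
    obtain ⟨ρ, hρ, rfl⟩ := Finset.mem_image.1 hy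
    exact Finset.mem_product.2 ⟨Finset.mem_image_of_mem _ hρ, Finset.mem_univ _⟩
  rw [Finset.card_image_of_injective _ hinj, Finset.card_product, Finset.card_univ,
    Fintype.card_fun, ← Nat.card_eq_fintype_card, ← Nat.card_eq_fintype_card] at h1
  refine h1.trans (Nat.mul_le_mul_right _ ?_)
  apply hX
  intro χ hχ
  obtain ⟨ρ, hρ, rfl⟩ := Finset.mem_image.1 hχ
  exact ⟨ρ, hρ, rfl⟩

end Pool.Agent.K9h15.Cv
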