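import Mathlib
import Pool.Agent.K9h15.Cv.Ram
import Pool.Agent.K9h15.Cv.ClsN

/-!
# The number of characters of prime order which are unramified off a finite set of primes
-/

set_option autoImplicit false

open IsDedekindDomain NumberField

namespace Pool.Agent.K9h15.Cv

open Pool.Agent.K9h15.Pla

/-- a character of order `p` comes from a radical -/
lemma char_radical {L Λ : Type} [Field L] [Field Λ] [Algebra L Λ] [FiniteDimensional L Λ]
    [IsGalois L Λ] (p : ℕ) (χ : (Λ ≃ₐ[L] Λ) →* Lˣ) (hχ : ∀ g, χ g ^ p = 1) :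
    ∃ (δ : Λ) (d : L), δ ≠ 0 ∧ d ≠ 0 ∧ δ ^ p = algebraMap L Λ d ∧
      ∀ g : Λ ≃ₐ[L] Λ, g δ = algebraMap L Λ (χ g : L) * δ := by
  obtain ⟨β, hβ⟩ := groupCohomology.isMulCoboundary₁_of_isMulCocycle₁_of_aut_to_units
    (K := L) (L := Λ) (fun g => Units.map (algebraMap L Λ : L →* Λ) (χ g)) (by
      intro g h
      apply Units.ext
      have h1 : ((g • (Units.map (algebraMap L Λ : L →* Λ) (χ h)) : Λˣ) : Λ) =
          g (algebraMap L Λ (χ h : L)) := rfl
      rw [Units.val_mul, h1, AlgEquiv.commutes]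
      change algebraMap L Λ ((χ (g * h) : Lˣ) : L) =
        algebraMap L Λ ((χ h : Lˣ) : L) * algebraMap L Λ ((χ g : Lˣ) : L)
      rw [map_mul, Units.val_mul, map_mul, mul_comm])
  have hg : ∀ g : Λ ≃ₐ[L] Λ, g (β : Λ) = algebraMap L Λ (χ g : L) * β := by
    intro g
    have h1 := congrArg (fun u : Λˣ => (u : Λ)) (hβ g)
    have h2 : ((g • β / β : Λˣ) : Λ) = g (β : Λ) / (β : Λ) := by
      rw [Units.val_div_eq_div_val]
      rfl
    have h3 : ((g • β / β : Λˣ) : Λ) = algebraMap L Λ (χ g : L) := h1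
    rw [h2, div_eq_iff β.ne_zero] at h3
    exact h3
  have hfix : ∀ g : Λ ≃ₐ[L] Λ, g ((β : Λ) ^ p) = (β : Λ) ^ p := by
    intro g
    rw [map_pow, hg, mul_pow, ← map_pow, ← Units.val_pow_eq_pow_val, hχ]
    simp
  obtain ⟨d, hd⟩ := (IsGalois.mem_range_algebraMap_iff_fixed (F := L) ((β : Λ) ^ p)).2 hfix
  refine ⟨β, d, β.ne_zero, ?_, hd.symm, hg⟩
  rintro rfl
  rw [map_zero] at hd
  exact pow_ne_zero p β.ne_zero hd.symm

/-- **The number of unramified characters.** -/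
theorem kummer_count (L : Type) [Field L] [NumberField L] (p : ℕ) (hp : p.Prime) (ζ : L)
    (hζ : IsPrimitiveRoot ζ p) :
    ∃ C0 : ℕ, ∀ (Λ : Type) [Field Λ] [NumberField Λ] [Algebra L Λ] [IsGalois L Λ]
      (B : Finset (HeightOneSpectrum (𝓞 L))),
      (∀ v : HeightOneSpectrum (𝓞 L), v ∉ B → ∃ w : HeightOneSpectrum (𝓞 Λ),
        ∀ x : L, w.valuation Λ (algebraMap L Λ x) = v.valuation L x) →
      ∀ (Z : Type) [Group Z] [Finite Z], Nat.card Z = p →
        ∀ H : Finset ((Λ ≃ₐ[L] Λ) →* Z), H.card ≤ C0 * p ^ B.card := by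
  classical
  obtain ⟨C0, hC0⟩ := sel_card_n L p hp.one_lt.le
  refine ⟨C0, ?_⟩
  intro Λ _ _ _ _ B hB Z _ _ hZ H
  obtain ⟨T, hTc, hT0, hT⟩ := hC0 B
  have hpF : Fact p.Prime := ⟨hp⟩
  -- embedding of Z in the units
  have hζu : IsUnit ζ := hζ.isUnit hp.ne_zero
  obtain ⟨u, hu⟩ := hζu
  have hup : IsPrimitiveRoot u p := by
    rw [← hu] at hζ
    exact IsPrimitiveRoot.coe_units_iff.1 hζ
  have hcz : Nat.card (Subgroup.zpowers u) = p := by
    rw [Nat.card_zpowers, ← hup.eq_orderOf]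
  let e : Z ≃* Subgroup.zpowers u := mulEquivOfPrimeCardEq (p := p) hZ hcz
  let j : Z →* Lˣ := (Subgroup.zpowers u).subtype.comp e.toMonoidHom
  have hj : Function.Injective j := fun a b hab => e.injective (Subtype.ext hab)
  have hjp : ∀ z, j z ^ p = 1 := by
    intro z
    rw [← map_pow, ← hZ, pow_card_eq_one', map_one]
  have hrad := fun χ : (Λ ≃ₐ[L] Λ) →* Z => char_radical (L := L) (Λ := Λ) p (j.comp χ)
    (fun g => hjp _)
  choose δ d hδ0 hd0 hδd hδg using hrad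
  have hcls : ∀ χ : (Λ ≃ₐ[L] Λ) →* Z, ∃ t ∈ T, ∃ b : L, b ≠ 0 ∧ d χ = t * b ^ p := by
    intro χ
    apply hT (Units.mk0 _ (hd0 χ))
    intro v hv
    obtain ⟨w, hw⟩ := hB v hv
    have h1 : w.valuation Λ (δ χ) ^ p = v.valuation L (d χ) := by
      rw [← map_pow, hδd, hw]
    have h2 : (w.valuationOfNeZero (Units.mk0 _ (hδ0 χ))) ^ p =
        v.valuationOfNeZero (Units.mk0 _ (hd0 χ)) := by
      apply WithZero.coe_injective
      rw [WithZero.coe_pow, w.valuationOfNeZero_eq, v.valuationOfNeZero_eq]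
      exact h1
    rw [← h2, toAdd_pow, nsmul_eq_mul]
    exact dvd_mul_right _ _
  choose t htT b hb0 htb using hcls
  have hinj : Set.InjOn t (H : Set _) := by
    intro χ1 _ χ2 _ h12
    have hbΛ : ∀ χ, algebraMap L Λ (b χ) ≠ 0 := fun χ => (map_ne_zero _).2 (hb0 χ)
    have h1 : ∀ χ, (δ χ / algebraMap L Λ (b χ)) ^ p = algebraMap L Λ (t χ) := by
      intro χ
      rw [div_pow, hδd, htb, map_mul, map_pow]
      field_simp [hbΛ χ]
    have h2 : ((δ χ1 / algebraMap L Λ (b χ1)) / (δ χ2 / algebraMap L Λ (b χ2))) ^ p = 1 := by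
      rw [div_pow, h1, h1, h12]
      exact div_self ((map_ne_zero _).2 (hT0 _ (htT _)))
    have hζΛ : IsPrimitiveRoot (algebraMap L Λ ζ) p :=
      hζ.map_of_injective (algebraMap L Λ).injective
    have hne : NeZero p := ⟨hp.ne_zero⟩
    obtain ⟨i, _, hi⟩ := hζΛ.eq_pow_of_pow_eq_one h2
    have h3 : δ χ1 = algebraMap L Λ (ζ ^ i * b χ1 / b χ2) * δ χ2 := by
      rw [map_div₀, map_mul, map_pow, hi]
      have := hbΛ χ1
      have := hbΛ χ2
      have := hδ0 χ2
      field_simp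
    ext g
    apply hj
    apply Units.ext
    apply (algebraMap L Λ).injective
    have h4 := hδg χ1 g
    have h5 := hδg χ2 g
    rw [h3, map_mul, AlgEquiv.commutes, h5] at h4
    have h6 : algebraMap L Λ (ζ ^ i * b χ1 / b χ2) ≠ 0 := by
      intro h0
      apply hδ0 χ1
      rw [h3, h0, zero_mul]
    have h7 := hδ0 χ2
    have h8 : (algebraMap L Λ (ζ ^ i * b χ1 / b χ2) * δ χ2) *
        (algebraMap L Λ (((j.comp χ1) g : Lˣ) : L)) =
        (algebraMap L Λ (ζ ^ i * b χ1 / b χ2) * δ χ2) *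
        (algebraMap L Λ (((j.comp χ2) g : Lˣ) : L)) := by linear_combination -h4
    exact mul_left_cancel₀ (mul_ne_zero h6 h7) h8
  have h9 : (H.image t).card ≤ T.card := by
    apply Finset.card_le_card
    intro x hx
    obtain ⟨χ, _, rfl⟩ := Finset.mem_image.1 hx
    exact htT χ
  rw [Finset.card_image_of_injOn hinj] at h9
  exact h9.trans hTc

end Pool.Agent.K9h15.Cv
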