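import Mathlib
import Pool.Agent.K9h15.Lift

/-!
# Extension of specializations to Galois covers
-/

set_option autoImplicit false

open Polynomial

namespace Pool.Agent.K9h15.Cv

open Pool.Agent.K9h15.Tow

variable {k E M : Type} [Field k] [Field E] [Field M] [Algebra k E] [Algebra k M] [Algebra E M]
  [IsScalarTower k E M]

/-- the values of polynomial expressions -/
lemma lift_eval {L Ω : Type} [Field L] [Algebra k L] [Field Ω] [Algebra k Ω] [Algebra L Ω]
    (s : Sz k E L) (s' : Sz k M Ω)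
    (hs : ∀ z ∈ s.T, algebraMap E M z ∈ s'.T ∧
      s'.ev (algebraMap E M z) = algebraMap L Ω (s.ev z)) {q : E[X]} (hq : ∀ j, q.coeff j ∈ s.T)
    {y : M} (hy : y ∈ s'.T) :
    aeval y q ∈ s'.T ∧ s'.ev (aeval y q) = aeval (s'.ev y) (sp s q) := by
  have h1 : ∀ j, (q.map (algebraMap E M)).coeff j ∈ s'.T := by
    intro j
    rw [coeff_map]
    exact (hs _ (hq j)).1
  obtain ⟨h2, h3⟩ := sp_eval s' h1 hy
  rw [eval_map_algebraMap] at h2 h3
  refine ⟨h3, ?_⟩
  rw [← h2, ← eval_map_algebraMap]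
  congr 1
  ext j
  rw [sp_coeff, coeff_map, coeff_map, sp_coeff]
  exact (hs _ (hq j)).2

/-- the elements of the extension are polynomials in a primitive element -/
lemma exists_poly [FiniteDimensional E M] (Θ : M) (hΘ : IntermediateField.adjoin E {Θ} = ⊤)
    (y : M) : ∃ q : E[X], aeval Θ q = y := by
  have h1 : y ∈ (IntermediateField.adjoin E {Θ}).toSubalgebra := by
    rw [hΘ]; trivial
  rw [IntermediateField.adjoin_simple_toSubalgebra_of_isAlgebraic
    (Algebra.IsAlgebraic.isAlgebraic Θ),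
    Algebra.adjoin_singleton_eq_range_aeval] at h1
  obtain ⟨q, hq⟩ := h1
  exact ⟨q, hq⟩

lemma aut_ext [FiniteDimensional E M] (Θ : M) (hΘ : IntermediateField.adjoin E {Θ} = ⊤)
    (g h : M ≃ₐ[E] M) (hgh : g Θ = h Θ) : g = h := by
  ext y
  obtain ⟨q, rfl⟩ := exists_poly Θ hΘ y
  rw [← aeval_algHom_apply g, ← aeval_algHom_apply h, hgh]

/-- the polynomial with roots the conjugates -/
lemma exists_charpoly [FiniteDimensional E M] [IsGalois E M] (Θ : M) :
    ∃ p : E[X], p.Monic ∧ p.map (algebraMap E M) = ∏ g : M ≃ₐ[E] M, (X - C (g Θ)) := by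
  classical
  set P : M[X] := ∏ g : M ≃ₐ[E] M, (X - C (g Θ)) with hP
  have hfix : ∀ (h : M ≃ₐ[E] M) j, h (P.coeff j) = P.coeff j := by
    intro h j
    have h1 : P.map (h : M →+* M) = P := by
      rw [hP, Polynomial.map_prod]
      simp only [Polynomial.map_sub, map_X, map_C]
      have h2 : ∀ g : M ≃ₐ[E] M, (X - C ((h : M →+* M) (g Θ)) : M[X]) =
          (fun g : M ≃ₐ[E] M => (X - C (g Θ))) (h * g) := fun g => rfl
      rw [Finset.prod_congr rfl fun g _ => h2 g]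
      exact Equiv.prod_comp (Equiv.mulLeft h) (fun g : M ≃ₐ[E] M => (X - C (g Θ)))
    conv_rhs => rw [← h1]
    rw [coeff_map]
    rfl
  have h2 : P ∈ Polynomial.lifts (algebraMap E M) := by
    rw [Polynomial.lifts_iff_coeff_lifts]
    intro j
    exact (IsGalois.mem_range_algebraMap_iff_fixed (F := E) (P.coeff j)).2 fun h => hfix h j
  obtain ⟨p, hp⟩ := (Polynomial.mem_lifts _).1 h2
  refine ⟨p, ?_, hp⟩
  apply monic_of_injective (algebraMap E M).injective
  rw [hp]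
  exact monic_prod_of_monic _ _ fun g _ => monic_X_sub_C _

/-- **The action of the Galois group on the extended specializations.** -/
theorem exists_rho [FiniteDimensional E M] [IsGalois E M] (Θ : M)
    (hΘ : IntermediateField.adjoin E {Θ} = ⊤) (W : Finset M) :
    ∃ C : Finset E, ∀ (L Ω : Type) [Field L] [Algebra k L] [Field Ω] [IsAlgClosed Ω]
      [Algebra k Ω] [Algebra L Ω] [IsScalarTower k L Ω] (s : Sz k E L), (∀ c ∈ C, c ∈ s.T) →
      ∃ (s' : Sz k M Ω) (ρ : (Ω ≃ₐ[L] Ω) →* (M ≃ₐ[E] M)),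
        (∀ z ∈ s.T, algebraMap E M z ∈ s'.T ∧
          s'.ev (algebraMap E M z) = algebraMap L Ω (s.ev z)) ∧
        (∀ w ∈ W, ∀ g : M ≃ₐ[E] M, g w ∈ s'.T ∧
          s'.ev (g w) ∈ IntermediateField.adjoin L {s'.ev Θ} ∧
          ∀ γ : Ω ≃ₐ[L] Ω, γ (s'.ev (g w)) = s'.ev ((ρ γ * g) w)) ∧
        (∀ g h : M ≃ₐ[E] M, s'.ev (g Θ) = s'.ev (h Θ) → g = h) := by
  classical
  obtain ⟨pE, hpm, hpE⟩ := exists_charpoly (E := E) Θ
  choose q hq using exists_poly (E := E) Θ hΘ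
  let cf : E[X] → Finset E := fun p => (Finset.range (p.natDegree + 1)).image p.coeff
  have hcf : ∀ (p : E[X]) (T : Subalgebra k E), (∀ c ∈ cf p, c ∈ T) → ∀ j, p.coeff j ∈ T := by
    intro p T hT j
    by_cases hj : j < p.natDegree + 1
    · exact hT _ (Finset.mem_image_of_mem _ (Finset.mem_range.2 hj))
    · rw [coeff_eq_zero_of_natDegree_lt (by omega)]
      exact T.zero_mem
  let W' : Finset M := insert Θ W
  let C1 : Finset E := W'.biUnion (fun w => Finset.univ.biUnion (fun g : M ≃ₐ[E] M => cf (q (g w))))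
  let C2 : Finset E := Finset.univ.biUnion (fun g : M ≃ₐ[E] M =>
    Finset.univ.biUnion (fun h : M ≃ₐ[E] M => cf (q ((g Θ - h Θ)⁻¹))))
  refine ⟨cf pE ∪ (C1 ∪ C2), ?_⟩
  intro L Ω _ _ _ _ _ _ _ s hC
  have hpT : ∀ j, pE.coeff j ∈ s.T := hcf _ _ fun c hc => hC c (Finset.mem_union_left _ hc)
  have h1T : ∀ w ∈ W', ∀ g : M ≃ₐ[E] M, ∀ j, (q (g w)).coeff j ∈ s.T := by
    intro w hw g
    refine hcf _ _ fun c hc => hC c (Finset.mem_union_right _ (Finset.mem_union_left _ ?_))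
    exact Finset.mem_biUnion.2 ⟨w, hw, Finset.mem_biUnion.2 ⟨g, Finset.mem_univ _, hc⟩⟩
  have h2T : ∀ g h : M ≃ₐ[E] M, ∀ j, (q ((g Θ - h Θ)⁻¹)).coeff j ∈ s.T := by
    intro g h
    refine hcf _ _ fun c hc => hC c (Finset.mem_union_right _ (Finset.mem_union_right _ ?_))
    exact Finset.mem_biUnion.2 ⟨g, Finset.mem_univ _, Finset.mem_biUnion.2
      ⟨h, Finset.mem_univ _, hc⟩⟩
  obtain ⟨s', hs', hint⟩ := s.extend M Ω
  have hΘT : Θ ∈ s'.T := by
    apply hint
    obtain ⟨Q, hQ1, hQ2⟩ := exists_lift s hpT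
    refine ⟨Q, ?_, ?_⟩
    · apply monic_of_injective (FaithfulSMul.algebraMap_injective s.T E)
      rw [hQ1]
      exact hpm
    · have h3 : (pE.map (algebraMap E M)).eval Θ = 0 := by
        rw [hpE, eval_prod]
        exact Finset.prod_eq_zero (Finset.mem_univ (1 : M ≃ₐ[E] M)) (by simp)
      rw [← hQ1, Polynomial.map_map, eval_map] at h3
      exact h3
  have hval : ∀ {y : M}, (∀ j, (q y).coeff j ∈ s.T) → y ∈ s'.T ∧
      s'.ev y = aeval (s'.ev Θ) (sp s (q y)) := by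
    intro y hy
    have h3 := lift_eval s s' hs' hy hΘT
    rw [hq] at h3
    exact h3
  have hgT : ∀ g : M ≃ₐ[E] M, g Θ ∈ s'.T := fun g =>
    (hval (h1T Θ (Finset.mem_insert_self _ _) g)).1
  -- the roots of the specialized polynomial
  have hprod : (sp s pE).map (algebraMap L Ω) = ∏ g : M ≃ₐ[E] M, (X - C (s'.ev (g Θ))) := by
    have h3 : (sp s pE).map (algebraMap L Ω) = sp s' (pE.map (algebraMap E M)) := by
      ext j
      rw [coeff_map, sp_coeff, sp_coeff, coeff_map]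
      exact ((hs' _ (hpT j)).2).symm
    have h4 : pE.map (algebraMap E M) = (∏ g : M ≃ₐ[E] M,
        (X - C (⟨g Θ, hgT g⟩ : s'.T))).map (algebraMap s'.T M) := by
      rw [hpE, Polynomial.map_prod]
      refine Finset.prod_congr rfl fun g _ => ?_
      rw [Polynomial.map_sub, map_X, map_C]
      rfl
    rw [h3, h4, sp_of_map, Polynomial.map_prod]
    refine Finset.prod_congr rfl fun g _ => ?_
    rw [Polynomial.map_sub, map_X, map_C, ev_mk s' (hgT g)]
    rfl
  have hroot : ∀ γ : Ω ≃ₐ[L] Ω, ∃ g : M ≃ₐ[E] M, γ (s'.ev Θ) = s'.ev (g Θ) := by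
    intro γ
    have h3 : aeval (s'.ev Θ) (sp s pE) = 0 := by
      rw [← eval_map_algebraMap, hprod, eval_prod]
      exact Finset.prod_eq_zero (Finset.mem_univ (1 : M ≃ₐ[E] M)) (by simp)
    have h4 : aeval (γ (s'.ev Θ)) (sp s pE) = 0 := by
      rw [aeval_algHom_apply γ, h3, map_zero]
    rw [← eval_map_algebraMap, hprod, eval_prod, Finset.prod_eq_zero_iff] at h4
    obtain ⟨g, _, hg⟩ := h4
    rw [eval_sub, eval_X, eval_C, sub_eq_zero] at hg
    exact ⟨g, hg⟩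
  have hinj : ∀ g h : M ≃ₐ[E] M, s'.ev (g Θ) = s'.ev (h Θ) → g = h := by
    intro g h hgh
    by_contra hne
    have h3 : g Θ - h Θ ≠ 0 := by
      intro h0
      exact hne (aut_ext Θ hΘ g h (sub_eq_zero.1 h0))
    have h4 := ev_ne_zero s' h3 (s'.T.sub_mem (hgT g) (hgT h)) (hval (h2T g h)).1
    apply h4
    rw [ev_sub s' (hgT g) (hgT h), hgh, sub_self]
  choose ρ0 hρ0 using hroot
  have hact : ∀ γ : Ω ≃ₐ[L] Ω, ∀ y : M, (∀ j, (q y).coeff j ∈ s.T) →
      γ (s'.ev y) = s'.ev (ρ0 γ y) := by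
    intro γ y hy
    have h3 := lift_eval s s' hs' hy (hgT (ρ0 γ))
    have h4 : aeval (ρ0 γ Θ) (q y) = ρ0 γ y := by
      rw [aeval_algHom_apply (ρ0 γ), hq]
    rw [h4] at h3
    rw [h3.2, (hval hy).2, ← aeval_algHom_apply γ, hρ0]
  have hmul : ∀ γ γ' : Ω ≃ₐ[L] Ω, ρ0 (γ * γ') = ρ0 γ * ρ0 γ' := by
    intro γ γ'
    apply hinj
    rw [← hρ0]
    have h3 : (γ * γ') (s'.ev Θ) = γ (γ' (s'.ev Θ)) := rfl
    rw [h3, hρ0, hact γ _ (h1T Θ (Finset.mem_insert_self _ _) (ρ0 γ'))]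
    rfl
  have hone : ρ0 1 = 1 := by
    have h3 := hmul 1 1
    rw [mul_one] at h3
    exact (mul_eq_left.1 h3.symm)
  refine ⟨s', ⟨⟨ρ0, hone⟩, hmul⟩, hs', ?_, hinj⟩
  intro w hw g
  have hy := h1T w (Finset.mem_insert_of_mem hw) g
  refine ⟨(hval hy).1, ?_, fun γ => ?_⟩
  · rw [(hval hy).2]
    rw [aeval_def, eval₂_eq_sum]
    refine sum_mem fun j _ => mul_mem (IntermediateField.algebraMap_mem _ _) (pow_mem ?_ _)
    exact IntermediateField.mem_adjoin_simple_self L _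
  · rw [hact γ _ hy]
    rfl

end Pool.Agent.K9h15.Cv
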