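import Mathlib

/-!
# The numerical condition of the determinant method
-/

set_option autoImplicit false

namespace Pool.Agent.K9h15.Cv

lemma numeric (e K D N m : ℕ) (κ δ A CM V q : ℝ) (hK : 1 ≤ K) (hD : 2 * K ^ e ≤ D)
    (hκ : 1 ≤ κ) (hδ : 0 < δ) (hδK : 4 * (e : ℝ) ≤ δ * K)
    (hm : 4 * κ * (D * N) ≤ δ * (m + 1)) (hA : 1 ≤ A) (hCM : (A * κ ^ (D * N)) ^ 2 ≤ CM)
    (hV : 1 ≤ V) (hq : CM * V ^ δ < q) :
    A * (V ^ (m * e) * (κ * V ^ κ) ^ (D * N)) ^ ((m + 1) ^ e * D) <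
      q ^ (((m + 1) ^ e * D - ((m + 1) * K) ^ e) * ((m + 1) * K)) := by
  set I := (m + 1) ^ e * D with hI
  set n := (m + 1) * K with hn
  set B : ℝ := V ^ (m * e) * (κ * V ^ κ) ^ (D * N) with hB
  have hV0 : 0 < V := by linarith
  have hVκ : 1 ≤ V ^ κ := Real.one_le_rpow hV (by linarith)
  have hVδ : 1 ≤ V ^ δ := Real.one_le_rpow hV hδ.le
  have hκV : 1 ≤ κ * V ^ κ := one_le_mul_of_one_le_of_one_le hκ hVκ
  have hB1 : 1 ≤ B := one_le_mul_of_one_le_of_one_le (one_le_pow₀ hV) (one_le_pow₀ hκV)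
  have hAκ : 1 ≤ A * κ ^ (D * N) := one_le_mul_of_one_le_of_one_le hA (one_le_pow₀ hκ)
  have hCM1 : 1 ≤ CM := (one_le_pow₀ hAκ).trans hCM
  have hM1 : 1 ≤ CM * V ^ δ := one_le_mul_of_one_le_of_one_le hCM1 hVδ
  have hq1 : 1 ≤ q := by linarith
  have hn1 : 1 ≤ n := Nat.one_le_iff_ne_zero.2 (Nat.mul_ne_zero (by omega) (by omega))
  have hD1 : 1 ≤ D := le_trans (by have := Nat.one_le_pow e K hK; omega) hD
  have hI1 : 1 ≤ I := Nat.one_le_iff_ne_zero.2 (Nat.mul_ne_zero (by positivity) (by omega))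
  have hK1 : (1 : ℝ) ≤ K := by exact_mod_cast hK
  -- first claim
  have c1 : (A * B) ^ 2 ≤ (CM * V ^ δ) ^ n := by
    have e1 : (A * B) ^ 2 = (A * κ ^ (D * N)) ^ 2 * V ^ (2 * ((m : ℝ) * e + κ * (D * N))) := by
      have e2 : B = κ ^ (D * N) * V ^ ((m : ℝ) * e + κ * (D * N)) := by
        rw [hB, mul_pow, ← Real.rpow_natCast (V ^ κ), ← Real.rpow_mul hV0.le,
          ← Real.rpow_natCast V (m * e), Real.rpow_add hV0]
        push_cast
        ring
      rw [e2, ← mul_assoc, mul_pow, ← Real.rpow_natCast (V ^ _) 2, ← Real.rpow_mul hV0.le]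
      congr 2
      push_cast
      ring
    have e3 : (CM * V ^ δ) ^ n = CM ^ n * V ^ (δ * n) := by
      rw [mul_pow, ← Real.rpow_natCast (V ^ δ), ← Real.rpow_mul hV0.le]
    rw [e1, e3]
    have e4 : CM ≤ CM ^ n := le_self_pow₀ hCM1 (by omega)
    have e5 : 2 * ((m : ℝ) * e + κ * (D * N)) ≤ δ * n := by
      have h1 : ((n : ℕ) : ℝ) = (m + 1) * K := by rw [hn]; push_cast; ring
      rw [h1]
      have h2 : (0 : ℝ) ≤ m := Nat.cast_nonneg _
      have h3 : (0 : ℝ) ≤ e := Nat.cast_nonneg _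
      have h4 : 4 * (e : ℝ) * (m + 1) ≤ δ * K * (m + 1) :=
        mul_le_mul_of_nonneg_right hδK (by linarith)
      have h5 : δ * (m + 1) ≤ δ * (m + 1) * K := by
        have : 0 ≤ δ * (m + 1) := by positivity
        nlinarith
      nlinarith
    exact mul_le_mul (hCM.trans e4) (Real.rpow_le_rpow_of_exponent_le hV e5)
      (Real.rpow_nonneg hV0.le _) (by positivity)
  have c2 : I ≤ 2 * (I - n ^ e) := by
    have h1 : 2 * n ^ e ≤ I := by
      rw [hn, mul_pow, hI]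
      calc 2 * ((m + 1) ^ e * K ^ e) = (m + 1) ^ e * (2 * K ^ e) := by ring
        _ ≤ _ := Nat.mul_le_mul_left _ hD
    omega
  have hA0 : 0 < A := by linarith
  have hB0 : 0 < B := by linarith
  refine lt_of_pow_lt_pow_left₀ 2 (by positivity) ?_
  calc (A * B ^ I) ^ 2 ≤ (A ^ I * B ^ I) ^ 2 := by
        have : A ≤ A ^ I := le_self_pow₀ hA (by omega)
        gcongr
    _ = ((A * B) ^ 2) ^ I := by rw [← mul_pow, ← pow_mul, ← pow_mul, mul_comm 2 I]
    _ ≤ ((CM * V ^ δ) ^ n) ^ I := by gcongr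
    _ < (q ^ n) ^ I := by
        apply pow_lt_pow_left₀ _ (by positivity) (by omega)
        exact pow_lt_pow_left₀ hq (by positivity) (by omega)
    _ = q ^ (n * I) := (pow_mul q n I).symm
    _ ≤ q ^ (((I - n ^ e) * n) * 2) := by
        apply pow_le_pow_right₀ hq1
        nlinarith
    _ = _ := by rw [pow_mul]

end Pool.Agent.K9h15.Cv
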