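import Mathlib
import Pool.Agent.K9h15.Cv.Dm
import Pool.Agent.K9h15.Cv.Cvr

/-!
# Relations for the points in one class
-/

set_option autoImplicit false

open Polynomial IsDedekindDomain NumberField Height

namespace Pool.Agent.K9h15.Cv

open Pool.Agent.K9h15.Pla

lemma mm_map {A B : Type} [CommRing A] [CommRing B] (f : A →+* B) {σ : Type} [Fintype σ]
    [DecidableEq σ] {m D : ℕ} (x : Ix σ m D → σ → A) (y : Ix σ m D → A) :
    f (mm x y).det = (mm (fun a s => f (x a s)) (fun a => f (y a))).det := by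
  rw [RingHom.map_det]
  congr 1
  ext c a
  rw [RingHom.mapMatrix_apply, Matrix.map_apply]
  simp only [mm, Matrix.of_apply]
  rw [map_mul, map_prod, map_pow]
  simp only [map_pow]

/-- **A relation over the field of the points.** -/
theorem class_rel {L Ω : Type} [Field L] [NumberField L] [Field Ω] [IsAlgClosed Ω] [Algebra L Ω]
    [Algebra.IsAlgebraic L Ω] {G : Type} [Group G] [Finite G] (ρ : (Ω ≃ₐ[L] Ω) →* G)
    {σ : Type} [Fintype σ] [DecidableEq σ] {m D : ℕ} {β : Type} (x : β → σ → L) (y : β → G → Ω)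
    (hρ : ∀ (γ : Ω ≃ₐ[L] Ω) s g, γ (y s g) = y s (ρ γ * g))
    (P : (MvPolynomial σ L)[X]) (hPm : P.Monic) (hP0 : P.natDegree ≠ 0)
    (hP : ∀ s g, ev2 (algebraMap L Ω) (fun t => algebraMap L Ω (x s t)) (y s g) P = 0)
    {Λ : Type} [Field Λ] [NumberField Λ] [Algebra L Λ] (j : Λ →ₐ[L] Ω) (yΛ : β → G → Λ)
    (hy : ∀ s g, j (yΛ s g) = y s g) (V V' : ℝ) (hV : ∀ s t, mulHeight₁ (x s t) ≤ V)
    (hV' : ∀ s i, mulHeight₁ (MvPolynomial.eval (x s) (P.coeff i)) ≤ V')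
    (v0 : HeightOneSpectrum (𝓞 L)) (w0 : HeightOneSpectrum (𝓞 Λ))
    [hw : w0.asIdeal.LiesOver v0.asIdeal] (hPi : ∀ i e, av v0 ((P.coeff i).coeff e) ≤ 1)
    (hx1 : ∀ s t, av v0 (x s t) ≤ 1) (hcl : ∀ s s' t, av v0 (x s t - x s' t) < 1)
    (hu : ∀ s g, av w0 (ev2 (algebraMap L Λ) (fun t => algebraMap L Λ (x s t)) (yΛ s g)
      P.derivative) = 1)
    (hyc : ∀ s s' g, av w0 (yΛ s g - yΛ s' g) < 1) (n : ℕ)
    (hnum : ((Fintype.card (Ix σ m D)).factorial *
        (P.natDegree : ℝ) ^ (D * Fintype.card (Ix σ m D))) ^ (Module.finrank ℚ L) *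
      (V ^ (m * Fintype.card σ) * V' ^ (D * P.natDegree)) ^ Fintype.card (Ix σ m D) <
      nm v0 ^ ((Fintype.card (Ix σ m D) - n ^ Fintype.card σ) * n)) :
    ∃ q : Ix σ m D → Λ, q ≠ 0 ∧ ∀ s, ∑ c, q c *
      ((∏ t, algebraMap L Λ (x s t) ^ (c.1 t : ℕ)) * yΛ s 1 ^ (c.2 : ℕ)) = 0 := by
  classical
  have hjL : ∀ z : L, j (algebraMap L Λ z) = algebraMap L Ω z := fun z => j.commutes z
  have hji : ∀ a b : Λ, j a = j b → a = b := fun a b h => j.injective h
  apply rel_of_minors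
  intro a
  by_contra hdet
  have := Fintype.ofFinite ρ.range
  have hne : Nonempty ρ.range := ⟨1⟩
  let Dg : G → Λ := fun g =>
    (mm (fun b t => algebraMap L Λ (x (a b) t)) (fun b => yΛ (a b) g)).det
  have hD1 : Dg 1 ≠ 0 := hdet
  have hjD : ∀ g, j (Dg g) = (mm (fun b t => algebraMap L Ω (x (a b) t))
      (fun b => y (a b) g)).det := by
    intro g
    have h1 := mm_map (j : Λ →+* Ω) (fun b t => algebraMap L Λ (x (a b) t)) (fun b => yΛ (a b) g)
    refine h1.trans ?_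
    simp only [RingHom.coe_coe, hjL, hy]
  have hγD : ∀ (γ : Ω ≃ₐ[L] Ω) g, γ (j (Dg g)) = j (Dg (ρ γ * g)) := by
    intro γ g
    rw [hjD, hjD]
    have h1 := mm_map (γ : Ω →+* Ω) (fun b t => algebraMap L Ω (x (a b) t)) (fun b => y (a b) g)
    refine h1.trans ?_
    have h2 : ∀ z : L, (γ : Ω →+* Ω) (algebraMap L Ω z) = algebraMap L Ω z := fun z => γ.commutes z
    have h3 : ∀ b, (γ : Ω →+* Ω) (y (a b) g) = y (a b) (ρ γ * g) := fun b => hρ γ _ _
    simp only [h2, h3]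
  have hDg : ∀ g : ρ.range, Dg g ≠ 0 := by
    rintro ⟨g, γ, rfl⟩ h0
    apply hD1
    apply hji
    apply γ.injective
    have h1 := hγD γ 1
    rw [mul_one] at h1
    rw [h1, map_zero, map_zero]
    exact (map_eq_zero j).2 h0
  have hcΩ : CharZero Ω := charZero_of_injective_algebraMap (algebraMap L Ω).injective
  have hclo : IsAlgClosure L Ω := ⟨inferInstance, inferInstance⟩
  have hnor : Normal L Ω := IsAlgClosure.normal L Ω
  have hgal : IsGalois L Ω := { __ := hnor }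
  have hfix : ∀ γ : Ω ≃ₐ[L] Ω, γ (∏ g : ρ.range, j (Dg g)) = ∏ g : ρ.range, j (Dg g) := by
    intro γ
    rw [map_prod]
    have h1 : ∀ g : ρ.range, γ (j (Dg g)) =
        (fun g : ρ.range => j (Dg g)) ((⟨ρ γ, γ, rfl⟩ : ρ.range) * g) := fun g => hγD γ g
    rw [Finset.prod_congr rfl fun g _ => h1 g]
    exact Equiv.prod_comp (Equiv.mulLeft (⟨ρ γ, γ, rfl⟩ : ρ.range)) (fun g : ρ.range => j (Dg g))
  have hmem := (InfiniteGalois.mem_bot_iff_fixed (∏ g : ρ.range, j (Dg g))).2 hfix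
  rw [IntermediateField.mem_bot] at hmem
  obtain ⟨δ, hδ⟩ := hmem
  have hδΛ : algebraMap L Λ δ = ∏ g : ρ.range, Dg g := by
    apply hji
    rw [hjL, hδ, map_prod]
  have hδ0 : δ ≠ 0 := by
    rintro rfl
    rw [map_zero] at hδΛ
    exact (Finset.prod_ne_zero_iff.2 fun g _ => hDg g) hδΛ.symm
  have hPΛ : ∀ s g, ev2 (algebraMap L Λ) (fun t => algebraMap L Λ (x s t)) (yΛ s g) P = 0 := by
    intro s g
    apply hji
    have h1 := ev2_comp (algebraMap L Λ) (j : Λ →+* Ω) (fun t => algebraMap L Λ (x s t)) (yΛ s g) P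
    have h2 : (j : Λ →+* Ω).comp (algebraMap L Λ) = algebraMap L Ω := by
      ext z; exact hjL z
    rw [h2] at h1
    rw [map_zero, ← hP s g, ← hy]
    refine h1.trans ?_
    congr 2
    funext t
    exact hjL _
  have hfin := dm P hPm hP0 (fun b => x (a b)) (fun b (g : ρ.range) => yΛ (a b) (g : G))
    (fun b g => hPΛ _ _) δ hδΛ hδ0 V V' (fun b t => hV _ _) (fun b i => hV' _ _) v0 w0 hPi
    (fun b t => hx1 _ _) (fun b b' t => hcl _ _ _) (fun b g => hu _ _) (fun b b' g => hyc _ _ _) n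
  exact absurd hnum (not_lt.2 hfin)

/-- **Descent of relations.** -/
theorem rel_descend {L Ω : Type} [Field L] [Field Ω] [Algebra L Ω] {σ : Type} [Fintype σ]
    {β : Type} (x : β → σ → L) (S0 : Finset (σ →₀ ℕ)) (Q : MvPolynomial σ Ω) (hQ : Q ≠ 0)
    (hS : Q.support ⊆ S0)
    (hz : ∀ s, MvPolynomial.eval (fun t => algebraMap L Ω (x s t)) Q = 0) :
    ∃ R : S0 → L, R ≠ 0 ∧ ∀ s, ∑ n : S0, R n * ∏ t, x s t ^ ((n : σ →₀ ℕ) t) = 0 := by
  classical
  apply rel_of_minors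
  intro a
  have hΩ : ∀ s, ∑ n : S0, Q.coeff (n : σ →₀ ℕ) * algebraMap L Ω (∏ t, x s t ^ ((n : σ →₀ ℕ) t)) =
      0 := by
    intro s
    rw [← hz s, MvPolynomial.eval_eq']
    simp only [map_prod, map_pow]
    rw [Finset.sum_coe_sort S0 (fun n => Q.coeff n * ∏ t, algebraMap L Ω (x s t) ^ (n t))]
    symm
    apply Finset.sum_subset hS
    intro n _ hn
    rw [MvPolynomial.notMem_support_iff.1 hn, zero_mul]
  apply (algebraMap L Ω).injective
  rw [map_zero, RingHom.map_det]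
  rw [← Matrix.exists_vecMul_eq_zero_iff]
  refine ⟨fun n => Q.coeff (n : σ →₀ ℕ), ?_, ?_⟩
  · intro h0
    apply hQ
    ext n
    by_cases hn : n ∈ S0
    · rw [MvPolynomial.coeff_zero]
      exact congrFun h0 ⟨n, hn⟩
    · rw [MvPolynomial.coeff_zero, MvPolynomial.notMem_support_iff.1 (fun h => hn (hS h))]
  · funext b
    simp only [Matrix.vecMul, dotProduct, RingHom.mapMatrix_apply, Matrix.map_apply,
      Matrix.of_apply, Pi.zero_apply]
    exact hΩ (a b)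

end Pool.Agent.K9h15.Cv
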