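import Mathlib
import Pool.Agent.K9h15.CompA
import Pool.Agent.K9h15.Cv.Zer

/-!
# Specialization of polynomials with polynomial coefficients, and certificates for trivial inertia
-/

set_option autoImplicit false

open Polynomial

namespace Pool.Agent.K9h15.Cv

open Pool.Agent.K9h15.Tow

section sp2

variable {σ k K L : Type} [Field k] [Field K] [Algebra k K] [Field L] [Algebra k L]

/-- the coefficients -/
noncomputable def cc {R : Type} [CommRing R] (P : (MvPolynomial σ R)[X]) : Finset R :=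
  letI := Classical.decEq R
  (Finset.range (P.natDegree + 1)).biUnion (fun j => (P.coeff j).support.image (P.coeff j).coeff)

lemma cc_cover {R : Type} [CommRing R] (P : (MvPolynomial σ R)[X]) (j : ℕ) (n : σ →₀ ℕ) :
    (P.coeff j).coeff n ∈ cc P ∨ (P.coeff j).coeff n = 0 := by
  classical
  by_cases h0 : (P.coeff j).coeff n = 0
  · exact Or.inr h0
  left
  have hj : j < P.natDegree + 1 := by
    by_contra hcon
    apply h0
    rw [coeff_eq_zero_of_natDegree_lt (by omega), MvPolynomial.coeff_zero]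
  unfold cc
  refine Finset.mem_biUnion.2 ⟨j, Finset.mem_range.2 hj, ?_⟩
  rw [Finset.mem_image]
  exact ⟨n, MvPolynomial.mem_support_iff.2 h0, rfl⟩

lemma mem_cc {R : Type} [CommRing R] {P : (MvPolynomial σ R)[X]} {z : R} (h : z ∈ cc P) :
    ∃ j n, (P.coeff j).coeff n = z := by
  classical
  unfold cc at h
  obtain ⟨j, _, h⟩ := Finset.mem_biUnion.1 h
  rw [Finset.mem_image] at h
  obtain ⟨n, _, h⟩ := h
  exact ⟨j, n, h⟩

/-- the coefficients lie in the ring -/
def InT (s : Sz k K L) (P : (MvPolynomial σ K)[X]) : Prop := ∀ j n, (P.coeff j).coeff n ∈ s.T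

lemma inT_of (s : Sz k K L) (P : (MvPolynomial σ K)[X]) (h : ∀ z ∈ cc P, z ∈ s.T) : InT s P := by
  intro j n
  rcases cc_cover P j n with h1 | h1
  · exact h _ h1
  · rw [h1]; exact s.T.zero_mem

/-- the specialized polynomial -/
noncomputable def sp2 (s : Sz k K L) (P : (MvPolynomial σ K)[X]) : (MvPolynomial σ L)[X] :=
  ∑ j ∈ Finset.range (P.natDegree + 1),
    C (∑ n ∈ (P.coeff j).support, MvPolynomial.monomial n (s.ev ((P.coeff j).coeff n))) * X ^ j

lemma sp2_coeff (s : Sz k K L) (P : (MvPolynomial σ K)[X]) (j : ℕ) (n : σ →₀ ℕ) :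
    ((sp2 s P).coeff j).coeff n = s.ev ((P.coeff j).coeff n) := by
  classical
  unfold sp2
  rw [finsetSum_coeff]
  simp only [coeff_C_mul_X_pow]
  by_cases hj : j < P.natDegree + 1
  · rw [Finset.sum_eq_single j]
    · rw [if_pos rfl, MvPolynomial.coeff_sum]
      simp only [MvPolynomial.coeff_monomial]
      rw [Finset.sum_ite_eq']
      split_ifs with h
      · rfl
      · rw [MvPolynomial.notMem_support_iff.1 h, ev_zero]
    · intro i _ hi
      rw [if_neg (Ne.symm hi)]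
    · intro h
      exact absurd (Finset.mem_range.2 hj) h
  · rw [coeff_eq_zero_of_natDegree_lt (by omega), MvPolynomial.coeff_zero, ev_zero,
      Finset.sum_eq_zero, MvPolynomial.coeff_zero]
    intro i hi
    rw [Finset.mem_range] at hi
    rw [if_neg (by omega)]

lemma lift2 (s : Sz k K L) {P : (MvPolynomial σ K)[X]} (hP : InT s P) :
    ∃ Q : (MvPolynomial σ s.T)[X], Q.map (MvPolynomial.map (algebraMap s.T K)) = P ∧
      Q.map (MvPolynomial.map (s.φ : s.T →+* L)) = sp2 s P := by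
  obtain ⟨Q, hQ⟩ := poly_lift (algebraMap s.T K) P (fun j n => ⟨⟨_, hP j n⟩, rfl⟩)
  refine ⟨Q, hQ, ?_⟩
  ext j n
  rw [coeff_map, MvPolynomial.coeff_map, sp2_coeff, ← hQ, coeff_map, MvPolynomial.coeff_map]
  exact (ev_of s ((Q.coeff j).coeff n)).symm

lemma lift2_inj (s : Sz k K L) {Q Q' : (MvPolynomial σ s.T)[X]}
    (h : Q.map (MvPolynomial.map (algebraMap s.T K)) =
      Q'.map (MvPolynomial.map (algebraMap s.T K))) : Q = Q' :=
  Polynomial.map_injective _ (MvPolynomial.map_injective _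
    (FaithfulSMul.algebraMap_injective s.T K)) h

lemma sp2_ev (s : Sz k K L) {P : (MvPolynomial σ K)[X]} (hP : InT s P) {x : σ → K} {y : K}
    (hx : ∀ i, x i ∈ s.T) (hy : y ∈ s.T) :
    ev2 (RingHom.id L) (fun i => s.ev (x i)) (s.ev y) (sp2 s P) =
      s.ev (ev2 (RingHom.id K) x y P) ∧ ev2 (RingHom.id K) x y P ∈ s.T := by
  obtain ⟨Q, h1, h2⟩ := lift2 s hP
  have h3 : ev2 (RingHom.id K) x y P = algebraMap s.T K
      (ev2 (RingHom.id s.T) (fun i => (⟨x i, hx i⟩ : s.T)) ⟨y, hy⟩ Q) := by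
    rw [← h1, ev2_map, ev2_comp]
    rfl
  refine ⟨?_, ?_⟩
  · rw [← h2, ev2_map, h3]
    have h4 := ev_of s (ev2 (RingHom.id s.T) (fun i => (⟨x i, hx i⟩ : s.T)) ⟨y, hy⟩ Q)
    refine Eq.trans ?_ h4.symm
    have h5 := ev2_comp (RingHom.id s.T) (s.φ : s.T →+* L) (fun i => (⟨x i, hx i⟩ : s.T)) ⟨y, hy⟩ Q
    refine Eq.trans ?_ h5.symm
    have e1 : (fun i => s.ev (x i)) = fun i => (s.φ : s.T →+* L) ⟨x i, hx i⟩ := by
      funext i
      rw [ev_mk s (hx i)]
      rfl
    have e2 : s.ev y = (s.φ : s.T →+* L) ⟨y, hy⟩ := by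
      rw [ev_mk s hy]
      rfl
    rw [e1, e2]
    rfl
  · rw [h3]
    exact SetLike.coe_mem _

lemma sp2_monic (s : Sz k K L) {P : (MvPolynomial σ K)[X]} (hP : InT s P) (hm : P.Monic) :
    (sp2 s P).Monic ∧ (sp2 s P).natDegree = P.natDegree := by
  obtain ⟨Q, h1, h2⟩ := lift2 s hP
  have hinj : Function.Injective (MvPolynomial.map (algebraMap s.T K) :
      MvPolynomial σ s.T →+* MvPolynomial σ K) :=
    MvPolynomial.map_injective _ (FaithfulSMul.algebraMap_injective s.T K)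
  have hQ : Q.Monic := monic_of_injective hinj (by rw [h1]; exact hm)
  refine ⟨by rw [← h2]; exact hQ.map _, ?_⟩
  rw [← h2, hQ.natDegree_map, ← h1, hQ.natDegree_map]

lemma sp2_bezout (s : Sz k K L) {P U W : (MvPolynomial σ K)[X]} {d : MvPolynomial σ K}
    (hP : InT s P) (hU : InT s U) (hW : InT s W) (hd : ∀ n, d.coeff n ∈ s.T)
    (h : P * U + P.derivative * W = C d) :
    sp2 s P * sp2 s U + (sp2 s P).derivative * sp2 s W = sp2 s (C d) := by
  have hdT : InT s (C d) := by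
    intro j n
    rw [coeff_C]
    split_ifs
    · exact hd n
    · rw [MvPolynomial.coeff_zero]; exact s.T.zero_mem
  obtain ⟨P', hP1, hP2⟩ := lift2 s hP
  obtain ⟨U', hU1, hU2⟩ := lift2 s hU
  obtain ⟨W', hW1, hW2⟩ := lift2 s hW
  obtain ⟨d', hd1, hd2⟩ := lift2 s hdT
  have h1 : P' * U' + P'.derivative * W' = d' := by
    apply lift2_inj s
    rw [Polynomial.map_add, Polynomial.map_mul, Polynomial.map_mul, hP1, hU1, hW1, hd1,
      ← derivative_map, hP1, h]
  rw [← hP2, ← hU2, ← hW2, ← hd2, derivative_map, ← Polynomial.map_mul, ← Polynomial.map_mul,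
    ← Polynomial.map_add, h1]

end sp2

section restr

variable {k M Ω : Type} [Field k] [Field M] [Algebra k M] [Field Ω] [Algebra k Ω]

/-- values in a subfield -/
theorem exists_restr (s : Sz k M Ω) (Λ : Type) [Field Λ] [Algebra k Λ] (j : Λ →ₐ[k] Ω) :
    ∃ s' : Sz k M Λ, (∀ z, z ∈ s'.T ↔ z ∈ s.T ∧ s.ev z ∈ j.range) ∧
      ∀ z ∈ s'.T, j (s'.ev z) = s.ev z := by
  classical
  let T' : Subalgebra k M :=
    { carrier := {z | z ∈ s.T ∧ s.ev z ∈ j.range}
      mul_mem' := fun {x y} hx hy => ⟨s.T.mul_mem hx.1 hy.1, by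
        rw [ev_mul s hx.1 hy.1]; exact j.range.mul_mem hx.2 hy.2⟩
      add_mem' := fun {x y} hx hy => ⟨s.T.add_mem hx.1 hy.1, by
        rw [ev_add s hx.1 hy.1]; exact j.range.add_mem hx.2 hy.2⟩
      algebraMap_mem' := fun r => ⟨s.T.algebraMap_mem r, by
        rw [ev_algebraMap]; exact j.range.algebraMap_mem r⟩ }
  let e : Λ ≃ₐ[k] j.range := AlgEquiv.ofInjective j j.injective
  let φ1 : T' →ₐ[k] j.range :=
    { toFun := fun z => ⟨s.ev z, z.2.2⟩
      map_one' := Subtype.ext (ev_one s)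
      map_mul' := fun x y => Subtype.ext (ev_mul s x.2.1 y.2.1)
      map_zero' := Subtype.ext (ev_zero s)
      map_add' := fun x y => Subtype.ext (ev_add s x.2.1 y.2.1)
      commutes' := fun r => Subtype.ext (ev_algebraMap s r) }
  refine ⟨⟨T', (e.symm : j.range →ₐ[k] Λ).comp φ1⟩, fun z => Iff.rfl, ?_⟩
  intro z hz
  rw [ev_mk (⟨T', (e.symm : j.range →ₐ[k] Λ).comp φ1⟩ : Sz k M Λ) hz]
  change ((e (e.symm (φ1 ⟨z, hz⟩)) : j.range) : Ω) = s.ev z
  rw [AlgEquiv.apply_symm_apply]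
  rfl

end restr

section inertia

variable {k E M : Type} [Field k] [Field E] [Field M] [Algebra k E] [Algebra k M] [Algebra E M]

open Pool.Agent.K9h15.Comp (sg certificate)

/-- **A certificate for trivial inertia.** -/
theorem inertia_cert (F : IntermediateField k E) (g : M ≃ₐ[E] M)
    (hg : ∀ O : ValuationSubring M, (∀ z ∈ F, algebraMap E M z ∈ O) →
      ∃ x ∈ O, g x - x ∉ O.nonunits) :
    ∃ (Z : Finset M) (W : Finset E), (W : Set E) ⊆ F ∧
      ∀ (Λ : Type) [Field Λ] [Algebra k Λ] (s : Sz k M Λ) (v : AbsoluteValue Λ ℝ),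
        IsNonarchimedean v →
        (∀ x ∈ Z, x ∈ s.T ∧ x⁻¹ ∈ s.T ∧ g x ∈ s.T ∧ (g x - x)⁻¹ ∈ s.T) →
        (∀ z ∈ W, algebraMap E M z ∈ s.T ∧ v (s.ev (algebraMap E M z)) ≤ 1) →
        ∃ x ∈ Z, v (s.ev x) ≤ 1 ∧ 1 ≤ v (s.ev (g x) - s.ev x) := by
  classical
  let ι : Type := {x : M // x ≠ 0 ∧ g x - x ≠ 0}
  let a : ι → M := fun i => (i : M)
  let b : ι → M := fun i => (g (i : M) - (i : M))⁻¹
  let F' : Subfield M := F.toSubfield.map (algebraMap E M)
  obtain ⟨Z, hZ⟩ := certificate (ι := ι) F' a b (fun i => i.2.1) (fun i => inv_ne_zero i.2.2) (by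
      intro O hO
      obtain ⟨x, hx, hgx⟩ := hg O (fun z hz => hO _ ⟨z, hz, rfl⟩)
      have h1 : g x - x ≠ 0 := by
        intro h0
        apply hgx
        rw [h0, ValuationSubring.mem_nonunits_iff, map_zero]
        exact zero_lt_one
      have h2 : x ≠ 0 := by
        rintro rfl
        rw [map_zero, sub_zero] at h1
        exact h1 rfl
      refine ⟨⟨x, h2, h1⟩, hx, ?_⟩
      rw [ValuationSubring.mem_nonunits_iff, not_lt] at hgx
      rw [← ValuationSubring.valuation_le_one_iff, map_inv₀]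
      exact inv_le_one_of_one_le₀ hgx)
  choose P hP0 hPZ hP1 using hZ
  let ext : (Z → Bool) → ι → Bool := fun τ i => if hi : i ∈ Z then τ ⟨i, hi⟩ else true
  have hpre : ∀ c : F', ∃ z : E, z ∈ F ∧ algebraMap E M z = c := by
    intro c
    obtain ⟨z, hz, hzc⟩ := c.2
    exact ⟨z, hz, hzc⟩
  choose pre hpre1 hpre2 using hpre
  let W : Finset E := Finset.univ.biUnion (fun τ : Z → Bool =>
    (P (ext τ)).support.image (fun m => pre ((P (ext τ)).coeff m)))
  refine ⟨Z.image (Subtype.val : ι → M), W, ?_, ?_⟩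
  · intro z hz
    obtain ⟨τ, _, hz⟩ := Finset.mem_biUnion.1 (Finset.mem_coe.1 hz)
    obtain ⟨m, _, rfl⟩ := Finset.mem_image.1 hz
    exact hpre1 _
  · intro Λ _ _ s v hv hTZ hTW
    by_contra hcon
    push Not at hcon
    let τ : Z → Bool := fun i => decide (1 < v (s.ev (a i)))
    refine cert_false hv s (P (ext τ)) (fun i => sg (a i) (b i) (ext τ i)) (hP0 _) (hP1 _) Z
      (hPZ _) ?_ ?_
    · intro m hm
      have h1 := hTW (pre ((P (ext τ)).coeff m)) (Finset.mem_biUnion.2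
        ⟨τ, Finset.mem_univ _, Finset.mem_image.2 ⟨m, hm, rfl⟩⟩)
      rw [hpre2] at h1
      exact h1
    · intro i hi
      obtain ⟨h1, h2, h3, h4⟩ := hTZ (i : M) (Finset.mem_image_of_mem _ hi)
      have h5 : ext τ i = decide (1 < v (s.ev (a i))) := by
        simp only [ext, dif_pos hi, τ]
      have h6 := hcon (i : M) (Finset.mem_image_of_mem _ hi)
      simp only [sg, h5, decide_eq_true_eq]
      split_ifs with h7
      · refine ⟨h2, ?_⟩
        rw [ev_inv s h1 h2, map_inv₀]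
        exact inv_lt_one_of_one_lt₀ h7
      · simp only [b, inv_inv]
        refine ⟨s.T.sub_mem h3 h1, ?_⟩
        rw [ev_sub s h3 h1]
        exact h6 (not_lt.1 h7)

end inertia

end Pool.Agent.K9h15.Cv
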