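import Mathlib
import Pool.Agent.K9h15.Cv.Spl
import Pool.Agent.K9h15.Cv.Rlc
import Pool.Agent.K9h15.Cv.Lft

/-!
# Specialized polynomials: heights, integrality, numbers of values
-/

set_option autoImplicit false

open Polynomial IsDedekindDomain NumberField Height

namespace Pool.Agent.K9h15.Cv

open Pool.Agent.K9h15.Pla Pool.Agent.K9h15.Tow

section a

variable {σ k K L : Type} [Field k] [Field K] [Algebra k K] [Field L] [Algebra k L]

lemma sp2_coeff_eval (s : Sz k K L) {P : (MvPolynomial σ K)[X]} (hP : InT s P) {x : σ → K}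
    (hx : ∀ i, x i ∈ s.T) (j : ℕ) :
    MvPolynomial.eval (fun i => s.ev (x i)) ((sp2 s P).coeff j) =
      s.ev (MvPolynomial.eval x (P.coeff j)) := by
  have hC : InT s (C (P.coeff j)) := by
    intro i n
    rw [coeff_C]
    split_ifs
    · exact hP j n
    · rw [MvPolynomial.coeff_zero]; exact s.T.zero_mem
  have h1 := (sp2_ev s hC hx s.T.zero_mem).1
  have h2 : sp2 s (C (P.coeff j)) = C ((sp2 s P).coeff j) := by
    ext i n
    rw [sp2_coeff, coeff_C, coeff_C]
    split_ifs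
    · rw [sp2_coeff]
    · rw [MvPolynomial.coeff_zero, MvPolynomial.coeff_zero, ev_zero]
  rw [h2, ev2_C, ev2_C, MvPolynomial.eval₂_id, MvPolynomial.eval₂_id] at h1
  exact h1

lemma sp2_congr (s s' : Sz k K L) (P : (MvPolynomial σ K)[X])
    (h : ∀ z ∈ cc P, s.ev z = s'.ev z) : sp2 s P = sp2 s' P := by
  ext j n
  rw [sp2_coeff, sp2_coeff]
  rcases cc_cover P j n with h1 | h1
  · exact h _ h1
  · rw [h1, ev_zero, ev_zero]

variable {M Ω : Type} [Field M] [Algebra k M] [Algebra K M] [Field Ω] [Algebra k Ω]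
  [Algebra L Ω]

lemma inT_up (s : Sz k K L) (s' : Sz k M Ω)
    (hs : ∀ z ∈ s.T, algebraMap K M z ∈ s'.T ∧
      s'.ev (algebraMap K M z) = algebraMap L Ω (s.ev z)) {P : (MvPolynomial σ K)[X]}
    (hP : InT s P) : InT s' (P.map (MvPolynomial.map (algebraMap K M))) := by
  intro j n
  rw [coeff_map, MvPolynomial.coeff_map]
  exact (hs _ (hP j n)).1

lemma sp2_up (s : Sz k K L) (s' : Sz k M Ω)
    (hs : ∀ z ∈ s.T, algebraMap K M z ∈ s'.T ∧
      s'.ev (algebraMap K M z) = algebraMap L Ω (s.ev z)) {P : (MvPolynomial σ K)[X]}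
    (hP : InT s P) : sp2 s' (P.map (MvPolynomial.map (algebraMap K M))) =
      (sp2 s P).map (MvPolynomial.map (algebraMap L Ω)) := by
  ext j n
  rw [sp2_coeff, coeff_map, MvPolynomial.coeff_map, coeff_map, MvPolynomial.coeff_map, sp2_coeff]
  exact (hs _ (hP j n)).2

end a

section b

variable {σ R K : Type} [Fintype σ] [CommRing R] [Field K]

/-- integrality of values of polynomials -/
lemma ev2_int {A : AbsoluteValue K ℝ} (hA : IsNonarchimedean A) (φ : R →+* K) (x : σ → K) (y : K)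
    (Q : (MvPolynomial σ R)[X]) (hQ : ∀ j n, A (φ ((Q.coeff j).coeff n)) ≤ 1)
    (hx : ∀ i, A (x i) ≤ 1) (hy : A y ≤ 1) : A (ev2 φ x y Q) ≤ 1 := by
  unfold ev2
  rw [coe_eval₂RingHom, eval₂_eq_sum, Polynomial.sum]
  refine Pool.Agent.K9h15.Det.na_sum_le hA _ _ zero_le_one fun j _ => ?_
  rw [map_mul, map_pow]
  refine mul_le_one₀ ?_ (by positivity) (pow_le_one₀ (apply_nonneg _ _) hy)
  rw [MvPolynomial.coe_eval₂Hom, MvPolynomial.eval₂_eq]
  refine Pool.Agent.K9h15.Det.na_sum_le hA _ _ zero_le_one fun n _ => ?_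
  rw [map_mul, map_prod]
  refine mul_le_one₀ (hQ j n) (Finset.prod_nonneg fun i _ => apply_nonneg _ _) ?_
  refine Finset.prod_le_one (fun i _ => apply_nonneg _ _) fun i _ => ?_
  rw [map_pow]
  exact pow_le_one₀ (apply_nonneg _ _) (hx i)

/-- integrality of roots -/
lemma root_int {A : AbsoluteValue K ℝ} (hA : IsNonarchimedean A) (φ : R →+* K) (x : σ → K) (y : K)
    (P : (MvPolynomial σ R)[X]) (hPm : P.Monic) (hP0 : ev2 φ x y P = 0)
    (hP : ∀ j n, A (φ ((P.coeff j).coeff n)) ≤ 1) (hx : ∀ i, A (x i) ≤ 1) : A y ≤ 1 := by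
  have h1 := monic_zero φ x y P hPm hP0
  have h2 := root_le A P.natDegree _ y h1 1 le_rfl (by
    intro f B hB hf
    rw [one_mul]
    exact Pool.Agent.K9h15.Det.na_sum_le hA _ _ hB hf)
  refine h2.trans ?_
  rw [one_mul]
  refine Finset.prod_le_one (fun j _ => by positivity) fun j _ => ?_
  refine max_le ?_ le_rfl
  rw [MvPolynomial.eval₂_eq]
  refine Pool.Agent.K9h15.Det.na_sum_le hA _ _ zero_le_one fun n _ => ?_
  rw [map_mul, map_prod]
  refine mul_le_one₀ (hP j n) (Finset.prod_nonneg fun i _ => apply_nonneg _ _) ?_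
  refine Finset.prod_le_one (fun i _ => apply_nonneg _ _) fun i _ => ?_
  rw [map_pow]
  exact pow_le_one₀ (apply_nonneg _ _) (hx i)

end b

section c

variable {k E M L Ω : Type} [Field k] [Field E] [Algebra k E] [Field M] [Algebra k M]
  [Algebra E M] [IsScalarTower k E M] [Field L] [Algebra k L] [Field Ω] [Algebra k Ω]
  [Algebra L Ω]

/-- the number of values of algebraic elements -/
lemma cnt_alg (F : IntermediateField k E)
    (Z : Finset M) (hZ : ∀ z ∈ Z, IsIntegral F z) (Ψ : Finset (Sz k E L))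
    (sp' : Sz k E L → Sz k M Ω)
    (hs : ∀ s ∈ Ψ, ∀ z ∈ s.T, algebraMap E M z ∈ (sp' s).T ∧
      (sp' s).ev (algebraMap E M z) = algebraMap L Ω (s.ev z))
    (hZT : ∀ s ∈ Ψ, ∀ z ∈ Z, z ∈ (sp' s).T)
    (hT : ∀ s ∈ Ψ, ∀ z ∈ Z, ∀ j, (((minpoly F z).coeff j : F) : E) ∈ s.T)
    (hc : ∀ s ∈ Ψ, ∀ s' ∈ Ψ, ∀ z ∈ Z, ∀ j, s.ev (((minpoly F z).coeff j : F) : E) =
      s'.ev (((minpoly F z).coeff j : F) : E)) :
    cnt Ψ (fun s => fun z : Z => (sp' s).ev (z : M)) ≤ ∏ z : Z, (minpoly F (z : M)).natDegree := by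
  classical
  rcases Ψ.eq_empty_or_nonempty with h0 | ⟨s0, hs0⟩
  · rw [h0, cnt_eq, Finset.image_empty, Finset.card_empty]
    exact Nat.zero_le _
  let Q : Z → Polynomial Ω := fun z => (sp s0 ((minpoly F (z : M)).map (algebraMap F E))).map
    (algebraMap L Ω)
  have hQ : ∀ z : Z, Q z ≠ 0 ∧ (Q z).natDegree ≤ (minpoly F (z : M)).natDegree := by
    intro z
    refine ⟨?_, ?_⟩
    · intro h0
      have h3 : (Q z).coeff (minpoly F (z : M)).natDegree = 1 := by
        simp only [Q]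
        rw [coeff_map, sp_coeff, coeff_map]
        have := (minpoly.monic (hZ z z.2)).coeff_natDegree
        rw [this, map_one, ev_one, map_one]
      rw [h0, coeff_zero] at h3
      exact zero_ne_one h3
    · refine natDegree_map_le.trans ((sp_natDegree _ _).trans natDegree_map_le)
  have hsub : Ψ.image (fun s => fun z : Z => (sp' s).ev (z : M)) ⊆
      Fintype.piFinset (fun z : Z => (Q z).roots.toFinset) := by
    intro f hf
    obtain ⟨s, hsΨ, rfl⟩ := Finset.mem_image.1 hf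
    rw [Fintype.mem_piFinset]
    intro z
    rw [Multiset.mem_toFinset, mem_roots (hQ z).1, IsRoot.def]
    have hcoef : ∀ j, ((minpoly F (z : M)).map (algebraMap F E)).coeff j ∈ s.T := by
      intro j
      rw [coeff_map]
      exact hT s hsΨ z z.2 j
    have h4 := (lift_eval s (sp' s) (hs s hsΨ) hcoef (hZT s hsΨ z z.2)).2
    have h5 : aeval (z : M) ((minpoly F (z : M)).map (algebraMap F E)) = 0 := by
      rw [aeval_map_algebraMap]
      exact minpoly.aeval F (z : M)
    rw [h5, ev_zero] at h4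
    have h6 : sp s ((minpoly F (z : M)).map (algebraMap F E)) =
        sp s0 ((minpoly F (z : M)).map (algebraMap F E)) := by
      ext j
      rw [sp_coeff, sp_coeff, coeff_map]
      exact hc s hsΨ s0 hs0 z z.2 j
    simp only [Q]
    rw [eval_map_algebraMap, ← h6]
    exact h4.symm
  rw [cnt_eq]
  refine (Finset.card_le_card hsub).trans ?_
  rw [Fintype.card_piFinset]
  apply Finset.prod_le_prod'
  intro z _
  exact (Multiset.toFinset_card_le _).trans ((card_roots' _).trans (hQ z).2)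

end c

section d

variable {K : Type} [Field K] [NumberField K]

/-- residue classes of integral points -/
lemma exists_rcl (v : HeightOneSpectrum (𝓞 K)) : ∃ r : K → Option (𝓞 K ⧸ v.asIdeal),
    ∀ x y : K, av v x ≤ 1 → av v y ≤ 1 → r x = r y → av v (x - y) < 1 := by
  obtain ⟨r, hr⟩ := exists_class v
  refine ⟨r, fun x y hx hy hxy => ?_⟩
  have h1 := hr x y hxy
  rw [max_eq_right hx, max_eq_right hy, mul_one, mul_one] at h1
  exact lt_of_le_of_lt h1 (inv_lt_one_of_one_lt₀ (one_lt_nm v))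

lemma cnt_rcl {β σ : Type} [Fintype σ] (v : HeightOneSpectrum (𝓞 K)) (Ψ : Finset β)
    (f : β → σ → Option (𝓞 K ⧸ v.asIdeal)) : (cnt Ψ f : ℝ) ≤ (nm v + 1) ^ Fintype.card σ := by
  classical
  obtain ⟨hf, hc⟩ := card_class v
  have := Fintype.ofFinite (Option (𝓞 K ⧸ v.asIdeal))
  rw [← hc, cnt_eq, Nat.card_eq_fintype_card]
  have h1 : (Ψ.image f).card ≤ Fintype.card (σ → Option (𝓞 K ⧸ v.asIdeal)) :=
    Finset.card_le_univ _
  rw [Fintype.card_fun] at h1
  exact_mod_cast h1

end d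

end Pool.Agent.K9h15.Cv
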