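import Mathlib
import Pool.Agent.K9h15.Cv.Zer

/-!
# Primitive elements which are integral over a polynomial ring
-/

set_option autoImplicit false

open Polynomial

namespace Pool.Agent.K9h15.Cv

section min

variable {σ A M : Type} [CommRing A] [Field M]

/-- a monic polynomial of minimal degree -/
lemma exists_min (φ : A →+* M) (x : σ → M) (Θ : M)
    (h : ∃ Q : (MvPolynomial σ A)[X], Q.Monic ∧ ev2 φ x Θ Q = 0) :
    ∃ P : (MvPolynomial σ A)[X], P.Monic ∧ ev2 φ x Θ P = 0 ∧
      ∀ Q : (MvPolynomial σ A)[X], Q.Monic → ev2 φ x Θ Q = 0 → P.natDegree ≤ Q.natDegree := by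
  classical
  obtain ⟨Q0, hQ0, hQ0'⟩ := h
  have hex : ∃ n : ℕ, ∃ Q : (MvPolynomial σ A)[X], Q.Monic ∧ ev2 φ x Θ Q = 0 ∧ Q.natDegree = n :=
    ⟨_, Q0, hQ0, hQ0', rfl⟩
  obtain ⟨P, hP, hP0, hPn⟩ := Nat.find_spec hex
  refine ⟨P, hP, hP0, fun Q hQ hQ' => ?_⟩
  rw [hPn]
  exact Nat.find_min' hex ⟨Q, hQ, hQ', rfl⟩

variable {F : Type} [Field F]

lemma natDegree_ne_zero_of (φ : F →+* M) (x : σ → M) (Θ : M) (P : (MvPolynomial σ F)[X])
    (hP : P.Monic) (hP0 : ev2 φ x Θ P = 0) : P.natDegree ≠ 0 := by
  intro h
  rw [hP.natDegree_eq_zero] at h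
  rw [h, map_one] at hP0
  exact one_ne_zero hP0

/-- polynomials of minimal degree are separable -/
lemma bezout_of_min [CharZero F] (φ : F →+* M) (x : σ → M) (Θ : M) (P : (MvPolynomial σ F)[X])
    (hP : P.Monic) (hP0 : ev2 φ x Θ P = 0)
    (hmin : ∀ Q : (MvPolynomial σ F)[X], Q.Monic → ev2 φ x Θ Q = 0 → P.natDegree ≤ Q.natDegree) :
    ∃ (U W : (MvPolynomial σ F)[X]) (d : MvPolynomial σ F), d ≠ 0 ∧
      P * U + P.derivative * W = C d := by
  have hd0 := natDegree_ne_zero_of φ x Θ P hP hP0
  have hirr : Irreducible P := by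
    rw [hP.irreducible_iff_natDegree]
    refine ⟨?_, ?_⟩
    · rintro rfl
      exact hd0 natDegree_one
    · intro R S hR hS hRS
      have hdeg : P.natDegree = R.natDegree + S.natDegree := by
        rw [← hRS, hR.natDegree_mul hS]
      rw [← hRS, map_mul, mul_eq_zero] at hP0
      rcases hP0 with h | h
      · right
        have := hmin R hR h
        omega
      · left
        have := hmin S hS h
        omega
  let K := FractionRing (MvPolynomial σ F)
  have hinj : Function.Injective (algebraMap (MvPolynomial σ F) K) := IsFractionRing.injective _ _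
  have hirrK : Irreducible (P.map (algebraMap (MvPolynomial σ F) K)) :=
    (hP.irreducible_iff_irreducible_map_fraction_map (K := K)).1 hirr
  have : CharZero K := charZero_of_injective_algebraMap
    (hinj.comp (MvPolynomial.C_injective σ F) : Function.Injective
      ((algebraMap (MvPolynomial σ F) K).comp MvPolynomial.C))
  have hsep := hirrK.separable
  have hres : resultant P P.derivative ≠ 0 := by
    intro h0
    have h1 := congrArg (algebraMap (MvPolynomial σ F) K) h0
    rw [← resultant_map_map, map_zero] at h1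
    have h2 : resultant (P.map (algebraMap (MvPolynomial σ F) K))
        (P.derivative.map (algebraMap (MvPolynomial σ F) K)) = 0 := by
      have e1 := natDegree_map_eq_of_injective hinj P
      have e2 := natDegree_map_eq_of_injective hinj P.derivative
      rw [e1, e2]
      exact h1
    rw [resultant_eq_zero_iff, ← derivative_map] at h2
    exact h2.2 hsep
  obtain ⟨U, W, _, _, h⟩ := exists_mul_add_mul_eq_C_resultant P P.derivative le_rfl le_rfl
    (Or.inl hd0)
  exact ⟨U, W, _, hres, h⟩

end min

section theta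

variable {F E M : Type} [Field F] [Field E] [Field M] [Algebra F E] [Algebra E M] [Algebra F M]
  [IsScalarTower F E M]

lemma finrank_le_of_monic {E M : Type} [Field E] [Field M] [Algebra E M]
    (EF : IntermediateField E M) (Θ : M) (hΘ : IntermediateField.adjoin E {Θ} = ⊤) (p : EF[X])
    (hpm : p.Monic) (hp0 : aeval Θ p = 0) : Module.finrank EF M ≤ p.natDegree := by
  have hint : IsIntegral EF Θ := ⟨p, hpm, hp0⟩
  have htop : IntermediateField.adjoin EF {Θ} = ⊤ := by
    rw [eq_top_iff]
    intro z _
    have h1 : z ∈ IntermediateField.adjoin E {Θ} := by rw [hΘ]; trivial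
    have h2 : IntermediateField.adjoin E {Θ} ≤
        (IntermediateField.adjoin EF {Θ}).restrictScalars E := by
      rw [IntermediateField.adjoin_le_iff, Set.singleton_subset_iff]
      have h3 := IntermediateField.mem_adjoin_simple_self EF Θ
      exact h3
    exact h2 h1
  have h3 : Module.finrank EF M = (minpoly EF Θ).natDegree := by
    rw [← IntermediateField.adjoin.finrank hint, htop]
    exact (IntermediateField.finrank_top').symm
  rw [h3]
  exact natDegree_le_natDegree (minpoly.min EF Θ hpm hp0)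

/-- **A primitive element.** -/
theorem theta_exists [CharZero F] [FiniteDimensional E M] {σ : Type} (τ : σ → E)
    (hτ : IsTranscendenceBasis F τ) :
    ∃ Θ : M, IntermediateField.adjoin E {Θ} = ⊤ ∧
      (∃ P0 : (MvPolynomial σ F)[X], P0.Monic ∧
        ev2 (algebraMap F M) (fun s => algebraMap E M (τ s)) Θ P0 = 0 ∧
        ∃ (U W : (MvPolynomial σ F)[X]) (d : MvPolynomial σ F), d ≠ 0 ∧
          P0 * U + P0.derivative * W = C d) ∧
      ∃ P : (MvPolynomial σ (algebraicClosure F M))[X], P.Monic ∧
        ev2 (algebraMap (algebraicClosure F M) M) (fun s => algebraMap E M (τ s)) Θ P = 0 ∧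
        (∀ Q : (MvPolynomial σ (algebraicClosure F M))[X], Q.Monic →
          ev2 (algebraMap (algebraicClosure F M) M) (fun s => algebraMap E M (τ s)) Θ Q = 0 →
          P.natDegree ≤ Q.natDegree) ∧
        Module.finrank (IntermediateField.adjoin E {z : M | IsAlgebraic F z}) M ≤ P.natDegree := by
  classical
  have hcE : CharZero E := charZero_of_injective_algebraMap (algebraMap F E).injective
  obtain ⟨θ, hθ⟩ := Field.exists_primitive_element E M
  -- algebraic over the polynomial ring
  let _ : Algebra (MvPolynomial σ F) E := (MvPolynomial.aeval τ).toAlgebra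
  let _ : Algebra (MvPolynomial σ F) M :=
    ((algebraMap E M).comp (algebraMap (MvPolynomial σ F) E)).toAlgebra
  have : IsScalarTower (MvPolynomial σ F) E M := IsScalarTower.of_algebraMap_eq fun _ => rfl
  have hAE : ∀ p : MvPolynomial σ F, algebraMap (MvPolynomial σ F) E p =
      MvPolynomial.aeval τ p := fun p => rfl
  have halgE : ∀ z : E, IsAlgebraic (MvPolynomial σ F) z := by
    intro z
    have h1 : IsAlgebraic (Algebra.adjoin F (Set.range τ)) z :=
      hτ.isAlgebraic.isAlgebraic z
    rw [Algebra.adjoin_range_eq_range_aeval] at h1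
    obtain ⟨p, hp0, hp⟩ := h1
    have hl : p ∈ Polynomial.lifts ((MvPolynomial.aeval τ : MvPolynomial σ F →ₐ[F] E).rangeRestrict
        : MvPolynomial σ F →+* (MvPolynomial.aeval τ : MvPolynomial σ F →ₐ[F] E).range) := by
      rw [Polynomial.lifts_iff_coeff_lifts]
      intro n
      obtain ⟨a, ha⟩ := AlgHom.rangeRestrict_surjective (MvPolynomial.aeval τ) (p.coeff n)
      exact ⟨a, ha⟩
    obtain ⟨q, hq⟩ := (Polynomial.mem_lifts _).1 hl
    refine ⟨q, ?_, ?_⟩
    · rintro rfl
      rw [Polynomial.map_zero] at hq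
      exact hp0 hq.symm
    · rw [← hq] at hp
      rw [aeval_def, eval₂_map] at hp
      rw [aeval_def]
      exact hp
  have hθA : IsAlgebraic (MvPolynomial σ F) θ := by
    have h1 : Algebra.IsAlgebraic (MvPolynomial σ F) E := ⟨halgE⟩
    have h2 : Algebra.IsAlgebraic (MvPolynomial σ F) M := Algebra.IsAlgebraic.trans _ E M
    exact h2.isAlgebraic θ
  obtain ⟨c, hc0, hcθ⟩ := hθA.exists_integral_multiple
  have hcE0 : algebraMap (MvPolynomial σ F) E c ≠ 0 := by
    intro h
    apply hc0
    have h1 := hτ.1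
    rw [algebraicIndependent_iff_injective_aeval] at h1
    exact h1 (by rw [map_zero]; exact h)
  obtain ⟨Θ, hΘdef⟩ : ∃ Θ : M, Θ = c • θ := ⟨_, rfl⟩
  have hΘθ : Θ = algebraMap E M (algebraMap (MvPolynomial σ F) E c) * θ := by
    rw [hΘdef, Algebra.smul_def]
    rfl
  rw [← hΘdef] at hcθ
  have hΘ : IntermediateField.adjoin E {Θ} = ⊤ := by
    rw [eq_top_iff, ← hθ, IntermediateField.adjoin_le_iff]
    rintro z rfl
    have h1 : Θ ∈ IntermediateField.adjoin E {Θ} :=
      IntermediateField.mem_adjoin_simple_self E Θ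
    have h2 : z = algebraMap E M (algebraMap (MvPolynomial σ F) E c)⁻¹ * Θ := by
      rw [hΘθ, ← mul_assoc, ← map_mul, inv_mul_cancel₀ hcE0, map_one, one_mul]
    rw [h2]
    exact mul_mem (IntermediateField.algebraMap_mem _ _) h1
  have hev : ∀ (Q : (MvPolynomial σ F)[X]) (y : M), ev2 (algebraMap F M)
      (fun s => algebraMap E M (τ s)) y Q = aeval y Q := by
    intro Q y
    unfold ev2
    rw [coe_eval₂RingHom, aeval_def]
    congr 1
    ext a
    · simp only [RingHom.coe_comp, Function.comp_apply, MvPolynomial.eval₂Hom_C]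
      change _ = algebraMap E M (MvPolynomial.aeval τ (MvPolynomial.C a))
      rw [MvPolynomial.aeval_C, ← IsScalarTower.algebraMap_apply]
    · simp only [MvPolynomial.eval₂Hom_X']
      change _ = algebraMap E M (MvPolynomial.aeval τ (MvPolynomial.X a))
      rw [MvPolynomial.aeval_X]
  have hexQ : ∃ Q : (MvPolynomial σ F)[X], Q.Monic ∧ ev2 (algebraMap F M)
      (fun s => algebraMap E M (τ s)) Θ Q = 0 := by
    obtain ⟨Q, hQ, hQ0⟩ := hcθ
    refine ⟨Q, hQ, ?_⟩
    rw [hev]
    exact hQ0
  refine ⟨Θ, hΘ, ?_, ?_⟩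
  · obtain ⟨P0, hP, hP0, hmin⟩ := exists_min (algebraMap F M) (fun s => algebraMap E M (τ s)) Θ hexQ
    exact ⟨P0, hP, hP0, bezout_of_min _ _ _ P0 hP hP0 hmin⟩
  · obtain ⟨P, hP, hP0, hmin⟩ := exists_min (algebraMap (algebraicClosure F M) M)
      (fun s => algebraMap E M (τ s)) Θ (by
        obtain ⟨Q, hQ, hQ0⟩ := hexQ
        refine ⟨Q.map (MvPolynomial.map (algebraMap F (algebraicClosure F M))), hQ.map _, ?_⟩
        rw [ev2_map, ← IsScalarTower.algebraMap_eq]
        exact hQ0)
    refine ⟨P, hP, hP0, hmin, ?_⟩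
    let EF : IntermediateField E M := IntermediateField.adjoin E {z : M | IsAlgebraic F z}
    have hmem : ∀ z : algebraicClosure F M, (z : M) ∈ EF := fun z =>
      IntermediateField.subset_adjoin E _ (mem_algebraicClosure_iff.1 z.2)
    let φ : algebraicClosure F M →+* EF :=
      { toFun := fun z => ⟨z, hmem z⟩
        map_one' := rfl
        map_mul' := fun _ _ => rfl
        map_zero' := rfl
        map_add' := fun _ _ => rfl }
    let p : EF[X] := P.map (MvPolynomial.eval₂Hom φ (fun s => algebraMap E EF (τ s)))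
    have hpm : p.Monic := hP.map _
    have hpd : p.natDegree = P.natDegree := hP.natDegree_map _
    have hp0 : aeval Θ p = 0 := by
      rw [← hP0]
      simp only [p]
      unfold ev2
      rw [coe_eval₂RingHom, aeval_def, eval₂_map]
      congr 1
      ext a
      · simp [φ]
      · simp only [RingHom.coe_comp, Function.comp_apply, MvPolynomial.eval₂Hom_X']
        rfl
    rw [← hpd]
    exact finrank_le_of_monic EF Θ hΘ p hpm hp0

end theta

end Pool.Agent.K9h15.Cv
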