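import Mathlib
import Pool.Agent.K9h15.Cv.HomN
import Pool.Agent.K9h15.Cv.Kum
import Pool.Agent.K9h15.Bad
import Pool.Agent.K9h15.Lift

/-!
# The number of twists of nilpotent covers
-/

set_option autoImplicit false

open IsDedekindDomain NumberField Height

namespace Pool.Agent.K9h15.Cv

open Pool.Agent.K9h15.Pla

/-- homomorphisms to nilpotent groups which are unramified off a finite set of primes -/
theorem kummer_nil (L : Type) [Field L] [NumberField L] (n : ℕ) (hn : n ≠ 0) (ζ : L)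
    (hζ : IsPrimitiveRoot ζ n) :
    ∃ C1 : ℕ, 1 ≤ C1 ∧ ∀ (Λ : Type) [Field Λ] [NumberField Λ] [Algebra L Λ] [IsGalois L Λ]
      (B : Finset (HeightOneSpectrum (𝓞 L))),
      (∀ v : HeightOneSpectrum (𝓞 L), v ∉ B → ∃ w : HeightOneSpectrum (𝓞 Λ),
        ∀ x : L, w.valuation Λ (algebraMap L Λ x) = v.valuation L x) →
      ∀ (G : Type) [Group G] [Finite G] [Group.IsNilpotent G], Nat.card G = n →
        ∀ H : Finset ((Λ ≃ₐ[L] Λ) →* G), H.card ≤ (C1 * n ^ B.card) ^ n := by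
  classical
  have hex : ∀ p : ℕ, ∃ C0 : ℕ, p.Prime → p ∣ n → ∀ (Λ : Type) [Field Λ] [NumberField Λ]
      [Algebra L Λ] [IsGalois L Λ] (B : Finset (HeightOneSpectrum (𝓞 L))),
      (∀ v : HeightOneSpectrum (𝓞 L), v ∉ B → ∃ w : HeightOneSpectrum (𝓞 Λ),
        ∀ x : L, w.valuation Λ (algebraMap L Λ x) = v.valuation L x) →
      ∀ (Z : Type) [Group Z] [Finite Z], Nat.card Z = p →
        ∀ H : Finset ((Λ ≃ₐ[L] Λ) →* Z), H.card ≤ C0 * p ^ B.card := by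
    intro p
    by_cases h : p.Prime ∧ p ∣ n
    · obtain ⟨hp, a, ha⟩ := h
      have hζp : IsPrimitiveRoot (ζ ^ a) p :=
        hζ.pow (Nat.pos_of_ne_zero hn) (by rw [ha, mul_comm])
      obtain ⟨C0, hC0⟩ := kummer_count L p hp (ζ ^ a) hζp
      exact ⟨C0, fun _ _ => hC0⟩
    · exact ⟨0, fun h1 h2 => absurd ⟨h1, h2⟩ h⟩
  choose C0 hC0 using hex
  refine ⟨∑ p ∈ n.primeFactors, C0 p + 1, by omega, ?_⟩
  intro Λ _ _ _ _ B hB G _ _ _ hG H
  have hn1 : 1 ≤ n := Nat.one_le_iff_ne_zero.2 hn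
  apply hom_card_nil (Λ ≃ₐ[L] Λ) n ((∑ p ∈ n.primeFactors, C0 p + 1) * n ^ B.card) ?_ ?_ n G hG
    dvd_rfl
  · exact Nat.one_le_iff_ne_zero.2 (Nat.mul_ne_zero (by omega) (pow_ne_zero _ hn))
  · intro p hp hpn Z _ _ hZ H'
    refine (hC0 p hp hpn Λ B hB Z hZ H').trans ?_
    have h1 : C0 p ≤ ∑ p ∈ n.primeFactors, C0 p :=
      Finset.single_le_sum (f := C0) (fun _ _ => Nat.zero_le _)
        (Nat.mem_primeFactors.2 ⟨hp, hpn, hn⟩)
    exact Nat.mul_le_mul (by omega) (Nat.pow_le_pow_left (Nat.le_of_dvd hn1 hpn) _)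

lemma fix_adjoin {K Ω : Type} [Field K] [Field Ω] [Algebra K Ω] (Y : Set Ω) (γ : Ω ≃ₐ[K] Ω)
    (h : ∀ y ∈ Y, γ y = y) {x : Ω} (hx : x ∈ IntermediateField.adjoin K Y) : γ x = x := by
  refine IntermediateField.adjoin_induction K (p := fun x _ => γ x = x) h (fun x => γ.commutes x)
    ?_ ?_ ?_ hx
  · intro x y _ _ hx hy
    rw [map_add, hx, hy]
  · intro x _ hx
    rw [map_inv₀, hx]
  · intro x y _ _ hx hy
    rw [map_mul, hx, hy]

/-- **The number of twists.** -/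
theorem twist_count (L : Type) [Field L] [NumberField L] (Ω : Type) [Field Ω] [IsAlgClosed Ω]
    [Algebra L Ω] [Algebra.IsAlgebraic L Ω] (G : Type) [Group G] [Finite G] [Group.IsNilpotent G]
    (r : ℕ) (ε : ℝ) (hε : 0 < ε) :
    ∃ c : ℝ, 1 ≤ c ∧ ∀ V : ℝ, 1 ≤ V → ∀ b : Fin r → L, (∀ i, mulHeight₁ (b i) ≤ V) →
      ∀ Y : Finset Ω, (∀ γ : Ω ≃ₐ[L] Ω, ∀ y ∈ Y, γ y ∈ Y) →
      (∀ (Λ : Type) [Field Λ] [NumberField Λ] [Algebra L Λ] (j : Λ →ₐ[L] Ω),
        (∀ y ∈ Y, y ∈ j.range) → ∀ w : HeightOneSpectrum (𝓞 Λ),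
          (∀ i, av w (algebraMap L Λ (b i)) ≤ 1) → ∀ (γ : Ω ≃ₐ[L] Ω) (γ0 : Λ → Λ),
            (∀ x, γ (j x) = j (γ0 x)) → (∀ x, av w x ≤ 1 → av w (γ0 x - x) < 1) →
              ∀ y ∈ Y, γ y = y) →
      ∀ H : Finset ((Ω ≃ₐ[L] Ω) →* G),
        (∀ ρ ∈ H, ∀ γ : Ω ≃ₐ[L] Ω, (∀ y ∈ Y, γ y = y) → ρ γ = 1) → (H.card : ℝ) ≤ c * V ^ ε := by
  classical
  have hcΩ : CharZero Ω := charZero_of_injective_algebraMap (algebraMap L Ω).injective
  set n := Nat.card G with hn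
  have hn0 : n ≠ 0 := Nat.card_pos.ne'
  have hnz : NeZero (n : Ω) := ⟨by exact_mod_cast hn0⟩
  have hnz' : NeZero n := ⟨hn0⟩
  obtain ⟨ζ, hζ⟩ := HasEnoughRootsOfUnity.exists_primitiveRoot Ω n
  let L' : IntermediateField L Ω := IntermediateField.adjoin L {ζ}
  have hfL' : FiniteDimensional L L' :=
    IntermediateField.adjoin.finiteDimensional (Algebra.IsIntegral.isIntegral ζ)
  have hnL' : NumberField L' := NumberField.of_module_finite L L'
  have halgL' : Algebra.IsAlgebraic L' Ω := Algebra.IsAlgebraic.tower_top L' (K := L)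
  have hcl : IsAlgClosure L' Ω := ⟨inferInstance, halgL'⟩
  have hnorL' : Normal L' Ω := IsAlgClosure.normal L' Ω
  let ζ' : L' := ⟨ζ, IntermediateField.mem_adjoin_simple_self L ζ⟩
  have hζ' : IsPrimitiveRoot ζ' n := by
    refine IsPrimitiveRoot.of_map_of_injective (f := algebraMap L' Ω) ?_ (algebraMap L' Ω).injective
    exact hζ
  obtain ⟨C1, hC1, hkn⟩ := kummer_nil L' n hn0 ζ' hζ'
  set d' := Module.finrank L L' with hd'
  have hd'0 : 0 < d' := Module.finrank_pos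
  have hn1 : (0 : ℝ) < n := by exact_mod_cast Nat.pos_of_ne_zero hn0
  have hd1 : (0 : ℝ) < d' := by exact_mod_cast hd'0
  obtain ⟨Cb, hCb, hbad⟩ := Pool.Agent.K9h15.Bad.bad_count' L' r (ε / (d' * n ^ 2)) (by positivity)
  set A := (L' →ₐ[L] Ω) with hA
  refine ⟨(C1 * Cb ^ n) ^ n * n ^ Nat.card A, ?_, ?_⟩
  · have h1 : (1 : ℝ) ≤ C1 := by exact_mod_cast hC1
    have h2 : (1 : ℝ) ≤ n := by exact_mod_cast Nat.one_le_iff_ne_zero.2 hn0
    have h3 : (1 : ℝ) ≤ C1 * Cb ^ n := one_le_mul_of_one_le_of_one_le h1 (one_le_pow₀ hCb)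
    exact one_le_mul_of_one_le_of_one_le (one_le_pow₀ h3) (one_le_pow₀ h2)
  intro V hV b hb Y hYst hY H hH
  let b' : Fin r → L' := fun i => algebraMap L L' (b i)
  have hb' : ∀ i, mulHeight₁ (b' i) ≤ V ^ d' := by
    intro i
    rw [Pool.Agent.K9h15.Tow.mulHeight₁_ext]
    exact pow_le_pow_left₀ (mulHeight₁_nonneg _) (hb i) _
  have hfin : {v : HeightOneSpectrum (𝓞 L') | ∃ i, 1 < av v (b' i)}.Finite := by
    have h1 : {v : HeightOneSpectrum (𝓞 L') | ∃ i, 1 < av v (b' i)} =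
        ⋃ i, {v : HeightOneSpectrum (𝓞 L') | 1 < av v (b' i)} := by
      ext v
      simp
    rw [h1]
    exact Set.finite_iUnion fun i => Pool.Agent.K9h15.Bad.finite_bad (b' i)
  set B := hfin.toFinset with hB
  have hBm : ∀ v, v ∈ B ↔ ∃ i, 1 < av v (b' i) := fun v => hfin.mem_toFinset
  have hBc := hbad b' (V ^ d') (one_le_pow₀ hV) hb' B (fun v hv => (hBm v).1 hv)
  -- the field generated by the points
  let Λ' : IntermediateField L' Ω := IntermediateField.adjoin L' (Y : Set Ω)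
  have hfΛ : FiniteDimensional L' Λ' :=
    IntermediateField.finiteDimensional_adjoin fun y _ => Algebra.IsIntegral.isIntegral y
  have hnΛ : NumberField Λ' := NumberField.of_module_finite L' Λ'
  have hnorm : Normal L' Λ' := by
    rw [IntermediateField.normal_iff_forall_map_le']
    intro γ
    rw [IntermediateField.adjoin_map, IntermediateField.adjoin_le_iff]
    rintro _ ⟨y, hy, rfl⟩
    apply IntermediateField.subset_adjoin
    exact hYst (γ.restrictScalars L) y hy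
  have hgal : IsGalois L' Λ' := { __ := hnorm }
  have hYΛ : ∀ y ∈ Y, y ∈ Λ' := fun y hy => IntermediateField.subset_adjoin L' _ hy
  -- unramified
  have hunr : ∀ v : HeightOneSpectrum (𝓞 L'), v ∉ B → ∃ w : HeightOneSpectrum (𝓞 Λ'),
      ∀ x : L', w.valuation Λ' (algebraMap L' Λ' x) = v.valuation L' x := by
    intro v hv
    obtain ⟨w, hw⟩ := exists_over (L := L') Λ' v
    refine ⟨w, unram_of_inertia v w ?_⟩
    intro g hg
    let γ' : Ω ≃ₐ[L'] Ω := g.liftNormal Ω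
    have hγ' : ∀ x : Λ', γ' (x : Ω) = ((g x : Λ') : Ω) := fun x => g.liftNormal_commutes Ω x
    have h1 := hY Λ' ((Λ'.val).restrictScalars L) (fun y hy => ⟨⟨y, hYΛ y hy⟩, rfl⟩) w (by
      intro i
      obtain ⟨κ, hκ, hκx⟩ := av_over v w
      have h2 : algebraMap L Λ' (b i) = algebraMap L' Λ' (b' i) := rfl
      rw [h2, hκx]
      refine Real.rpow_le_one (apply_nonneg _ _) ?_ hκ.le
      by_contra hcon
      exact hv ((hBm v).2 ⟨i, not_le.1 hcon⟩)) (γ'.restrictScalars L) g (fun x => hγ' x) hg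
    ext x
    have h2 := fix_adjoin (Y : Set Ω) γ' (fun y hy => h1 y hy) x.2
    rw [hγ'] at h2
    exact h2
  -- the homomorphisms
  have hsurj : Function.Surjective (AlgEquiv.restrictNormalHom Λ' : (Ω ≃ₐ[L'] Ω) →* (Λ' ≃ₐ[L'] Λ')) :=
    AlgEquiv.restrictNormalHom_surjective Ω
  have hres := hom_card_res (A := A) (AlgEquiv.restrictScalarsHom L : (Ω ≃ₐ[L'] Ω) →* (Ω ≃ₐ[L] Ω))
    (fun γ : Ω ≃ₐ[L] Ω => ((γ : Ω →ₐ[L] Ω).comp L'.val : L' →ₐ[L] Ω)) (by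
      intro x y hxy
      have h1 : ∀ z : L', x z = y z := fun z => congrArg (fun f : L' →ₐ[L] Ω => f z) hxy
      refine ⟨AlgEquiv.ofRingEquiv (f := ((x⁻¹ * y : Ω ≃ₐ[L] Ω) : Ω ≃+* Ω)) ?_, ?_⟩
      · intro z
        change x.symm (y (z : Ω)) = (z : Ω)
        rw [← h1 z, AlgEquiv.symm_apply_apply]
      · rfl) H ((C1 * n ^ B.card) ^ n) (by
      intro H' hH'
      have hker : ∀ χ ∈ H', (AlgEquiv.restrictNormalHom Λ' :
          (Ω ≃ₐ[L'] Ω) →* (Λ' ≃ₐ[L'] Λ')).ker ≤ χ.ker := by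
        intro χ hχ γ hγ
        obtain ⟨ρ, hρ, rfl⟩ := hH' χ hχ
        rw [MonoidHom.mem_ker] at hγ ⊢
        apply hH ρ hρ
        intro y hy
        have h2 := AlgEquiv.restrictNormal_commutes γ Λ' ⟨y, hYΛ y hy⟩
        have h3 : γ.restrictNormal Λ' = 1 := hγ
        rw [h3] at h2
        exact h2.symm
      let F : ((Ω ≃ₐ[L'] Ω) →* G) → ((Λ' ≃ₐ[L'] Λ') →* G) := fun χ =>
        if h : (AlgEquiv.restrictNormalHom Λ' : (Ω ≃ₐ[L'] Ω) →* (Λ' ≃ₐ[L'] Λ')).ker ≤ χ.ker then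
          (MonoidHom.liftOfSurjective _ hsurj) ⟨χ, h⟩ else 1
      have hF : ∀ χ ∈ H', (F χ).comp (AlgEquiv.restrictNormalHom Λ') = χ := by
        intro χ hχ
        simp only [F, dif_pos (hker χ hχ)]
        ext γ
        exact MonoidHom.liftOfRightInverse_comp_apply _ (Function.surjInv hsurj)
          (Function.rightInverse_surjInv hsurj) ⟨χ, hker χ hχ⟩ γ
      have hinj : Set.InjOn F H' := by
        intro χ1 h1 χ2 h2 h12
        rw [← hF χ1 h1, ← hF χ2 h2, h12]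
      rw [← Finset.card_image_of_injOn hinj]
      exact hkn Λ' B hunr G rfl _)
  have h1 : (H.card : ℝ) ≤ ((C1 * (n : ℝ) ^ B.card) ^ n) * (n : ℝ) ^ Nat.card A := by
    exact_mod_cast hres
  have h2 : (n : ℝ) ^ B.card ≤ ((2 : ℝ) ^ B.card) ^ n := by
    rw [← pow_mul, mul_comm, pow_mul]
    apply pow_le_pow_left₀ hn1.le
    exact_mod_cast (Nat.lt_two_pow_self (n := n)).le
  have h3 : ((2 : ℝ) ^ B.card) ^ n ≤ (Cb * (V ^ d') ^ (ε / (d' * n ^ 2))) ^ n :=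
    pow_le_pow_left₀ (by positivity) hBc _
  have hV0 : 0 ≤ V := by linarith
  have h4 : ((V ^ d') ^ (ε / (d' * n ^ 2))) ^ (n * n) = V ^ ε := by
    rw [← Real.rpow_natCast V d', ← Real.rpow_mul hV0, ← Real.rpow_natCast, ← Real.rpow_mul hV0]
    congr 1
    push_cast
    field_simp
  calc (H.card : ℝ) ≤ ((C1 * (n : ℝ) ^ B.card) ^ n) * (n : ℝ) ^ Nat.card A := h1
    _ ≤ ((C1 * (Cb * (V ^ d') ^ (ε / (d' * n ^ 2))) ^ n) ^ n) * (n : ℝ) ^ Nat.card A := by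
        gcongr
        exact h2.trans h3
    _ = ((C1 * Cb ^ n) ^ n * n ^ Nat.card A) * ((V ^ d') ^ (ε / (d' * n ^ 2))) ^ (n * n) := by
        rw [mul_pow Cb, ← mul_assoc, mul_pow (C1 * Cb ^ n : ℝ), ← pow_mul]
        ring
    _ = _ := by rw [h4]

end Pool.Agent.K9h15.Cv
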