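import Mathlib
import Pool.Agent.K9h15.Cv.Pcs
import Pool.Agent.K9h15.Cv.Twi
import Pool.Agent.K9h15.Cv.Ths
import Pool.Agent.K9h15.Cv.Num

/-!
# The number of twists of the fibres over the points
-/

set_option autoImplicit false

open Polynomial IsDedekindDomain NumberField Height

namespace Pool.Agent.K9h15.Cv

open Pool.Agent.K9h15.Pla Pool.Agent.K9h15.Tow

variable {k E M : Type} [Field k] [Field E] [Field M] [Algebra k E] [Algebra k M] [Algebra E M]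

/-- the certificate property -/
def Crt (k : Type) {E M : Type} [Field k] [Field E] [Field M] [Algebra k E] [Algebra k M]
    [Algebra E M] (g : M ≃ₐ[E] M) (Z : Finset M) (W : Finset E) : Prop :=
  ∀ (Λ : Type) [Field Λ] [Algebra k Λ] (s : Sz k M Λ) (v : AbsoluteValue Λ ℝ),
    IsNonarchimedean v →
    (∀ x ∈ Z, x ∈ s.T ∧ x⁻¹ ∈ s.T ∧ g x ∈ s.T ∧ (g x - x)⁻¹ ∈ s.T) →
    (∀ z ∈ W, algebraMap E M z ∈ s.T ∧ v (s.ev (algebraMap E M z)) ≤ 1) →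
    ∃ x ∈ Z, v (s.ev x) ≤ 1 ∧ 1 ≤ v (s.ev (g x) - s.ev x)

/-- an extension of a specialization with the action of the Galois group -/
structure Ext {L Ω : Type} [Field L] [Algebra k L] [Field Ω] [Algebra k Ω] [Algebra L Ω]
    (Θ : M) (W : Finset M) (s : Sz k E L) (s' : Sz k M Ω)
    (ρ : (Ω ≃ₐ[L] Ω) →* (M ≃ₐ[E] M)) : Prop where
  up : ∀ z ∈ s.T, algebraMap E M z ∈ s'.T ∧ s'.ev (algebraMap E M z) = algebraMap L Ω (s.ev z)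
  mem : ∀ w ∈ W, ∀ g : M ≃ₐ[E] M, g w ∈ s'.T
  adj : ∀ w ∈ W, ∀ g : M ≃ₐ[E] M, s'.ev (g w) ∈ IntermediateField.adjoin L {s'.ev Θ}
  act : ∀ w ∈ W, ∀ g : M ≃ₐ[E] M, ∀ γ : Ω ≃ₐ[L] Ω, γ (s'.ev (g w)) = s'.ev ((ρ γ * g) w)
  inj : ∀ g h : M ≃ₐ[E] M, s'.ev (g Θ) = s'.ev (h Θ) → g = h

/-- the inertia groups act trivially -/
lemma rho_eq_one {Θ : M} {W : Finset M} (Zc : (M ≃ₐ[E] M) → Finset M)
    (Wc : (M ≃ₐ[E] M) → Finset E) (hcert : ∀ g ≠ 1, Crt k g (Zc g) (Wc g))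
    (hZW : ∀ g, ∀ x ∈ Zc g, x ∈ W ∧ x⁻¹ ∈ W ∧ (g x - x)⁻¹ ∈ W)
    {L Ω : Type} [Field L] [Algebra k L] [Field Ω] [Algebra k Ω] [Algebra L Ω]
    [IsScalarTower k L Ω] {s : Sz k E L} {s' : Sz k M Ω} {ρ : (Ω ≃ₐ[L] Ω) →* (M ≃ₐ[E] M)}
    (hs : Ext Θ W s s' ρ) {Λ : Type} [Field Λ] [Algebra L Λ] (j : Λ →ₐ[L] Ω)
    (hj : s'.ev Θ ∈ j.range) (v : AbsoluteValue Λ ℝ) (hv : IsNonarchimedean v)
    (hWv : ∀ g, ∀ z ∈ Wc g, z ∈ s.T ∧ v (algebraMap L Λ (s.ev z)) ≤ 1)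
    (γ : Ω ≃ₐ[L] Ω) (γ0 : Λ → Λ) (h1 : ∀ x, γ (j x) = j (γ0 x))
    (h2 : ∀ x, v x ≤ 1 → v (γ0 x - x) < 1) : ρ γ = 1 := by
  by_contra hne
  let _ : Algebra k Λ := ((algebraMap L Λ).comp (algebraMap k L)).toAlgebra
  have : IsScalarTower k L Λ := IsScalarTower.of_algebraMap_eq fun _ => rfl
  have hji : ∀ a b : Λ, j a = j b → a = b := fun a b h => j.injective h
  let jk : Λ →ₐ[k] Ω := j.restrictScalars k
  have hjk : ∀ x, jk x = j x := fun _ => rfl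
  obtain ⟨s'', hT, hev⟩ := exists_restr s' Λ jk
  have hadj : ∀ x ∈ IntermediateField.adjoin L {s'.ev Θ}, x ∈ jk.range := by
    intro x hx
    have h3 : IntermediateField.adjoin L {s'.ev Θ} ≤ j.fieldRange := by
      rw [IntermediateField.adjoin_le_iff, Set.singleton_subset_iff]
      exact hj
    obtain ⟨y, hy⟩ := h3 hx
    exact ⟨y, hy⟩
  have hmem : ∀ w ∈ W, ∀ g : M ≃ₐ[E] M, g w ∈ s''.T ∧ j (s''.ev (g w)) = s'.ev (g w) := by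
    intro w hw g
    have h3 : g w ∈ s''.T := (hT _).2 ⟨hs.mem w hw g, hadj _ (hs.adj w hw g)⟩
    exact ⟨h3, hev _ h3⟩
  have hone : ∀ w ∈ W, w ∈ s''.T := fun w hw => by
    have := (hmem w hw 1).1
    rwa [AlgEquiv.one_apply] at this
  have hbot : ∀ z ∈ s.T, algebraMap E M z ∈ s''.T ∧ s''.ev (algebraMap E M z) =
      algebraMap L Λ (s.ev z) := by
    intro z hz
    obtain ⟨h3, h4⟩ := hs.up z hz
    have h5 : algebraMap E M z ∈ s''.T := by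
      refine (hT _).2 ⟨h3, ?_⟩
      rw [h4]
      exact ⟨algebraMap L Λ (s.ev z), j.commutes _⟩
    refine ⟨h5, ?_⟩
    apply hji
    rw [j.commutes, ← h4]
    exact hev _ h5
  obtain ⟨x, hx, hx1, hx2⟩ := hcert (ρ γ) hne Λ s'' v hv (by
    intro x hx
    obtain ⟨h3, h4, h5⟩ := hZW _ x hx
    exact ⟨hone _ h3, hone _ h4, (hmem x h3 (ρ γ)).1, hone _ h5⟩) (by
    intro z hz
    obtain ⟨h3, h4⟩ := hWv _ z hz
    obtain ⟨h5, h6⟩ := hbot z h3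
    exact ⟨h5, by rw [h6]; exact h4⟩)
  obtain ⟨h3, -, -⟩ := hZW _ x hx
  have h4 := (hmem x h3 (ρ γ)).2
  have h5 := (hmem x h3 1).2
  have h6 := hs.act x h3 1 γ
  rw [mul_one, ← h4, ← h5, h1] at h6
  have h7 := hji _ _ h6
  rw [AlgEquiv.one_apply] at h7
  rw [← h7] at hx2
  exact absurd (h2 _ hx1) (not_lt.2 hx2)

/-- **The number of twists of the fibres.** -/
theorem twist_cnt [FiniteDimensional E M] [Group.IsNilpotent (M ≃ₐ[E] M)] {Θ : M} {W : Finset M}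
    (hΘW : Θ ∈ W) (Zc : (M ≃ₐ[E] M) → Finset M)
    (Wc : (M ≃ₐ[E] M) → Finset E) (hcert : ∀ g ≠ 1, Crt k g (Zc g) (Wc g))
    (hZW : ∀ g, ∀ x ∈ Zc g, x ∈ W ∧ x⁻¹ ∈ W ∧ (g x - x)⁻¹ ∈ W)
    (L Ω : Type) [Field L] [NumberField L] [Algebra k L] [Field Ω] [IsAlgClosed Ω] [Algebra k Ω]
    [Algebra L Ω] [IsScalarTower k L Ω] [Algebra.IsAlgebraic L Ω] (ε : ℝ) (hε : 0 < ε) :
    ∃ c : ℝ, 1 ≤ c ∧ ∀ V : ℝ, 1 ≤ V → ∀ (Ψ : Finset (Sz k E L)) (S' : Sz k E L → Sz k M Ω)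
      (ρ : Sz k E L → ((Ω ≃ₐ[L] Ω) →* (M ≃ₐ[E] M))),
      (∀ s ∈ Ψ, Ext Θ W s (S' s) (ρ s)) →
      (∀ s ∈ Ψ, ∀ g, ∀ z ∈ Wc g, z ∈ s.T ∧ mulHeight₁ (s.ev z) ≤ V) →
      (∀ s ∈ Ψ, ∀ s' ∈ Ψ, ∀ g, ∀ z ∈ Wc g, s.ev z = s'.ev z) → (cnt Ψ ρ : ℝ) ≤ c * V ^ ε := by
  classical
  let Wt : Finset E := Finset.univ.biUnion Wc
  obtain ⟨c, hc, hcount⟩ := twist_count L Ω (M ≃ₐ[E] M) Wt.card ε hε
  refine ⟨c, hc, ?_⟩
  intro V hV Ψ S' ρ hS hW hWc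
  rcases Ψ.eq_empty_or_nonempty with h0 | ⟨s0, hs0⟩
  · rw [h0, cnt_eq, Finset.image_empty, Finset.card_empty, Nat.cast_zero]
    have : 0 ≤ V ^ ε := Real.rpow_nonneg (by linarith) _
    positivity
  let en : Fin Wt.card ≃ Wt := Wt.equivFin.symm
  have hen : ∀ i, ∃ g, (en i : E) ∈ Wc g := by
    intro i
    obtain ⟨g, -, hg⟩ := Finset.mem_biUnion.1 (en i).2
    exact ⟨g, hg⟩
  let Y : Finset Ω := Ψ.biUnion (fun s => Finset.univ.image (fun g : M ≃ₐ[E] M => (S' s).ev (g Θ)))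
  have hY : ∀ y, y ∈ Y ↔ ∃ s ∈ Ψ, ∃ g : M ≃ₐ[E] M, (S' s).ev (g Θ) = y := by
    intro y
    simp only [Y, Finset.mem_biUnion, Finset.mem_image, Finset.mem_univ, true_and]
  have h1 := hcount V hV (fun i => s0.ev (en i : E)) (by
      intro i
      obtain ⟨g, hg⟩ := hen i
      exact (hW s0 hs0 g _ hg).2) Y (by
      intro γ y hy
      obtain ⟨s, hs, g, rfl⟩ := (hY y).1 hy
      rw [(hS s hs).act Θ hΘW g γ]
      exact (hY _).2 ⟨s, hs, _, rfl⟩) (by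
      intro Λ _ _ _ j hYj w hw γ γ0 hγ hin y hy
      obtain ⟨s, hs, g, rfl⟩ := (hY y).1 hy
      have h2 : ρ s γ = 1 := by
        refine rho_eq_one Zc Wc hcert hZW (hS s hs) j (hYj _ ((hY _).2 ⟨s, hs, 1, rfl⟩)) (av w)
          (av_nonarch w) ?_ γ γ0 hγ hin
        intro g z hz
        refine ⟨(hW s hs g z hz).1, ?_⟩
        rw [hWc s hs s0 hs0 g z hz]
        have h3 := hw (en.symm ⟨z, Finset.mem_biUnion.2 ⟨g, Finset.mem_univ _, hz⟩⟩)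
        rw [Equiv.apply_symm_apply] at h3
        exact h3
      rw [(hS s hs).act Θ hΘW g γ, h2, one_mul]) (Ψ.image ρ) (by
      intro ρ' hρ' γ hγ
      obtain ⟨s, hs, rfl⟩ := Finset.mem_image.1 hρ'
      apply (hS s hs).inj
      have h3 := (hS s hs).act Θ hΘW 1 γ
      rw [mul_one] at h3
      rw [← h3]
      exact hγ _ ((hY _).2 ⟨s, hs, 1, rfl⟩))
  rw [cnt_eq]
  exact h1

end Pool.Agent.K9h15.Cv
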