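import Mathlib
import Pool.Agent.K9h15.Cv.RelA

/-!
# Relations for the points in one class
-/

set_option autoImplicit false

open Polynomial IsDedekindDomain NumberField Height

namespace Pool.Agent.K9h15.Cv

open Pool.Agent.K9h15.Pla Pool.Agent.K9h15.Tow

section loc

/-- the derivative is a unit at the root -/
lemma unit_deriv {L Λ σ : Type} [Field L] [Field Λ] [Algebra L Λ] [Fintype σ]
    {P U W : (MvPolynomial σ L)[X]} {d : MvPolynomial σ L} (h : P * U + P.derivative * W = C d)
    (x : σ → L) (y : Λ) (h0 : ev2 (algebraMap L Λ) (fun t => algebraMap L Λ (x t)) y P = 0)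
    {A : AbsoluteValue Λ ℝ} (hA : IsNonarchimedean A)
    (hP : ∀ j n, A (algebraMap L Λ ((P.coeff j).coeff n)) ≤ 1)
    (hW : ∀ j n, A (algebraMap L Λ ((W.coeff j).coeff n)) ≤ 1)
    (hx : ∀ t, A (algebraMap L Λ (x t)) ≤ 1) (hy : A y ≤ 1)
    (hd : A (algebraMap L Λ (MvPolynomial.eval x d)) = 1) :
    A (ev2 (algebraMap L Λ) (fun t => algebraMap L Λ (x t)) y P.derivative) = 1 := by
  have h1 := congrArg (ev2 (algebraMap L Λ) (fun t => algebraMap L Λ (x t)) y) h
  rw [map_add, map_mul, map_mul, h0, zero_mul, zero_add, ev2_C] at h1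
  have h2 : MvPolynomial.eval₂ (algebraMap L Λ) (fun t => algebraMap L Λ (x t)) d =
      algebraMap L Λ (MvPolynomial.eval x d) := by
    rw [← MvPolynomial.eval₂_id, MvPolynomial.eval₂_comp_left, RingHom.comp_id]
    rfl
  rw [h2] at h1
  have h3 := congrArg A h1
  rw [map_mul, hd] at h3
  have h4 : A (ev2 (algebraMap L Λ) (fun t => algebraMap L Λ (x t)) y P.derivative) ≤ 1 := by
    refine ev2_int hA _ _ _ _ ?_ hx hy
    intro j n
    have h5 : P.derivative.coeff j = (j + 1) • P.coeff (j + 1) := by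
      rw [coeff_derivative, nsmul_eq_mul, mul_comm]
      push_cast
      rfl
    rw [h5, MvPolynomial.coeff_smul, nsmul_eq_mul, map_mul, map_mul, map_natCast]
    exact mul_le_one₀ (IsNonarchimedean.apply_natCast_le_one_of_isNonarchimedean hA)
      (apply_nonneg _ _) (hP _ _)
  have h5 : A (ev2 (algebraMap L Λ) (fun t => algebraMap L Λ (x t)) y W) ≤ 1 :=
    ev2_int hA _ _ _ _ hW hx hy
  refine le_antisymm h4 ?_
  calc (1 : ℝ) = _ := h3.symm
    _ ≤ A (ev2 (algebraMap L Λ) (fun t => algebraMap L Λ (x t)) y P.derivative) * 1 :=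
        mul_le_mul_of_nonneg_left h5 (apply_nonneg _ _)
    _ = _ := mul_one _

/-- congruences of values -/
lemma mv_congr {L σ : Type} [Field L] [NumberField L] (v : HeightOneSpectrum (𝓞 L))
    (Q : MvPolynomial σ L) (hQ : ∀ n, av v (Q.coeff n) ≤ 1) (x x' : σ → L)
    (hx : ∀ t, av v (x t) ≤ 1) (hx' : ∀ t, av v (x' t) ≤ 1) (h : ∀ t, av v (x t - x' t) < 1) :
    av v (MvPolynomial.eval x Q) ≤ 1 ∧
      av v (MvPolynomial.eval x Q - MvPolynomial.eval x' Q) < 1 := by
  obtain ⟨q, rfl⟩ := mv_lift (oR v).subtype Q (fun n => ⟨⟨_, hQ n⟩, rfl⟩)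
  have e : ∀ (z : σ → L) (hz : ∀ t, av v (z t) ≤ 1),
      MvPolynomial.eval z (MvPolynomial.map (oR v).subtype q) =
        ((MvPolynomial.eval (fun t => (⟨z t, hz t⟩ : oR v)) q : oR v) : L) := by
    intro z hz
    rw [MvPolynomial.eval_map]
    have h1 := MvPolynomial.eval₂_comp_left (oR v).subtype (RingHom.id (oR v))
      (fun t => (⟨z t, hz t⟩ : oR v)) q
    rw [RingHom.comp_id, MvPolynomial.eval₂_id] at h1
    exact h1.symm
  rw [e x hx, e x' hx']
  refine ⟨SetLike.coe_mem (MvPolynomial.eval (fun t => (⟨x t, hx t⟩ : oR v)) q), ?_⟩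
  have h2 : Ideal.Quotient.mk (mI v) (MvPolynomial.eval (fun t => (⟨x t, hx t⟩ : oR v)) q) =
      Ideal.Quotient.mk (mI v) (MvPolynomial.eval (fun t => (⟨x' t, hx' t⟩ : oR v)) q) := by
    rw [← MvPolynomial.eval₂_id, ← MvPolynomial.eval₂_id, MvPolynomial.eval₂_comp_left,
      MvPolynomial.eval₂_comp_left]
    congr 1
    funext t
    simp only [Function.comp_apply]
    rw [Ideal.Quotient.eq, mem_mI]
    exact h t
  rw [Ideal.Quotient.eq, mem_mI] at h2
  exact h2

end loc

section data

variable {k E M : Type} [Field k] [Field E] [Field M] [Algebra k E] [Algebra k M] [Algebra E M]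

/-- the polynomial data of the covering -/
structure Pd (k : Type) {E M : Type} [Field k] [Field E] [Field M] [Algebra k E] [Algebra k M]
    [Algebra E M] (F : IntermediateField k E) {σ : Type} (τ : σ → E) (Θ : M)
    (P U W : (MvPolynomial σ E)[X]) (d : MvPolynomial σ E) : Prop where
  monic : P.Monic
  ne : P.natDegree ≠ 0
  zero : ev2 (algebraMap E M) (fun t => algebraMap E M (τ t)) Θ P = 0
  bez : P * U + P.derivative * W = C d
  d0 : MvPolynomial.eval τ d ≠ 0
  coF : ∀ z ∈ cc P, z ∈ F

/-- the elements which are controlled at the points -/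
noncomputable def C1 {σ E : Type} [Fintype σ] [Field E] (τ : σ → E)
    (P U W : (MvPolynomial σ E)[X]) (d : MvPolynomial σ E) : Finset E :=
  letI := Classical.decEq E
  Finset.univ.image τ ∪ (cc P ∪ (cc U ∪ (cc W ∪ (cc (C d) ∪
    ({MvPolynomial.eval τ d, (MvPolynomial.eval τ d)⁻¹} ∪
    (Finset.range (P.natDegree + 1)).image (fun j => MvPolynomial.eval τ (P.coeff j)))))))

variable {σ : Type} [Fintype σ] {τ : σ → E} {P U W : (MvPolynomial σ E)[X]}
  {d : MvPolynomial σ E}

lemma C1_tau (t : σ) : τ t ∈ C1 τ P U W d := by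
  classical
  unfold C1
  exact Finset.mem_union_left _ (Finset.mem_image_of_mem _ (Finset.mem_univ _))

lemma C1_P {z : E} (h : z ∈ cc P) : z ∈ C1 τ P U W d := by
  classical
  unfold C1
  exact Finset.mem_union_right _ (Finset.mem_union_left _ h)

lemma C1_U {z : E} (h : z ∈ cc U) : z ∈ C1 τ P U W d := by
  classical
  unfold C1
  exact Finset.mem_union_right _ (Finset.mem_union_right _ (Finset.mem_union_left _ h))

lemma C1_W {z : E} (h : z ∈ cc W) : z ∈ C1 τ P U W d := by
  classical
  unfold C1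
  exact Finset.mem_union_right _ (Finset.mem_union_right _ (Finset.mem_union_right _
    (Finset.mem_union_left _ h)))

lemma C1_C {z : E} (h : z ∈ cc (C d)) : z ∈ C1 τ P U W d := by
  classical
  unfold C1
  exact Finset.mem_union_right _ (Finset.mem_union_right _ (Finset.mem_union_right _
    (Finset.mem_union_right _ (Finset.mem_union_left _ h))))

lemma C1_d : MvPolynomial.eval τ d ∈ C1 τ P U W d := by
  classical
  unfold C1
  refine Finset.mem_union_right _ (Finset.mem_union_right _ (Finset.mem_union_right _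
    (Finset.mem_union_right _ (Finset.mem_union_right _ (Finset.mem_union_left _ ?_)))))
  exact Finset.mem_insert_self _ _

lemma C1_di : (MvPolynomial.eval τ d)⁻¹ ∈ C1 τ P U W d := by
  classical
  unfold C1
  refine Finset.mem_union_right _ (Finset.mem_union_right _ (Finset.mem_union_right _
    (Finset.mem_union_right _ (Finset.mem_union_right _ (Finset.mem_union_left _ ?_)))))
  exact Finset.mem_insert_of_mem (Finset.mem_singleton_self _)

lemma C1_ev {j : ℕ} (hj : j ≤ P.natDegree) :
    MvPolynomial.eval τ (P.coeff j) ∈ C1 τ P U W d := by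
  classical
  unfold C1
  refine Finset.mem_union_right _ (Finset.mem_union_right _ (Finset.mem_union_right _
    (Finset.mem_union_right _ (Finset.mem_union_right _ (Finset.mem_union_right _ ?_)))))
  exact Finset.mem_image_of_mem _ (Finset.mem_range.2 (by omega))

omit [Fintype σ] in
/-- the images of the primitive element are roots -/
lemma pt_root {F : IntermediateField k E} {Θ : M} (hPd : Pd k F τ Θ P U W d) {V0 : Finset M}
    (hΘ : Θ ∈ V0)
    {L Ω : Type} [Field L] [Algebra k L] [Field Ω] [Algebra k Ω] [Algebra L Ω]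
    {s : Sz k E L} {s' : Sz k M Ω} {ρ : (Ω ≃ₐ[L] Ω) →* (M ≃ₐ[E] M)}
    (hs : Ext Θ V0 s s' ρ) (hT : ∀ t, τ t ∈ s.T) (hP : InT s P) (g : M ≃ₐ[E] M) :
    ev2 (algebraMap L Ω) (fun t => algebraMap L Ω (s.ev (τ t))) (s'.ev (g Θ)) (sp2 s P) = 0 := by
  have h1 : ev2 (algebraMap E M) (fun t => algebraMap E M (τ t)) (g Θ) P = 0 := by
    have h2 := ev2_comp (algebraMap E M) (g : M →+* M) (fun t => algebraMap E M (τ t)) Θ P
    rw [hPd.zero, map_zero] at h2
    have h3 : (g : M →+* M).comp (algebraMap E M) = algebraMap E M := by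
      ext z; exact g.commutes z
    rw [h3] at h2
    have h4 : ∀ t, (g : M →+* M) (algebraMap E M (τ t)) = algebraMap E M (τ t) :=
      fun t => g.commutes _
    simp only [h4] at h2
    exact h2.symm
  have h5 := (sp2_ev s' (inT_up s s' hs.up hP) (x := fun t => algebraMap E M (τ t)) (y := g Θ)
    (fun t => (hs.up _ (hT t)).1) (hs.mem Θ hΘ g)).1
  rw [ev2_map, RingHom.id_comp, h1, ev_zero, sp2_up s s' hs.up hP, ev2_map, RingHom.id_comp] at h5
  have h6 : ∀ t, s'.ev (algebraMap E M (τ t)) = algebraMap L Ω (s.ev (τ t)) :=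
    fun t => (hs.up _ (hT t)).2
  simp only [h6] at h5
  exact h5

end data

end Pool.Agent.K9h15.Cv
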