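import Mathlib
import Pool.Agent.K9h15.Cv.RelB

/-!
# Relations for the points with given residues
-/

set_option autoImplicit false

open Polynomial IsDedekindDomain NumberField Height

namespace Pool.Agent.K9h15.Cv

open Pool.Agent.K9h15.Pla Pool.Agent.K9h15.Tow

lemma Cov.empty {ι : Type} {good : Finset ι → Prop} {κ : ℝ} (hκ : 0 ≤ κ) : Cov good ∅ κ :=
  ⟨∅, by simpa using hκ, by simp, by simp⟩

/-- the points satisfy a common relation -/
def RelOn {k E L σ : Type} [Field k] [Field E] [Algebra k E] [Field L] [Algebra k L] [Fintype σ]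
    (τ : σ → E) (S0 : Finset (σ →₀ ℕ)) (X : Finset (Sz k E L)) : Prop :=
  ∃ R : S0 → L, R ≠ 0 ∧ ∀ s ∈ X, ∑ n : S0, R n * ∏ t, s.ev (τ t) ^ ((n : σ →₀ ℕ) t) = 0

variable {k E M : Type} [Field k] [Field E] [Field M] [Algebra k E] [Algebra k M] [Algebra E M]
  {σ : Type} [Fintype σ] [DecidableEq σ] {τ : σ → E} {P U W : (MvPolynomial σ E)[X]}
  {d : MvPolynomial σ E}

/-- **The points with given residues.** -/
theorem class_cov {F : IntermediateField k E} [FiniteDimensional E M]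
    {Θ : M} (hPd : Pd k F τ Θ P U W d) {V0 : Finset M} (hΘ : Θ ∈ V0)
    {F0 : Type} [Field F0] [Algebra F0 M] (PF : (MvPolynomial σ F0)[X]) (hPFm : PF.Monic)
    (hPF0 : ev2 (algebraMap F0 M) (fun t => algebraMap E M (τ t)) Θ PF = 0)
    (D : ℕ) (hD : PF.natDegree = D) (hDpos : 0 < D) (m : ℕ)
    (Z : Finset F0) (hZ : ∀ (T : Type) [CommRing T] (iT : T →+* M), Function.Injective iT →
      (∀ c ∈ Z, algebraMap F0 M c ∈ iT.range) → ∀ PT : (MvPolynomial σ T)[X],
        PT.map (MvPolynomial.map iT) = PF.map (MvPolynomial.map (algebraMap F0 M)) →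
        ∀ (Ω : Type) [Field Ω] (φ : T →+* Ω) (q : (σ → Fin (m + 1)) × Fin D → Ω), q ≠ 0 →
          res (PT.map (MvPolynomial.map φ)) q ≠ 0)
    (S0 : Finset (σ →₀ ℕ))
    (hS0 : ∀ (T : Type) [CommRing T] (iT : T →+* M), Function.Injective iT →
      ∀ PT : (MvPolynomial σ T)[X],
        PT.map (MvPolynomial.map iT) = PF.map (MvPolynomial.map (algebraMap F0 M)) →
        ∀ (Ω : Type) [Field Ω] (φ : T →+* Ω) (q : (σ → Fin (m + 1)) × Fin D → Ω),
          (res (PT.map (MvPolynomial.map φ)) q).support ⊆ S0)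
    (hZV : ∀ z ∈ Z, algebraMap F0 M z ∈ V0)
    (hcV : ∀ z ∈ cc (PF.map (MvPolynomial.map (algebraMap F0 M))), z ∈ V0)
    (L Ω : Type) [Field L] [NumberField L] [Algebra k L] [Field Ω] [IsAlgClosed Ω] [Algebra k Ω]
    [Algebra L Ω] [IsScalarTower k L Ω] [Algebra.IsAlgebraic L Ω]
    (Ψ : Finset (Sz k E L)) (S' : Sz k E L → Sz k M Ω) (ρ : (Ω ≃ₐ[L] Ω) →* (M ≃ₐ[E] M))
    (hExt : ∀ s ∈ Ψ, Ext Θ V0 s (S' s) ρ) (V V' : ℝ) (v : HeightOneSpectrum (𝓞 L))
    (hT : ∀ s ∈ Ψ, ∀ z ∈ C1 τ P U W d, z ∈ s.T ∧ av v (s.ev z) ≤ 1 ∧ mulHeight₁ (s.ev z) ≤ V')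
    (hV : ∀ s ∈ Ψ, ∀ t, mulHeight₁ (s.ev (τ t)) ≤ V)
    (hcF : ∀ s ∈ Ψ, ∀ s' ∈ Ψ, ∀ z ∈ cc P, s.ev z = s'.ev z)
    (hcM : ∀ s ∈ Ψ, ∀ s' ∈ Ψ, ∀ z ∈ cc (PF.map (MvPolynomial.map (algebraMap F0 M))),
      (S' s).ev z = (S' s').ev z)
    (hcl : ∀ s ∈ Ψ, ∀ s' ∈ Ψ, ∀ t, av v (s.ev (τ t) - s'.ev (τ t)) < 1) (n : ℕ)
    (hnum : ((Fintype.card (Ix σ m D)).factorial *
        (P.natDegree : ℝ) ^ (D * Fintype.card (Ix σ m D))) ^ (Module.finrank ℚ L) *
      (V ^ (m * Fintype.card σ) * V' ^ (D * P.natDegree)) ^ Fintype.card (Ix σ m D) <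
      nm v ^ ((Fintype.card (Ix σ m D) - n ^ Fintype.card σ) * n)) :
    Cov (RelOn τ S0) Ψ ((P.natDegree : ℝ) ^ Nat.card (M ≃ₐ[E] M)) := by
  classical
  rcases Ψ.eq_empty_or_nonempty with h0 | ⟨s0, hs0⟩
  · rw [h0]
    exact Cov.empty (by positivity)
  have hfG : Fintype (M ≃ₐ[E] M) := Fintype.ofFinite _
  set PM : (MvPolynomial σ M)[X] := PF.map (MvPolynomial.map (algebraMap F0 M)) with hPM
  have hPMm : PM.Monic := hPFm.map _
  have hPMd : PM.natDegree ≤ D := by rw [← hD]; exact natDegree_map_le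
  -- the field generated by the points
  let Y : Finset Ω := Ψ.biUnion (fun s => Finset.univ.image (fun g : M ≃ₐ[E] M => (S' s).ev (g Θ)))
  let Λ : IntermediateField L Ω := IntermediateField.adjoin L (Y : Set Ω)
  have hfΛ : FiniteDimensional L Λ :=
    IntermediateField.finiteDimensional_adjoin fun y _ => Algebra.IsIntegral.isIntegral y
  have hnΛ : NumberField Λ := NumberField.of_module_finite L Λ
  have hYΛ : ∀ s ∈ Ψ, ∀ g : M ≃ₐ[E] M, (S' s).ev (g Θ) ∈ Λ := by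
    intro s hs g
    apply IntermediateField.subset_adjoin
    exact Finset.mem_coe.2 (Finset.mem_biUnion.2 ⟨s, hs, Finset.mem_image_of_mem _
      (Finset.mem_univ _)⟩)
  let yΛ : Sz k E L → (M ≃ₐ[E] M) → Λ := fun s g =>
    if h : (S' s).ev (g Θ) ∈ Λ then ⟨_, h⟩ else 0
  have hyΛ : ∀ s ∈ Ψ, ∀ g, ((yΛ s g : Λ) : Ω) = (S' s).ev (g Θ) := by
    intro s hs g
    simp only [yΛ, dif_pos (hYΛ s hs g)]
  obtain ⟨w0, hw0⟩ := exists_over (L := L) Λ v
  obtain ⟨κ0, hκ0, hκ⟩ := av_over v w0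
  have hle : ∀ x : L, av v x ≤ 1 → av w0 (algebraMap L Λ x) ≤ 1 := by
    intro x hx
    rw [hκ]
    exact Real.rpow_le_one (apply_nonneg _ _) hx hκ0.le
  have hlt : ∀ x : L, av v x < 1 → av w0 (algebraMap L Λ x) < 1 := by
    intro x hx
    rw [hκ]
    exact Real.rpow_lt_one (apply_nonneg _ _) hx hκ0
  have hna := av_nonarch w0
  -- properties of the points
  have hPT : ∀ s ∈ Ψ, InT s P := fun s hs => inT_of s P fun z hz => (hT s hs z (C1_P hz)).1
  have hUT : ∀ s ∈ Ψ, InT s U := fun s hs => inT_of s U fun z hz => (hT s hs z (C1_U hz)).1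
  have hWT : ∀ s ∈ Ψ, InT s W := fun s hs => inT_of s W fun z hz => (hT s hs z (C1_W hz)).1
  have hCT : ∀ s ∈ Ψ, InT s (C d) := fun s hs => inT_of s _ fun z hz => (hT s hs z (C1_C hz)).1
  have hτT : ∀ s ∈ Ψ, ∀ t, τ t ∈ s.T := fun s hs t => (hT s hs _ (C1_tau t)).1
  have hτ1 : ∀ s ∈ Ψ, ∀ t, av v (s.ev (τ t)) ≤ 1 := fun s hs t => (hT s hs _ (C1_tau t)).2.1
  have hint : ∀ s ∈ Ψ, ∀ Q : (MvPolynomial σ E)[X], (∀ z ∈ cc Q, z ∈ C1 τ P U W d) →
      ∀ j e, av v (((sp2 s Q).coeff j).coeff e) ≤ 1 := by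
    intro s hs Q hQ j e
    rw [sp2_coeff]
    rcases cc_cover Q j e with h1 | h1
    · exact (hT s hs _ (hQ _ h1)).2.1
    · rw [h1, ev_zero, map_zero]; exact zero_le_one
  set PL := sp2 s0 P with hPL
  have hPLs : ∀ s ∈ Ψ, sp2 s P = PL := fun s hs => sp2_congr s s0 P fun z hz => hcF s hs s0 hs0 z hz
  obtain ⟨hPLm, hPLd⟩ := sp2_monic s0 (hPT s0 hs0) hPd.monic
  have hPi : ∀ j e, av v ((PL.coeff j).coeff e) ≤ 1 := hint s0 hs0 P fun z hz => C1_P hz
  have hroot : ∀ s ∈ Ψ, ∀ g : M ≃ₐ[E] M, ev2 (algebraMap L Ω) (fun t => algebraMap L Ω (s.ev (τ t)))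
      ((S' s).ev (g Θ)) PL = 0 := by
    intro s hs g
    rw [← hPLs s hs]
    exact pt_root hPd hΘ (hExt s hs) (hτT s hs) (hPT s hs) g
  have hrootΛ : ∀ s ∈ Ψ, ∀ g, ev2 (algebraMap L Λ) (fun t => algebraMap L Λ (s.ev (τ t)))
      (yΛ s g) PL = 0 := by
    intro s hs g
    apply (algebraMap Λ Ω).injective
    have h1 := ev2_comp (algebraMap L Λ) (algebraMap Λ Ω) (fun t => algebraMap L Λ (s.ev (τ t)))
      (yΛ s g) PL
    have h2 : (algebraMap Λ Ω).comp (algebraMap L Λ) = algebraMap L Ω := by ext z; rfl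
    rw [h2] at h1
    rw [map_zero, ← hroot s hs g, ← hyΛ s hs g]
    exact h1
  have hyint : ∀ s ∈ Ψ, ∀ g, av w0 (yΛ s g) ≤ 1 := fun s hs g =>
    root_int hna (algebraMap L Λ) _ _ PL hPLm (hrootΛ s hs g) (fun j e => hle _ (hPi j e))
      (fun t => hle _ (hτ1 s hs t))
  have hunit : ∀ s ∈ Ψ, ∀ g, av w0 (ev2 (algebraMap L Λ) (fun t => algebraMap L Λ (s.ev (τ t)))
      (yΛ s g) PL.derivative) = 1 := by
    intro s hs g
    have hCd : sp2 s (C d) = C ((sp2 s (C d)).coeff 0) := by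
      ext i e
      rw [sp2_coeff, coeff_C, coeff_C]
      split_ifs with hi
      · rw [sp2_coeff, coeff_C, if_pos rfl]
      · rw [MvPolynomial.coeff_zero, MvPolynomial.coeff_zero, ev_zero]
    have hbz := sp2_bezout s (hPT s hs) (hUT s hs) (hWT s hs) (fun e => by
      have := hCT s hs 0 e
      rwa [coeff_C, if_pos rfl] at this) hPd.bez
    rw [hCd, hPLs s hs] at hbz
    refine unit_deriv hbz (fun t => s.ev (τ t)) _ (hrootΛ s hs g) hna
      (fun j e => hle _ (hPi j e))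
      (fun j e => hle _ (hint s hs W (fun z hz => C1_W hz) j e))
      (fun t => hle _ (hτ1 s hs t)) (hyint s hs g) ?_
    have h2 := sp2_coeff_eval s (hCT s hs) (hτT s hs) 0
    rw [coeff_C, if_pos rfl] at h2
    rw [h2]
    obtain ⟨k1, k2, -⟩ := hT s hs _ (C1_d (τ := τ) (P := P) (U := U) (W := W) (d := d))
    obtain ⟨k3, k4, -⟩ := hT s hs _ (C1_di (τ := τ) (P := P) (U := U) (W := W) (d := d))
    have h3 := ev_mul s k1 k3
    rw [mul_inv_cancel₀ hPd.d0, ev_one] at h3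
    have h4 : av v (s.ev (MvPolynomial.eval τ d)) * av v (s.ev (MvPolynomial.eval τ d)⁻¹) = 1 := by
      rw [← map_mul, ← h3, map_one]
    have h5 : av v (s.ev (MvPolynomial.eval τ d)) = 1 := by
      refine le_antisymm k2 ?_
      calc (1 : ℝ) = _ := h4.symm
        _ ≤ av v (s.ev (MvPolynomial.eval τ d)) * 1 :=
            mul_le_mul_of_nonneg_left k4 (apply_nonneg _ _)
        _ = _ := mul_one _
    rw [hκ, h5, Real.one_rpow]
  -- the residue classes of the roots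
  let pE : Sz k E L → Polynomial Λ := fun s => PL.map
    (MvPolynomial.eval₂Hom (algebraMap L Λ) (fun t => algebraMap L Λ (s.ev (τ t))))
  have hpE : ∀ s j, (pE s).coeff j =
      algebraMap L Λ (MvPolynomial.eval (fun t => s.ev (τ t)) (PL.coeff j)) := by
    intro s j
    simp only [pE]
    rw [coeff_map, MvPolynomial.coe_eval₂Hom, ← MvPolynomial.eval₂_id,
      MvPolynomial.eval₂_comp_left, RingHom.comp_id]
    rfl
  have hcong : ∀ s ∈ Ψ, ∀ s' ∈ Ψ, ∀ j,
      av v (MvPolynomial.eval (fun t => s.ev (τ t)) (PL.coeff j)) ≤ 1 ∧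
      av v (MvPolynomial.eval (fun t => s.ev (τ t)) (PL.coeff j) -
        MvPolynomial.eval (fun t => s'.ev (τ t)) (PL.coeff j)) < 1 := fun s hs s' hs' j =>
    mv_congr v (PL.coeff j) (hPi j) _ _ (hτ1 s hs) (hτ1 s' hs') (hcl s hs s' hs')
  have hcnt := cnt_rs_le w0 Ψ pE yΛ P.natDegree (fun s hs => ⟨hPLm.map _, by
      simp only [pE]
      rw [hPLm.natDegree_map, hPLd]⟩) (fun s hs j => by
      rw [hpE]
      exact hle _ (hcong s hs s hs j).1) (fun s hs s' hs' j => by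
      rw [hpE, hpE, ← map_sub]
      exact hlt _ (hcong s hs s' hs' j).2) (fun s hs g => ⟨hyint s hs g, by
      simp only [pE]
      rw [eval_map]
      exact hrootΛ s hs g⟩)
  have hcov : Cov (RelOn τ S0) Ψ (cnt Ψ (fun s g => rs w0 (yΛ s g)) * 1) := by
    refine Cov.fibre (fun s g => rs w0 (yΛ s g)) ?_
    intro s1 hs1 Ψ' hΨ'
    apply Cov.of_good
    have hmem : ∀ s : {s // s ∈ Ψ'}, s.1 ∈ Ψ := fun s => (hΨ' s.1 s.2).1
    have hrel := class_rel (m := m) (D := D) ρ (fun (s : {s // s ∈ Ψ'}) t => s.1.ev (τ t))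
      (fun s g => (S' s.1).ev (g Θ)) (fun γ s g => (hExt _ (hmem s)).act Θ hΘ g γ) PL hPLm
      (by rw [hPLd]; exact hPd.ne) (fun s g => hroot _ (hmem s) g) Λ.val
      (fun s g => yΛ s.1 g) (fun s g => hyΛ _ (hmem s) g) V V' (fun s t => hV _ (hmem s) t)
      (by
        intro s i
        rw [← hPLs _ (hmem s), sp2_coeff_eval s.1 (hPT _ (hmem s)) (hτT _ (hmem s)) i]
        by_cases hi : i ≤ P.natDegree
        · exact (hT _ (hmem s) _ (C1_ev hi)).2.2
        · rw [coeff_eq_zero_of_natDegree_lt (not_le.1 hi), map_zero, ev_zero]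
          have h1 := (hT _ (hmem s) _ (C1_d (τ := τ) (P := P) (U := U) (W := W) (d := d))).2.2
          refine le_trans ?_ h1
          rw [mulHeight₁_zero]
          exact one_le_mulHeight₁ _)
      v w0 hPi (fun s t => hτ1 _ (hmem s) t) (fun s s' t => hcl _ (hmem s) _ (hmem s') t)
      (fun s g => hunit _ (hmem s) g) (by
        intro s s' g
        rw [← rs_eq (hyint _ (hmem s) g) (hyint _ (hmem s') g)]
        have h1 := congrFun ((hΨ' s.1 s.2).2.trans (hΨ' s'.1 s'.2).2.symm) g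
        exact h1) n (by rw [hPLd]; exact hnum)
    obtain ⟨q, hq, hqs⟩ := hrel
    let qΩ : Ix σ m D → Ω := fun c => ((q c : Λ) : Ω)
    have hqΩ : qΩ ≠ 0 := by
      intro h1
      apply hq
      funext c
      apply Subtype.ext
      exact congrFun h1 c
    have hPMT : ∀ s ∈ Ψ, InT (S' s) PM := by
      intro s hs
      refine inT_of _ _ fun z hz => ?_
      have := (hExt s hs).mem z (hcV z hz) 1
      rwa [AlgEquiv.one_apply] at this
    obtain ⟨PT, hPT1, hPT2⟩ := lift2 (S' s0) (hPMT s0 hs0)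
    have hinj : Function.Injective (algebraMap (S' s0).T M) :=
      FaithfulSMul.algebraMap_injective _ _
    have hQ : res (sp2 (S' s0) PM) qΩ ≠ 0 := by
      rw [← hPT2]
      refine hZ (S' s0).T (algebraMap (S' s0).T M) hinj ?_ PT hPT1 Ω _ qΩ hqΩ
      intro z hz
      have := (hExt s0 hs0).mem _ (hZV z hz) 1
      rw [AlgEquiv.one_apply] at this
      exact ⟨⟨_, this⟩, rfl⟩
    have hQS : (res (sp2 (S' s0) PM) qΩ).support ⊆ S0 := by
      rw [← hPT2]
      exact hS0 (S' s0).T (algebraMap (S' s0).T M) hinj PT hPT1 Ω _ qΩ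
    obtain ⟨R, hR, hRs⟩ := rel_descend (Ω := Ω) (fun (s : {s // s ∈ Ψ'}) t => s.1.ev (τ t)) S0
      (res (sp2 (S' s0) PM) qΩ) hQ hQS (by
        intro s
        have hs := hmem s
        have h1 : ev2 (RingHom.id Ω) (fun t => algebraMap L Ω (s.1.ev (τ t)))
            ((S' s.1).ev Θ) (sp2 (S' s0) PM) = 0 := by
          have h2 : sp2 (S' s.1) PM = sp2 (S' s0) PM :=
            sp2_congr _ _ PM fun z hz => hcM _ hs _ hs0 z hz
          rw [← h2]
          have h3 := (sp2_ev (S' s.1) (hPMT _ hs) (x := fun t => algebraMap E M (τ t)) (y := Θ)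
            (fun t => ((hExt _ hs).up _ (hτT _ hs t)).1) (by
              have := (hExt _ hs).mem _ hΘ 1
              rwa [AlgEquiv.one_apply] at this)).1
          rw [hPM, ev2_map, RingHom.id_comp, hPF0, ev_zero] at h3
          have h6 : ∀ t, (S' s.1).ev (algebraMap E M (τ t)) = algebraMap L Ω (s.1.ev (τ t)) :=
            fun t => ((hExt _ hs).up _ (hτT _ hs t)).2
          simp only [h6] at h3
          exact h3
        have h2 : ev2 (RingHom.id Ω) (fun t => algebraMap L Ω (s.1.ev (τ t)))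
            ((S' s.1).ev Θ) (qp qΩ) = 0 := by
          rw [qp_ev]
          have h3 := congrArg (algebraMap Λ Ω) (hqs s)
          rw [map_zero, map_sum] at h3
          rw [← h3]
          refine Finset.sum_congr rfl fun c _ => ?_
          rw [map_mul, map_mul, map_prod, map_pow]
          have h4 : algebraMap Λ Ω (yΛ s.1 1) = (S' s.1).ev Θ := by
            have := hyΛ _ hs 1
            rwa [AlgEquiv.one_apply] at this
          rw [h4]
          simp only [map_pow]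
          rfl
        have h3 := res_zero hDpos (sp2 (S' s0) PM) (by
          rw [(sp2_monic (S' s0) (hPMT s0 hs0) hPMm).2]
          exact hPMd) qΩ (RingHom.id Ω) _ _ h1 h2
        rw [MvPolynomial.eval₂_id] at h3
        exact h3)
    exact ⟨R, hR, fun s hs => hRs ⟨s, hs⟩⟩
  refine hcov.mono ?_
  rw [mul_one, Nat.card_eq_fintype_card]
  exact_mod_cast hcnt

end Pool.Agent.K9h15.Cv
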