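import Mathlib
import Pool.Agent.K9h15.Cv.RelC

/-!
# The points are covered by few sets satisfying a relation
-/

set_option autoImplicit false

open Polynomial IsDedekindDomain NumberField Height

namespace Pool.Agent.K9h15.Cv

open Pool.Agent.K9h15.Pla Pool.Agent.K9h15.Tow

section data

variable {k E M : Type} [Field k] [CharZero k] [Field E] [Field M] [Algebra k E] [Algebra k M]
  [Algebra E M] [IsScalarTower k E M] [FiniteDimensional E M]

/-- the data of the covering -/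
theorem exists_pd (F : IntermediateField k E) {σ : Type} [Fintype σ] (τ : σ → E)
    (hτ : IsTranscendenceBasis F τ) :
    ∃ (Θ : M) (P U W : (MvPolynomial σ E)[X]) (d : MvPolynomial σ E),
      IntermediateField.adjoin E {Θ} = ⊤ ∧ Pd k F τ Θ P U W d ∧
      ∃ PF : (MvPolynomial σ (algebraicClosure F M))[X], PF.Monic ∧
        ev2 (algebraMap (algebraicClosure F M) M) (fun s => algebraMap E M (τ s)) Θ PF = 0 ∧
        (∀ Q : (MvPolynomial σ (algebraicClosure F M))[X], Q.Monic →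
          ev2 (algebraMap (algebraicClosure F M) M) (fun s => algebraMap E M (τ s)) Θ Q = 0 →
          PF.natDegree ≤ Q.natDegree) ∧
        Module.finrank (IntermediateField.adjoin E {z : M | IsAlgebraic F z}) M ≤
          PF.natDegree := by
  have hcF : CharZero F := charZero_of_injective_algebraMap (algebraMap k F).injective
  obtain ⟨Θ, hΘ, ⟨P0, hP0m, hP00, U0, W0, d0, hd0, hbz⟩, PF, hPFm, hPF0, hPFmin, hfr⟩ :=
    theta_exists (M := M) τ hτ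
  refine ⟨Θ, P0.map (MvPolynomial.map (algebraMap F E)), U0.map (MvPolynomial.map (algebraMap F E)),
    W0.map (MvPolynomial.map (algebraMap F E)), MvPolynomial.map (algebraMap F E) d0, hΘ,
    ⟨hP0m.map _, ?_, ?_, ?_, ?_, ?_⟩, PF, hPFm, hPF0, hPFmin, hfr⟩
  · rw [hP0m.natDegree_map]
    exact natDegree_ne_zero_of (algebraMap F M) _ Θ P0 hP0m hP00
  · rw [ev2_map, ← IsScalarTower.algebraMap_eq]
    exact hP00
  · rw [derivative_map, ← Polynomial.map_mul, ← Polynomial.map_mul, ← Polynomial.map_add, hbz,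
      map_C]
  · rw [MvPolynomial.eval_map, ← MvPolynomial.aeval_def]
    intro h0
    exact hd0 (algebraicIndependent_iff.1 hτ.1 d0 h0)
  · intro z hz
    obtain ⟨j, n, rfl⟩ := mem_cc hz
    rw [coeff_map, MvPolynomial.coeff_map]
    exact SetLike.coe_mem _

/-- the certificates -/
theorem exists_crt (F : IntermediateField k E)
    (hin : ∀ O : ValuationSubring M, (∀ z ∈ F, algebraMap E M z ∈ O) →
      ∀ g : M ≃ₐ[E] M, (∀ x ∈ O, g x - x ∈ O.nonunits) → g = 1) :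
    ∃ (Zc : (M ≃ₐ[E] M) → Finset M) (Wc : (M ≃ₐ[E] M) → Finset E),
      (∀ g, ∀ z ∈ Wc g, z ∈ F) ∧ ∀ g ≠ 1, Crt k g (Zc g) (Wc g) := by
  have h1 : ∀ g : M ≃ₐ[E] M, ∃ (Z : Finset M) (W : Finset E), (∀ z ∈ W, z ∈ F) ∧
      (g ≠ 1 → Crt k g Z W) := by
    intro g
    by_cases hg : g = 1
    · exact ⟨∅, ∅, by simp, fun h => absurd hg h⟩
    · obtain ⟨Z, W, hW, hZ⟩ := inertia_cert (k := k) F g (by
        intro O hO
        by_contra hcon
        push Not at hcon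
        exact hg (hin O hO g hcon))
      exact ⟨Z, W, fun z hz => hW hz, fun _ => hZ⟩
  choose Zc Wc h2 h3 using h1
  exact ⟨Zc, Wc, h2, h3⟩

end data

/-- powers of constants -/
lemma rpow_split (κ V κ' ε : ℝ) (hκ : 1 ≤ κ) (hV : 1 ≤ V) (hκ' : κ' = ε / (2 * κ)) :
    (κ * V ^ κ) ^ κ' = κ ^ κ' * V ^ (ε / 2) := by
  have hV0 : 0 ≤ V := by linarith
  rw [Real.mul_rpow (by linarith) (Real.rpow_nonneg hV0 _), ← Real.rpow_mul hV0, hκ']
  congr 2
  field_simp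

lemma pow_bound (q V δ ε CM : ℝ) (n0 dL e : ℕ) (hV : 1 ≤ V) (hCM : 1 ≤ CM) (hδ0 : 0 < δ)
    (hq0 : 0 ≤ q)
    (hδ : δ * dL * e = ε / 2) (hq : q ≤ (2 ^ (n0 + 2) * (CM * V ^ δ)) ^ dL) :
    (q + 1) ^ e ≤ (2 * (2 ^ (n0 + 2) * CM) ^ dL) ^ e * V ^ (ε / 2) := by
  have hV0 : 0 ≤ V := by linarith
  have hVδ : 1 ≤ V ^ δ := Real.one_le_rpow hV hδ0.le
  have h1 : 1 ≤ (2 ^ (n0 + 2) * (CM * V ^ δ)) ^ dL := by
    apply one_le_pow₀
    exact one_le_mul_of_one_le_of_one_le (one_le_pow₀ (by norm_num))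
      (one_le_mul_of_one_le_of_one_le hCM hVδ)
  calc (q + 1) ^ e ≤ (2 * (2 ^ (n0 + 2) * (CM * V ^ δ)) ^ dL) ^ e := by
        apply pow_le_pow_left₀ (by linarith)
        linarith
    _ = (2 * (2 ^ (n0 + 2) * CM) ^ dL) ^ e * ((V ^ δ) ^ dL) ^ e := by
        rw [← mul_assoc, mul_pow _ (V ^ δ), ← mul_assoc, mul_pow _ ((V ^ δ) ^ dL)]
    _ = _ := by
        congr 1
        rw [← Real.rpow_natCast (V ^ δ), ← Real.rpow_mul hV0, ← Real.rpow_natCast,
          ← Real.rpow_mul hV0, hδ]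

lemma pow_large (κ δ CM V : ℝ) (hκ : 1 ≤ κ) (hδ : 0 < δ) (hCM : 2 ≤ CM) (hV : 1 ≤ V) :
    κ * V ^ κ < (CM * V ^ δ) ^ (⌈κ⌉₊ + ⌈κ / δ⌉₊ + 1) := by
  have hV0 : 0 < V := by linarith
  set t := ⌈κ⌉₊ + ⌈κ / δ⌉₊ + 1 with ht
  have h1 : κ ≤ ⌈κ⌉₊ := Nat.le_ceil _
  have h2 : κ / δ ≤ ⌈κ / δ⌉₊ := Nat.le_ceil _
  have htr : (t : ℝ) = ⌈κ⌉₊ + ⌈κ / δ⌉₊ + 1 := by rw [ht]; push_cast; ring
  have h3 : κ < CM ^ t := by
    have h4 : (t : ℝ) < 2 ^ t := by exact_mod_cast Nat.lt_two_pow_self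
    have h5 : (2 : ℝ) ^ t ≤ CM ^ t := pow_le_pow_left₀ (by norm_num) hCM _
    have h6 : (0 : ℝ) ≤ ⌈κ / δ⌉₊ := Nat.cast_nonneg _
    linarith
  have h7 : V ^ κ ≤ (V ^ δ) ^ t := by
    rw [← Real.rpow_natCast (V ^ δ), ← Real.rpow_mul hV0.le]
    apply Real.rpow_le_rpow_of_exponent_le hV
    have h8 : κ / δ ≤ t := by
      rw [htr]
      have h6 : (0 : ℝ) ≤ ⌈κ⌉₊ := Nat.cast_nonneg _
      linarith
    calc κ = δ * (κ / δ) := by field_simp
      _ ≤ δ * t := mul_le_mul_of_nonneg_left h8 hδ.le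
  rw [mul_pow]
  have h8 : 0 < V ^ κ := Real.rpow_pos_of_pos hV0 _
  calc κ * V ^ κ < CM ^ t * V ^ κ := mul_lt_mul_of_pos_right h3 h8
    _ ≤ _ := mul_le_mul_of_nonneg_left h7 (by positivity)

end Pool.Agent.K9h15.Cv
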