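import Mathlib
import Pool.Agent.K9h15.Cv.RelD

/-!
# The points are covered by few sets satisfying a relation: conclusion
-/

set_option autoImplicit false

open Polynomial IsDedekindDomain NumberField Height

namespace Pool.Agent.K9h15.Cv

open Pool.Agent.K9h15.Pla Pool.Agent.K9h15.Tow

variable {k E M : Type} [Field k] [CharZero k] [Field E] [Field M] [Algebra k E] [Algebra k M]
  [Algebra E M] [IsScalarTower k E M] [FiniteDimensional E M] [IsGalois E M]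
  [Group.IsNilpotent (M ≃ₐ[E] M)]

/-- **The points are covered by few sets satisfying a relation.** -/
theorem rel_cover (F : IntermediateField k E)
    (hin : ∀ O : ValuationSubring M, (∀ z ∈ F, algebraMap E M z ∈ O) →
      ∀ g : M ≃ₐ[E] M, (∀ x ∈ O, g x - x ∈ O.nonunits) → g = 1)
    {σ : Type} [Fintype σ] [DecidableEq σ] [Nonempty σ] (τ : σ → E)
    (hτ : IsTranscendenceBasis F τ) (L : Type) [Field L] [NumberField L] [Algebra k L]
    (ε : ℝ) (hε : 0 < ε) (K : ℕ) (hK : 1 ≤ K)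
    (hdeg : 2 * K ^ Fintype.card σ ≤
      Module.finrank (IntermediateField.adjoin E {z : M | IsAlgebraic F z}) M)
    (hKε : 8 * (Fintype.card σ : ℝ) ^ 2 * Module.finrank ℚ L ≤ ε * K) :
    ∃ A1 : Finset E, ∀ κ : ℝ, 1 ≤ κ → ∃ (A2 : Finset E) (S0 : Finset (σ →₀ ℕ)) (c : ℝ), 1 ≤ c ∧
      ∀ V : ℝ, 1 ≤ V → ∀ Ψ : Finset (Sz k E L),
        (∀ s ∈ Ψ, ∀ z, (z ∈ A1 ∨ z ∈ A2) → z ∈ s.T) →
        (∀ s ∈ Ψ, ∀ t, mulHeight₁ (s.ev (τ t)) ≤ V) →
        (∀ s ∈ Ψ, ∀ z ∈ A1, mulHeight₁ (s.ev z) ≤ κ * V ^ κ) →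
        (∀ s ∈ Ψ, ∀ s' ∈ Ψ, ∀ z, (z ∈ A1 ∨ z ∈ A2) → z ∈ F → s.ev z = s'.ev z) →
        Cov (RelOn τ S0) Ψ (c * V ^ ε) := by
  classical
  obtain ⟨Θ, P, U, W, d, hΘ, hPd, PF, hPFm, hPF0, hPFmin, hfr⟩ := exists_pd (M := M) F τ hτ
  obtain ⟨Zc, Wc, hWF, hcrt⟩ := exists_crt (M := M) F hin
  set e := Fintype.card σ with he
  set D := PF.natDegree with hD
  set N := P.natDegree with hN
  have he0 : 0 < e := Fintype.card_pos
  have hdL0 : 0 < Module.finrank ℚ L := Module.finrank_pos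
  have hKD : 2 * K ^ e ≤ D := hdeg.trans hfr
  have hDpos : 0 < D := by
    have := Nat.one_le_pow e K hK
    omega
  refine ⟨C1 τ P U W d ∪ Finset.univ.biUnion Wc, ?_⟩
  intro κ hκ
  set dL := Module.finrank ℚ L with hdL
  have he1 : (0 : ℝ) < e := by exact_mod_cast he0
  have hdL1 : (0 : ℝ) < dL := by exact_mod_cast hdL0
  set δ : ℝ := ε / (2 * e * dL) with hδ
  have hδ0 : 0 < δ := by positivity
  have hδe : δ * dL * e = ε / 2 := by rw [hδ]; field_simp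
  set m := ⌈4 * κ * (D * N) / δ⌉₊ with hm
  have hmδ : 4 * κ * (D * N) ≤ δ * (m + 1) := by
    have h1 : 4 * κ * (D * N) / δ ≤ m := Nat.le_ceil _
    rw [div_le_iff₀ hδ0] at h1
    linarith
  have hδK : 4 * (e : ℝ) ≤ δ * K := by
    have h1 : δ * K = ε * K / (2 * e * dL) := by rw [hδ]; ring
    rw [h1, le_div_iff₀ (by positivity)]
    calc 4 * (e : ℝ) * (2 * e * dL) = 8 * (e : ℝ) ^ 2 * dL := by ring
      _ ≤ _ := hKε
  -- the resultants
  have hcF : CharZero F := charZero_of_injective_algebraMap (algebraMap k F).injective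
  have hc0 : CharZero (algebraicClosure F M) :=
    charZero_of_injective_algebraMap (algebraMap F (algebraicClosure F M)).injective
  have hac : ∀ z : M, IsAlgebraic (algebraicClosure F M) z →
      ∃ a, algebraMap (algebraicClosure F M) M a = z := by
    intro z hz
    have h1 : IsAlgebraic F z := hz.restrictScalars F
    exact ⟨⟨z, mem_algebraicClosure_iff.2 h1⟩, rfl⟩
  obtain ⟨Z, hZ⟩ := res_cert (m := m) (D := D) PF (M := M) (fun Ω _ j q hq =>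
    res_ne_zero hac (fun t => algebraMap E M (τ t)) Θ PF hPFm hPF0 hPFmin j rfl q hq)
  set PM : (MvPolynomial σ M)[X] := PF.map (MvPolynomial.map (algebraMap _ M)) with hPM
  obtain ⟨S0, hS0⟩ := res_support (m := m) (D := D) PM
  let Zm : Finset M := Z.image (algebraMap _ M) ∪ cc PM
  have hZmi : ∀ z ∈ Zm, IsIntegral F z := by
    intro z hz
    rw [← isAlgebraic_iff_isIntegral]
    rcases Finset.mem_union.1 hz with h | h
    · obtain ⟨a, -, rfl⟩ := Finset.mem_image.1 h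
      exact mem_algebraicClosure_iff.1 a.2
    · obtain ⟨j, n, rfl⟩ := mem_cc h
      rw [hPM, coeff_map, MvPolynomial.coeff_map]
      exact mem_algebraicClosure_iff.1 (SetLike.coe_mem _)
  let V0 : Finset M := insert Θ (Zm ∪ Finset.univ.biUnion (fun g : M ≃ₐ[E] M =>
    (Zc g).biUnion (fun x => {x, x⁻¹, (g x - x)⁻¹})))
  have hΘV : Θ ∈ V0 := Finset.mem_insert_self _ _
  have hZV : ∀ z ∈ Zm, z ∈ V0 := fun z hz => Finset.mem_insert_of_mem (Finset.mem_union_left _ hz)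
  have hZcV : ∀ g, ∀ x ∈ Zc g, x ∈ V0 ∧ x⁻¹ ∈ V0 ∧ (g x - x)⁻¹ ∈ V0 := by
    intro g x hx
    have h1 : ∀ y ∈ ({x, x⁻¹, (g x - x)⁻¹} : Finset M), y ∈ V0 := by
      intro y hy
      refine Finset.mem_insert_of_mem (Finset.mem_union_right _ ?_)
      exact Finset.mem_biUnion.2 ⟨g, Finset.mem_univ _, Finset.mem_biUnion.2 ⟨x, hx, hy⟩⟩
    exact ⟨h1 _ (by simp), h1 _ (by simp), h1 _ (by simp)⟩
  obtain ⟨Cr, hCr⟩ := exists_rho (k := k) (E := E) Θ hΘ V0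
  let A2 : Finset E := Cr ∪ Zm.biUnion (fun z =>
    (Finset.range ((minpoly F z).natDegree + 1)).image (fun j => (((minpoly F z).coeff j : F) : E)))
  let Ω := AlgebraicClosure L
  obtain ⟨cT, hcT, htw⟩ := twist_cnt (k := k) (E := E) (M := M) hΘV Zc Wc hcrt hZcV L Ω
    (ε / (2 * κ)) (by positivity)
  set A : ℝ := ((Fintype.card (Ix σ m D)).factorial *
    (N : ℝ) ^ (D * Fintype.card (Ix σ m D))) ^ dL with hA
  have hN1 : (1 : ℝ) ≤ N := by exact_mod_cast Nat.one_le_iff_ne_zero.2 hPd.ne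
  have hAone : 1 ≤ A := by
    apply one_le_pow₀
    refine one_le_mul_of_one_le_of_one_le ?_ (one_le_pow₀ hN1)
    exact_mod_cast Nat.one_le_iff_ne_zero.2 (Nat.factorial_ne_zero _)
  set CM : ℝ := max 2 ((A * κ ^ (D * N)) ^ 2) with hCM
  have hCM2 : 2 ≤ CM := le_max_left _ _
  set A1 : Finset E := C1 τ P U W d ∪ Finset.univ.biUnion Wc with hA1
  set t := ⌈κ⌉₊ + ⌈κ / δ⌉₊ + 1 with ht
  set n0 := Fintype.card A1 * t with hn0
  set Dg : ℕ := ∏ z : Zm, (minpoly F (z : M)).natDegree with hDg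
  set c : ℝ := max 1 (((n0 + 1 : ℕ) : ℝ) * ((cT * κ ^ (ε / (2 * κ))) * Dg) *
    ((2 * (2 ^ (n0 + 2) * CM) ^ dL) ^ e * (N : ℝ) ^ Nat.card (M ≃ₐ[E] M))) with hc
  refine ⟨A2, S0, c, le_max_left _ _, ?_⟩
  intro V hV Ψ hT hHτ hHA hcon
  have hV0 : 0 < V := by linarith
  have hVε : 0 < V ^ ε := Real.rpow_pos_of_pos hV0 _
  have hVκ : 1 ≤ κ * V ^ κ :=
    one_le_mul_of_one_le_of_one_le hκ (Real.one_le_rpow hV (by linarith))
  rcases Ψ.eq_empty_or_nonempty with h0 | ⟨s0, hs0⟩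
  · rw [h0]
    refine Cov.empty ?_
    have : 1 ≤ c := le_max_left _ _
    positivity
  -- the extensions
  have hExt0 : ∀ s ∈ Ψ, ∃ p : Sz k M Ω × ((Ω ≃ₐ[L] Ω) →* (M ≃ₐ[E] M)), Ext Θ V0 s p.1 p.2 := by
    intro s hs
    obtain ⟨s', ρ, h1, h2, h3⟩ := hCr L Ω s (fun z hz =>
      hT s hs z (Or.inr (Finset.mem_union_left _ hz)))
    exact ⟨(s', ρ), ⟨h1, fun w hw g => (h2 w hw g).1, fun w hw g => (h2 w hw g).2.1,
      fun w hw g => (h2 w hw g).2.2, h3⟩⟩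
  have hExt1 : ∀ s : Sz k E L, ∃ p : Sz k M Ω × ((Ω ≃ₐ[L] Ω) →* (M ≃ₐ[E] M)),
      s ∈ Ψ → Ext Θ V0 s p.1 p.2 := by
    intro s
    by_cases hs : s ∈ Ψ
    · obtain ⟨p, hp⟩ := hExt0 s hs
      exact ⟨p, fun _ => hp⟩
    · obtain ⟨p, -⟩ := hExt0 s0 hs0
      exact ⟨p, fun h => absurd h hs⟩
  choose pr hpr using hExt1
  let S' : Sz k E L → Sz k M Ω := fun s => (pr s).1
  let ρ : Sz k E L → ((Ω ≃ₐ[L] Ω) →* (M ≃ₐ[E] M)) := fun s => (pr s).2
  have hExt : ∀ s ∈ Ψ, Ext Θ V0 s (S' s) (ρ s) := fun s hs => hpr s hs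
  -- the good primes
  have hVδ : 1 ≤ V ^ δ := Real.one_le_rpow hV hδ0.le
  have hCM1 : 1 ≤ CM := by linarith
  have hM1 : 1 ≤ CM * V ^ δ := one_le_mul_of_one_le_of_one_le hCM1 hVδ
  obtain ⟨Pr, hPrc, hPr⟩ := primes_set L n0 (CM * V ^ δ) hM1
  have hvs0 : ∀ s : Sz k E L, ∃ v : HeightOneSpectrum (𝓞 L), v ∈ Pr ∧
      (s ∈ Ψ → ∀ z ∈ A1, av v (s.ev z) ≤ 1) := by
    intro s
    by_cases hs : s ∈ Ψ
    · obtain ⟨v, hv, hvz⟩ := exists_good_in (β := A1) Pr t (CM * V ^ δ) (κ * V ^ κ) hM1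
        (pow_large κ δ CM V hκ hδ0 hCM2 hV) (by rw [hPrc, ← hn0]; omega) (fun v hv => (hPr v hv).1)
        (fun z => s.ev (z : E)) (fun z => hHA s hs z z.2)
      exact ⟨v, hv, fun _ z hz => hvz ⟨z, hz⟩⟩
    · have h1 : Pr.Nonempty := by
        rw [← Finset.card_pos, hPrc]
        omega
      obtain ⟨v, hv⟩ := h1
      exact ⟨v, hv, fun h => absurd h hs⟩
  choose vs hvsP hvs using hvs0
  -- the first classes
  let fm : Sz k E L → (Zm → Ω) := fun s => fun z : Zm => (S' s).ev (z : M)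
  have hcnt1 : cnt Ψ vs ≤ n0 + 1 := by
    rw [cnt_eq, ← hPrc]
    apply Finset.card_le_card
    intro v hv
    obtain ⟨s, -, rfl⟩ := Finset.mem_image.1 hv
    exact hvsP s
  have hWcA : ∀ g, ∀ z ∈ Wc g, z ∈ A1 := fun g z hz =>
    Finset.mem_union_right _ (Finset.mem_biUnion.2 ⟨g, Finset.mem_univ _, hz⟩)
  have hC1A : ∀ z ∈ C1 τ P U W d, z ∈ A1 := fun z hz => Finset.mem_union_left _ hz
  have hcnt2 : (cnt Ψ ρ : ℝ) ≤ cT * κ ^ (ε / (2 * κ)) * V ^ (ε / 2) := by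
    have h1 := htw (κ * V ^ κ) hVκ Ψ S' ρ hExt
      (fun s hs g z hz => ⟨hT s hs z (Or.inl (hWcA g z hz)), hHA s hs z (hWcA g z hz)⟩)
      (fun s hs s' hs' g z hz => hcon s hs s' hs' z (Or.inl (hWcA g z hz)) (hWF g z hz))
    rw [rpow_split κ V _ ε hκ hV rfl, ← mul_assoc] at h1
    exact h1
  have hmpA : ∀ z ∈ Zm, ∀ j, ((((minpoly F z).coeff j : F) : E) ∈ A2) ∨
      (((minpoly F z).coeff j : F) : E) = 0 := by
    intro z hz j
    by_cases hj : j < (minpoly F z).natDegree + 1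
    · left
      refine Finset.mem_union_right _ (Finset.mem_biUnion.2 ⟨z, hz, ?_⟩)
      exact Finset.mem_image_of_mem _ (Finset.mem_range.2 hj)
    · right
      rw [coeff_eq_zero_of_natDegree_lt (by omega)]
      rfl
  have hcnt3 : cnt Ψ fm ≤ Dg := by
    refine cnt_alg F Zm hZmi Ψ S' (fun s hs => (hExt s hs).up) ?_ ?_ ?_
    · intro s hs z hz
      have := (hExt s hs).mem z (hZV z hz) 1
      rwa [AlgEquiv.one_apply] at this
    · intro s hs z hz j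
      rcases hmpA z hz j with h | h
      · exact hT s hs _ (Or.inr h)
      · rw [h]; exact s.T.zero_mem
    · intro s hs s' hs' z hz j
      rcases hmpA z hz j with h | h
      · exact hcon s hs s' hs' _ (Or.inr h) (SetLike.coe_mem _)
      · rw [h, ev_zero, ev_zero]
  have hcov : Cov (RelOn τ S0) Ψ (cnt Ψ (fun s => (vs s, (ρ s, fm s))) *
      ((2 * (2 ^ (n0 + 2) * CM) ^ dL) ^ e * V ^ (ε / 2) * (N : ℝ) ^ Nat.card (M ≃ₐ[E] M))) := by
    refine Cov.fibre _ ?_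
    intro s1 hs1 Ψ1 hΨ1
    set v := vs s1 with hv
    obtain ⟨r, hr⟩ := exists_rcl v
    have hΨ1v : ∀ s ∈ Ψ1, vs s = v := fun s hs => congrArg Prod.fst (hΨ1 s hs).2
    have hΨ1ρ : ∀ s ∈ Ψ1, ρ s = ρ s1 := fun s hs =>
      congrArg (fun q => q.2.1) (hΨ1 s hs).2
    have hΨ1f : ∀ s ∈ Ψ1, fm s = fm s1 := fun s hs =>
      congrArg (fun q => q.2.2) (hΨ1 s hs).2
    have hint : ∀ s ∈ Ψ1, ∀ z ∈ A1, av v (s.ev z) ≤ 1 := by
      intro s hs z hz
      rw [← hΨ1v s hs]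
      exact hvs s (hΨ1 s hs).1 z hz
    have h1 : Cov (RelOn τ S0) Ψ1 (cnt Ψ1 (fun s t => r (s.ev (τ t))) *
        (N : ℝ) ^ Nat.card (M ≃ₐ[E] M)) := by
      refine Cov.fibre _ ?_
      intro s2 hs2 Ψ2 hΨ2
      have hsub : ∀ s ∈ Ψ2, s ∈ Ψ1 := fun s hs => (hΨ2 s hs).1
      have hsubΨ : ∀ s ∈ Ψ2, s ∈ Ψ := fun s hs => (hΨ1 s (hsub s hs)).1
      refine class_cov hPd hΘV PF hPFm hPF0 D rfl hDpos m Z hZ S0 hS0 ?_ ?_ L Ω Ψ2 S' (ρ s1) ?_
        V (κ * V ^ κ) v ?_ ?_ ?_ ?_ ?_ ((m + 1) * K) ?_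
      · intro z hz
        exact hZV _ (Finset.mem_union_left _ (Finset.mem_image_of_mem _ hz))
      · intro z hz
        exact hZV _ (Finset.mem_union_right _ hz)
      · intro s hs
        have h2 := hExt s (hsubΨ s hs)
        rw [hΨ1ρ s (hsub s hs)] at h2
        exact h2
      · intro s hs z hz
        exact ⟨hT s (hsubΨ s hs) z (Or.inl (hC1A z hz)), hint s (hsub s hs) z (hC1A z hz),
          hHA s (hsubΨ s hs) z (hC1A z hz)⟩
      · intro s hs t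
        exact hHτ s (hsubΨ s hs) t
      · intro s hs s' hs' z hz
        exact hcon s (hsubΨ s hs) s' (hsubΨ s' hs') z (Or.inl (hC1A z (C1_P hz))) (hPd.coF z hz)
      · intro s hs s' hs' z hz
        have h2 := (hΨ1f s (hsub s hs)).trans (hΨ1f s' (hsub s' hs')).symm
        exact congrFun h2 ⟨z, Finset.mem_union_right _ hz⟩
      · intro s hs s' hs' t
        refine hr _ _ (hint s (hsub s hs) _ (hC1A _ (C1_tau t)))
          (hint s' (hsub s' hs') _ (hC1A _ (C1_tau t))) ?_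
        exact congrFun ((hΨ2 s hs).2.trans (hΨ2 s' hs').2.symm) t
      · have hcard : Fintype.card (Ix σ m D) = (m + 1) ^ e * D := by
          simp [Ix, he]
        have h2 := numeric e K D N m κ δ A CM V (nm v) hK hKD hκ hδ0 hδK hmδ hAone (le_max_right _ _)
          hV (hPr v (hvsP s1)).1
        rw [← hcard] at h2
        exact h2
    refine h1.mono ?_
    apply mul_le_mul_of_nonneg_right _ (by positivity)
    refine (cnt_rcl v Ψ1 (fun s t => r (s.ev (τ t)))).trans ?_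
    exact pow_bound (nm v) V δ ε CM n0 dL e hV hCM1 hδ0 (by linarith [one_lt_nm v]) hδe
      (hPr v (hvsP s1)).2
  refine hcov.mono ?_
  have h5 : (cnt Ψ (fun s => (vs s, (ρ s, fm s))) : ℝ) ≤
      ((n0 + 1 : ℕ) : ℝ) * ((cT * κ ^ (ε / (2 * κ)) * V ^ (ε / 2)) * Dg) := by
    have h6 := cnt_prod_le Ψ vs (fun s => (ρ s, fm s))
    have h7 := cnt_prod_le Ψ ρ fm
    have h8 : (cnt Ψ (fun s => (vs s, (ρ s, fm s))) : ℝ) ≤ (cnt Ψ vs : ℝ) * ((cnt Ψ ρ : ℝ) * cnt Ψ fm) := by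
      exact_mod_cast h6.trans (Nat.mul_le_mul_left _ h7)
    refine h8.trans ?_
    apply mul_le_mul (by exact_mod_cast hcnt1) _ (by positivity) (by positivity)
    apply mul_le_mul hcnt2 (by exact_mod_cast hcnt3) (by positivity)
    have : 0 ≤ κ ^ (ε / (2 * κ)) := Real.rpow_nonneg (by linarith) _
    have : 0 ≤ V ^ (ε / 2) := Real.rpow_nonneg hV0.le _
    positivity
  have hκp : 0 ≤ κ ^ (ε / (2 * κ)) := Real.rpow_nonneg (by linarith) _
  have hVp : 0 ≤ V ^ (ε / 2) := Real.rpow_nonneg hV0.le _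
  have hVV : V ^ (ε / 2) * V ^ (ε / 2) = V ^ ε := by
    rw [← Real.rpow_add hV0]
    congr 1
    ring
  calc (cnt Ψ (fun s => (vs s, (ρ s, fm s))) : ℝ) *
      ((2 * (2 ^ (n0 + 2) * CM) ^ dL) ^ e * V ^ (ε / 2) * (N : ℝ) ^ Nat.card (M ≃ₐ[E] M))
      ≤ ((n0 + 1 : ℕ) : ℝ) * ((cT * κ ^ (ε / (2 * κ)) * V ^ (ε / 2)) * Dg) *
        ((2 * (2 ^ (n0 + 2) * CM) ^ dL) ^ e * V ^ (ε / 2) *
          (N : ℝ) ^ Nat.card (M ≃ₐ[E] M)) := by
        apply mul_le_mul_of_nonneg_right h5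
        positivity
    _ = (((n0 + 1 : ℕ) : ℝ) * ((cT * κ ^ (ε / (2 * κ))) * Dg) *
        ((2 * (2 ^ (n0 + 2) * CM) ^ dL) ^ e * (N : ℝ) ^ Nat.card (M ≃ₐ[E] M))) *
          (V ^ (ε / 2) * V ^ (ε / 2)) := by ring
    _ ≤ c * V ^ ε := by
        rw [hVV]
        exact mul_le_mul_of_nonneg_right (le_max_right _ _) hVε.le

end Pool.Agent.K9h15.Cv
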