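import Mathlib
import Pool.Agent.K9h15.Cv.RelE

/-!
# Relations with coefficients of small height
-/

set_option autoImplicit false

open Height

namespace Pool.Agent.K9h15.Cv

section alg

variable {K : Type} [Field K]

/-- the relations from the maximal nonvanishing minor -/
theorem minor_rel {ι β : Type} [Fintype ι] [DecidableEq ι] (r : β → ι → K) (R : ι → K)
    (hR : R ≠ 0) (hRr : ∀ b, ∑ c, R c * r b c = 0) :
    ∃ (p : ℕ) (f : Fin p → β) (g : Fin (p + 1) → ι), p ≤ Fintype.card ι ∧
      (fun c : ι => ∑ j : Fin (p + 1), if g j = c then (-1 : K) ^ (j : ℕ) *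
        (Matrix.of fun (i l : Fin p) => r (f i) (g (j.succAbove l))).det else 0) ≠ 0 ∧
      ∀ b, ∑ c, (∑ j : Fin (p + 1), if g j = c then (-1 : K) ^ (j : ℕ) *
        (Matrix.of fun (i l : Fin p) => r (f i) (g (j.succAbove l))).det else 0) * r b c = 0 := by
  classical
  let Q : ℕ → Prop := fun p => ∃ (f : Fin p → β) (g : Fin p → ι),
    (Matrix.of fun i l => r (f i) (g l)).det ≠ 0
  have hinj : ∀ (p : ℕ) (f : Fin p → β) (g : Fin p → ι),
      (Matrix.of fun i l => r (f i) (g l)).det ≠ 0 → Function.Injective g := by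
    intro p f g h i j hij
    by_contra hne
    apply h
    apply Matrix.det_zero_of_column_eq hne
    intro a
    simp only [Matrix.of_apply, hij]
  have hbd : ∀ p, Q p → p ≤ Fintype.card ι := by
    rintro p ⟨f, g, h⟩
    have := Fintype.card_le_of_injective g (hinj p f g h)
    rwa [Fintype.card_fin] at this
  have h0 : Q 0 := ⟨Fin.elim0, Fin.elim0, by rw [Matrix.det_fin_zero]; exact one_ne_zero⟩
  obtain ⟨p, hp, hmax⟩ : ∃ p, Q p ∧ ∀ q, Q q → q ≤ p := by
    refine ⟨Nat.findGreatest Q (Fintype.card ι), ?_, ?_⟩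
    · exact Nat.findGreatest_spec (P := Q) (Nat.zero_le _) h0
    · intro q hq
      exact Nat.le_findGreatest (hbd q hq) hq
  obtain ⟨f, g, hfg⟩ := hp
  have hgi := hinj p f g hfg
  obtain ⟨c0, hc0⟩ : ∃ c0, ∀ j, g j ≠ c0 := by
    by_contra hcon
    push Not at hcon
    let e : Fin p ≃ ι := Equiv.ofBijective g ⟨hgi, hcon⟩
    apply hfg
    rw [← Matrix.exists_mulVec_eq_zero_iff]
    refine ⟨fun l => R (g l), ?_, ?_⟩
    · intro h
      apply hR
      funext c
      obtain ⟨l, rfl⟩ := hcon c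
      exact congrFun h l
    · funext i
      simp only [Matrix.mulVec, dotProduct, Matrix.of_apply, Pi.zero_apply]
      rw [← hRr (f i)]
      have h1 := Equiv.sum_comp e (fun c => r (f i) c * R c)
      refine h1.trans ?_
      exact Finset.sum_congr rfl fun c _ => mul_comm _ _
  let g' : Fin (p + 1) → ι := Fin.cons c0 g
  refine ⟨p, f, g', hbd p ⟨f, g, hfg⟩, ?_, ?_⟩
  · intro h
    have h1 := congrFun h c0
    simp only [Pi.zero_apply] at h1
    rw [Finset.sum_eq_single (0 : Fin (p + 1))] at h1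
    · rw [if_pos (by simp [g'])] at h1
      simp only [Fin.val_zero, pow_zero, one_mul] at h1
      apply hfg
      rw [← h1]
      congr 1
    · intro j _ hj
      rw [if_neg]
      obtain ⟨l, rfl⟩ := Fin.exists_succ_eq.2 hj
      simp only [g', Fin.cons_succ]
      exact hc0 l
    · intro h2
      exact absurd (Finset.mem_univ _) h2
  · intro b
    have h1 : (Matrix.of fun (i l : Fin (p + 1)) =>
        r ((Fin.cons b f : Fin (p + 1) → β) i) (g' l)).det = 0 := by
      by_contra hne
      have := hmax (p + 1) ⟨Fin.cons b f, g', hne⟩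
      omega
    rw [Matrix.det_succ_row_zero] at h1
    refine Eq.trans ?_ h1
    have h2 : ∀ c, (∑ j : Fin (p + 1), if g' j = c then (-1 : K) ^ (j : ℕ) *
        (Matrix.of fun (i l : Fin p) => r (f i) (g' (j.succAbove l))).det else 0) * r b c =
        ∑ j : Fin (p + 1), if g' j = c then ((-1 : K) ^ (j : ℕ) *
        (Matrix.of fun (i l : Fin p) => r (f i) (g' (j.succAbove l))).det) * r b (g' j) else 0 := by
      intro c
      rw [Finset.sum_mul]
      refine Finset.sum_congr rfl fun j _ => ?_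
      split_ifs with h
      · rw [h]
      · rw [zero_mul]
    rw [Finset.sum_congr rfl fun c _ => h2 c, Finset.sum_comm]
    refine Finset.sum_congr rfl fun j _ => ?_
    rw [Finset.sum_ite_eq, if_pos (Finset.mem_univ _)]
    have h3 : ((Matrix.of fun (i l : Fin (p + 1)) =>
        r ((Fin.cons b f : Fin (p + 1) → β) i) (g' l)).submatrix Fin.succ j.succAbove) =
        Matrix.of fun (i l : Fin p) => r (f i) (g' (j.succAbove l)) := by
      ext i l
      simp [Matrix.submatrix_apply]
    rw [h3]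
    simp only [Matrix.of_apply, Fin.cons_zero]
    ring

end alg

section height

variable {L : Type} [Field L] [NumberField L]

lemma height_det {p : ℕ} (A : Matrix (Fin p) (Fin p) L) (B : ℝ)
    (hA : ∀ i j, mulHeight₁ (A i j) ≤ B) :
    mulHeight₁ A.det ≤ (p.factorial : ℝ) ^ totalWeight L * (B ^ p) ^ p.factorial := by
  rw [Matrix.det_apply]
  refine (mulHeight₁_sum_le Finset.univ_nonempty _).trans ?_
  rw [Finset.card_univ, Fintype.card_perm, Fintype.card_fin]
  refine mul_le_mul_of_nonneg_left ?_ (by positivity)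
  have h1 : ∀ π : Equiv.Perm (Fin p), mulHeight₁ (Equiv.Perm.sign π • ∏ i, A (π i) i) ≤ B ^ p := by
    intro π
    have h2 : mulHeight₁ (Equiv.Perm.sign π • ∏ i, A (π i) i) = mulHeight₁ (∏ i, A (π i) i) := by
      rcases Int.units_eq_one_or (Equiv.Perm.sign π) with h | h
      · rw [h, one_smul]
      · rw [h, Units.neg_smul, one_smul, mulHeight₁_neg]
    rw [h2]
    refine (mulHeight₁_prod_le _ _).trans ?_
    calc ∏ i, mulHeight₁ (A (π i) i) ≤ ∏ _i : Fin p, B :=
          Finset.prod_le_prod (fun i _ => (mulHeight₁_pos _).le) fun i _ => hA _ _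
      _ = B ^ p := by rw [Finset.prod_const, Finset.card_univ, Fintype.card_fin]
  calc ∏ π : Equiv.Perm (Fin p), mulHeight₁ (Equiv.Perm.sign π • ∏ i, A (π i) i)
      ≤ ∏ _π : Equiv.Perm (Fin p), B ^ p :=
        Finset.prod_le_prod (fun i _ => (mulHeight₁_pos _).le) fun i _ => h1 _
    _ = _ := by rw [Finset.prod_const, Finset.card_univ, Fintype.card_perm, Fintype.card_fin]

/-- **Relations of small height.** -/
theorem small_rel (L : Type) [Field L] [NumberField L] (ι : Type) [Fintype ι] [DecidableEq ι] :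
    ∃ (c : ℝ) (N : ℕ), 1 ≤ c ∧ ∀ (β : Type) (r : β → ι → L) (B : ℝ), 1 ≤ B →
      (∀ b i, mulHeight₁ (r b i) ≤ B) → (∃ R : ι → L, R ≠ 0 ∧ ∀ b, ∑ i, R i * r b i = 0) →
      ∃ q : ι → L, q ≠ 0 ∧ (∀ b, ∑ i, q i * r b i = 0) ∧ ∀ i, mulHeight₁ (q i) ≤ c * B ^ N := by
  set n := Fintype.card ι with hn
  set w := totalWeight L with hw
  refine ⟨((n + 1 : ℕ) : ℝ) ^ w * ((n.factorial : ℝ) ^ w) ^ (n + 1),
    (n * n.factorial) * (n + 1), ?_, ?_⟩
  · refine one_le_mul_of_one_le_of_one_le (one_le_pow₀ ?_) (one_le_pow₀ (one_le_pow₀ ?_))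
    · exact_mod_cast Nat.succ_le_succ (Nat.zero_le n)
    · exact_mod_cast Nat.one_le_iff_ne_zero.2 (Nat.factorial_ne_zero _)
  intro β r B hB hr hR
  obtain ⟨R, hR, hRr⟩ := hR
  obtain ⟨p, f, g, hp, h1, h2⟩ := minor_rel r R hR hRr
  refine ⟨_, h1, h2, ?_⟩
  intro i
  refine (mulHeight₁_sum_le Finset.univ_nonempty _).trans ?_
  rw [Finset.card_univ, Fintype.card_fin]
  have hn1 : (1 : ℝ) ≤ (n.factorial : ℝ) ^ w := one_le_pow₀
    (by exact_mod_cast Nat.one_le_iff_ne_zero.2 (Nat.factorial_ne_zero _))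
  have hB0 : 0 ≤ B := by linarith
  set X : ℝ := (n.factorial : ℝ) ^ w * B ^ (n * n.factorial) with hX
  have hX1 : 1 ≤ X := one_le_mul_of_one_le_of_one_le hn1 (one_le_pow₀ hB)
  have h3 : ∀ j : Fin (p + 1), mulHeight₁ (if g j = i then (-1 : L) ^ (j : ℕ) *
      (Matrix.of fun (i l : Fin p) => r (f i) (g (j.succAbove l))).det else 0) ≤ X := by
    intro j
    split_ifs
    · have h4 : mulHeight₁ ((-1 : L) ^ (j : ℕ) *
          (Matrix.of fun (i l : Fin p) => r (f i) (g (j.succAbove l))).det) =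
          mulHeight₁ (Matrix.of fun (i l : Fin p) => r (f i) (g (j.succAbove l))).det := by
        rcases neg_one_pow_eq_or L (j : ℕ) with h | h
        · rw [h, one_mul]
        · rw [h, neg_one_mul, mulHeight₁_neg]
      rw [h4]
      refine (height_det _ B fun i l => hr _ _).trans ?_
      have h5 : (p.factorial : ℝ) ≤ n.factorial := by exact_mod_cast Nat.factorial_le hp
      rw [hX, ← pow_mul]
      refine mul_le_mul (pow_le_pow_left₀ (by positivity) h5 _) ?_ (by positivity) (by positivity)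
      exact pow_le_pow_right₀ hB (Nat.mul_le_mul hp (Nat.factorial_le hp))
    · rw [mulHeight₁_zero]
      exact hX1
  have h6 : ∏ j : Fin (p + 1), mulHeight₁ (if g j = i then (-1 : L) ^ (j : ℕ) *
      (Matrix.of fun (i l : Fin p) => r (f i) (g (j.succAbove l))).det else 0) ≤ X ^ (n + 1) := by
    calc _ ≤ ∏ _j : Fin (p + 1), X :=
          Finset.prod_le_prod (fun j _ => (mulHeight₁_pos _).le) fun j _ => h3 j
      _ = X ^ (p + 1) := by rw [Finset.prod_const, Finset.card_univ, Fintype.card_fin]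
      _ ≤ _ := pow_le_pow_right₀ hX1 (by omega)
  calc ((p + 1 : ℕ) : ℝ) ^ w * _ ≤ ((n + 1 : ℕ) : ℝ) ^ w * X ^ (n + 1) := by
        apply mul_le_mul _ h6 (Finset.prod_nonneg fun j _ => (mulHeight₁_pos _).le) (by positivity)
        apply pow_le_pow_left₀ (by positivity)
        exact_mod_cast Nat.succ_le_succ hp
    _ = _ := by
        rw [hX, mul_pow, ← pow_mul B]
        ring

end height

end Pool.Agent.K9h15.Cv
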