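import Mathlib
import Pool.Agent.K9h15.Cv.Sml

/-!
# Homomorphisms and specializations
-/

set_option autoImplicit false

open Height Polynomial

namespace Pool.Agent.K9h15.Cv

open Pool.Agent.K9h15.Tow

variable {k B E L : Type} [Field k] [CommRing B] [Algebra k B] [Field E] [Algebra k E] [Field L]
  [Algebra k L]

/-- the specialization attached to a homomorphism -/
theorem exists_sz (f : B →ₐ[k] E) (φ : B →ₐ[k] L) (h : ∀ b, f b = 0 → φ b = 0) :
    ∃ s : Sz k E L, ∀ z a b, z * f b = f a → φ b ≠ 0 → z ∈ s.T ∧ s.ev z = φ a / φ b := by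
  classical
  have key : ∀ z a b a' b', φ b ≠ 0 → φ b' ≠ 0 → z * f b = f a → z * f b' = f a' →
      φ a / φ b = φ a' / φ b' := by
    intro z a b a' b' hb hb' h1 h2
    rw [div_eq_div_iff hb hb']
    have h3 : f (a * b' - a' * b) = 0 := by
      rw [map_sub, map_mul, map_mul, ← h1, ← h2]
      ring
    have h4 := h _ h3
    rw [map_sub, map_mul, map_mul, sub_eq_zero] at h4
    exact h4
  let T : Subalgebra k E :=
    { carrier := {z | ∃ a b, φ b ≠ 0 ∧ z * f b = f a}
      mul_mem' := by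
        rintro z w ⟨a, b, hb, h1⟩ ⟨a', b', hb', h2⟩
        refine ⟨a * a', b * b', by rw [map_mul]; exact mul_ne_zero hb hb', ?_⟩
        rw [map_mul, map_mul, ← h1, ← h2]
        ring
      add_mem' := by
        rintro z w ⟨a, b, hb, h1⟩ ⟨a', b', hb', h2⟩
        refine ⟨a * b' + a' * b, b * b', by rw [map_mul]; exact mul_ne_zero hb hb', ?_⟩
        rw [map_add, map_mul, map_mul, map_mul, ← h1, ← h2]
        ring
      algebraMap_mem' := fun r => ⟨algebraMap k B r, 1, by rw [map_one]; exact one_ne_zero, by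
        rw [map_one, mul_one, AlgHom.commutes]⟩ }
  have hT : ∀ z : T, ∃ a b, φ b ≠ 0 ∧ (z : E) * f b = f a := fun z => z.2
  choose num den hden hnum using hT
  have key2 : ∀ (z : T) a b, φ b ≠ 0 → (z : E) * f b = f a → φ (num z) / φ (den z) = φ a / φ b :=
    fun z a b hb h1 => key z _ _ _ _ (hden z) hb (hnum z) h1
  let ψ : T →ₐ[k] L :=
    { toFun := fun z => φ (num z) / φ (den z)
      map_one' := by
        rw [key2 1 1 1 (by rw [map_one]; exact one_ne_zero) (by
          rw [OneMemClass.coe_one, one_mul]), map_one, div_one]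
      map_zero' := by
        rw [key2 0 0 1 (by rw [map_one]; exact one_ne_zero) (by
          rw [ZeroMemClass.coe_zero, zero_mul, map_zero]), map_zero, zero_div]
      map_mul' := fun z w => by
        rw [key2 (z * w) (num z * num w) (den z * den w)
          (by rw [map_mul]; exact mul_ne_zero (hden z) (hden w))
          (by rw [MulMemClass.coe_mul, map_mul, map_mul, ← hnum z, ← hnum w]; ring), map_mul,
          map_mul, div_mul_div_comm]
      map_add' := fun z w => by
        rw [key2 (z + w) (num z * den w + num w * den z) (den z * den w)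
          (by rw [map_mul]; exact mul_ne_zero (hden z) (hden w))
          (by rw [AddMemClass.coe_add, map_add, map_mul, map_mul, map_mul, ← hnum z, ← hnum w]
              ring), map_add, map_mul, map_mul, map_mul, div_add_div _ _ (hden z) (hden w)]
        congr 2
        exact mul_comm _ _
      commutes' := fun r => by
        rw [key2 (algebraMap k T r) (algebraMap k B r) 1 (by rw [map_one]; exact one_ne_zero) (by
          rw [map_one, mul_one, AlgHom.commutes]; rfl), map_one, div_one, AlgHom.commutes] }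
  refine ⟨⟨T, ψ⟩, ?_⟩
  intro z a b h1 h2
  have hz : z ∈ T := ⟨a, b, h2, h1⟩
  refine ⟨hz, ?_⟩
  rw [ev_mk (⟨T, ψ⟩ : Sz k E L) hz]
  exact key2 ⟨z, hz⟩ a b h2 h1

/-- representation by fractions -/
lemma frac_rep (f : B →ₐ[k] E) (S1 : Set B) {z : E}
    (hz : z ∈ IntermediateField.adjoin k (f '' S1)) :
    ∃ a ∈ Algebra.adjoin k S1, ∃ b ∈ Algebra.adjoin k S1, f b ≠ 0 ∧ z * f b = f a := by
  obtain ⟨r, hr, s, hs, rfl⟩ := IntermediateField.mem_adjoin_iff_div.1 hz
  rw [← AlgHom.map_adjoin] at hr hs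
  obtain ⟨a, ha, rfl⟩ := hr
  obtain ⟨b, hb, rfl⟩ := hs
  change a ∈ Algebra.adjoin k S1 at ha
  change b ∈ Algebra.adjoin k S1 at hb
  change ∃ a' ∈ Algebra.adjoin k S1, ∃ b' ∈ Algebra.adjoin k S1, f b' ≠ 0 ∧
    f a / f b * f b' = f a'
  by_cases h0 : f b = 0
  · refine ⟨0, zero_mem _, 1, one_mem _, by rw [map_one]; exact one_ne_zero, ?_⟩
    rw [h0, div_zero, zero_mul, map_zero]
  · exact ⟨a, ha, b, hb, h0, div_mul_cancel₀ _ h0⟩

open scoped IntermediateField.algebraAdjoinAdjoin in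
/-- polynomials of algebraic elements -/
lemma alg_cert (f : B →ₐ[k] E) (S1 : Set B) (b : B)
    (h : IsAlgebraic (IntermediateField.adjoin k (f '' S1)) (f b)) :
    ∃ P : B[X], (∀ j, P.coeff j ∈ Algebra.adjoin k S1) ∧ P.map (f : B →+* E) ≠ 0 ∧
      (P.map (f : B →+* E)).eval (f b) = 0 := by
  have h1 : IsAlgebraic (Algebra.adjoin k (f '' S1)) (f b) :=
    (IsFractionRing.isAlgebraic_iff (Algebra.adjoin k (f '' S1))
      (IntermediateField.adjoin k (f '' S1)) E).2 h
  obtain ⟨p, hp0, hp⟩ := h1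
  let j0 : Algebra.adjoin k S1 →+* E :=
    (f : B →+* E).comp (algebraMap (Algebra.adjoin k S1) B)
  have h2 : p.map (algebraMap (Algebra.adjoin k (f '' S1)) E) ∈ Polynomial.lifts j0 := by
    rw [Polynomial.lifts_iff_coeff_lifts]
    intro n
    rw [coeff_map]
    have h3 : ((p.coeff n : Algebra.adjoin k (f '' S1)) : E) ∈ (Algebra.adjoin k S1).map f := by
      rw [AlgHom.map_adjoin]
      exact SetLike.coe_mem _
    obtain ⟨a, ha, hae⟩ := h3
    exact ⟨⟨a, ha⟩, hae⟩
  obtain ⟨P0, hP0⟩ := (Polynomial.mem_lifts _).1 h2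
  refine ⟨P0.map (algebraMap (Algebra.adjoin k S1) B), ?_, ?_, ?_⟩
  · intro j
    rw [coeff_map]
    exact SetLike.coe_mem _
  · rw [Polynomial.map_map]
    intro h3
    have h4 : P0.map j0 = 0 := h3
    rw [hP0] at h4
    apply hp0
    rw [Polynomial.map_eq_zero_iff (FaithfulSMul.algebraMap_injective _ _)] at h4
    exact h4
  · rw [Polynomial.map_map]
    change (P0.map j0).eval (f b) = 0
    rw [hP0, eval_map_algebraMap]
    exact hp

end Pool.Agent.K9h15.Cv

namespace Pool.Agent.K9h15.Cv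

/-- heights of values -/
lemma ht_bound {k B : Type} [Field k] [CommRing B] [Algebra k B] {ι : Type} (x : ι → B)
    (hx : Algebra.adjoin k (Set.range x) = ⊤) (L : Type) [Field L] [NumberField L] [Algebra k L]
    (b : B) :
    ∃ (c : ℝ) (N : ℕ), 1 ≤ c ∧ ∀ V : ℝ, 1 ≤ V → ∀ φ : B →ₐ[k] L,
      (∀ i, mulHeight₁ (φ (x i)) ≤ V) → mulHeight₁ (φ b) ≤ c * V ^ N := by
  have hb : b ∈ Algebra.adjoin k (Set.range x) := by rw [hx]; trivial
  induction hb using Algebra.adjoin_induction with
  | mem b h =>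
    obtain ⟨i, rfl⟩ := h
    exact ⟨1, 1, le_rfl, fun V _ φ h => by rw [pow_one, one_mul]; exact h i⟩
  | algebraMap r =>
    refine ⟨mulHeight₁ (algebraMap k L r), 0, one_le_mulHeight₁ _, fun V _ φ _ => ?_⟩
    rw [pow_zero, mul_one, AlgHom.commutes]
  | add b b' _ _ h1 h2 =>
    obtain ⟨c, N, hc, h⟩ := h1
    obtain ⟨c', N', hc', h'⟩ := h2
    have hw : (1 : ℝ) ≤ 2 ^ totalWeight L := one_le_pow₀ (by norm_num)
    refine ⟨2 ^ totalWeight L * c * c', N + N', one_le_mul_of_one_le_of_one_le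
      (one_le_mul_of_one_le_of_one_le hw hc) hc', ?_⟩
    intro V hV φ hφ
    have h1 := h V hV φ hφ
    have h2 := h' V hV φ hφ
    have := mulHeight₁_pos (φ b)
    have := mulHeight₁_pos (φ b')
    rw [map_add]
    calc mulHeight₁ (φ b + φ b') ≤ 2 ^ totalWeight L * mulHeight₁ (φ b) * mulHeight₁ (φ b') :=
          mulHeight₁_add_le _ _
      _ ≤ 2 ^ totalWeight L * (c * V ^ N) * (c' * V ^ N') := by gcongr
      _ = _ := by ring
  | mul b b' _ _ h1 h2 =>
    obtain ⟨c, N, hc, h⟩ := h1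
    obtain ⟨c', N', hc', h'⟩ := h2
    refine ⟨c * c', N + N', one_le_mul_of_one_le_of_one_le hc hc', ?_⟩
    intro V hV φ hφ
    have h1 := h V hV φ hφ
    have h2 := h' V hV φ hφ
    have := mulHeight₁_pos (φ b)
    have := mulHeight₁_pos (φ b')
    rw [map_mul]
    calc mulHeight₁ (φ b * φ b') ≤ mulHeight₁ (φ b) * mulHeight₁ (φ b') := mulHeight₁_mul_le _ _
      _ ≤ (c * V ^ N) * (c' * V ^ N') := by gcongr
      _ = _ := by ring

end Pool.Agent.K9h15.Cv
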