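import Mathlib
import Pool.Agent.K9h15.Cv.NoeA

/-!
# The algebra of the points satisfying a relation
-/

set_option autoImplicit false

open Height Polynomial

namespace Pool.Agent.K9h15.Cv

/-- nilpotent covers of unbounded geometric degree which are unramified over `F` -/
def NilCovers {k E : Type} [Field k] [Field E] [Algebra k E] (F : IntermediateField k E) : Prop :=
  ∀ N : ℕ, ∃ (M : Type) (_ : Field M) (_ : Algebra E M), FiniteDimensional E M ∧ IsGalois E M ∧
    Group.IsNilpotent (M ≃ₐ[E] M) ∧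
    (∀ O : ValuationSubring M, (∀ z ∈ F, algebraMap E M z ∈ O) →
      ∀ g : M ≃ₐ[E] M, (∀ x ∈ O, g x - x ∈ O.nonunits) → g = 1) ∧
    N ≤ Module.finrank (IntermediateField.adjoin E {z : M | IsAlgebraic F z}) M

/-- all points of positive dimension of the fibres have nilpotent covers -/
def Hyp (k B : Type) [Field k] [CommRing B] [Algebra k B] (S : Set B) : Prop :=
  ∀ (E : Type) [Field E] [Algebra k E] (F : IntermediateField k E) (f : B →ₐ[k] E),
    (∀ s ∈ S, f s ∈ F) → IntermediateField.adjoin F (Set.range f) = ⊤ →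
    ¬ Algebra.IsAlgebraic F E → NilCovers F

/-- the dimension of the fibres -/
def Dm (k B : Type) [Field k] [CommRing B] [Algebra k B] (S : Set B) (d : ℕ) : Prop :=
  ∀ (E : Type) [Field E] [Algebra k E] (F : IntermediateField k E) (f : B →ₐ[k] E),
    (∀ s ∈ S, f s ∈ F) → IntermediateField.adjoin F (Set.range f) = ⊤ → Algebra.trdeg F E ≤ d

section newalg

variable {k B : Type} [Field k] [CommRing B] [Algebra k B] {σ : Type} [Fintype σ]

/-- the relations -/
noncomputable def nI (J : Ideal B) (h : B) (S0 : Finset (σ →₀ ℕ)) (i0 : S0) (u : σ → B) :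
    Ideal (MvPolynomial (S0 ⊕ Bool) B) :=
  Ideal.map MvPolynomial.C J ⊔ Ideal.span
    {MvPolynomial.X (Sum.inl i0) * MvPolynomial.X (Sum.inr true) - 1,
      MvPolynomial.C h * MvPolynomial.X (Sum.inr false) - 1,
      ∑ n : S0, MvPolynomial.X (Sum.inl n) * MvPolynomial.C (∏ t, u t ^ ((n : σ →₀ ℕ) t))}

/-- the new algebra -/
abbrev nB (J : Ideal B) (h : B) (S0 : Finset (σ →₀ ℕ)) (i0 : S0) (u : σ → B) : Type :=
  MvPolynomial (S0 ⊕ Bool) B ⧸ nI J h S0 i0 u

variable {J : Ideal B} {h : B} {S0 : Finset (σ →₀ ℕ)} {i0 : S0} {u : σ → B}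

/-- the old elements -/
noncomputable def ob (b : B) : nB J h S0 i0 u := Ideal.Quotient.mk _ (MvPolynomial.C b)

/-- the new elements -/
noncomputable def ov (v : S0 ⊕ Bool) : nB J h S0 i0 u := Ideal.Quotient.mk _ (MvPolynomial.X v)

/-- the inclusion -/
noncomputable def ib (J : Ideal B) (h : B) (S0 : Finset (σ →₀ ℕ)) (i0 : S0) (u : σ → B) :
    B →ₐ[k] nB J h S0 i0 u :=
  (Ideal.Quotient.mkₐ k (nI J h S0 i0 u)).comp
    (IsScalarTower.toAlgHom k B (MvPolynomial (S0 ⊕ Bool) B))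

lemma ib_apply (b : B) : ib (k := k) J h S0 i0 u b = ob b := rfl

lemma nB_ind {p : nB J h S0 i0 u → Prop} (h1 : ∀ b, p (ob b))
    (h2 : ∀ y z, p y → p z → p (y + z)) (h3 : ∀ y v, p y → p (y * ov v)) (z : nB J h S0 i0 u) :
    p z := by
  obtain ⟨q, rfl⟩ := Ideal.Quotient.mk_surjective z
  induction q using MvPolynomial.induction_on with
  | C a => exact h1 a
  | add q r hq hr => rw [map_add]; exact h2 _ _ hq hr
  | mul_X q v hq => rw [map_mul]; exact h3 _ _ hq

/-- extension of homomorphisms -/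
lemma nB_ext {A : Type} [Field A] [Algebra k A] (φ : B →ₐ[k] A) (hJ : ∀ b ∈ J, φ b = 0)
    (hh : φ h ≠ 0) (q : S0 → A) (hq : q i0 ≠ 0)
    (hrel : ∑ n : S0, q n * ∏ t, φ (u t) ^ ((n : σ →₀ ℕ) t) = 0) :
    ∃ φ' : nB J h S0 i0 u →ₐ[k] A, (∀ b, φ' (ob b) = φ b) ∧ (∀ n, φ' (ov (Sum.inl n)) = q n) ∧
      φ' (ov (Sum.inr true)) = (q i0)⁻¹ ∧ φ' (ov (Sum.inr false)) = (φ h)⁻¹ := by
  let w : S0 ⊕ Bool → A := Sum.elim q (fun b => if b then (q i0)⁻¹ else (φ h)⁻¹)
  let ψ : MvPolynomial (S0 ⊕ Bool) B →ₐ[k] A := MvPolynomial.aevalTower φ w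
  have hψX : ∀ v, ψ (MvPolynomial.X v) = w v := fun v => MvPolynomial.aevalTower_X φ w v
  have hψC : ∀ b, ψ (MvPolynomial.C b) = φ b := fun b => MvPolynomial.aevalTower_C φ w b
  have hψ : ∀ p ∈ nI J h S0 i0 u, ψ p = 0 := by
    have h1 : nI J h S0 i0 u ≤ RingHom.ker ψ := by
      refine sup_le ?_ ?_
      · rw [Ideal.map_le_iff_le_comap]
        intro b hb
        rw [Ideal.mem_comap, RingHom.mem_ker, hψC]
        exact hJ b hb
      · rw [Ideal.span_le]
        intro p hp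
        rw [SetLike.mem_coe, RingHom.mem_ker]
        rcases hp with rfl | rfl | hp
        · rw [map_sub, map_mul, map_one, hψX, hψX]
          simp only [w, Sum.elim_inl, Sum.elim_inr, if_true]
          rw [mul_inv_cancel₀ hq, sub_self]
        · rw [map_sub, map_mul, map_one, hψX, hψC]
          simp only [w, Sum.elim_inr, Bool.false_eq_true, if_false]
          rw [mul_inv_cancel₀ hh, sub_self]
        · rw [Set.mem_singleton_iff] at hp
          rw [hp, map_sum, ← hrel]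
          refine Finset.sum_congr rfl fun n _ => ?_
          rw [map_mul, hψX, hψC, map_prod]
          simp only [map_pow, w, Sum.elim_inl]
    exact fun p hp => h1 hp
  refine ⟨Ideal.Quotient.liftₐ (nI J h S0 i0 u) ψ hψ, ?_, ?_, ?_, ?_⟩
  · intro b
    exact hψC b
  · intro n
    exact hψX (Sum.inl n)
  · exact (hψX (Sum.inr true)).trans (by simp [w])
  · exact (hψX (Sum.inr false)).trans (by simp [w])

/-- the relations in the new algebra -/
lemma nB_rel : (∀ b ∈ J, (ob b : nB J h S0 i0 u) = 0) ∧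
    (ob h * ov (Sum.inr false) : nB J h S0 i0 u) = 1 ∧
    (ov (Sum.inl i0) * ov (Sum.inr true) : nB J h S0 i0 u) = 1 ∧
    (∑ n : S0, ov (Sum.inl n) * ∏ t, ob (u t) ^ ((n : σ →₀ ℕ) t) : nB J h S0 i0 u) = 0 := by
  have hm : ∀ p ∈ nI J h S0 i0 u, Ideal.Quotient.mk (nI J h S0 i0 u) p = 0 := fun p hp =>
    Ideal.Quotient.eq_zero_iff_mem.2 hp
  have hsp : ∀ p ∈ ({MvPolynomial.X (Sum.inl i0) * MvPolynomial.X (Sum.inr true) - 1,
      MvPolynomial.C h * MvPolynomial.X (Sum.inr false) - 1,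
      ∑ n : S0, MvPolynomial.X (Sum.inl n) * MvPolynomial.C (∏ t, u t ^ ((n : σ →₀ ℕ) t))} :
      Set (MvPolynomial (S0 ⊕ Bool) B)), p ∈ nI J h S0 i0 u := fun p hp =>
    Ideal.mem_sup_right (Ideal.subset_span hp)
  refine ⟨?_, ?_, ?_, ?_⟩
  · intro b hb
    exact hm _ (Ideal.mem_sup_left (Ideal.mem_map_of_mem _ hb))
  · have h1 := hm _ (hsp _ (Or.inr (Or.inl rfl)))
    rw [map_sub, map_mul, map_one, sub_eq_zero] at h1
    exact h1
  · have h1 := hm _ (hsp _ (Or.inl rfl))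
    rw [map_sub, map_mul, map_one, sub_eq_zero] at h1
    exact h1
  · have h1 := hm _ (hsp _ (Or.inr (Or.inr rfl)))
    rw [map_sum] at h1
    refine Eq.trans ?_ h1
    refine Finset.sum_congr rfl fun n _ => ?_
    rw [map_mul]
    congr 1
    unfold ob
    rw [map_prod, map_prod]
    refine Finset.prod_congr rfl fun t _ => ?_
    rw [map_pow, map_pow]

/-- generators -/
lemma nB_gen {ι : Type} (x : ι → B) (hx : Algebra.adjoin k (Set.range x) = ⊤) :
    Algebra.adjoin k (Set.range (Sum.elim (fun i => (ob (x i) : nB J h S0 i0 u)) ov)) = ⊤ := by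
  rw [eq_top_iff]
  intro z _
  refine nB_ind (p := fun z => z ∈ Algebra.adjoin k
    (Set.range (Sum.elim (fun i => (ob (x i) : nB J h S0 i0 u)) ov))) ?_ ?_ ?_ z
  · intro b
    have h1 : b ∈ Algebra.adjoin k (Set.range x) := by rw [hx]; trivial
    have h2 : ib (k := k) J h S0 i0 u b ∈
        (Algebra.adjoin k (Set.range x)).map (ib J h S0 i0 u) := ⟨b, h1, rfl⟩
    rw [AlgHom.map_adjoin] at h2
    refine Algebra.adjoin_mono ?_ h2
    rintro _ ⟨_, ⟨i, rfl⟩, rfl⟩
    exact ⟨Sum.inl i, rfl⟩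
  · intro y z hy hz
    exact add_mem hy hz
  · intro y v hy
    exact mul_mem hy (Algebra.subset_adjoin ⟨Sum.inr v, rfl⟩)

/-- the constants of the new algebra -/
def nS (S : Set B) (J : Ideal B) (h : B) (S0 : Finset (σ →₀ ℕ)) (i0 : S0) (u : σ → B) :
    Set (nB J h S0 i0 u) :=
  (ob '' S) ∪ (Set.range (fun n : S0 => (ov (Sum.inl n) : nB J h S0 i0 u)) ∪
    {ov (Sum.inr true)})

lemma nB_adj {S : Set B} {A : Type} [Field A] [Algebra k A] (F : IntermediateField k A)
    (f' : nB J h S0 i0 u →ₐ[k] A) (hS : ∀ s ∈ nS S J h S0 i0 u, f' s ∈ F)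
    (hf : IntermediateField.adjoin F (Set.range f') = ⊤) :
    IntermediateField.adjoin F (Set.range (f'.comp (ib J h S0 i0 u))) = ⊤ := by
  rw [eq_top_iff, ← hf, IntermediateField.adjoin_le_iff]
  rintro _ ⟨z, rfl⟩
  refine nB_ind (p := fun z => f' z ∈
    IntermediateField.adjoin F (Set.range (f'.comp (ib J h S0 i0 u)))) ?_ ?_ ?_ z
  · intro b
    exact IntermediateField.subset_adjoin _ _ ⟨b, rfl⟩
  · intro y z hy hz
    rw [map_add]
    exact add_mem hy hz
  · intro y v hy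
    rw [map_mul]
    refine mul_mem hy ?_
    have hF : ∀ a ∈ F, a ∈ IntermediateField.adjoin F (Set.range (f'.comp (ib J h S0 i0 u))) :=
      fun a ha => (IntermediateField.adjoin F _).algebraMap_mem ⟨a, ha⟩
    rcases v with n | b
    · exact hF _ (hS _ (Or.inr (Or.inl ⟨n, rfl⟩)))
    · rcases b with _ | _
      · have h1 := congrArg f' (nB_rel (J := J) (h := h) (i0 := i0) (u := u)).2.1
        rw [map_mul, map_one] at h1
        have h2 : f' (ov (Sum.inr false)) = (f' (ob h))⁻¹ := eq_inv_of_mul_eq_one_right h1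
        rw [h2]
        exact inv_mem (IntermediateField.subset_adjoin _ _ ⟨h, rfl⟩)
      · exact hF _ (hS _ (Or.inr (Or.inr rfl)))

lemma nB_hyp {S : Set B} (hH : Hyp k B S) : Hyp k (nB J h S0 i0 u) (nS S J h S0 i0 u) := by
  intro E _ _ F f' hS hf hE
  exact hH E F (f'.comp (ib J h S0 i0 u)) (fun s hs => hS _ (Or.inl ⟨s, hs, rfl⟩))
    (nB_adj F f' hS hf) hE

end newalg

end Pool.Agent.K9h15.Cv
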