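import Mathlib
import Pool.Agent.K9h15.Cv.NoeB

/-!
# The dimension of the fibres decreases
-/

set_option autoImplicit false

open Height Polynomial

namespace Pool.Agent.K9h15.Cv

variable {k B : Type} [Field k] [CommRing B] [Algebra k B] {σ : Type} [Fintype σ]
  {J : Ideal B} {h : B} {S0 : Finset (σ →₀ ℕ)} {i0 : S0} {u : σ → B}

/-- elements generate an algebraic extension -/
lemma alg_of_cert {S : Set B} {ι : Type} (x : ι → B) (hx : Algebra.adjoin k (Set.range x) = ⊤)
    (P : ι → B[X]) (hPc : ∀ i j, (P i).coeff j ∈ Algebra.adjoin k (S ∪ Set.range u))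
    (hPx : ∀ i, (P i).eval (x i) ∈ J) {E : Type} [Field E] [Algebra k E]
    (F : IntermediateField k E) (g : B →ₐ[k] E) (hS : ∀ s ∈ S, g s ∈ F)
    (hg : IntermediateField.adjoin F (Set.range g) = ⊤) (hJ : ∀ b ∈ J, g b = 0)
    (hPh : ∀ i, ∃ j, g ((P i).coeff j) ≠ 0) :
    Algebra.IsAlgebraic (IntermediateField.adjoin F (Set.range (fun t => g (u t)))) E := by
  set K := IntermediateField.adjoin F (Set.range (fun t => g (u t))) with hK
  have hFK : ∀ a ∈ F, a ∈ K := fun a ha => K.algebraMap_mem ⟨a, ha⟩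
  have hkK : ∀ r : k, algebraMap k E r ∈ K := fun r => hFK _ (F.algebraMap_mem r)
  have h1 : ∀ b ∈ Algebra.adjoin k (S ∪ Set.range u), g b ∈ K := by
    intro b hb
    induction hb using Algebra.adjoin_induction with
    | mem b hb =>
      rcases hb with hb | ⟨t, rfl⟩
      · exact hFK _ (hS b hb)
      · exact IntermediateField.subset_adjoin _ _ ⟨t, rfl⟩
    | algebraMap r => rw [AlgHom.commutes]; exact hkK r
    | add b b' _ _ h h' => rw [map_add]; exact add_mem h h'
    | mul b b' _ _ h h' => rw [map_mul]; exact mul_mem h h'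
  have h2 : ∀ i, g (x i) ∈ algebraicClosure K E := by
    intro i
    rw [mem_algebraicClosure_iff]
    have h3 : (P i).map (g : B →+* E) ∈ Polynomial.lifts (algebraMap K E) := by
      rw [Polynomial.lifts_iff_coeff_lifts]
      intro n
      rw [coeff_map]
      exact ⟨⟨_, h1 _ (hPc i n)⟩, rfl⟩
    obtain ⟨p0, hp0⟩ := (Polynomial.mem_lifts _).1 h3
    obtain ⟨j, hj⟩ := hPh i
    refine ⟨p0, ?_, ?_⟩
    · rintro rfl
      apply hj
      have h4 := congrArg (fun p : E[X] => p.coeff j) hp0
      simp only [Polynomial.map_zero, coeff_zero, coeff_map] at h4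
      exact h4.symm
    · rw [← eval_map_algebraMap, hp0]
      have h4 : (g : B →+* E) (eval (x i) (P i)) = 0 := hJ _ (hPx i)
      rw [← eval_map_apply] at h4
      exact h4
  have h3 : ∀ b, g b ∈ algebraicClosure K E := by
    intro b
    have hb : b ∈ Algebra.adjoin k (Set.range x) := by rw [hx]; trivial
    induction hb using Algebra.adjoin_induction with
    | mem b hb =>
      obtain ⟨i, rfl⟩ := hb
      exact h2 i
    | algebraMap r =>
      rw [AlgHom.commutes]
      exact (algebraicClosure K E).algebraMap_mem ⟨_, hkK r⟩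
    | add b b' _ _ h h' => rw [map_add]; exact add_mem h h'
    | mul b b' _ _ h h' => rw [map_mul]; exact mul_mem h h'
  have h4 : IntermediateField.adjoin F (Set.range g) ≤
      (algebraicClosure K E).restrictScalars F := by
    rw [IntermediateField.adjoin_le_iff]
    rintro _ ⟨b, rfl⟩
    exact h3 b
  rw [hg] at h4
  refine ⟨fun z => ?_⟩
  have h5 : z ∈ algebraicClosure K E := h4 (IntermediateField.mem_top (F := F) (E := E) (x := z))
  exact mem_algebraicClosure_iff.1 h5

open scoped IntermediateField.algebraAdjoinAdjoin in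
/-- **The dimension of the fibres decreases.** -/
theorem nB_dm {S : Set B} {ι : Type} (x : ι → B) (hx : Algebra.adjoin k (Set.range x) = ⊤)
    (P : ι → B[X]) (hPc : ∀ i j, (P i).coeff j ∈ Algebra.adjoin k (S ∪ Set.range u))
    (hPx : ∀ i, (P i).eval (x i) ∈ J) (hPh : ∀ i, ∃ j, (P i).coeff j ∣ h) (d : ℕ)
    (hd : Fintype.card σ = d + 1) : Dm k (nB J h S0 i0 u) (nS S J h S0 i0 u) d := by
  intro E _ _ F f' hS hf
  set g : B →ₐ[k] E := f'.comp (ib J h S0 i0 u) with hg
  have hgb : ∀ b, g b = f' (ob b) := fun b => rfl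
  obtain ⟨r1, r2, r3, r4⟩ := nB_rel (J := J) (h := h) (i0 := i0) (u := u)
  have hadj := nB_adj F f' hS hf
  have hJ : ∀ b ∈ J, g b = 0 := by
    intro b hb
    rw [hgb, r1 b hb, map_zero]
  have hh : g h ≠ 0 := by
    intro h0
    have h1 := congrArg f' r2
    rw [map_mul, map_one, ← hgb, h0, zero_mul] at h1
    exact zero_ne_one h1
  have halg := alg_of_cert x hx P hPc hPx F g (fun s hs => hS _ (Or.inl ⟨s, hs, rfl⟩)) hadj hJ
    (by
      intro i
      obtain ⟨j, hj⟩ := hPh i
      refine ⟨j, fun h0 => hh ?_⟩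
      obtain ⟨c, hc⟩ := hj
      rw [hc, map_mul, h0, zero_mul])
  set w : σ → E := fun t => g (u t) with hw
  have halg2 : Algebra.IsAlgebraic (Algebra.adjoin F (Set.range w)) E :=
    (IsFractionRing.comap_isAlgebraic_iff (A := Algebra.adjoin F (Set.range w))
      (K := IntermediateField.adjoin F (Set.range w)) (C := E)).2 halg
  by_contra hcon
  rw [not_le] at hcon
  have hle : Cardinal.mk σ ≤ Algebra.trdeg F E := by
    rw [Cardinal.mk_fintype, hd]
    have h1 := Order.succ_le_of_lt hcon
    rwa [← Cardinal.nat_succ] at h1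
  have hb := Algebra.IsAlgebraic.isTranscendenceBasis_of_le_trdeg_of_finite F w hle
  have hF : ∀ n : S0, f' (ov (Sum.inl n)) ∈ F := fun n => hS _ (Or.inr (Or.inl ⟨n, rfl⟩))
  let p : MvPolynomial σ F := ∑ n : S0, MvPolynomial.monomial (n : σ →₀ ℕ)
    (⟨f' (ov (Sum.inl n)), hF n⟩ : F)
  have hp : MvPolynomial.aeval w p = 0 := by
    simp only [p]
    rw [map_sum]
    have h1 := congrArg f' r4
    rw [map_zero, map_sum] at h1
    rw [← h1]
    refine Finset.sum_congr rfl fun n _ => ?_
    rw [MvPolynomial.aeval_monomial, map_mul, map_prod, Finsupp.prod_fintype _ _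
      (fun t => pow_zero _)]
    simp only [map_pow]
    rfl
  have hp0 := algebraicIndependent_iff.1 hb.1 p hp
  have h1 : p.coeff (i0 : σ →₀ ℕ) = ⟨f' (ov (Sum.inl i0)), hF i0⟩ := by
    classical
    simp only [p]
    rw [MvPolynomial.coeff_sum, Finset.sum_eq_single i0]
    · rw [MvPolynomial.coeff_monomial, if_pos rfl]
    · intro n _ hn
      rw [MvPolynomial.coeff_monomial, if_neg (fun h => hn (Subtype.ext h))]
    · intro h
      exact absurd (Finset.mem_univ _) h
  rw [hp0, MvPolynomial.coeff_zero] at h1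
  have h2 : f' (ov (Sum.inl i0)) = 0 := (congrArg Subtype.val h1).symm
  have h3 := congrArg f' r3
  rw [map_mul, map_one, h2, zero_mul] at h3
  exact zero_ne_one h3

end Pool.Agent.K9h15.Cv
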