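import Mathlib
import Pool.Agent.K9h15.Cv.NoeC

/-!
# Counting homomorphisms in the fibres: the cases
-/

set_option autoImplicit false

open Height Polynomial

namespace Pool.Agent.K9h15.Cv

open Pool.Agent.K9h15.Tow

/-- few homomorphisms in the fibres which vanish on `J` -/
def Cl (k L : Type) {B : Type} [Field k] [Field L] [NumberField L] [Algebra k L] [CommRing B]
    [Algebra k B] {ι : Type} (x : ι → B) (S : Set B) (ε : ℝ) (J : Ideal B) : Prop :=
  ∃ c : ℝ, 1 ≤ c ∧ ∀ V : ℝ, 1 ≤ V → ∀ Ψ : Finset (B →ₐ[k] L),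
    (∀ φ ∈ Ψ, ∀ i, mulHeight₁ (φ (x i)) ≤ V) → (∀ φ ∈ Ψ, ∀ b ∈ J, φ b = 0) →
    (∀ φ ∈ Ψ, ∀ φ' ∈ Ψ, ∀ s ∈ S, φ s = φ' s) → (Ψ.card : ℝ) ≤ c * V ^ ε

/-- few homomorphisms in the fibres which vanish on `J` and not at `h` -/
def ClN (k L : Type) {B : Type} [Field k] [Field L] [NumberField L] [Algebra k L] [CommRing B]
    [Algebra k B] {ι : Type} (x : ι → B) (S : Set B) (ε : ℝ) (J : Ideal B) (h : B) : Prop :=
  ∃ c : ℝ, 1 ≤ c ∧ ∀ V : ℝ, 1 ≤ V → ∀ Ψ : Finset (B →ₐ[k] L),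
    (∀ φ ∈ Ψ, ∀ i, mulHeight₁ (φ (x i)) ≤ V) → (∀ φ ∈ Ψ, ∀ b ∈ J, φ b = 0) →
    (∀ φ ∈ Ψ, φ h ≠ 0) →
    (∀ φ ∈ Ψ, ∀ φ' ∈ Ψ, ∀ s ∈ S, φ s = φ' s) → (Ψ.card : ℝ) ≤ c * V ^ ε

section basic

variable {k L B : Type} [Field k] [Field L] [NumberField L] [Algebra k L] [CommRing B]
  [Algebra k B] {ι : Type} {x : ι → B} {S : Set B} {ε : ℝ} {J : Ideal B}

lemma Cl.of_ClN {h : B} (h1 : Cl k L x S ε (J ⊔ Ideal.span {h})) (h2 : ClN k L x S ε J h) :
    Cl k L x S ε J := by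
  classical
  obtain ⟨c, hc, h1⟩ := h1
  obtain ⟨c', hc', h2⟩ := h2
  refine ⟨c + c', by linarith, ?_⟩
  intro V hV Ψ hH hJ hS
  have k1 := h1 V hV (Ψ.filter (fun φ => φ h = 0)) (fun φ hφ => hH φ (Finset.mem_filter.1 hφ).1) (by
    intro φ hφ b hb
    obtain ⟨hφ, h0⟩ := Finset.mem_filter.1 hφ
    have h3 : J ⊔ Ideal.span {h} ≤ RingHom.ker φ := by
      refine sup_le (fun b hb => hJ φ hφ b hb) ?_
      rw [Ideal.span_singleton_le_iff_mem]
      exact h0
    exact h3 hb) (fun φ hφ φ' hφ' => hS φ (Finset.mem_filter.1 hφ).1 φ' (Finset.mem_filter.1 hφ').1)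
  have k2 := h2 V hV (Ψ.filter (fun φ => ¬ φ h = 0)) (fun φ hφ => hH φ (Finset.mem_filter.1 hφ).1)
    (fun φ hφ => hJ φ (Finset.mem_filter.1 hφ).1) (fun φ hφ => (Finset.mem_filter.1 hφ).2)
    (fun φ hφ φ' hφ' => hS φ (Finset.mem_filter.1 hφ).1 φ' (Finset.mem_filter.1 hφ').1)
  have k3 := Finset.card_filter_add_card_filter_not (s := Ψ) (fun φ => φ h = 0)
  have k4 : (Ψ.card : ℝ) = ((Ψ.filter (fun φ => φ h = 0)).card : ℝ) +
      ((Ψ.filter (fun φ => ¬ φ h = 0)).card : ℝ) := by exact_mod_cast k3.symm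
  rw [k4, add_mul]
  exact add_le_add k1 k2

lemma Cl.of_not_prime (hJ : ¬ J.IsPrime) (hgt : ∀ J' > J, Cl k L x S ε J') (hε : 0 < ε) :
    Cl k L x S ε J := by
  classical
  rw [Ideal.isPrime_iff] at hJ
  push Not at hJ
  by_cases h1 : J = ⊤
  · refine ⟨1, le_rfl, ?_⟩
    intro V hV Ψ _ hJ0 _
    have h2 : Ψ = ∅ := by
      rw [Finset.eq_empty_iff_forall_notMem]
      intro φ hφ
      have h3 := hJ0 φ hφ 1 (by rw [h1]; trivial)
      rw [map_one] at h3
      exact one_ne_zero h3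
    rw [h2, Finset.card_empty, Nat.cast_zero]
    have : 0 ≤ V ^ ε := Real.rpow_nonneg (by linarith) _
    linarith
  · obtain ⟨a, b, hab, ha, hb⟩ := hJ h1
    have hgt' : ∀ y, y ∉ J → J ⊔ Ideal.span {y} > J := by
      intro y hy
      refine lt_of_le_of_ne le_sup_left ?_
      intro h
      apply hy
      rw [h]
      exact Ideal.mem_sup_right (Ideal.mem_span_singleton_self y)
    refine Cl.of_ClN (h := a) (hgt _ (hgt' a ha)) ?_
    obtain ⟨c, hc, h2⟩ := hgt _ (hgt' b hb)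
    refine ⟨c, hc, ?_⟩
    intro V hV Ψ hH hJ0 ha0 hS
    refine h2 V hV Ψ hH ?_ hS
    intro φ hφ z hz
    have h3 : J ⊔ Ideal.span {b} ≤ RingHom.ker φ := by
      refine sup_le (fun b hb => hJ0 φ hφ b hb) ?_
      rw [Ideal.span_singleton_le_iff_mem]
      have h4 := hJ0 φ hφ _ hab
      rw [map_mul, mul_eq_zero] at h4
      exact h4.resolve_left (ha0 φ hφ)
    exact h3 hz

lemma agree_adjoin {S : Set B} (φ φ' : B →ₐ[k] L) (h : ∀ s ∈ S, φ s = φ' s) {b : B}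
    (hb : b ∈ Algebra.adjoin k S) : φ b = φ' b := by
  induction hb using Algebra.adjoin_induction with
  | mem b hb => exact h b hb
  | algebraMap r => rw [AlgHom.commutes, AlgHom.commutes]
  | add b b' _ _ h h' => rw [map_add, map_add, h, h']
  | mul b b' _ _ h h' => rw [map_mul, map_mul, h, h']

lemma hom_ext_gen (hx : Algebra.adjoin k (Set.range x) = ⊤) (φ φ' : B →ₐ[k] L)
    (h : ∀ i, φ (x i) = φ' (x i)) : φ = φ' := by
  ext b
  exact agree_adjoin φ φ' (S := Set.range x) (by rintro _ ⟨i, rfl⟩; exact h i)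
    (by rw [hx]; trivial)

/-- the algebraic case -/
lemma ClN.of_alg [Fintype ι] (hx : Algebra.adjoin k (Set.range x) = ⊤) (P : ι → B[X])
    (hPc : ∀ i j, (P i).coeff j ∈ Algebra.adjoin k S) (hPx : ∀ i, (P i).eval (x i) ∈ J) (h : B)
    (hPh : ∀ i, ∃ j, (P i).coeff j ∣ h) (hε : 0 < ε) : ClN k L x S ε J h := by
  classical
  refine ⟨1 + ((∏ i, (P i).natDegree : ℕ) : ℝ), ?_, ?_⟩
  · have : (0 : ℝ) ≤ ((∏ i, (P i).natDegree : ℕ) : ℝ) := Nat.cast_nonneg _
    linarith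
  intro V hV Ψ _ hJ hh hS
  have hVε : 1 ≤ V ^ ε := Real.one_le_rpow hV hε.le
  have h1 : Ψ.card ≤ 1 + ∏ i, (P i).natDegree := by
    rcases Ψ.eq_empty_or_nonempty with h0 | ⟨φ0, hφ0⟩
    · rw [h0, Finset.card_empty]
      exact Nat.zero_le _
    have hinj : Set.InjOn (fun (φ : B →ₐ[k] L) => fun i => φ (x i)) Ψ := fun φ _ φ' _ h =>
      hom_ext_gen hx φ φ' fun i => congrFun h i
    rw [← Finset.card_image_of_injOn hinj]
    have hsub : Ψ.image (fun (φ : B →ₐ[k] L) => fun i => φ (x i)) ⊆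
        Fintype.piFinset (fun i => ((P i).map (φ0 : B →+* L)).roots.toFinset) := by
      intro v hv
      obtain ⟨φ, hφ, rfl⟩ := Finset.mem_image.1 hv
      rw [Fintype.mem_piFinset]
      intro i
      have h2 : (P i).map (φ0 : B →+* L) = (P i).map (φ : B →+* L) := by
        ext j
        rw [coeff_map, coeff_map]
        exact agree_adjoin φ0 φ (hS φ0 hφ0 φ hφ) (hPc i j)
      rw [Multiset.mem_toFinset, mem_roots, IsRoot.def, h2]
      · have h3 : (φ : B →+* L) (eval (x i) (P i)) = 0 := hJ φ hφ _ (hPx i)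
        rw [← eval_map_apply] at h3
        exact h3
      · intro h0
        obtain ⟨j, c, hc⟩ := hPh i
        apply hh φ0 hφ0
        have h3 : φ0 ((P i).coeff j) = 0 := by
          have h4 := congrArg (fun p : L[X] => p.coeff j) h0
          simp only [coeff_zero, coeff_map] at h4
          exact h4
        rw [hc, map_mul, h3, zero_mul]
    refine (Finset.card_le_card hsub).trans ?_
    rw [Fintype.card_piFinset]
    refine le_trans (Finset.prod_le_prod' fun i _ => ?_) (Nat.le_add_left _ 1)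
    exact (Multiset.toFinset_card_le _).trans ((card_roots' _).trans natDegree_map_le)
  have h2 : (Ψ.card : ℝ) ≤ 1 + ((∏ i, (P i).natDegree : ℕ) : ℝ) := by exact_mod_cast h1
  have h3 : (0 : ℝ) ≤ ((∏ i, (P i).natDegree : ℕ) : ℝ) := Nat.cast_nonneg _
  nlinarith

end basic

/-- the fraction field of the quotient -/
lemma exists_frac (k B : Type) [Field k] [CommRing B] [Algebra k B] (J : Ideal B)
    (hJ : J.IsPrime) : ∃ (E : Type) (_ : Field E) (_ : Algebra k E) (f : B →ₐ[k] E),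
      (∀ b, f b = 0 ↔ b ∈ J) ∧ ∀ z, ∃ a b, f b ≠ 0 ∧ z * f b = f a := by
  refine ⟨FractionRing (B ⧸ J), inferInstance, inferInstance,
    (IsScalarTower.toAlgHom k (B ⧸ J) (FractionRing (B ⧸ J))).comp (Ideal.Quotient.mkₐ k J),
    ?_, ?_⟩
  · intro b
    change algebraMap (B ⧸ J) (FractionRing (B ⧸ J)) (Ideal.Quotient.mk J b) = 0 ↔ _
    rw [FaithfulSMul.algebraMap_eq_zero_iff, Ideal.Quotient.eq_zero_iff_mem]
  · intro z
    obtain ⟨⟨a, s⟩, has⟩ := IsLocalization.surj (nonZeroDivisors (B ⧸ J)) z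
    obtain ⟨a', rfl⟩ := Ideal.Quotient.mk_surjective a
    obtain ⟨b', hb'⟩ := Ideal.Quotient.mk_surjective (s : B ⧸ J)
    refine ⟨a', b', ?_, ?_⟩
    · change algebraMap (B ⧸ J) (FractionRing (B ⧸ J)) (Ideal.Quotient.mk J b') ≠ 0
      rw [hb']
      exact IsLocalization.to_map_ne_zero_of_mem_nonZeroDivisors _ le_rfl s.2
    · change z * algebraMap (B ⧸ J) (FractionRing (B ⧸ J)) (Ideal.Quotient.mk J b') = _
      rw [hb']
      exact has

end Pool.Agent.K9h15.Cv
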