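import Mathlib
import Pool.Agent.K9h15.Cv.NoeD

/-!
# Counting homomorphisms in the fibres of positive dimension
-/

set_option autoImplicit false

open Height Polynomial

namespace Pool.Agent.K9h15.Cv

open Pool.Agent.K9h15.Tow

section a

variable {k L B : Type} [Field k] [Field L] [NumberField L] [Algebra k L] [CommRing B]
  [Algebra k B]

/-- **The points on the subset defined by a relation.** -/
lemma rel_count {ι σ : Type} [Fintype ι] [Fintype σ] (x : ι → B)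
    (hx : Algebra.adjoin k (Set.range x) = ⊤) (S : Set B) (J : Ideal B) (h : B)
    (S0 : Finset (σ →₀ ℕ)) (u : σ → B) (hu : ∀ t, ∃ i, u t = x i) (ε : ℝ) (hε : 0 < ε)
    (IH : ∀ (i0 : S0) (ε' : ℝ), 0 < ε' → Cl k L (Sum.elim (fun i => (ob (x i) :
      nB J h S0 i0 u)) ov) (nS S J h S0 i0 u) ε' ⊥) :
    ∃ c : ℝ, 0 ≤ c ∧ ∀ V : ℝ, 1 ≤ V → ∀ Ψ : Finset (B →ₐ[k] L),
      (∀ φ ∈ Ψ, ∀ i, mulHeight₁ (φ (x i)) ≤ V) → (∀ φ ∈ Ψ, ∀ b ∈ J, φ b = 0) →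
      (∀ φ ∈ Ψ, φ h ≠ 0) → (∀ φ ∈ Ψ, ∀ φ' ∈ Ψ, ∀ s ∈ S, φ s = φ' s) →
      (∃ R : S0 → L, R ≠ 0 ∧ ∀ φ ∈ Ψ, ∑ n : S0, R n * ∏ t, φ (u t) ^ ((n : σ →₀ ℕ) t) = 0) →
      (Ψ.card : ℝ) ≤ c * V ^ ε := by
  classical
  obtain ⟨c2, N2, hc2, hsm⟩ := small_rel L S0
  obtain ⟨ch, Nh, hch, hhh⟩ := ht_bound x hx L h
  set d0 : ℕ := ∑ n ∈ S0, ∑ t, n t with hd0
  set N3 : ℕ := 1 + (d0 * N2 + Nh) with hN3
  set c3 : ℝ := c2 * ch with hc3
  have hc31 : 1 ≤ c3 := one_le_mul_of_one_le_of_one_le hc2 hch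
  have hN30 : (0 : ℝ) < N3 := by rw [hN3]; positivity
  have hε' : 0 < ε / N3 := by positivity
  choose c5 hc5 hIH using fun i0 : S0 => IH i0 (ε / N3) hε'
  refine ⟨(∑ i0 : S0, c5 i0) * c3 ^ (ε / N3), ?_, ?_⟩
  · have h1 : 0 ≤ ∑ i0 : S0, c5 i0 := Finset.sum_nonneg fun i _ => by linarith [hc5 i]
    have h2 : 0 ≤ c3 ^ (ε / N3) := Real.rpow_nonneg (by linarith) _
    positivity
  intro V hV Ψ hH hJ hh hS hR
  have hV0 : 0 < V := by linarith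
  obtain ⟨R, hR0, hR⟩ := hR
  -- the small relation
  have hrow : ∀ (φ : {φ // φ ∈ Ψ}) (n : S0),
      mulHeight₁ (∏ t, φ.1 (u t) ^ ((n : σ →₀ ℕ) t)) ≤ V ^ d0 := by
    intro φ n
    refine (mulHeight₁_prod_le _ _).trans ?_
    have h1 : ∀ t, mulHeight₁ (φ.1 (u t) ^ ((n : σ →₀ ℕ) t)) ≤ V ^ ((n : σ →₀ ℕ) t) := by
      intro t
      rw [mulHeight₁_pow]
      obtain ⟨i, hi⟩ := hu t
      rw [hi]
      exact pow_le_pow_left₀ (mulHeight₁_pos _).le (hH φ.1 φ.2 i) _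
    calc ∏ t, mulHeight₁ (φ.1 (u t) ^ ((n : σ →₀ ℕ) t)) ≤ ∏ t, V ^ ((n : σ →₀ ℕ) t) :=
          Finset.prod_le_prod (fun t _ => (mulHeight₁_pos _).le) fun t _ => h1 t
      _ = V ^ (∑ t, (n : σ →₀ ℕ) t) := Finset.prod_pow_eq_pow_sum _ _ _
      _ ≤ V ^ d0 := pow_le_pow_right₀ hV
          (Finset.single_le_sum (f := fun n : σ →₀ ℕ => ∑ t, n t) (fun _ _ => Nat.zero_le _) n.2)
  obtain ⟨q, hq0, hqr, hqh⟩ := hsm {φ // φ ∈ Ψ}
    (fun φ n => ∏ t, φ.1 (u t) ^ ((n : σ →₀ ℕ) t)) (V ^ d0) (one_le_pow₀ hV) hrow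
    ⟨R, hR0, fun φ => hR φ.1 φ.2⟩
  obtain ⟨i0, hi0⟩ := Function.ne_iff.1 hq0
  rw [Pi.zero_apply] at hi0
  -- the extensions
  have hext : ∀ φ : {φ // φ ∈ Ψ}, ∃ φ' : nB J h S0 i0 u →ₐ[k] L, (∀ b, φ' (ob b) = φ.1 b) ∧
      (∀ n, φ' (ov (Sum.inl n)) = q n) ∧ φ' (ov (Sum.inr true)) = (q i0)⁻¹ ∧
      φ' (ov (Sum.inr false)) = (φ.1 h)⁻¹ := fun φ =>
    nB_ext φ.1 (hJ φ.1 φ.2) (hh φ.1 φ.2) q hi0 (hqr φ)
  choose ex e1 e2 e3 e4 using hext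
  have hinj : Function.Injective ex := by
    intro φ φ' h1
    apply Subtype.ext
    ext b
    rw [← e1, ← e1, h1]
  set V' : ℝ := c3 * V ^ N3 with hV'
  have hV'1 : 1 ≤ V' := one_le_mul_of_one_le_of_one_le hc31 (one_le_pow₀ hV)
  have b1 : V ≤ V' := by
    have h1 : V ≤ V ^ N3 := le_self_pow₀ hV (by rw [hN3]; omega)
    calc V = 1 * V := (one_mul V).symm
      _ ≤ c3 * V ^ N3 := mul_le_mul hc31 h1 hV0.le (by linarith)
  have b2 : c2 * (V ^ d0) ^ N2 ≤ V' := by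
    rw [← pow_mul]
    refine mul_le_mul ?_ (pow_le_pow_right₀ hV (by rw [hN3]; omega)) (by positivity) (by linarith)
    calc c2 = c2 * 1 := (mul_one _).symm
      _ ≤ c2 * ch := mul_le_mul_of_nonneg_left hch (by linarith)
  have b3 : ch * V ^ Nh ≤ V' := by
    refine mul_le_mul ?_ (pow_le_pow_right₀ hV (by rw [hN3]; omega)) (by positivity) (by linarith)
    calc ch = 1 * ch := (one_mul _).symm
      _ ≤ c2 * ch := mul_le_mul_of_nonneg_right hc2 (by linarith)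
  have hfin := hIH i0 V' hV'1 (Finset.univ.image ex) (by
      intro φ' hφ' i
      obtain ⟨φ, -, rfl⟩ := Finset.mem_image.1 hφ'
      rcases i with i | n | b
      · rw [Sum.elim_inl, e1]
        exact (hH φ.1 φ.2 i).trans b1
      · rw [Sum.elim_inr, e2]
        exact (hqh n).trans b2
      · rcases b with _ | _
        · rw [Sum.elim_inr, e4, mulHeight₁_inv]
          exact (hhh V hV φ.1 (hH φ.1 φ.2)).trans b3
        · rw [Sum.elim_inr, e3, mulHeight₁_inv]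
          exact (hqh i0).trans b2) (by
      intro φ' _ b hb
      rw [Ideal.mem_bot] at hb
      rw [hb, map_zero]) (by
      intro φ1 hφ1 φ2 hφ2 s hs
      obtain ⟨φ1, -, rfl⟩ := Finset.mem_image.1 hφ1
      obtain ⟨φ2, -, rfl⟩ := Finset.mem_image.1 hφ2
      rcases hs with ⟨s, hs, rfl⟩ | ⟨n, rfl⟩ | hs
      · rw [e1, e1]
        exact hS φ1.1 φ1.2 φ2.1 φ2.2 s hs
      · rw [e2, e2]
      · rw [Set.mem_singleton_iff] at hs
        rw [hs, e3, e3])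
  rw [Finset.card_image_of_injective _ hinj, Finset.card_univ, Fintype.card_coe] at hfin
  have h1 : V' ^ (ε / N3) = c3 ^ (ε / N3) * V ^ ε := by
    rw [hV', Real.mul_rpow (by linarith) (by positivity), ← Real.rpow_natCast V N3,
      ← Real.rpow_mul hV0.le]
    congr 2
    field_simp
  rw [h1, ← mul_assoc] at hfin
  refine hfin.trans ?_
  have h2 : 0 ≤ V ^ ε := Real.rpow_nonneg hV0.le _
  have h3 : 0 ≤ c3 ^ (ε / N3) := Real.rpow_nonneg (by linarith) _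
  have h4 : c5 i0 ≤ ∑ i0 : S0, c5 i0 :=
    Finset.single_le_sum (f := c5) (fun i _ => by linarith [hc5 i]) (Finset.mem_univ _)
  gcongr

end a

end Pool.Agent.K9h15.Cv
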