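import Mathlib
import Pool.Agent.K9h15.Cv.NoeE

/-!
# Counting homomorphisms in the fibres of positive dimension: conclusion
-/

set_option autoImplicit false

open Height Polynomial

namespace Pool.Agent.K9h15.Cv

open Pool.Agent.K9h15.Tow

/-- **The case of positive dimension.** -/
theorem pos_case {k L B : Type} [Field k] [CharZero k] [Field L] [NumberField L] [Algebra k L]
    [CommRing B] [Algebra k B] {ι σ : Type} [Fintype ι] [Fintype σ] [DecidableEq σ] [Nonempty σ]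
    (x : ι → B) (hx : Algebra.adjoin k (Set.range x) = ⊤) (S : Set B) (J : Ideal B)
    {E : Type} [Field E] [Algebra k E] (f : B →ₐ[k] E) (hf : ∀ b, f b = 0 ↔ b ∈ J)
    (hfr : ∀ z, ∃ a b, f b ≠ 0 ∧ z * f b = f a) (u : σ → B) (hu : ∀ t, ∃ i, u t = x i)
    (hτ : IsTranscendenceBasis (IntermediateField.adjoin k (f '' S)) (fun t => f (u t)))
    (hnil : NilCovers (IntermediateField.adjoin k (f '' S)))
    (P : ι → B[X]) (hPf : ∀ i, (P i).map (f : B →+* E) ≠ 0) (ε : ℝ) (hε : 0 < ε)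
    (IH : ∀ (h : B) (S0 : Finset (σ →₀ ℕ)) (i0 : S0), (∀ i, ∃ j, (P i).coeff j ∣ h) →
      ∀ ε' : ℝ, 0 < ε' → Cl k L (Sum.elim (fun i => (ob (x i) :
        nB J h S0 i0 u)) ov) (nS S J h S0 i0 u) ε' ⊥) :
    ∃ h : B, h ∉ J ∧ ClN k L x S ε J h := by
  classical
  set F := IntermediateField.adjoin k (f '' S) with hF
  set e := Fintype.card σ with he
  set dL := Module.finrank ℚ L with hdL
  -- the covering
  obtain ⟨K, hK, hKε⟩ : ∃ K : ℕ, 1 ≤ K ∧ 8 * (e : ℝ) ^ 2 * dL ≤ ε / 2 * K := by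
    refine ⟨⌈8 * (e : ℝ) ^ 2 * dL / (ε / 2)⌉₊ + 1, by omega, ?_⟩
    have h1 : 8 * (e : ℝ) ^ 2 * dL / (ε / 2) ≤ ⌈8 * (e : ℝ) ^ 2 * dL / (ε / 2)⌉₊ := Nat.le_ceil _
    rw [div_le_iff₀ (by positivity)] at h1
    push_cast
    nlinarith
  obtain ⟨M, _, _, hfin, hgal, hnp, hin, hdeg⟩ := hnil (2 * K ^ e)
  let _ : Algebra k M := ((algebraMap E M).comp (algebraMap k E)).toAlgebra
  have : IsScalarTower k E M := IsScalarTower.of_algebraMap_eq fun _ => rfl
  obtain ⟨A1, hA1⟩ := rel_cover (M := M) F hin (fun t => f (u t)) hτ L (ε / 2) (by positivity) K hK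
    hdeg hKε
  -- fractions
  have hfrF : ∀ z : E, ∃ a b, f b ≠ 0 ∧ z * f b = f a ∧
      (z ∈ F → a ∈ Algebra.adjoin k S ∧ b ∈ Algebra.adjoin k S) := by
    intro z
    by_cases hz : z ∈ F
    · obtain ⟨a, ha, b, hb, h1, h2⟩ := frac_rep f S hz
      exact ⟨a, b, h1, h2, fun _ => ⟨ha, hb⟩⟩
    · obtain ⟨a, b, h1, h2⟩ := hfr z
      exact ⟨a, b, h1, h2, fun h => absurd h hz⟩
  choose na de hde hnd hndF using hfrF
  -- heights
  choose cB NB hcB hB using ht_bound x hx L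
  let κ : ℝ := 1 + ∑ z ∈ A1, (cB (na z) * cB (de z) + ((NB (na z) + NB (de z) : ℕ) : ℝ))
  have hterm : ∀ z, 0 ≤ cB (na z) * cB (de z) + ((NB (na z) + NB (de z) : ℕ) : ℝ) := by
    intro z
    have h1 := hcB (na z)
    have h2 := hcB (de z)
    positivity
  have hκ : 1 ≤ κ := by
    have : 0 ≤ ∑ z ∈ A1, (cB (na z) * cB (de z) + ((NB (na z) + NB (de z) : ℕ) : ℝ)) :=
      Finset.sum_nonneg fun z _ => hterm z
    simp only [κ]
    linarith
  have hκz : ∀ z ∈ A1, cB (na z) * cB (de z) ≤ κ ∧ ((NB (na z) + NB (de z) : ℕ) : ℝ) ≤ κ := by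
    intro z hz
    have h1 := Finset.single_le_sum (f := fun z => cB (na z) * cB (de z) +
      ((NB (na z) + NB (de z) : ℕ) : ℝ)) (fun z _ => hterm z) hz
    have h2 : 0 ≤ cB (na z) * cB (de z) := by
      have h3 := hcB (na z)
      have h4 := hcB (de z)
      positivity
    have h3 : (0 : ℝ) ≤ ((NB (na z) + NB (de z) : ℕ) : ℝ) := Nat.cast_nonneg _
    simp only [κ]
    constructor <;> linarith
  obtain ⟨A2, S0, c, hc, hcov⟩ := hA1 κ hκ
  -- the element h
  have hlead : ∀ i, ∃ j, f ((P i).coeff j) ≠ 0 := by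
    intro i
    by_contra hcon
    push Not at hcon
    apply hPf i
    ext j
    rw [coeff_map, coeff_zero]
    exact hcon j
  choose jl hjl using hlead
  let h : B := (∏ z ∈ A1 ∪ A2, de z) * ∏ i, (P i).coeff (jl i)
  have hh0 : f h ≠ 0 := by
    simp only [h]
    rw [map_mul, map_prod, map_prod]
    exact mul_ne_zero (Finset.prod_ne_zero_iff.2 fun z _ => hde z)
      (Finset.prod_ne_zero_iff.2 fun i _ => hjl i)
  have hhJ : h ∉ J := fun hmem => hh0 ((hf h).2 hmem)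
  have hPh : ∀ i, ∃ j, (P i).coeff j ∣ h := fun i =>
    ⟨jl i, dvd_mul_of_dvd_right (Finset.dvd_prod_of_mem _ (Finset.mem_univ i)) _⟩
  obtain ⟨c5, hc5, hcnt⟩ := rel_count (L := L) x hx S J h S0 u hu (ε / 2) (by positivity)
    (fun i0 ε' hε' => IH h S0 i0 hPh ε' hε')
  refine ⟨h, hhJ, max 1 (c * c5), le_max_left _ _, ?_⟩
  intro V hV Ψ hH hJ0 hh hS
  have hV0 : 0 < V := by linarith
  have hVε : 0 ≤ V ^ ε := Real.rpow_nonneg hV0.le _
  rcases Ψ.eq_empty_or_nonempty with h0 | ⟨φ0, hφ0⟩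
  · rw [h0, Finset.card_empty, Nat.cast_zero]
    have : 0 ≤ max 1 (c * c5) := le_trans zero_le_one (le_max_left _ _)
    positivity
  -- the specializations
  have hsz : ∀ φ : B →ₐ[k] L, ∃ s : Sz k E L, φ ∈ Ψ → ∀ z a b, z * f b = f a → φ b ≠ 0 →
      z ∈ s.T ∧ s.ev z = φ a / φ b := by
    intro φ
    by_cases hφ : φ ∈ Ψ
    · obtain ⟨s, hs⟩ := exists_sz f φ (fun b hb => hJ0 φ hφ b ((hf b).1 hb))
      exact ⟨s, fun _ => hs⟩
    · obtain ⟨s, hs⟩ := exists_sz f φ0 (fun b hb => hJ0 φ0 hφ0 b ((hf b).1 hb))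
      exact ⟨s, fun h => absurd h hφ⟩
  choose sz hsz using hsz
  have hev : ∀ φ ∈ Ψ, ∀ b, f b ∈ (sz φ).T ∧ (sz φ).ev (f b) = φ b := by
    intro φ hφ b
    have h1 := hsz φ hφ (f b) b 1 (by rw [map_one, mul_one]) (by rw [map_one]; exact one_ne_zero)
    rw [map_one, div_one] at h1
    exact h1
  have hdz : ∀ φ ∈ Ψ, ∀ z, (z ∈ A1 ∨ z ∈ A2) → φ (de z) ≠ 0 := by
    intro φ hφ z hz h0
    apply hh φ hφ
    have h1 : de z ∣ h := dvd_mul_of_dvd_left
      (Finset.dvd_prod_of_mem _ (Finset.mem_union.2 hz)) _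
    obtain ⟨w, hw⟩ := h1
    rw [hw, map_mul, h0, zero_mul]
  have hsA : ∀ φ ∈ Ψ, ∀ z, (z ∈ A1 ∨ z ∈ A2) →
      z ∈ (sz φ).T ∧ (sz φ).ev z = φ (na z) / φ (de z) := fun φ hφ z hz =>
    hsz φ hφ z _ _ (hnd z) (hdz φ hφ z hz)
  have hcovΨ := hcov V hV (Ψ.image sz) (by
      intro s hs z hz
      obtain ⟨φ, hφ, rfl⟩ := Finset.mem_image.1 hs
      exact (hsA φ hφ z hz).1) (by
      intro s hs t
      obtain ⟨φ, hφ, rfl⟩ := Finset.mem_image.1 hs
      rw [(hev φ hφ (u t)).2]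
      obtain ⟨i, hi⟩ := hu t
      rw [hi]
      exact hH φ hφ i) (by
      intro s hs z hz
      obtain ⟨φ, hφ, rfl⟩ := Finset.mem_image.1 hs
      rw [(hsA φ hφ z (Or.inl hz)).2, div_eq_mul_inv]
      refine (mulHeight₁_mul_le _ _).trans ?_
      rw [mulHeight₁_inv]
      have k1 := hB (na z) V hV φ (hH φ hφ)
      have k2 := hB (de z) V hV φ (hH φ hφ)
      obtain ⟨k3, k4⟩ := hκz z hz
      calc mulHeight₁ (φ (na z)) * mulHeight₁ (φ (de z))
          ≤ (cB (na z) * V ^ NB (na z)) * (cB (de z) * V ^ NB (de z)) :=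
            mul_le_mul k1 k2 (mulHeight₁_pos _).le (by
              have := hcB (na z)
              positivity)
        _ = (cB (na z) * cB (de z)) * V ^ (((NB (na z) + NB (de z) : ℕ) : ℝ)) := by
            rw [Real.rpow_natCast, pow_add]
            ring
        _ ≤ κ * V ^ κ := mul_le_mul k3 (Real.rpow_le_rpow_of_exponent_le hV k4)
            (Real.rpow_nonneg hV0.le _) (by linarith)) (by
      intro s hs s' hs' z hz hzF
      obtain ⟨φ, hφ, rfl⟩ := Finset.mem_image.1 hs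
      obtain ⟨φ', hφ', rfl⟩ := Finset.mem_image.1 hs'
      rw [(hsA φ hφ z hz).2, (hsA φ' hφ' z hz).2]
      obtain ⟨h1, h2⟩ := hndF z hzF
      rw [agree_adjoin φ φ' (hS φ hφ φ' hφ') h1, agree_adjoin φ φ' (hS φ hφ φ' hφ') h2])
  -- counting
  let β : Sz k E L → (ι → L) := fun s i => s.ev (f (x i))
  have hβ : ∀ φ ∈ Ψ, β (sz φ) = fun i => φ (x i) := by
    intro φ hφ
    funext i
    exact (hev φ hφ (x i)).2
  have h1 : Ψ.card = cnt (Ψ.image sz) β := by
    rw [cnt_eq, Finset.image_image, Finset.card_image_of_injOn]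
    intro φ hφ φ' hφ' h12
    simp only [Function.comp_apply] at h12
    rw [hβ φ hφ, hβ φ' hφ'] at h12
    exact hom_ext_gen hx φ φ' fun i => congrFun h12 i
  have h2 := hcovΨ.cnt_le β (c5 * V ^ (ε / 2)) (by
      have := Real.rpow_nonneg hV0.le (ε / 2)
      positivity) (by
      intro X hX hgood
      obtain ⟨R, hR0, hR⟩ := hgood
      have h3 := hcnt V hV (Ψ.filter (fun φ => sz φ ∈ X))
        (fun φ hφ => hH φ (Finset.mem_filter.1 hφ).1)
        (fun φ hφ => hJ0 φ (Finset.mem_filter.1 hφ).1)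
        (fun φ hφ => hh φ (Finset.mem_filter.1 hφ).1)
        (fun φ hφ φ' hφ' => hS φ (Finset.mem_filter.1 hφ).1 φ' (Finset.mem_filter.1 hφ').1)
        ⟨R, hR0, fun φ hφ => by
          obtain ⟨hφ1, hφ2⟩ := Finset.mem_filter.1 hφ
          have h4 := hR (sz φ) hφ2
          rw [← h4]
          refine Finset.sum_congr rfl fun n _ => ?_
          congr 1
          refine Finset.prod_congr rfl fun t _ => ?_
          rw [(hev φ hφ1 (u t)).2]⟩
      refine le_trans ?_ h3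
      rw [cnt_eq]
      have h5 : X.image β ⊆ (Ψ.filter (fun φ => sz φ ∈ X)).image (fun φ => β (sz φ)) := by
        intro v hv
        obtain ⟨s, hs, rfl⟩ := Finset.mem_image.1 hv
        obtain ⟨φ, hφ, rfl⟩ := Finset.mem_image.1 (hX hs)
        exact Finset.mem_image_of_mem (fun φ => β (sz φ)) (Finset.mem_filter.2 ⟨hφ, hs⟩)
      exact_mod_cast (Finset.card_le_card h5).trans Finset.card_image_le)
  rw [h1]
  refine h2.trans ?_
  have h3 : V ^ (ε / 2) * V ^ (ε / 2) = V ^ ε := by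
    rw [← Real.rpow_add hV0]
    congr 1
    ring
  calc c * V ^ (ε / 2) * (c5 * V ^ (ε / 2)) = (c * c5) * (V ^ (ε / 2) * V ^ (ε / 2)) := by ring
    _ = (c * c5) * V ^ ε := by rw [h3]
    _ ≤ max 1 (c * c5) * V ^ ε := mul_le_mul_of_nonneg_right (le_max_right _ _) hVε

end Pool.Agent.K9h15.Cv
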