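import Mathlib
import Pool.Agent.K9h15.Cv.NoeF

/-!
# Counting homomorphisms in the fibres: the induction
-/

set_option autoImplicit false

open Height Polynomial

namespace Pool.Agent.K9h15.Cv

open Pool.Agent.K9h15.Tow

lemma alg_transfer {k E : Type} [Field k] [Field E] [Algebra k E] {F : IntermediateField k E}
    (K1 : IntermediateField F E) (K2 : IntermediateField k E) (h : ∀ z ∈ K1, z ∈ K2) {z : E}
    (hz : IsAlgebraic K1 z) : IsAlgebraic K2 z := by
  obtain ⟨p, hp0, hp⟩ := hz
  have h1 : p.map (algebraMap K1 E) ∈ Polynomial.lifts (algebraMap K2 E) := by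
    rw [Polynomial.lifts_iff_coeff_lifts]
    intro n
    rw [coeff_map]
    exact ⟨⟨_, h _ (p.coeff n).2⟩, rfl⟩
  obtain ⟨q, hq⟩ := (Polynomial.mem_lifts _).1 h1
  refine ⟨q, ?_, ?_⟩
  · rintro rfl
    rw [Polynomial.map_zero] at hq
    exact hp0 ((Polynomial.map_eq_zero _).1 hq.symm)
  · rw [← eval_map_algebraMap, hq, eval_map_algebraMap]
    exact hp

/-- **Few homomorphisms in the fibres.** -/
theorem main_claim (k : Type) [Field k] [CharZero k] (L : Type) [Field L] [NumberField L]
    [Algebra k L] : ∀ (d : ℕ) (B : Type) [CommRing B] [Algebra k B] (ι : Type) [Fintype ι]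
      (x : ι → B), Algebra.adjoin k (Set.range x) = ⊤ → ∀ S : Set B, Hyp k B S → Dm k B S d →
      ∀ ε : ℝ, 0 < ε → ∀ J : Ideal B, Cl k L x S ε J := by
  classical
  intro d
  induction d using Nat.strong_induction_on with
  | _ d IH =>
  intro B _ _ ι _ x hx S hH hD ε hε J
  have hft : Algebra.FiniteType k B := by
    refine ⟨⟨Finset.univ.image x, ?_⟩⟩
    rw [Finset.coe_image, Finset.coe_univ, Set.image_univ]
    exact hx
  have hnoe : IsNoetherianRing B := Algebra.FiniteType.isNoetherianRing k B
  refine IsNoetherian.induction (R := B) (M := B) (P := fun J => Cl k L x S ε J) ?_ J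
  intro J hgt
  have hgt' : ∀ y, y ∉ J → Cl k L x S ε (J ⊔ Ideal.span {y}) := by
    intro y hy
    apply hgt
    refine lt_of_le_of_ne le_sup_left ?_
    intro h
    apply hy
    rw [h]
    exact Ideal.mem_sup_right (Ideal.mem_span_singleton_self y)
  by_cases hp : Ideal.IsPrime J
  swap
  · exact Cl.of_not_prime hp hgt hε
  obtain ⟨E, _, _, f, hf, hfr⟩ := exists_frac k B J hp
  set F := IntermediateField.adjoin k (f '' S) with hF
  have hSF : ∀ s ∈ S, f s ∈ F := fun s hs => IntermediateField.subset_adjoin _ _ ⟨s, hs, rfl⟩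
  have hFtop : IntermediateField.adjoin F (Set.range f) = ⊤ := by
    rw [eq_top_iff]
    intro z _
    obtain ⟨a, b, hb, hz⟩ := hfr z
    have h1 : z = f a / f b := by rw [← hz, mul_div_cancel_right₀ _ hb]
    rw [h1]
    exact div_mem (IntermediateField.subset_adjoin _ _ ⟨a, rfl⟩)
      (IntermediateField.subset_adjoin _ _ ⟨b, rfl⟩)
  have htr := hD E F f hSF hFtop
  -- the generators
  have hgen : ∀ b, f b ∈ Algebra.adjoin F (Set.range (fun i => f (x i))) := by
    intro b
    have hb : b ∈ Algebra.adjoin k (Set.range x) := by rw [hx]; trivial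
    induction hb using Algebra.adjoin_induction with
    | mem b hb =>
      obtain ⟨i, rfl⟩ := hb
      exact Algebra.subset_adjoin ⟨i, rfl⟩
    | algebraMap r =>
      rw [AlgHom.commutes]
      exact (Algebra.adjoin F _).algebraMap_mem ⟨_, F.algebraMap_mem r⟩
    | add b b' _ _ h h' => rw [map_add]; exact add_mem h h'
    | mul b b' _ _ h h' => rw [map_mul]; exact mul_mem h h'
  have halg : Algebra.IsAlgebraic (Algebra.adjoin F (Set.range (fun i => f (x i)))) E := by
    refine ⟨fun z => ?_⟩
    obtain ⟨a, b, hb, hz⟩ := hfr z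
    refine ⟨C ⟨f b, hgen b⟩ * X - C ⟨f a, hgen a⟩, ?_, ?_⟩
    · intro h0
      have h1 := congrArg (fun p => p.coeff 1) h0
      simp only [coeff_sub, coeff_C_mul, coeff_X_one, mul_one, coeff_C, one_ne_zero, if_false,
        sub_zero, coeff_zero] at h1
      exact hb (congrArg Subtype.val h1)
    · rw [map_sub, map_mul, aeval_C, aeval_C, aeval_X]
      change f b * z - f a = 0
      rw [← hz]
      ring
  obtain ⟨t, ht, hbt⟩ := exists_isTranscendenceBasis_subset (R := F) (A := E)
    (Set.range (fun i => f (x i)))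
  have htf : t.Finite := (Set.finite_range _).subset ht
  have hft' : Fintype t := htf.fintype
  have hti : ∀ y : t, ∃ i, f (x i) = (y : E) := fun y => ht y.2
  choose i hi using hti
  let u : t → B := fun y => x (i y)
  have hu : ∀ y, ∃ i, u y = x i := fun y => ⟨i y, rfl⟩
  have hfu : (fun y => f (u y)) = (Subtype.val : t → E) := funext fun y => hi y
  have hτ : IsTranscendenceBasis F (fun y => f (u y)) := by rw [hfu]; exact hbt
  have hcard : Fintype.card t ≤ d := by
    have h1 := hbt.cardinalMk_eq_trdeg
    rw [Cardinal.mk_fintype] at h1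
    rw [← h1] at htr
    exact_mod_cast htr
  -- the polynomials
  have hPex : ∀ j : ι, ∃ P : B[X], (∀ n, P.coeff n ∈ Algebra.adjoin k (S ∪ Set.range u)) ∧
      P.map (f : B →+* E) ≠ 0 ∧ (P.map (f : B →+* E)).eval (f (x j)) = 0 := by
    intro j
    apply alg_cert
    have h1 := hτ.isAlgebraic_field
    refine alg_transfer _ _ ?_ (h1.isAlgebraic (f (x j)))
    have hle : F ≤ IntermediateField.adjoin k (f '' (S ∪ Set.range u)) := by
      rw [hF]
      exact IntermediateField.adjoin.mono _ _ _ (Set.image_mono Set.subset_union_left)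
    have h2 : IntermediateField.adjoin F (Set.range (fun y => f (u y))) ≤
        IntermediateField.extendScalars hle := by
      rw [IntermediateField.adjoin_le_iff]
      rintro _ ⟨y, rfl⟩
      rw [SetLike.mem_coe, IntermediateField.mem_extendScalars]
      exact IntermediateField.subset_adjoin _ _ ⟨u y, Or.inr ⟨y, rfl⟩, rfl⟩
    intro z hz
    exact (IntermediateField.mem_extendScalars hle).1 (h2 hz)
  choose P hPc hPf hPe using hPex
  have hPx : ∀ j, (P j).eval (x j) ∈ J := by
    intro j
    rw [← hf]
    have h1 := hPe j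
    have h2 : (P j).map (f : B →+* E) = (P j).map (f : B →+* E) := rfl
    have h3 : eval ((f : B →+* E) (x j)) ((P j).map (f : B →+* E)) = 0 := h1
    rw [eval_map_apply] at h3
    exact h3
  rcases isEmpty_or_nonempty t with hte | hte
  · -- the algebraic case
    have hru : Set.range u = ∅ := Set.range_eq_empty u
    have hPc' : ∀ j n, (P j).coeff n ∈ Algebra.adjoin k S := by
      intro j n
      have := hPc j n
      rwa [hru, Set.union_empty] at this
    have hlead : ∀ j, ∃ n, f ((P j).coeff n) ≠ 0 := by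
      intro j
      by_contra hcon
      push Not at hcon
      apply hPf j
      ext n
      rw [coeff_map, coeff_zero]
      exact hcon n
    choose jl hjl using hlead
    have hh : (∏ j, (P j).coeff (jl j)) ∉ J := by
      rw [← hf, map_prod]
      exact Finset.prod_ne_zero_iff.2 fun j _ => hjl j
    exact Cl.of_ClN (hgt' _ hh) (ClN.of_alg hx P hPc' hPx _
      (fun j => ⟨jl j, Finset.dvd_prod_of_mem _ (Finset.mem_univ j)⟩) hε)
  · -- the case of positive dimension
    have hna : ¬ Algebra.IsAlgebraic F E := by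
      intro h1
      have h2 := hbt.isEmpty_iff_isAlgebraic.2 h1
      exact (not_isEmpty_iff.2 hte) h2
    obtain ⟨d', hd'⟩ : ∃ d', Fintype.card t = d' + 1 :=
      ⟨Fintype.card t - 1, by have := Fintype.card_pos (α := t); omega⟩
    obtain ⟨h, hh, hcl⟩ := pos_case (L := L) x hx S J f hf hfr u hu hτ (hH E F f hSF hFtop hna) P
      hPf ε hε (by
        intro h S0 i0 hPh ε' hε'
        exact IH d' (by omega) (nB J h S0 i0 u) (ι ⊕ (S0 ⊕ Bool)) _ (nB_gen x hx) _
          (nB_hyp hH) (nB_dm x hx P hPc hPx hPh d' hd') ε' hε' ⊥)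
    exact Cl.of_ClN (hgt' _ hh) hcl

end Pool.Agent.K9h15.Cv
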