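import Mathlib
import Pool.Agent.K9h15.Cv.NoeG
import Pool.Agent.K9h15.Cst

/-!
# Towers of families
-/

set_option autoImplicit false

open Height Polynomial

namespace Pool.Agent.K9h15.Cv

open Pool.Agent.K9h15.Tow

open scoped IntermediateField.algebraAdjoinAdjoin in
lemma dm_card {k B : Type} [Field k] [CommRing B] [Algebra k B] {ι : Type} [Fintype ι]
    (x : ι → B) (hx : Algebra.adjoin k (Set.range x) = ⊤) (S : Set B) :
    Dm k B S (Fintype.card ι) := by
  intro E _ _ F f hS hf
  have h1 : ∀ b, f b ∈ IntermediateField.adjoin F (Set.range (fun i => f (x i))) := by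
    intro b
    have hb : b ∈ Algebra.adjoin k (Set.range x) := by rw [hx]; trivial
    induction hb using Algebra.adjoin_induction with
    | mem b hb =>
      obtain ⟨i, rfl⟩ := hb
      exact IntermediateField.subset_adjoin _ _ ⟨i, rfl⟩
    | algebraMap r =>
      rw [AlgHom.commutes]
      exact (IntermediateField.adjoin F _).algebraMap_mem ⟨_, F.algebraMap_mem r⟩
    | add b b' _ _ h h' => rw [map_add]; exact add_mem h h'
    | mul b b' _ _ h h' => rw [map_mul]; exact mul_mem h h'
  have h2 : IntermediateField.adjoin F (Set.range (fun i => f (x i))) = ⊤ := by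
    rw [eq_top_iff, ← hf, IntermediateField.adjoin_le_iff]
    rintro _ ⟨b, rfl⟩
    exact h1 b
  have h3 : Algebra.IsAlgebraic (IntermediateField.adjoin F (Set.range (fun i => f (x i)))) E := by
    refine ⟨fun z => ?_⟩
    have hz : z ∈ IntermediateField.adjoin F (Set.range (fun i => f (x i))) := by
      rw [h2]; trivial
    exact isAlgebraic_algebraMap
      (⟨z, hz⟩ : IntermediateField.adjoin F (Set.range (fun i => f (x i))))
  have h4 : Algebra.IsAlgebraic (Algebra.adjoin F (Set.range (fun i => f (x i)))) E :=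
    (IsFractionRing.comap_isAlgebraic_iff (A := Algebra.adjoin F (Set.range (fun i => f (x i))))
      (K := IntermediateField.adjoin F (Set.range (fun i => f (x i)))) (C := E)).2 h3
  refine (Algebra.IsAlgebraic.trdeg_le_cardinalMk F (Set.range (fun i => f (x i)))).trans ?_
  refine Cardinal.mk_range_le.trans ?_
  rw [Cardinal.mk_fintype]

section step

variable {k E : Type} [Field k] [Field E] [Algebra k E]

lemma exists_finite_adjoin (G T : Set E) {z : E} (hz : z ∈ Algebra.adjoin k (G ∪ T)) :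
    ∃ G0 : Finset E, (G0 : Set E) ⊆ G ∧ z ∈ Algebra.adjoin k ((G0 : Set E) ∪ T) := by
  classical
  induction hz using Algebra.adjoin_induction with
  | mem b hb =>
    rcases hb with hb | hb
    · refine ⟨{b}, ?_, Algebra.subset_adjoin (Or.inl ?_)⟩
      · rw [Finset.coe_singleton, Set.singleton_subset_iff]
        exact hb
      · exact Finset.mem_coe.2 (Finset.mem_singleton_self b)
    · exact ⟨∅, by simp, Algebra.subset_adjoin (Or.inr hb)⟩
  | algebraMap r => exact ⟨∅, by simp, (Algebra.adjoin k _).algebraMap_mem r⟩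
  | add b b' _ _ h h' =>
    obtain ⟨G0, h1, h2⟩ := h
    obtain ⟨G1, h3, h4⟩ := h'
    refine ⟨G0 ∪ G1, by rw [Finset.coe_union]; exact Set.union_subset h1 h3, ?_⟩
    rw [Finset.coe_union]
    exact add_mem (Algebra.adjoin_mono (Set.union_subset_union_left _ Set.subset_union_left) h2)
      (Algebra.adjoin_mono (Set.union_subset_union_left _ Set.subset_union_right) h4)
  | mul b b' _ _ h h' =>
    obtain ⟨G0, h1, h2⟩ := h
    obtain ⟨G1, h3, h4⟩ := h'
    refine ⟨G0 ∪ G1, by rw [Finset.coe_union]; exact Set.union_subset h1 h3, ?_⟩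
    rw [Finset.coe_union]
    exact mul_mem (Algebra.adjoin_mono (Set.union_subset_union_left _ Set.subset_union_left) h2)
      (Algebra.adjoin_mono (Set.union_subset_union_left _ Set.subset_union_right) h4)

/-- values of the elements of the algebra generated by a set -/
lemma ev_agree {L : Type} [Field L] [Algebra k L] (s s' : Sz k E L) (A : Set E)
    (h : ∀ a ∈ A, a ∈ s.T ∧ a ∈ s'.T ∧ s.ev a = s'.ev a) {z : E} (hz : z ∈ Algebra.adjoin k A) :
    z ∈ s.T ∧ z ∈ s'.T ∧ s.ev z = s'.ev z := by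
  induction hz using Algebra.adjoin_induction with
  | mem b hb => exact h b hb
  | algebraMap r =>
    exact ⟨s.T.algebraMap_mem r, s'.T.algebraMap_mem r, by rw [ev_algebraMap, ev_algebraMap]⟩
  | add b b' _ _ h h' =>
    exact ⟨s.T.add_mem h.1 h'.1, s'.T.add_mem h.2.1 h'.2.1, by
      rw [ev_add s h.1 h'.1, ev_add s' h.2.1 h'.2.1, h.2.2, h'.2.2]⟩
  | mul b b' _ _ h h' =>
    exact ⟨s.T.mul_mem h.1 h'.1, s'.T.mul_mem h.2.1 h'.2.1, by
      rw [ev_mul s h.1 h'.1, ev_mul s' h.2.1 h'.2.1, h.2.2, h'.2.2]⟩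

/-- **One step of the tower.** -/
theorem good_step [CharZero k] (G : IntermediateField k E) (hG : Good k (G : Set E))
    (S T : Finset E) (hSG : ∀ s ∈ S, s ∈ G)
    (hH : Hyp k (Algebra.adjoin k (T : Set E)) {b | (b : E) ∈ S}) :
    Good k (IntermediateField.adjoin k ((G : Set E) ∪ T) : Set E) := by
  classical
  intro W hW
  have hfr : ∀ w : E, ∃ p q, w ∈ W → (p ∈ Algebra.adjoin k ((G : Set E) ∪ T) ∧
      q ∈ Algebra.adjoin k ((G : Set E) ∪ T) ∧ q ≠ 0 ∧ w * q = p) := by
    intro w
    by_cases hw : w ∈ W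
    · obtain ⟨p, hp, q, hq, hpq⟩ := IntermediateField.mem_adjoin_iff_div.1 (hW hw)
      by_cases h0 : q = 0
      · refine ⟨0, 1, fun _ => ⟨zero_mem _, one_mem _, one_ne_zero, ?_⟩⟩
        rw [hpq, h0, div_zero, zero_mul]
      · exact ⟨p, q, fun _ => ⟨hp, hq, h0, by rw [hpq, div_mul_cancel₀ _ h0]⟩⟩
    · exact ⟨0, 0, fun h => absurd h hw⟩
  choose p q hpq using hfr
  have hfin : ∀ w : E, ∃ G0 : Finset E, (G0 : Set E) ⊆ G ∧ (w ∈ W →
      p w ∈ Algebra.adjoin k ((G0 : Set E) ∪ T) ∧ q w ∈ Algebra.adjoin k ((G0 : Set E) ∪ T)) := by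
    intro w
    by_cases hw : w ∈ W
    · obtain ⟨h1, h2, -, -⟩ := hpq w hw
      obtain ⟨G0, h3, h4⟩ := exists_finite_adjoin _ _ h1
      obtain ⟨G1, h5, h6⟩ := exists_finite_adjoin _ _ h2
      refine ⟨G0 ∪ G1, by rw [Finset.coe_union]; exact Set.union_subset h3 h5, fun _ => ?_⟩
      rw [Finset.coe_union]
      exact ⟨Algebra.adjoin_mono (Set.union_subset_union_left _ Set.subset_union_left) h4,
        Algebra.adjoin_mono (Set.union_subset_union_left _ Set.subset_union_right) h6⟩
    · exact ⟨∅, by simp, fun h => absurd h hw⟩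
  choose G1 hG1 hpqG using hfin
  let G0 : Finset E := S ∪ W.biUnion G1
  have hG0 : (G0 : Set E) ⊆ G := by
    intro z hz
    rcases Finset.mem_union.1 (Finset.mem_coe.1 hz) with h | h
    · exact hSG z h
    · obtain ⟨w, _, h⟩ := Finset.mem_biUnion.1 h
      exact hG1 w h
  have hG1G : ∀ w ∈ W, (G1 w : Set E) ∪ T ⊆ (G0 : Set E) ∪ T := by
    intro w hw
    refine Set.union_subset_union_left _ fun z hz => ?_
    exact Finset.mem_coe.2 (Finset.mem_union_right _ (Finset.mem_biUnion.2 ⟨w, hw, hz⟩))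
  obtain ⟨C0, hGC, hfew⟩ := hG G0 hG0
  refine ⟨C0 ∪ (T ∪ (W ∪ W.image (fun w => (q w)⁻¹))), ?_, ?_⟩
  · intro w hw
    exact Finset.mem_union_right _ (Finset.mem_union_right _ (Finset.mem_union_left _ hw))
  intro L _ _ _ ε hε
  obtain ⟨c1, hc1, h1⟩ := hfew L (ε / 2) (by positivity)
  let x : T → Algebra.adjoin k (T : Set E) := fun t => ⟨t, Algebra.subset_adjoin t.2⟩
  have hx : Algebra.adjoin k (Set.range x) = ⊤ := by
    have h2 : Set.range x = ((↑) : Algebra.adjoin k (T : Set E) → E) ⁻¹' (T : Set E) := by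
      ext b
      constructor
      · rintro ⟨t, rfl⟩
        exact t.2
      · intro hb
        exact ⟨⟨b, hb⟩, rfl⟩
    rw [h2]
    exact Algebra.adjoin_adjoin_coe_preimage
  obtain ⟨c2, hc2, h2⟩ := main_claim k L (Fintype.card T) (Algebra.adjoin k (T : Set E)) T x hx
    {b | (b : E) ∈ S} hH (dm_card x hx _) (ε / 2) (by positivity) ⊥
  refine ⟨c1 * c2, one_le_mul_of_one_le_of_one_le hc1 hc2, ?_⟩
  intro V hV Ψ hΨ
  have hV0 : 0 < V := by linarith
  have hC0 : ∀ s ∈ Ψ, ∀ z ∈ C0, z ∈ s.T ∧ mulHeight₁ (s.ev z) ≤ V := fun s hs z hz =>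
    hΨ s hs z (Finset.mem_union_left _ hz)
  have hTT : ∀ s ∈ Ψ, ∀ z ∈ T, z ∈ s.T ∧ mulHeight₁ (s.ev z) ≤ V := fun s hs z hz =>
    hΨ s hs z (Finset.mem_union_right _ (Finset.mem_union_left _ hz))
  have hWT : ∀ s ∈ Ψ, ∀ w ∈ W, w ∈ s.T := fun s hs w hw =>
    (hΨ s hs w (Finset.mem_union_right _ (Finset.mem_union_right _
      (Finset.mem_union_left _ hw)))).1
  have hqT : ∀ s ∈ Ψ, ∀ w ∈ W, (q w)⁻¹ ∈ s.T := fun s hs w hw =>
    (hΨ s hs _ (Finset.mem_union_right _ (Finset.mem_union_right _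
      (Finset.mem_union_right _ (Finset.mem_image_of_mem _ hw))))).1
  have hk1 := h1 V hV Ψ hC0
  rcases Ψ.eq_empty_or_nonempty with h0 | ⟨s0, hs0⟩
  · rw [h0, cnt_eq, Finset.image_empty, Finset.card_empty, Nat.cast_zero]
    have := Real.rpow_nonneg hV0.le ε
    positivity
  -- the homomorphisms
  have hhom : ∀ s : Sz k E L, ∃ φ : Algebra.adjoin k (T : Set E) →ₐ[k] L, s ∈ Ψ →
      ∀ b, φ b = s.ev (b : E) := by
    have h3 : ∀ s ∈ Ψ, ∃ φ : Algebra.adjoin k (T : Set E) →ₐ[k] L, ∀ b, φ b = s.ev (b : E) := by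
      intro s hs
      have hle : Algebra.adjoin k (T : Set E) ≤ s.T :=
        Algebra.adjoin_le fun z hz => (hTT s hs z hz).1
      refine ⟨s.φ.comp (Subalgebra.inclusion hle), fun b => ?_⟩
      exact (ev_mk s (hle b.2)).symm
    intro s
    by_cases hs : s ∈ Ψ
    · obtain ⟨φ, hφ⟩ := h3 s hs
      exact ⟨φ, fun _ => hφ⟩
    · obtain ⟨φ, -⟩ := h3 s0 hs0
      exact ⟨φ, fun h => absurd h hs⟩
  choose φ hφ using hhom
  have h3 := cnt_le_of_fibre Ψ (fun s => fun g : G0 => s.ev (g : E))
    (fun s => fun w : W => s.ev (w : E)) (c2 * V ^ (ε / 2)) (by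
      intro s hs Ψ' hΨ'
      have hsub : ∀ s' ∈ Ψ', s' ∈ Ψ := fun s' hs' => (hΨ' s' hs').1
      have h4 := h2 V hV (Ψ'.image φ) (by
          intro φ' hφ' t
          obtain ⟨s', hs', rfl⟩ := Finset.mem_image.1 hφ'
          rw [hφ s' (hsub s' hs')]
          exact (hTT s' (hsub s' hs') t t.2).2) (by
          intro φ' _ b hb
          rw [Ideal.mem_bot] at hb
          rw [hb, map_zero]) (by
          intro φ1 hφ1 φ2 hφ2 b hb
          obtain ⟨s1, hs1, rfl⟩ := Finset.mem_image.1 hφ1
          obtain ⟨s2, hs2, rfl⟩ := Finset.mem_image.1 hφ2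
          rw [hφ s1 (hsub s1 hs1), hφ s2 (hsub s2 hs2)]
          have h5 := (hΨ' s1 hs1).2.trans (hΨ' s2 hs2).2.symm
          exact congrFun h5 ⟨b, Finset.mem_union_left _ hb⟩)
      have h5 := cnt_le_of_fibre Ψ' φ (fun s => fun w : W => s.ev (w : E)) 1 (by
        intro s1 hs1 Ψ2 hΨ2
        have h6 : cnt Ψ2 (fun s => fun w : W => s.ev (w : E)) ≤ 1 := by
          rw [cnt_eq, Finset.card_le_one]
          intro v hv v' hv'
          obtain ⟨s2, hs2, rfl⟩ := Finset.mem_image.1 hv
          obtain ⟨s3, hs3, rfl⟩ := Finset.mem_image.1 hv'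
          obtain ⟨k2, k3⟩ := hΨ2 s2 hs2
          obtain ⟨k4, k5⟩ := hΨ2 s3 hs3
          have hagree : ∀ a ∈ (G0 : Set E) ∪ T, a ∈ s2.T ∧ a ∈ s3.T ∧ s2.ev a = s3.ev a := by
            intro a ha
            rcases ha with ha | ha
            · refine ⟨(hC0 s2 (hsub s2 k2) a (hGC ha)).1, (hC0 s3 (hsub s3 k4) a (hGC ha)).1, ?_⟩
              exact congrFun ((hΨ' s2 k2).2.trans (hΨ' s3 k4).2.symm) ⟨a, ha⟩
            · refine ⟨(hTT s2 (hsub s2 k2) a ha).1, (hTT s3 (hsub s3 k4) a ha).1, ?_⟩
              have k6 := hφ s2 (hsub s2 k2) ⟨a, Algebra.subset_adjoin ha⟩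
              have k7 := hφ s3 (hsub s3 k4) ⟨a, Algebra.subset_adjoin ha⟩
              rw [← k6, ← k7, k3, k5]
          funext w
          obtain ⟨-, -, hq0, hwq⟩ := hpq w w.2
          obtain ⟨hpG, hqG⟩ := hpqG w w.2
          obtain ⟨a1, a2, a3⟩ := ev_agree s2 s3 _ hagree (Algebra.adjoin_mono (hG1G w w.2) hpG)
          obtain ⟨b1, b2, b3⟩ := ev_agree s2 s3 _ hagree (Algebra.adjoin_mono (hG1G w w.2) hqG)
          have hw2 := hWT s2 (hsub s2 k2) w w.2
          have hw3 := hWT s3 (hsub s3 k4) w w.2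
          have e1 := ev_mul s2 hw2 b1
          have e2 := ev_mul s3 hw3 b2
          rw [hwq] at e1 e2
          have e3 := ev_ne_zero s2 hq0 b1 (hqT s2 (hsub s2 k2) w w.2)
          rw [a3, e2, ← b3] at e1
          exact (mul_right_cancel₀ e3 e1).symm
        exact_mod_cast h6)
      refine h5.trans ?_
      rw [mul_one, cnt_eq]
      exact h4)
  refine h3.trans ?_
  have h4 : V ^ (ε / 2) * V ^ (ε / 2) = V ^ ε := by
    rw [← Real.rpow_add hV0]
    congr 1
    ring
  have h5 := Real.rpow_nonneg hV0.le (ε / 2)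
  calc _ ≤ (c1 * V ^ (ε / 2)) * (c2 * V ^ (ε / 2)) := by
        apply mul_le_mul_of_nonneg_right hk1
        positivity
    _ = c1 * c2 * (V ^ (ε / 2) * V ^ (ε / 2)) := by ring
    _ = _ := by rw [h4]

end step

end Pool.Agent.K9h15.Cv

namespace Pool.Agent.K9h15.Cv

open Pool.Agent.K9h15.Tow

section tower

variable {k E : Type} [Field k] [Field E] [Algebra k E]

/-- The positive dimensional subvarieties of the fibres of `Spec k[T] → Spec k[S]` have nilpotent
covers of unbounded geometric degree: for all field-valued points `f : k[T] → E'` and all subfields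
`F` of `E'` containing `f(S)` such that `E'` is generated over `F` by `f(T)` and is not algebraic over
`F`. -/
def NilFibres (k : Type) {E : Type} [Field k] [Field E] [Algebra k E] (S T : Finset E) : Prop :=
  ∀ (E' : Type) [Field E'] [Algebra k E'] (F : IntermediateField k E')
    (f : Algebra.adjoin k (T : Set E) →ₐ[k] E'),
    (∀ s : Algebra.adjoin k (T : Set E), (s : E) ∈ S → f s ∈ F) →
    IntermediateField.adjoin F (Set.range f) = ⊤ → ¬ Algebra.IsAlgebraic F E' → NilCovers F

/-- **Towers.** -/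
theorem good_tower [CharZero k] {n : ℕ} (S T : Fin n → Finset E)
    (hS : ∀ i, ∀ s ∈ S i, Alg k (⋃ j ∈ {j | j < i}, (T j : Set E)) s)
    (hT : ∀ i, NilFibres k (S i) (T i)) :
    Good k {z : E | Alg k (⋃ i, (T i : Set E)) z} := by
  have key : ∀ m : ℕ, m ≤ n → Good k
      {z : E | Alg k (⋃ j ∈ {j : Fin n | (j : ℕ) < m}, (T j : Set E)) z} := by
    intro m
    induction m with
    | zero =>
      intro _
      have h1 : (⋃ j ∈ {j : Fin n | (j : ℕ) < 0}, (T j : Set E)) = ∅ := by simp
      rw [h1]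
      refine Good.algebraic (F := IntermediateField.adjoin k (∅ : Set E)) ?_
      refine good_bot.mono ?_
      intro z hz
      rw [IntermediateField.adjoin_empty] at hz
      exact IntermediateField.mem_bot.1 hz
    | succ m ih =>
      intro hm
      set A : Set E := ⋃ j ∈ {j : Fin n | (j : ℕ) < m}, (T j : Set E) with hA
      have ih' := ih (by omega)
      let i : Fin n := ⟨m, by omega⟩
      let G : IntermediateField k E :=
        (algebraicClosure (IntermediateField.adjoin k A) E).restrictScalars k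
      have hGm : ∀ z, z ∈ G ↔ Alg k A z := fun z => by
        change z ∈ algebraicClosure (IntermediateField.adjoin k A) E ↔ _
        rw [mem_algebraicClosure_iff]
        exact Iff.rfl
      have hG : Good k (G : Set E) := ih'.mono fun z hz => (hGm z).1 hz
      have hAi : (⋃ j ∈ {j | j < i}, (T j : Set E)) = A := by
        rw [hA]
        rfl
      have h1 := good_step G hG (S i) (T i) (fun s hs => (hGm s).2 (by
        have := hS i s hs
        rwa [hAi] at this)) (fun E' _ _ F f hF => hT i E' F f hF)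
      refine h1.algebraic.mono ?_
      intro z hz
      change IsAlgebraic (IntermediateField.adjoin k ((G : Set E) ∪ (T i : Set E))) z
      have hz' : IsAlgebraic (IntermediateField.adjoin k
        (⋃ j ∈ {j : Fin n | (j : ℕ) < m + 1}, (T j : Set E))) z := hz
      have hle : IntermediateField.adjoin k
          (⋃ j ∈ {j : Fin n | (j : ℕ) < m + 1}, (T j : Set E)) ≤
          IntermediateField.adjoin k ((G : Set E) ∪ (T i : Set E)) := by
        rw [IntermediateField.adjoin_le_iff]
        intro w hw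
        rw [Set.mem_iUnion₂] at hw
        obtain ⟨j, hj, hw⟩ := hw
        have hj' : (j : ℕ) < m + 1 := hj
        apply IntermediateField.subset_adjoin
        rcases Nat.lt_succ_iff_lt_or_eq.1 hj' with h | h
        · left
          rw [SetLike.mem_coe, hGm]
          have h2 : w ∈ A := Set.mem_iUnion₂.2 ⟨j, h, hw⟩
          exact isAlgebraic_algebraMap
            (⟨w, IntermediateField.subset_adjoin k A h2⟩ : IntermediateField.adjoin k A)
        · right
          have h2 : j = i := Fin.ext h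
          rw [← h2]
          exact hw
      obtain ⟨p, hp0, hp⟩ := hz'
      refine ⟨p.map (IntermediateField.inclusion hle).toRingHom, ?_, ?_⟩
      · intro h0
        exact hp0 ((Polynomial.map_eq_zero _).1 h0)
      · rw [aeval_def, eval₂_map]
        exact hp
  have h1 := key n le_rfl
  refine h1.mono ?_
  intro z hz
  have h2 : (⋃ j ∈ {j : Fin n | (j : ℕ) < n}, (T j : Set E)) = ⋃ i, (T i : Set E) := by
    ext w
    simp
  change Alg k _ z
  rw [h2]
  exact hz

end tower

end Pool.Agent.K9h15.Cv
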